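import Mathlib

/-!
# The two brick walls in a monoid with braid relations

If `σ 1, …, σ n` satisfy the braid relations, `a` is the product of the `σ i` with odd `i` and `b`
the product of those with even `i`, then `a b a ⋯ = b a b ⋯` (`n + 1` factors on both sides).
-/

set_option autoImplicit false

namespace Pool.Agent.L7h63.AP

section

variable {G : Type*} [Monoid G] (σ : ℕ → G)

/-- the product of the `σ i`, `a < i ≤ n`, `i ≡ k` modulo `2` -/
def seg (k a : ℕ) : ℕ → G
  | 0 => 1
  | (i + 1) => if a < i + 1 ∧ (i + 1 + k) % 2 = 0 then seg k a i * σ (i + 1) else seg k a i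

/-- the product of the `σ i`, `1 ≤ i ≤ n`, `i ≡ k` modulo `2` -/
def row (k : ℕ) (n : ℕ) : G := seg σ k 0 n

/-- `r` rows, the first one with the parity `k` -/
def wall (k : ℕ) : ℕ → ℕ → G
  | 0, _ => 1
  | (r + 1), n => wall k r n * row σ (k + r) n

/-- `σ n * σ (n - 1) * ⋯`, `k` factors -/
def desc (n : ℕ) : ℕ → G
  | 0 => 1
  | (k + 1) => desc n k * σ (n - k)

/-- the braid relations of `σ 1, …, σ n` -/
structure Br (n : ℕ) : Prop where
  comm : ∀ i j, 1 ≤ i → i + 2 ≤ j → j ≤ n → σ i * σ j = σ j * σ i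
  br : ∀ i, 1 ≤ i → i + 1 ≤ n → σ i * σ (i + 1) * σ i = σ (i + 1) * σ i * σ (i + 1)

variable {σ}

theorem seg_zero (k a : ℕ) : seg σ k a 0 = 1 := rfl

theorem seg_pos {k a i : ℕ} (h : a < i + 1) (h' : (i + 1 + k) % 2 = 0) :
    seg σ k a (i + 1) = seg σ k a i * σ (i + 1) := if_pos ⟨h, h'⟩

theorem seg_odd {k a i : ℕ} (h' : (i + 1 + k) % 2 ≠ 0) :
    seg σ k a (i + 1) = seg σ k a i := if_neg fun h => h' h.2

theorem seg_le {k a : ℕ} : ∀ {i : ℕ}, i ≤ a → seg σ k a i = 1 := by
  intro i
  induction i with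
  | zero => intro _; rfl
  | succ i ih =>
    intro h
    rw [seg, if_neg (by omega), ih (by omega)]

theorem seg_mod (k a : ℕ) : ∀ n : ℕ, seg σ (k + 2) a n = seg σ k a n := by
  intro n
  induction n with
  | zero => rfl
  | succ n ih =>
    rw [seg, seg, ih]
    have : (n + 1 + (k + 2)) % 2 = (n + 1 + k) % 2 := by omega
    rw [this]

theorem row_mod (k n : ℕ) : row σ (k + 2) n = row σ k n := seg_mod k 0 n

theorem seg_split (k a : ℕ) : ∀ n : ℕ, a ≤ n → seg σ k 0 n = seg σ k 0 a * seg σ k a n := by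
  intro n
  induction n with
  | zero =>
    intro h
    have : a = 0 := by omega
    subst this
    rw [seg_zero, mul_one]
  | succ n ih =>
    intro h
    by_cases h1 : a = n + 1
    · subst h1
      rw [seg_le (i := n + 1) (a := n + 1) le_rfl, mul_one]
    · have h2 : a ≤ n := by omega
      by_cases hp : (n + 1 + k) % 2 = 0
      · rw [seg_pos (by omega) hp, seg_pos (by omega) hp, ih h2, mul_assoc]
      · rw [seg_odd hp, seg_odd hp, ih h2]

theorem row_split {k a n : ℕ} (h : a ≤ n) : row σ k n = row σ k a * seg σ k a n :=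
  seg_split k a n h

theorem wall_mod (k r n : ℕ) : wall σ (k + 2) r n = wall σ k r n := by
  induction r with
  | zero => rfl
  | succ r ih =>
    rw [wall, wall, ih]
    have : k + 2 + r = k + r + 2 := by omega
    rw [this, row_mod]

theorem wall_front (k r n : ℕ) : wall σ k (r + 1) n = row σ k n * wall σ (k + 1) r n := by
  induction r with
  | zero => simp [wall]
  | succ r ih =>
    rw [wall, ih, wall, mul_assoc]
    have : k + (r + 1) = k + 1 + r := by omega
    rw [this]

/-- an element that commutes with the factors commutes with a segment -/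
theorem seg_comm {x : G} {k a : ℕ} : ∀ {n : ℕ}, (∀ i, a < i → i ≤ n → x * σ i = σ i * x) →
    x * seg σ k a n = seg σ k a n * x := by
  intro n
  induction n with
  | zero => intro _; rw [seg_zero, mul_one, one_mul]
  | succ n ih =>
    intro h
    rw [seg]
    split_ifs with h1
    · rw [← mul_assoc, ih (fun i h2 h3 => h i h2 (by omega)), mul_assoc,
        h (n + 1) h1.1 le_rfl, mul_assoc]
    · exact ih fun i h2 h3 => h i h2 (by omega)

/-- an element that shifts the factors shifts a segment -/
theorem seg_shift {x : G} {k a : ℕ} (ha : 1 ≤ a) : ∀ {n : ℕ}, a ≤ n →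
    (∀ i, a < i → i ≤ n → x * σ i = σ (i - 1) * x) →
    x * seg σ k a n = seg σ (k + 1) (a - 1) (n - 1) * x := by
  intro n
  induction n with
  | zero => intro h _; omega
  | succ n ih =>
    intro hn h
    by_cases h1 : a = n + 1
    · subst h1
      rw [seg_le (i := n + 1) le_rfl, seg_le (i := n + 1 - 1) (by omega), mul_one, one_mul]
    · have h2 : a ≤ n := by omega
      obtain ⟨m, rfl⟩ : ∃ m, n = m + 1 := ⟨n - 1, by omega⟩
      have ih' := ih h2 fun i h3 h4 => h i h3 (by omega)
      have e1 : m + 1 + 1 - 1 = m + 1 := rfl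
      have e2 : m + 1 - 1 = m := rfl
      rw [e1]
      rw [e2] at ih'
      by_cases hp : (m + 1 + 1 + k) % 2 = 0
      · rw [seg_pos (by omega) hp, ← mul_assoc, ih', mul_assoc, h (m + 1 + 1) (by omega) le_rfl,
          seg_pos (by omega) (by omega), mul_assoc]
        rfl
      · rw [seg_odd hp, ih', seg_odd (by omega)]

variable {n : ℕ} (hb : Br σ n)

include hb

theorem Br.comm' {i j : ℕ} (hi : 1 ≤ i) (hj : 1 ≤ j) (hi' : i ≤ n) (hj' : j ≤ n)
    (h : i + 2 ≤ j ∨ j + 2 ≤ i) : σ i * σ j = σ j * σ i := by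
  rcases h with h | h
  · exact hb.comm i j hi h hj'
  · exact (hb.comm j i hj h hi').symm

/-- `desc n r` commutes with the small factors -/
theorem desc_comm {r i : ℕ} (hi : 1 ≤ i) (h : i + 1 + r ≤ n) :
    desc σ n r * σ i = σ i * desc σ n r := by
  induction r with
  | zero => rw [desc, mul_one, one_mul]
  | succ r ih =>
    rw [desc, mul_assoc, hb.comm' (i := n - r) (j := i) (by omega) hi (by omega) (by omega)
      (Or.inr (by omega)), ← mul_assoc, ih (by omega), mul_assoc]

/-- `desc n r` shifts the large factors -/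
theorem desc_shift {r : ℕ} : ∀ {i : ℕ}, n + 2 ≤ i + r → 2 ≤ i → i ≤ n → r ≤ n →
    desc σ n r * σ i = σ (i - 1) * desc σ n r := by
  induction r with
  | zero => intro i h _ _ _; omega
  | succ r ih =>
    intro i h h1 h2 hr
    by_cases h3 : n + 2 ≤ i + r
    · rw [desc, mul_assoc, hb.comm' (i := n - r) (j := i) (by omega) (by omega) (by omega)
        (by omega) (Or.inl (by omega)), ← mul_assoc, ih h3 h1 h2 (by omega), mul_assoc]
    · -- `i = n - r + 1`
      have hi : i = n - r + 1 := by omega
      obtain ⟨r', rfl⟩ : ∃ r', r = r' + 1 := ⟨r - 1, by omega⟩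
      have e1 : n - r' = i := by omega
      have e2 : n - (r' + 1) = i - 1 := by omega
      rw [desc, desc, e1, e2]
      have hbr := hb.br (i - 1) (by omega) (by omega)
      have e3 : i - 1 + 1 = i := by omega
      rw [e3] at hbr
      have hc := desc_comm hb (r := r') (i := i - 1) (by omega) (by omega)
      rw [mul_assoc (desc σ n r' * σ i), mul_assoc (desc σ n r'), ← mul_assoc (σ i), ← hbr,
        mul_assoc (σ (i - 1)), ← mul_assoc (desc σ n r'), hc]
      simp only [mul_assoc]

theorem row_step (k : ℕ) (h : (n + k) % 2 = 0) (hn : 1 ≤ n) :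
    row σ k n = row σ k (n - 1) * σ n := by
  obtain ⟨m, rfl⟩ : ∃ m, n = m + 1 := ⟨n - 1, by omega⟩
  exact seg_pos (by omega) (by omega)

end

section

variable {G : Type*} [Monoid G] {σ : ℕ → G}

theorem row_pos {k m : ℕ} (h : (m + k) % 2 = 0) (hm : 1 ≤ m) :
    row σ k m = row σ k (m - 1) * σ m := by
  obtain ⟨m, rfl⟩ : ∃ m', m = m' + 1 := ⟨m - 1, by omega⟩
  exact seg_pos (by omega) h

theorem row_neg {k m : ℕ} (h : (m + k) % 2 ≠ 0) (hm : 1 ≤ m) :
    row σ k m = row σ k (m - 1) := by
  obtain ⟨m, rfl⟩ : ∃ m', m = m' + 1 := ⟨m - 1, by omega⟩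
  exact seg_odd h

theorem row_zero (k : ℕ) : row σ k 0 = 1 := rfl

theorem row_comm {x : G} {k n : ℕ} (h : ∀ i, 1 ≤ i → i ≤ n → x * σ i = σ i * x) :
    x * row σ k n = row σ k n * x := seg_comm fun i h1 h2 => h i (by omega) h2

theorem wall_desc {n : ℕ} (hb : Br σ n) {k : ℕ} (hk : (n + k) % 2 = 0) : ∀ r : ℕ, r + 1 ≤ n →
    wall σ k (r + 1) n = wall σ k r (n - 1) * row σ (k + r) (n - r - 1) * desc σ n (r + 1) := by
  intro r
  induction r with
  | zero =>
    intro h
    simp only [wall, desc, one_mul, Nat.add_zero, Nat.sub_zero]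
    exact row_pos hk (by omega)
  | succ r ih =>
    intro h
    have ih' := ih (by omega)
    rw [wall, ih']
    -- the new row
    have e1 : row σ (k + (r + 1)) n = row σ (k + (r + 1)) (n - r - 2) * σ (n - r - 1) *
        seg σ (k + (r + 1)) (n - r) n := by
      rw [row_split (a := n - r) (by omega), row_neg (m := n - r) (by omega) (by omega),
        row_pos (m := n - r - 1) (by omega) (by omega)]
      rfl
    have c1 : seg σ (k + (r + 1)) (n - r) n * (row σ (k + (r + 1)) (n - r - 2) * σ (n - r - 1)) =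
        (row σ (k + (r + 1)) (n - r - 2) * σ (n - r - 1)) * seg σ (k + (r + 1)) (n - r) n := by
      symm
      apply seg_comm
      intro i h1 h2
      have c2 : σ i * row σ (k + (r + 1)) (n - r - 2) = row σ (k + (r + 1)) (n - r - 2) * σ i :=
        row_comm fun j h3 h4 => (hb.comm' (i := i) (j := j) (by omega) (by omega) (by omega)
          (by omega) (Or.inr (by omega)))
      rw [mul_assoc, ← hb.comm' (i := i) (j := n - r - 1) (by omega) (by omega) (by omega)
        (by omega) (Or.inr (by omega)), ← mul_assoc, ← c2, mul_assoc]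
    have c3 : desc σ n (r + 1) * seg σ (k + (r + 1)) (n - r) n =
        seg σ (k + (r + 1) + 1) (n - r - 1) (n - 1) * desc σ n (r + 1) :=
      seg_shift (by omega) (by omega) fun i h1 h2 =>
        desc_shift hb (by omega) (by omega) (by omega) (by omega)
    have e2 : k + (r + 1) + 1 = k + r + 2 := by omega
    rw [e2, seg_mod] at c3
    have c4 : desc σ n (r + 1) * row σ (k + (r + 1)) (n - r - 2) =
        row σ (k + (r + 1)) (n - r - 2) * desc σ n (r + 1) :=
      row_comm fun i h1 h2 => desc_comm hb h1 (by omega)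
    have e3 : row σ (k + r) (n - r - 1) * seg σ (k + r) (n - r - 1) (n - 1) =
        row σ (k + r) (n - 1) := (row_split (by omega)).symm
    have e4 : desc σ n (r + 1 + 1) = desc σ n (r + 1) * σ (n - r - 1) := by
      rw [desc]
      congr 2
    have e5 : n - (r + 1) - 1 = n - r - 2 := by omega
    rw [e1, ← c1, e4, e5, wall]
    calc wall σ k r (n - 1) * row σ (k + r) (n - r - 1) * desc σ n (r + 1) *
          (seg σ (k + (r + 1)) (n - r) n * (row σ (k + (r + 1)) (n - r - 2) * σ (n - r - 1)))
        = wall σ k r (n - 1) * row σ (k + r) (n - r - 1) * (desc σ n (r + 1) *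
          seg σ (k + (r + 1)) (n - r) n) * row σ (k + (r + 1)) (n - r - 2) * σ (n - r - 1) := by
          simp only [mul_assoc]
      _ = wall σ k r (n - 1) * (row σ (k + r) (n - r - 1) * seg σ (k + r) (n - r - 1) (n - 1)) *
          (desc σ n (r + 1) * row σ (k + (r + 1)) (n - r - 2)) * σ (n - r - 1) := by
          rw [c3]
          simp only [mul_assoc]
      _ = _ := by
          rw [c4, e3]
          simp only [mul_assoc]

theorem wall_full {n : ℕ} (hn : 1 ≤ n) (hb : Br σ n) {k : ℕ} (hk : (n + k) % 2 = 0) :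
    wall σ k n n = wall σ k (n - 1) (n - 1) * desc σ n n := by
  obtain ⟨m, rfl⟩ : ∃ m, n = m + 1 := ⟨n - 1, by omega⟩
  rw [wall_desc hb hk m le_rfl]
  have : m + 1 - m - 1 = 0 := by omega
  rw [this, row_zero, mul_one]
  rfl

theorem wall_succ {n : ℕ} (hn : 1 ≤ n) (hb : Br σ n) (k : ℕ) :
    wall σ k (n + 1) n = wall σ k n (n - 1) * desc σ n n := by
  obtain ⟨m, rfl⟩ : ∃ m, n = m + 1 := ⟨n - 1, by omega⟩
  by_cases hk : (m + 1 + k) % 2 = 0
  · rw [wall, wall_full hn hb hk]
    have e1 : m + 1 - 1 = m := rfl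
    rw [e1, wall, mul_assoc, mul_assoc]
    congr 1
    have h1 : row σ (k + (m + 1)) (m + 1) = seg σ (k + (m + 1)) 1 (m + 1) := by
      rw [row_split (a := 1) (by omega), row_neg (m := 1) (by omega) (by omega), row_zero, one_mul]
    rw [h1, seg_shift (x := desc σ (m + 1) (m + 1)) le_rfl (by omega) fun i h1 h2 =>
      desc_shift hb (by omega) (by omega) (by omega) (by omega)]
    congr 1
    have e2 : k + (m + 1) + 1 = k + m + 2 := by omega
    rw [e2, seg_mod]
    rfl
  · rw [wall_front, wall_full hn hb (k := k + 1) (by omega)]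
    have e1 : m + 1 - 1 = m := rfl
    rw [e1, wall_front, row_neg (m := m + 1) hk (by omega)]
    simp only [e1, mul_assoc]

theorem Br.mono {n m : ℕ} (hb : Br σ n) (h : m ≤ n) : Br σ m :=
  ⟨fun i j h1 h2 h3 => hb.comm i j h1 h2 (by omega), fun i h1 h2 => hb.br i h1 (by omega)⟩

/-- the two brick walls are equal -/
theorem brick : ∀ {n : ℕ}, Br σ n → ∀ k : ℕ, wall σ k (n + 1) n = wall σ (k + 1) (n + 1) n := by
  intro n
  induction n with
  | zero =>
    intro _ k
    simp [wall, row_zero]
  | succ n ih =>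
    intro hb k
    rw [wall_succ (by omega) hb, wall_succ (by omega) hb]
    have := ih (hb.mono (by omega)) k
    have e : n + 1 - 1 = n := rfl
    rw [e, this]

end

end Pool.Agent.L7h63.AP
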