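import Pool.Agent.L7h63.AP.Lst

/-!
# Cyclic words
-/

set_option autoImplicit false
set_option linter.unusedSectionVars false

namespace Pool.Agent.L7h63.AP

section cw

variable {T : Type*} (L : List T) (d0 : T)

/-- the letters of the cyclic word `L` -/
def cf (j : ℕ) : T := L.getD (j % L.length) d0

/-- the part of length `len` of the periodic word, which begins at `i` -/
def cw (i len : ℕ) : List T := (List.range len).map fun j => cf L d0 (i + j)

variable {L d0}

theorem cw_length (i len : ℕ) : (cw L d0 i len).length = len := by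
  simp [cw]

theorem cw_zero (i : ℕ) : cw L d0 i 0 = [] := rfl

theorem cw_add (i a b : ℕ) : cw L d0 i (a + b) = cw L d0 i a ++ cw L d0 (i + a) b := by
  unfold cw
  rw [List.range_add, List.map_append, List.map_map]
  congr 1
  apply List.map_congr_left
  intro j _
  simp [Function.comp, Nat.add_assoc]

theorem cw_congr {i j : ℕ} (h : i % L.length = j % L.length) (a : ℕ) :
    cw L d0 i a = cw L d0 j a := by
  unfold cw
  apply List.map_congr_left
  intro t _
  unfold cf
  have : (i + t) % L.length = (j + t) % L.length := Nat.ModEq.add_right t h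
  rw [this]

theorem cw_mod (i a : ℕ) : cw L d0 (i + L.length) a = cw L d0 i a :=
  cw_congr (Nat.add_mod_right _ _) a

theorem cw_mod' (i k a : ℕ) : cw L d0 (i + k * L.length) a = cw L d0 i a :=
  cw_congr (by rw [Nat.add_mul_mod_self_right]) a

theorem cw_fac {i j a b : ℕ} (hL : L ≠ []) (h : a + L.length ≤ b + 1) :
    Fac (cw L d0 i a) (cw L d0 j b) := by
  have hn : 0 < L.length := List.length_pos_of_ne_nil hL
  set n := L.length with hndef
  obtain ⟨o, ho1, ho2⟩ : ∃ o, o < n ∧ (j + o) % n = i % n := by
    refine ⟨(i + (n - j % n)) % n, Nat.mod_lt _ hn, ?_⟩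
    have h1 : j % n < n := Nat.mod_lt _ hn
    rw [Nat.add_mod, Nat.mod_mod, ← Nat.add_mod]
    have h2 : j + (i + (n - j % n)) = i + n * (j / n + 1) := by
      have h3 := Nat.div_add_mod j n
      have h4 : n * (j / n + 1) = n * (j / n) + n := by ring
      omega
    rw [h2, Nat.add_mul_mod_self_left]
  refine ⟨cw L d0 j o, cw L d0 (j + o + a) (b - o - a), ?_⟩
  have e1 : b = o + a + (b - o - a) := by omega
  conv_lhs => rw [e1, cw_add, cw_add]
  rw [cw_congr (d0 := d0) (i := j + o) (j := i) ho2]
  have e2 : j + (o + a) = j + o + a := by omega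
  rw [e2]

theorem cw_pre {i a b : ℕ} (h : a ≤ b) : Fac (cw L d0 i a) (cw L d0 i b) := by
  refine ⟨[], cw L d0 (i + a) (b - a), ?_⟩
  have e1 : b = a + (b - a) := by omega
  conv_lhs => rw [e1, cw_add]
  simp

theorem cw_mid {A R B : List T} (h : L = A ++ R ++ B) : cw L d0 A.length R.length = R := by
  apply List.ext_getElem
  · rw [cw_length]
  · intro j h1 h2
    simp only [cw, List.getElem_map, List.getElem_range]
    unfold cf
    have h3 : A.length + j < L.length := by
      rw [h]
      simp only [List.length_append]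
      omega
    rw [Nat.mod_eq_of_lt h3, List.getD_eq_getElem _ _ h3]
    have : ∀ (h4 : A.length + j < (A ++ R ++ B).length), (A ++ R ++ B)[A.length + j] = R[j] := by
      intro h4
      rw [List.getElem_append_left (by simp; omega), List.getElem_append_right (by omega)]
      simp
    subst h
    exact this _

theorem rp_cw (N i : ℕ) : rp N (cw L d0 i L.length) = cw L d0 i (N * L.length) := by
  induction N with
  | zero =>
    rw [Nat.zero_mul]
    rfl
  | succ N ih =>
    have e : (N + 1) * L.length = L.length + N * L.length := by ring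
    rw [e, cw_add, cw_mod]
    rw [rp, List.replicate_succ, List.flatten_cons]
    rw [← ih]

variable [DecidableEq T]

theorem rest_cw {A B : List T} {t : T} (h : L = A ++ t :: B) (hL : L.Nodup) :
    rest L t = cw L d0 (A.length + 1) (L.length - 1) := by
  have hA : t ∉ A := by
    rw [h] at hL
    intro h'
    exact (List.nodup_append.1 hL).2.2 t h' t (by simp) rfl
  have h1 : rest L t = B ++ A := by rw [h, rest_eq hA]
  have e : L.length - 1 = B.length + A.length := by
    rw [h]
    simp only [List.length_append, List.length_cons]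
    omega
  rw [h1, e, cw_add]
  have h2 : cw L d0 (A.length + 1) B.length = B := by
    have := cw_mid (L := L) (d0 := d0) (A := A ++ [t]) (R := B) (B := []) (by rw [h]; simp)
    rwa [List.length_append, List.length_singleton] at this
  have h3 : cw L d0 (A.length + 1 + B.length) A.length = A := by
    have e2 : A.length + 1 + B.length = 0 + L.length := by
      rw [h]
      simp only [List.length_append, List.length_cons]
      omega
    rw [e2, cw_mod]
    exact cw_mid (L := L) (d0 := d0) (A := []) (R := A) (B := t :: B) (by rw [h]; simp)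
  rw [h2, h3]

theorem cw_one {A B : List T} {t : T} (h : L = A ++ t :: B) : cw L d0 A.length 1 = [t] :=
  cw_mid (L := L) (d0 := d0) (A := A) (R := [t]) (B := B) (by rw [h]; simp)

theorem cw_Wd {A B : List T} {t : T} (h : L = A ++ t :: B) (hL : L.Nodup) (δ : Bool) :
    Wd L δ t = cw L d0 (A.length + if δ = true then 0 else 1) L.length := by
  have hn : 1 ≤ L.length := by
    rw [h]
    simp only [List.length_append, List.length_cons]
    omega
  rw [Wd]
  rcases δ with _ | _
  · simp only [Bool.false_eq_true, if_false]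
    rw [rest_cw (d0 := d0) h hL]
    have e : L.length = (L.length - 1) + 1 := by omega
    conv_rhs => rw [e, cw_add]
    congr 1
    have e2 : A.length + 1 + (L.length - 1) = A.length + L.length := by omega
    rw [e2, cw_mod, cw_one h]
  · simp only [if_true, Nat.add_zero]
    rw [rest_cw (d0 := d0) h hL]
    have e : L.length = 1 + (L.length - 1) := by omega
    conv_rhs => rw [e, cw_add, cw_one h]
    rfl

theorem rp_Wd {t : T} (ht : t ∈ L) (hL : L.Nodup) (δ : Bool) (N : ℕ) :
    ∃ i, rp N (Wd L δ t) = cw L d0 i (N * L.length) := by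
  obtain ⟨A, B, h⟩ := List.append_of_mem ht
  exact ⟨_, by rw [cw_Wd (d0 := d0) h hL, rp_cw]⟩

end cw

section QF

variable {S : Type*} [DecidableEq S] [DecidableEq (Vx S × S)]

/-- the list of letters occurs in `g` or its inverse -/
def QF (g : FG S) (F : List ((Vx S × S) × Bool)) : Prop :=
  Fac F g.toWord ∨ Fac F (g⁻¹).toWord

theorem Q_iff {g : FG S} {v : Vx S} {R : List S} : Q g v R ↔ QF g (wd v R) := Iff.rfl

theorem QF.sub {g : FG S} {F F' : List ((Vx S × S) × Bool)} (h : QF g F) (h' : Fac F' F) :
    QF g F' := by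
  rcases h with h | h
  · exact Or.inl (h'.trans h)
  · exact Or.inr (h'.trans h)

variable {V : Set (Vx S × S)} {φ : FG S →* FG S} {u : (Vx S × S) × Bool → FG S}

theorem QF.img (h : Tw V φ u) [DecidablePred (· ∈ V)] {g : FG S} {x : (Vx S × S) × Bool}
    {F : List ((Vx S × S) × Bool)} (hF : ∀ l ∈ x :: F, l.1 ∈ V) (hg : QF g (x :: F)) :
    QF (φ g) (eL u (x :: F)) := by
  rcases hg with hg | hg
  · exact Or.inl (h.facL hF hg)
  · right
    rw [← map_inv]
    exact h.facL hF hg

theorem QF.block (h : Tw V φ u) [DecidablePred (· ∈ V)] {g : FG S} {x m : (Vx S × S) × Bool}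
    {K : List ((Vx S × S) × Bool)} (hK : ∀ l ∈ K, l.1 ∉ V)
    (hx : x.1 ∈ V) (hm : m.1 ∈ V) (hg : QF g ([x] ++ K ++ [m]))
    (hP : (u (iv x))⁻¹ * FreeGroup.mk K * u m ≠ 1) :
    QF (φ g) ((u (iv x))⁻¹ * FreeGroup.mk K * u m).toWord := by
  have key : ∀ g' : FG S, Fac ([x] ++ K ++ [m]) g'.toWord →
      Fac ((u (iv x))⁻¹ * FreeGroup.mk K * u m).toWord (φ g').toWord := by
    intro g' hg'
    exact Fac.trans ⟨[x], [m], rfl⟩ (h.segK hK hx hm hg' hP)
  rcases hg with hg | hg
  · exact Or.inl (key g hg)
  · right
    rw [← map_inv]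
    exact key _ hg

/-- letters that are not moved -/
theorem QF.keepF (h : Tw V φ u) [DecidablePred (· ∈ V)] {g : FG S}
    {F : List ((Vx S × S) × Bool)} (hF0 : F ≠ []) (hF : ∀ l ∈ F, l.1 ∈ V ∧ u l = 1 ∧ u (iv l) = 1)
    (hg : QF g F) : QF (φ g) F := by
  rcases hg with hg | hg
  · exact Or.inl (h.keep_fac hF0 hF hg)
  · right
    rw [← map_inv]
    exact h.keep_fac hF0 hF hg

theorem QF.elt {g P : FG S} {v : Vx S} {R : List S}
    (hP : P = FreeGroup.mk (wd v R) ∨ P = (FreeGroup.mk (wd v R))⁻¹) (h : QF g P.toWord) :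
    Q g v R := by
  rcases hP with rfl | rfl
  · rw [toWord_wd] at h
    exact h
  · rw [FreeGroup.toWord_inv, toWord_wd] at h
    rcases h with h | h
    · right
      rw [FreeGroup.toWord_inv]
      exact fac_invRev h
    · left
      have h1 := fac_invRev h
      rw [FreeGroup.toWord_inv, FreeGroup.invRev_invRev] at h1
      exact h1

theorem mk_wd_append (v : Vx S) (R R' : List S) :
    FreeGroup.mk (wd v (R ++ R')) = FreeGroup.mk (wd v R) * FreeGroup.mk (wd v R') := by
  rw [← mk_append]
  congr 1
  simp [wd]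

theorem mk_wd_ne {v : Vx S} {R : List S} (h : R ≠ []) : FreeGroup.mk (wd v R) ≠ 1 := by
  intro h1
  have h2 := toWord_wd v R
  rw [h1, FreeGroup.toWord_one] at h2
  apply h
  simpa [wd] using h2.symm

end QF

end Pool.Agent.L7h63.AP
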