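import Pool.Agent.L7h63.AP.Walk

/-!
# Cyclic orders with separating elements
-/

set_option autoImplicit false
set_option linter.unusedSectionVars false

namespace Pool.Agent.L7h63.AP

section cyc

variable {S : Type*} [DecidableEq S] {L : List S} {t : S}

theorem pre_of {R R' : List S} (hR : R.Nodup) {a r : S} (e : R = a :: R') (hr : r ∈ R)
    (hra : r ≠ a) : ∃ r', r' ≠ r ∧ Fac [r', r] R := by
  have hr' : r ∈ R' := by
    rw [e] at hr
    exact (List.mem_cons.1 hr).resolve_left hra
  obtain ⟨A, B, hAB⟩ := List.append_of_mem hr'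
  rcases List.eq_nil_or_concat (a :: A) with h | ⟨C, r', h⟩
  · simp at h
  · have e2 : R = C ++ [r'] ++ r :: B := by
      rw [e, hAB, ← List.cons_append, h, List.concat_eq_append]
    refine ⟨r', ?_, C, B, by rw [e2]; simp⟩
    rintro rfl
    rw [e2] at hR
    have := (List.nodup_append.1 hR).2.2 r' (by simp) r' (by simp)
    exact this rfl

theorem suc_of {R R' : List S} (hR : R.Nodup) {a r : S} (e : R = R' ++ [a]) (hr : r ∈ R)
    (hra : r ≠ a) : ∃ r', r' ≠ r ∧ Fac [r, r'] R := by
  obtain ⟨A, B, hAB⟩ := List.append_of_mem hr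
  rcases B with _ | ⟨r', B⟩
  · exfalso
    rw [hAB] at e
    have := List.append_inj' e rfl
    exact hra (by simpa using this.2)
  · refine ⟨r', ?_, A, B, by rw [hAB]; simp⟩
    rintro rfl
    rw [hAB] at hR
    have := (List.nodup_append.1 hR).2.1
    simp at this

theorem rest_perm (ht : t ∈ L) : (t :: rest L t).Perm L := by
  obtain ⟨P, Q, rfl, hP⟩ := List.eq_append_cons_of_mem ht
  rw [rest_eq hP]
  exact ((List.perm_append_comm (l₁ := Q) (l₂ := P)).cons t).trans List.perm_middle.symm

theorem rest_nodup (hL : L.Nodup) (ht : t ∈ L) : (t :: rest L t).Nodup :=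
  (rest_perm ht).nodup_iff.2 hL

theorem rest_nodup' (hL : L.Nodup) (ht : t ∈ L) : (rest L t ++ [t]).Nodup :=
  ((List.perm_append_singleton t (rest L t)).nodup_iff).2 (rest_nodup hL ht)

/-- a pair of consecutive elements -/
theorem fac_rest {A B : List S} {r d : S} (hL : (A ++ r :: d :: B).Nodup)
    (ht : t ∈ A ++ r :: d :: B) (htd : t ≠ d) : Fac [r, d] (t :: rest (A ++ r :: d :: B) t) := by
  by_cases h1 : t ∈ A
  · obtain ⟨P, Q, rfl, hP⟩ := List.eq_append_cons_of_mem h1
    have e : (P ++ t :: Q) ++ r :: d :: B = P ++ t :: (Q ++ r :: d :: B) := by simp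
    rw [e, rest_eq hP]
    exact ⟨t :: Q, B ++ P, by simp⟩
  · by_cases h2 : t = r
    · subst h2
      rw [rest_eq h1]
      exact ⟨[], B ++ A, by simp⟩
    · have h3 : t ∈ B := by
        rcases List.mem_append.1 ht with h | h
        · exact absurd h h1
        · rcases List.mem_cons.1 h with h | h
          · exact absurd h h2
          · rcases List.mem_cons.1 h with h | h
            · exact absurd h htd
            · exact h
      obtain ⟨P, Q, rfl, hP⟩ := List.eq_append_cons_of_mem h3
      have e : A ++ r :: d :: (P ++ t :: Q) = (A ++ r :: d :: P) ++ t :: Q := by simp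
      rw [e, rest_eq]
      · exact ⟨t :: Q ++ A, P, by simp⟩
      · simp only [List.mem_append, List.mem_cons, not_or]
        exact ⟨h1, h2, htd, hP⟩

variable (L) in
/-- the core, read from one of the two ends -/
def Wd (δ : Bool) (t : S) : List S := if δ = true then t :: rest L t else rest L t ++ [t]

theorem Wd_ne (δ : Bool) (t : S) : Wd L δ t ≠ [] := by
  rw [Wd]
  split_ifs <;> simp

theorem Wd_length (δ : Bool) (ht : t ∈ L) : (Wd L δ t).length = L.length := by
  have h := (rest_perm ht).length_eq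
  rw [Wd]
  split_ifs
  · exact h
  · rw [List.length_append, List.length_singleton, ← h, List.length_cons]

theorem rp_one {β : Type*} {n : ℕ} (hn : 1 ≤ n) (W : List β) : Fac W (rp n W) := by
  obtain ⟨m, rfl⟩ : ∃ m, n = m + 1 := ⟨n - 1, by omega⟩
  refine ⟨[], rp m W, ?_⟩
  rw [rp, List.replicate_succ, List.flatten_cons]
  rfl

theorem rp_two {β : Type*} {n : ℕ} (hn : 2 ≤ n) (W : List β) : Fac (W ++ W) (rp n W) := by
  obtain ⟨m, rfl⟩ : ∃ m, n = m + 2 := ⟨n - 2, by omega⟩
  refine ⟨[], rp m W, ?_⟩
  rw [rp, List.replicate_succ, List.flatten_cons, List.replicate_succ, List.flatten_cons]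
  simp

theorem rp_both {n : ℕ} (hn : 2 ≤ n) (δ ε : Bool) (t : S) : Fac (Wd L ε t) (rp n (Wd L δ t)) := by
  refine Fac.trans ?_ (rp_two hn _)
  cases δ <;> cases ε
  · exact ⟨[], Wd L false t, by simp⟩
  · refine ⟨rest L t, [t], ?_⟩
    simp [Wd]
  · refine ⟨[t], rest L t, ?_⟩
    simp [Wd]
  · exact ⟨[], Wd L true t, by simp⟩

/-- `r` is followed by `d` in the cyclic order -/
def Fol (L : List S) (r d : S) : Prop := ∃ A B, L = A ++ r :: d :: B

theorem avail_down (hL : L.Nodup) {r d : S} (hr : r ∈ L) (ht : t ∈ L) (hd : Fol L r d)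
    (htd : t ≠ d) {n : ℕ} (hn : 1 ≤ n) {δ : Bool} (h : δ = true ∨ r ≠ t ∨ 2 ≤ n) :
    ∃ r', r' ≠ r ∧ Fac [r, r'] (rp n (Wd L δ t)) := by
  have hrd : d ≠ r := by
    rintro rfl
    obtain ⟨A, B, rfl⟩ := hd
    have := (List.nodup_append.1 hL).2.1
    simp at this
  have h1 : Fac [r, d] (Wd L true t) := by
    obtain ⟨A, B, rfl⟩ := hd
    exact fac_rest hL ht htd
  by_cases h2 : 2 ≤ n
  · exact ⟨d, hrd, h1.trans (rp_both h2 δ true t)⟩
  · by_cases hδ : δ = true
    · subst hδ
      exact ⟨d, hrd, h1.trans (rp_one hn _)⟩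
    · have hrt : r ≠ t := by
        rcases h with h | h | h
        · exact absurd h hδ
        · exact h
        · exact absurd h h2
      have e : Wd L δ t = rest L t ++ [t] := by rw [Wd, if_neg hδ]
      have hm : r ∈ rest L t ++ [t] := by
        have : r ∈ t :: rest L t := (rest_perm ht).mem_iff.2 hr
        simp only [List.mem_cons, List.mem_append] at this ⊢
        tauto
      obtain ⟨r', h3, h4⟩ := suc_of (rest_nodup' hL ht) rfl hm hrt
      refine ⟨r', h3, Fac.trans ?_ (rp_one hn _)⟩
      rw [e]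
      exact h4

theorem avail_up (hL : L.Nodup) {r : S} (hr : r ∈ L) (ht : t ∈ L)
    {δ : Bool} (ht' : δ = false ∨ r = t → ∃ d, Fol L t d ∧ r ≠ d)
    {n : ℕ} (hn : 1 ≤ n) (h : δ = false ∨ r ≠ t ∨ 2 ≤ n) :
    ∃ r', r' ≠ r ∧ Fac [r', r] (rp n (Wd L δ t)) := by
  have h1 : (∃ d, Fol L t d ∧ r ≠ d) → ∃ r', r' ≠ r ∧ Fac [r', r] (Wd L false t) := by
    rintro ⟨d, ⟨A, B, hAB⟩, hrd⟩
    have h2 : rest L t = d :: (B ++ A) := by
      rw [hAB, rest_eq]
      · rfl
      · rw [hAB] at hL
        intro h'
        exact (List.nodup_append.1 hL).2.2 t h' t (by simp) rfl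
    have hm : r ∈ rest L t ++ [t] := by
      have : r ∈ t :: rest L t := (rest_perm ht).mem_iff.2 hr
      simp only [List.mem_cons, List.mem_append] at this ⊢
      tauto
    exact pre_of (rest_nodup' hL ht) (a := d) (R' := B ++ A ++ [t]) (by rw [h2]; simp) hm hrd
  by_cases hδ : δ = false
  · subst hδ
    obtain ⟨r', h3, h4⟩ := h1 (ht' (Or.inl rfl))
    exact ⟨r', h3, h4.trans (rp_one hn _)⟩
  · by_cases hrt : r = t
    · have h2 : 2 ≤ n := by
        rcases h with h | h | h
        · exact absurd h hδ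
        · exact absurd hrt h
        · exact h
      obtain ⟨r', h3, h4⟩ := h1 (ht' (Or.inr hrt))
      exact ⟨r', h3, h4.trans (rp_both h2 δ false t)⟩
    · have e : Wd L δ t = t :: rest L t := by rw [Wd, if_pos (by simpa using hδ)]
      obtain ⟨r', h3, h4⟩ := pre_of (rest_nodup hL ht) (a := t) (R' := rest L t) rfl
        ((rest_perm ht).mem_iff.2 hr) hrt
      refine ⟨r', h3, Fac.trans ?_ (rp_one hn _)⟩
      rw [e]
      exact h4

end cyc

section list

variable (S : Type*) [Fintype S]

/-- the cyclic order -/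
noncomputable def Lp : List (Option (S × Bool)) :=
  none :: ((Finset.univ : Finset S).toList.flatMap fun x => [some (x, true), some (x, false)])

variable {S}

theorem Lp_mem (a : Option (S × Bool)) : a ∈ Lp S := by
  rcases a with _ | ⟨x, i⟩
  · simp [Lp]
  · rw [Lp, List.mem_cons]
    right
    rw [List.mem_flatMap]
    exact ⟨x, by simp, by cases i <;> simp⟩

theorem Lp_nodup : (Lp S).Nodup := by
  rw [Lp, List.nodup_cons]
  refine ⟨?_, ?_⟩
  · rw [List.mem_flatMap]
    rintro ⟨x, _, h⟩
    simp at h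
  · rw [List.nodup_flatMap]
    refine ⟨fun x _ => by simp, ?_⟩
    have h : (Finset.univ : Finset S).toList.Pairwise (· ≠ ·) := Finset.nodup_toList _
    refine h.imp ?_
    intro x y hxy
    show List.Disjoint _ _
    intro a ha hb
    simp only [List.mem_cons, List.not_mem_nil, or_false] at ha hb
    rcases ha with rfl | rfl <;> rcases hb with h | h <;> simp_all

theorem Lp_fol (x : S) : Fol (Lp S) (some (x, true)) (some (x, false)) := by
  obtain ⟨A, B, hAB⟩ := List.append_of_mem (show x ∈ (Finset.univ : Finset S).toList by simp)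
  refine ⟨none :: (A.flatMap fun x => [some (x, true), some (x, false)]),
    B.flatMap fun x => [some (x, true), some (x, false)], ?_⟩
  rw [Lp, hAB]
  simp

theorem fol_unique {T : Type*} {L : List T} (hL : L.Nodup) {r d d' : T} (h : Fol L r d)
    (h' : Fol L r d') : d = d' := by
  obtain ⟨A, B, h1⟩ := h
  obtain ⟨A', B', h2⟩ := h'
  rw [h1] at h2 hL
  induction A generalizing A' L with
  | nil =>
    rcases A' with _ | ⟨a, A'⟩
    · simp only [List.nil_append, List.cons.injEq] at h2
      exact h2.2.1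
    · exfalso
      simp only [List.nil_append, List.cons_append, List.cons.injEq] at h2
      have : r ∈ d :: B := by rw [h2.2]; simp
      exact (List.nodup_cons.1 hL).1 this
  | cons a A ih =>
    rcases A' with _ | ⟨a', A'⟩
    · exfalso
      simp only [List.nil_append, List.cons_append, List.cons.injEq] at h2
      rw [h2.1] at hL
      exact (List.nodup_cons.1 hL).1 (by simp)
    · simp only [List.cons_append, List.cons.injEq] at h2
      exact ih (L := A ++ r :: d :: B) (List.nodup_cons.1 hL).2 rfl A' h2.2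

theorem Lp_fol_none (x : S) : ¬ Fol (Lp S) (some (x, true)) none := by
  intro h
  have := fol_unique Lp_nodup h (Lp_fol x)
  simp at this

theorem Lp_length (x : S) : 3 ≤ (Lp S).length := by
  obtain ⟨A, B, h⟩ := Lp_fol x
  rcases A with _ | ⟨a, A⟩
  · rw [Lp] at h
    simp at h
  · rw [h]
    simp only [List.cons_append, List.length_cons, List.length_append]
    omega

end list

end Pool.Agent.L7h63.AP
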