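import Pool.Agent.L7h63.AP.TB

/-!
# Words with long syllables
-/

set_option autoImplicit false
set_option linter.unusedSectionVars false

namespace Pool.Agent.L7h63.AP

open Pool.Agent.K7.H20.AW

section list

variable {S : Type*} [Fintype S]

theorem Lp_tri (x : S) : ∃ A d B, Lp S = A ++ d :: rl x :: some (x, false) :: B ∧
    ∀ y, d ≠ rl y := by
  obtain ⟨A, B, hAB⟩ := List.append_of_mem (show x ∈ (Finset.univ : Finset S).toList by simp)
  rcases List.eq_nil_or_concat A with rfl | ⟨A', y, rfl⟩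
  · refine ⟨[], none, B.flatMap fun x => [some (x, true), some (x, false)], ?_, by simp⟩
    rw [Lp, hAB]
    simp
  · refine ⟨none :: ((A'.flatMap fun x => [some (x, true), some (x, false)]) ++
      [some (y, true)]), some (y, false), B.flatMap fun x => [some (x, true), some (x, false)],
      ?_, by simp⟩
    rw [Lp, hAB]
    simp

end list

section gaps

variable {S : Type*} {M : CoxeterMatrix S}

variable (M) in
/-- it is possible to leave the generator `c` again -/
def ND (pre : List (S × ℤ)) (c : S) (k : ℤ) (a : S) : Prop :=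
  2 ≤ k.natAbs ∨ M a c = 0 ∨ ∀ A k0 B, pre = A ++ (c, k0) :: B → (∀ p ∈ B, p.1 ≠ c) →
    ∃ z ∈ B, z.1 ≠ a ∧ M z.1 c ≠ 2

/-- there is a short syllable -/
def Uc (W : List (S × ℤ)) (c : S) : Prop := ∃ l, (c, l) ∈ W ∧ l.natAbs = 1

/-- all syllables are long -/
def P4 (W : List (S × ℤ)) (c : S) : Prop := ∀ l, (c, l) ∈ W → 4 ≤ l.natAbs

theorem dead {W : List (S × ℤ)} (hR : Rd M W) {pre1 m1 z : List (S × ℤ)} {c y : S} {k l : ℤ}
    (hW : W = pre1 ++ (c, k) :: m1 ++ (y, l) :: z) (hm : ∀ p ∈ m1, p.1 ≠ c) (hyc : y ≠ c)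
    (h : ¬ ND M (pre1 ++ (c, k) :: m1) y l c) :
    l.natAbs = 1 ∧ M c y ≠ 0 ∧ ∀ p ∈ m1, p.1 ≠ y ∧ M p.1 y = 2 := by
  rw [ND] at h
  push Not at h
  obtain ⟨h1, h2, A, k0, B, h3, h4, h5⟩ := h
  have hl : l ≠ 0 := hR.1 (y, l) (by rw [hW]; simp)
  refine ⟨by omega, h2, ?_⟩
  obtain ⟨d, hd, hd1, hd2⟩ := hR.2 A B z y k0 l (by rw [hW, h3]; simp)
  have hdc : d.1 = c := by
    by_contra h6
    exact hd2 (h5 d hd h6)
  have hsub : ∀ p ∈ m1, p ∈ B := by
    rcases List.append_eq_append_iff.1 h3 with ⟨a, h6, h7⟩ | ⟨a, h6, h7⟩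
    · rcases a with _ | ⟨x, a⟩
      · exfalso
        simp only [List.nil_append, List.cons.injEq, Prod.mk.injEq] at h7
        exact hyc h7.1.1.symm
      · exfalso
        simp only [List.cons_append, List.cons.injEq] at h7
        exact hm d (by rw [h7.2]; simp [hd]) hdc
    · rcases a with _ | ⟨x, a⟩
      · exfalso
        simp only [List.nil_append, List.cons.injEq, Prod.mk.injEq] at h7
        exact hyc h7.1.1
      · simp only [List.cons_append, List.cons.injEq] at h7
        intro p hp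
        rw [h7.2]
        simp [hp]
  intro p hp
  refine ⟨h4 p (hsub p hp), ?_⟩
  by_contra h6
  exact hm p hp (by
    by_contra h7
    exact h6 (h5 p (hsub p hp) h7))

/-- two occurrences -/
theorem order {α : Type*} {m1 m2 n1 n2 : List α} {y z : α} (h : m1 ++ y :: m2 = n1 ++ z :: n2)
    (hyz : y ≠ z) : y ∈ n1 ∨ z ∈ m1 := by
  rcases List.append_eq_append_iff.1 h with ⟨a, h6, h7⟩ | ⟨a, h6, h7⟩
  · rcases a with _ | ⟨x, a⟩
    · simp only [List.nil_append, List.cons.injEq] at h7
      exact absurd h7.1 hyz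
    · simp only [List.cons_append, List.cons.injEq] at h7
      left
      rw [h6, h7.1]
      simp
  · rcases a with _ | ⟨x, a⟩
    · simp only [List.nil_append, List.cons.injEq] at h7
      exact absurd h7.1.symm hyz
    · simp only [List.cons_append, List.cons.injEq] at h7
      right
      rw [h6, h7.1]
      simp

end gaps

noncomputable section

open Classical

variable {S : Type*} [DecidableEq S] [Fintype S] {M : CoxeterMatrix S} {b : S} {κ : ℕ}

theorem uo_comm {T : Type*} [DecidableEq T] {N : CoxeterMatrix T} {κ : ℕ} {L : List T}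
    {l : (Vx T × T) × Bool} {r : T} (hr : l.1.1.1 ≠ r) (hG : Good N κ l.1.1.2)
    (h2 : N r l.1.1.1 = 2) : uo N κ L r l = 1 := by
  have hlen : len N κ r l.1.1.1 = 1 := by rw [len, h2]; rfl
  have hg := hG r l.1.1.1 hr.symm
  rw [uo]
  split_ifs with h3 h4
  · exact up_no (by omega)
  · rw [dn_no (by omega), inv_one]
  · rfl

/-- generators that are not involved -/
theorem skipF {G : ArtinGroup M →* (Monoid.End (FG (Option (S × Bool))))ˣ}
    (hG : ∀ x, G (PresentedGroup.of x) = ac M b κ x)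
    {F : List ((Vx (Option (S × Bool)) × Option (S × Bool)) × Bool)} (hF : F ≠ []) :
    ∀ (v : List (S × ℤ)) (_ : ∀ p ∈ v, ∀ l ∈ F, l.1.1.1 ≠ rl p.1 ∧ (l.1.2 ≠ rl p.1 ∨
      (Good (MM M b) κ l.1.1.2 ∧ ∃ c, l.1.1.1 = rl c ∧ M p.1 c = 2)))
      (g : FG (Option (S × Bool))) (_ : QF g F), QF (im2 G v g) F := by
  intro v
  induction v with
  | nil =>
    intro _ g hg
    rw [im2_nil]
    exact hg
  | cons p v ih =>
    intro hv g hg
    rw [im2_cons]
    obtain ⟨r, k⟩ := p
    rw [im2_single hG]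
    have h1 := hv (r, k) (by simp)
    refine QF.keepF (tw_un (M := MM M b) (κ := κ) Lp_nodup (rl r) k) hF ?_
      (ih (fun p hp => hv p (by simp [hp])) g hg)
    intro l hl
    obtain ⟨h2, h3⟩ := h1 l hl
    refine ⟨h2, ?_⟩
    rcases h3 with h3 | ⟨h3, c, h4, h5⟩
    · constructor
      · rw [uo_ne h3, one_zpow]
      · rw [uo_ne (l := iv l) h3, one_zpow]
    · have h6 : MM M b (rl r) l.1.1.1 = 2 := by
        rw [h4, MM_rl]
        exact h5
      constructor
      · rw [uo_comm h2 h3 h6, one_zpow]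
      · rw [uo_comm (l := iv l) h2 h3 h6, one_zpow]

/-- the cyclic word -/
abbrev cp (i a : ℕ) : List (Option (S × Bool)) := cw (Lp S) none i a

/-- the arc follows the annulus of type `c` for a long time -/
def SN (W : List (S × ℤ)) (g : FG (Option (S × Bool))) (c : S)
    (η : Sym2 (Option (S × Bool)) → ℕ) : Prop :=
  (∃ i, Q g (rl c, η) (cp i (2 * (Lp S).length - 1))) ∧
    (P4 W c → ∃ i, Q g (rl c, η) (cp i (3 * (Lp S).length)))

theorem Lp_ne : Lp S ≠ [] := by
  rw [Lp]
  simp

theorem Lp_pos : 1 ≤ (Lp S).length := List.length_pos_of_ne_nil Lp_ne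

theorem SN.of_Arr {W : List (S × ℤ)} {g : FG (Option (S × Bool))} {c : S}
    {η : Sym2 (Option (S × Bool)) → ℕ} {k : ℤ} {t : Option S} {δ : Bool}
    (h : Arr g c η k t δ) (hk : 2 ≤ k.natAbs) (h4 : P4 W c → 4 ≤ k.natAbs) : SN W g c η := by
  obtain ⟨i, hi⟩ := rp_Wd (L := Lp S) (d0 := none) (Lp_mem (t.map fun x => (x, true)))
    Lp_nodup δ k.natAbs
  rw [Arr, hi] at h
  refine ⟨⟨i, h.sub (cw_pre ?_)⟩, fun hP => ⟨i, h.sub (cw_pre ?_)⟩⟩
  · have := Nat.mul_le_mul_right (Lp S).length hk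
    omega
  · have := Nat.mul_le_mul_right (Lp S).length (h4 hP)
    omega

theorem SN.fac {W : List (S × ℤ)} {g : FG (Option (S × Bool))} {c : S}
    {η : Sym2 (Option (S × Bool)) → ℕ} (h : SN W g c η) {j a : ℕ} (ha : a ≤ (Lp S).length) :
    Q g (rl c, η) (cp j a) := by
  obtain ⟨⟨i, hi⟩, _⟩ := h
  refine hi.sub (cw_fac Lp_ne ?_)
  have := Lp_pos (S := S)
  omega

theorem SN.fac3 {W : List (S × ℤ)} {g : FG (Option (S × Bool))} {c : S}
    {η : Sym2 (Option (S × Bool)) → ℕ} (h : SN W g c η) (h4 : P4 W c) {j a : ℕ}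
    (ha : a ≤ 2 * (Lp S).length + 1) : Q g (rl c, η) (cp j a) := by
  obtain ⟨i, hi⟩ := h.2 h4
  exact hi.sub (cw_fac Lp_ne (by omega))

theorem SN.up {W : List (S × ℤ)} {g : FG (Option (S × Bool))} {c : S}
    {η : Sym2 (Option (S × Bool)) → ℕ} (h : SN W g c η) {r : S} {d : Option (S × Bool)}
    (hd : Fol (Lp S) d (rl r)) : Q g (rl c, η) [d, rl r] := by
  obtain ⟨A, B, hAB⟩ := hd
  have h1 := cw_mid (L := Lp S) (d0 := none) (A := A) (R := [d, rl r]) (B := B)
    (by rw [hAB]; simp)
  rw [← h1]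
  have := Lp_length r
  exact h.fac (by simp only [List.length_cons, List.length_nil]; omega)

theorem SN.dn {W : List (S × ℤ)} {g : FG (Option (S × Bool))} {c : S}
    {η : Sym2 (Option (S × Bool)) → ℕ} (h : SN W g c η) {r : S} :
    Q g (rl c, η) [rl r, some (r, false)] := by
  obtain ⟨A, B, hAB⟩ := Lp_fol r
  have h1 := cw_mid (L := Lp S) (d0 := none) (A := A) (R := [rl r, some (r, false)]) (B := B)
    (by rw [hAB]; simp)
  rw [← h1]
  have := Lp_length r
  exact h.fac (by simp only [List.length_cons, List.length_nil]; omega)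

variable (M) in
/-- there is room above the pairs without relation -/
def Bi (n : ℕ) (η : Sym2 (Option (S × Bool)) → ℕ) (m : ℕ) : Prop :=
  ∀ x y, M x y = 0 → η s(rl x, rl y) + m ≤ n

theorem Bi.mono {n m m' : ℕ} {η : Sym2 (Option (S × Bool)) → ℕ} (h : Bi M n η m) (hm : m' ≤ m) :
    Bi M n η m' := fun x y hxy => by
  have := h x y hxy
  omega

theorem Bi.upd {n m m' : ℕ} {η : Sym2 (Option (S × Bool)) → ℕ} (h : Bi M n η m) (hm : m' ≤ m)
    {r c : S} {i : ℕ} (hi : M r c = 0 → i + m' ≤ n) :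
    Bi M n (Function.update η s(rl r, rl c) i) m' := by
  intro x y hxy
  by_cases he : s(x, y) = s(r, c)
  · rw [rl_pair.2 he, Function.update_self]
    apply hi
    rcases Sym2.eq_iff.1 he with ⟨rfl, rfl⟩ | ⟨rfl, rfl⟩
    · exact hxy
    · rw [M.symmetric]
      exact hxy
  · rw [Function.update_of_ne fun h => he (rl_pair.1 h)]
    have := h x y hxy
    omega

/-- one move -/
theorem go {G : ArtinGroup M →* (Monoid.End (FG (Option (S × Bool))))ˣ}
    (hG : ∀ x, G (PresentedGroup.of x) = ac M b κ x) {c r : S} {m2 : List (S × ℤ)}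
    (hm : ∀ p ∈ m2, p.1 ≠ c ∧ p.1 ≠ r) (hrc : r ≠ c) (h2 : M r c ≠ 2) {n m m' : ℕ}
    (hκ : κ = n + 1) (hmm : m' < m) {g : FG (Option (S × Bool))}
    {η : Sym2 (Option (S × Bool)) → ℕ} (hη : Good (MM M b) κ η) (hB : Bi M n η m) (l : ℤ)
    (hup : ∀ d, Fol (Lp S) d (rl r) → (∀ y, d ≠ rl y) → Q g (rl c, η) [d, rl r])
    (hdn : M r c ≠ 0 → Q g (rl c, η) [rl r, some (r, false)]) :
    ∃ η' δ', Good (MM M b) κ η' ∧ Bi M n η' m' ∧ Arr (im2 G ((r, l) :: m2) g) r η' l (some c) δ' ∧
      (M r c = 0 → δ' = false) := by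
  have hlen := hη (rl r) (rl c) (by simpa [rl] using hrc)
  have hlr := len_rl M b r c κ
  rw [im2_cons, im2_single hG]
  by_cases hp : η s(rl r, rl c) + 1 ≤ len (MM M b) κ (rl r) (rl c)
  · -- up
    obtain ⟨d, hd, hd'⟩ := Lp_pre r
    have h5 := skip hG (c := c) (R := [d, rl r]) (by simp) m2 (fun p hp => ⟨(hm p hp).1, by
      have h6 := (hm p hp).2
      have h7 := hd' p.1
      simp only [List.mem_cons, List.not_mem_nil, or_false, not_or]
      exact ⟨fun h => h7 h.symm, by simpa [rl] using h6⟩⟩) g (hup d hd hd')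
    refine ⟨_, false, good_update hη (by omega) hp, hB.upd hmm.le ?_,
      q_u hrc hη hp hd' h5 l, fun _ => rfl⟩
    intro h0
    have := hB r c h0
    omega
  · have h0 : M r c ≠ 0 := by
      intro h0
      rw [if_pos h0] at hlr
      have := hB r c h0
      omega
    rw [if_neg h0] at hlr
    have h1 := M.off_diagonal r c hrc
    have hp2 : 2 ≤ η s(rl r, rl c) := by omega
    have h5 := skip hG (c := c) (R := [rl r, some (r, false)]) (by simp) m2 (fun p hp =>
      ⟨(hm p hp).1, by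
        have h6 := (hm p hp).2
        simp only [List.mem_cons, List.not_mem_nil, or_false, not_or]
        exact ⟨by simpa [rl] using h6, by simp [rl]⟩⟩) g (hdn h0)
    exact ⟨_, true, good_update hη (by omega) (by omega), hB.upd hmm.le (fun h => absurd h h0),
      q_dn hrc hη hp2 h5 l, fun h => absurd h h0⟩

theorem conj_pow' {H : Type*} [Group H] (Y R : H) (l : ℤ) :
    Y * ((R * Y)⁻¹) ^ l = (Y * R) ^ (-l) * Y := by
  have e : R * Y = Y⁻¹ * (Y * R) * (Y⁻¹)⁻¹ := by group
  rw [inv_zpow', e, conj_zpow]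
  group

/-- a turn in the middle -/
theorem mid_turn {G : ArtinGroup M →* (Monoid.End (FG (Option (S × Bool))))ˣ}
    (hG : ∀ x, G (PresentedGroup.of x) = ac M b κ x) {W : List (S × ℤ)} {c y : S}
    {g : FG (Option (S × Bool))} {η : Sym2 (Option (S × Bool)) → ℕ} (h : SN W g c η)
    (hη : Good (MM M b) κ η) (hyc : y ≠ c) (h1 : 2 ≤ η s(rl y, rl c))
    (h2 : η s(rl y, rl c) + 1 ≤ len (MM M b) κ (rl y) (rl c)) {m1 m2 : List (S × ℤ)}
    (hm1 : ∀ p ∈ m1, p.1 ≠ c ∧ p.1 ≠ y) (hm2 : ∀ p ∈ m2, p.1 ≠ c ∧ p.1 ≠ y) {ε : ℤ}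
    (hε : ε = 1 ∨ ε = -1) {k : ℤ} (hk : 2 ≤ k.natAbs) (hk4 : P4 W c → 4 ≤ k.natAbs) :
    SN W (im2 G ((c, k) :: (m1 ++ (y, ε) :: m2)) g) c η := by
  obtain ⟨A, d, B, hy, hd⟩ := Lp_tri y
  obtain ⟨A', d', B', hc, hd'⟩ := Lp_tri c
  have hyc' : rl y ≠ (((rl c, η) : Vx (Option (S × Bool)))).1 := by simpa [rl] using hyc
  have q1 : Q g (rl c, η) [d, rl y, some (y, false)] := by
    have h3 := cw_mid (L := Lp S) (d0 := none) (A := A) (R := [d, rl y, some (y, false)]) (B := B)
      (by rw [hy]; simp)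
    rw [← h3]
    exact h.fac (by simpa using Lp_length y)
  have q2 : Q (im2 G m2 g) (rl c, η) [d, rl y, some (y, false)] := by
    refine skip hG (by simp) m2 (fun p hp => ⟨(hm2 p hp).1, ?_⟩) g q1
    have h6 := (hm2 p hp).2
    have h7 := hd p.1
    simp only [List.mem_cons, List.not_mem_nil, or_false, not_or]
    exact ⟨fun h => h7 h.symm, by simpa [rl] using h6, by simp [rl]⟩
  obtain ⟨x, m, q3, hM⟩ := mid_one (N := MM M b) (κ := κ) (v := (rl c, η)) Lp_nodup hy hc hyc' hη
    h1 h2 q2 hε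
  have q4 : QF (im2 G (m1 ++ (y, ε) :: m2) g) ([x] ++ wd (rl c, η) [rl y] ++ [m]) := by
    rw [im2_append, im2_cons, im2_single hG]
    refine skipF hG (by simp) m1 ?_ _ q3
    intro p hp l hl
    obtain ⟨h6, h7⟩ := hm1 p hp
    have h8 := hd' p.1
    have hmark : ∀ l : (Vx (Option (S × Bool)) × Option (S × Bool)) × Bool, l.1.1.1 = rl y →
        (l.1.2 = rl c ∨ l.1.2 = d' ∨ l.1.2 = some (c, false)) →
        l.1.1.1 ≠ rl p.1 ∧ l.1.2 ≠ rl p.1 := by
      intro l h9 h10
      refine ⟨?_, ?_⟩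
      · rw [h9]
        simpa [rl] using h7.symm
      · rcases h10 with h10 | h10 | h10
        · rw [h10]
          simpa [rl] using h6.symm
        · rw [h10]
          exact h8
        · rw [h10]
          simp [rl]
    simp only [wd, List.map_cons, List.map_nil, List.cons_append, List.nil_append, List.mem_cons,
      List.not_mem_nil, or_false] at hl
    rcases hl with rfl | rfl | rfl
    · have := hmark l hM.x1 hM.x2
      exact ⟨this.1, Or.inl this.2⟩
    · refine ⟨?_, Or.inl ?_⟩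
      · simpa [rl] using h6.symm
      · simpa [rl] using h7.symm
    · have := hmark l hM.m1 hM.m2
      exact ⟨this.1, Or.inl this.2⟩
  have e1 : cw (Lp S) none (A.length + 1) 1 = [rl y] := by
    have := cw_one (L := Lp S) (d0 := none) (A := A ++ [d]) (t := rl y)
      (B := some (y, false) :: B) (by rw [hy]; simp)
    rwa [List.length_append, List.length_singleton] at this
  have e2 : cw (Lp S) none (A.length + 1 + 1) ((Lp S).length - 1) = rest (Lp S) (rl y) := by
    have := rest_cw (L := Lp S) (d0 := none) (A := A ++ [d]) (t := rl y)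
      (B := some (y, false) :: B) (by rw [hy]; simp) Lp_nodup
    rw [List.length_append, List.length_singleton] at this
    exact this.symm
  have hword := fun (l : ℤ) (hl : l ≠ 0) =>
    turn_word (v := (rl c, η)) e1 e2 (Lp_pos (S := S)) l hl
  have hk0 : k ≠ 0 := by omega
  have hL3 := Lp_length y
  have eA : FreeGroup.mk (wd (rl c, η) [rl y]) *
      (FreeGroup.mk (wd (rl c, η) (rest (Lp S) (rl y) ++ [rl y])))⁻¹ ^ k =
      FreeGroup.mk (wd (rl c, η) (rl y :: rest (Lp S) (rl y))) ^ (-k) *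
        FreeGroup.mk (wd (rl c, η) [rl y]) := by
    have e3 : FreeGroup.mk (wd (rl c, η) (rl y :: rest (Lp S) (rl y))) =
        FreeGroup.mk (wd (rl c, η) [rl y]) * FreeGroup.mk (wd (rl c, η) (rest (Lp S) (rl y))) :=
      mk_wd_append _ [rl y] _
    rw [mk_wd_append, e3, conj_pow']
  have key : ∀ l : ℤ, l.natAbs = k.natAbs →
      FreeGroup.mk (wd (rl c, η) (rl y :: rest (Lp S) (rl y))) ^ l *
        FreeGroup.mk (wd (rl c, η) [rl y]) ≠ 1 ∧
      (QF (im2 G ((c, k) :: (m1 ++ (y, ε) :: m2)) g)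
        (FreeGroup.mk (wd (rl c, η) (rl y :: rest (Lp S) (rl y))) ^ l *
        FreeGroup.mk (wd (rl c, η) [rl y])).toWord → SN W (im2 G ((c, k) :: (m1 ++ (y, ε) :: m2)) g)
          c η) := by
    intro l hl
    obtain ⟨j, a, ha, hP⟩ := hword l (by omega)
    have h2n := Nat.mul_le_mul_right (Lp S).length hk
    rw [hl] at ha
    refine ⟨?_, fun hQ => ?_⟩
    · have hne : FreeGroup.mk (wd (rl c, η) (cw (Lp S) none j a)) ≠ 1 := by
        apply mk_wd_ne
        intro h3
        have h4 := cw_length (L := Lp S) (d0 := none) j a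
        rw [h3, List.length_nil] at h4
        omega
      rcases hP with hP | hP
      · rw [hP]
        exact hne
      · rw [hP]
        intro h3
        exact hne (inv_eq_one.1 h3)
    · have h3 := turn_fin ha hP hQ
      refine ⟨⟨j, h3.sub (cw_pre (by omega))⟩, fun h4 => ⟨j, h3.sub (cw_pre ?_)⟩⟩
      have := Nat.mul_le_mul_right (Lp S).length (hk4 h4)
      omega
  have k1 := key (-k) (by simp)
  have k2 := key k rfl
  rw [← eA] at k1
  have q5 := turn_two (N := MM M b) (κ := κ) (v := (rl c, η)) Lp_nodup hyc' hM q4 k k1.1 k2.1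
  have e5 : im2 G ((c, k) :: (m1 ++ (y, ε) :: m2)) g =
      (((un (MM M b) κ Lp_nodup (rl c) ^ k : (Monoid.End (FG (Option (S × Bool))))ˣ) :
        Monoid.End (FG (Option (S × Bool)))) (im2 G (m1 ++ (y, ε) :: m2) g)) := by
    rw [im2_cons, im2_single hG]
    rfl
  rcases q5 with q5 | q5
  · apply k1.2
    rw [e5]
    exact q5
  · apply k2.2
    rw [e5]
    exact q5

/-- the second half of a turn at the end -/
theorem end_fin {G : ArtinGroup M →* (Monoid.End (FG (Option (S × Bool))))ˣ}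
    (hG : ∀ x, G (PresentedGroup.of x) = ac M b κ x) {W : List (S × ℤ)} {c y : S}
    {g : FG (Option (S × Bool))} {η : Sym2 (Option (S × Bool)) → ℕ}
    (hη : Good (MM M b) κ η) (hyc : y ≠ c) {m1 : List (S × ℤ)}
    (hm1 : ∀ p ∈ m1, p.1 ≠ c ∧ p.1 ≠ y ∧ M p.1 c = 2) {k : ℤ} (hk : 4 ≤ k.natAbs)
    {d' : Option (S × Bool)} (hd' : ∀ z, d' ≠ rl z)
    {x m : (Vx (Option (S × Bool)) × Option (S × Bool)) × Bool} {K : List (Option (S × Bool))}
    {j : ℕ} (hK : K = cw (Lp S) none j (Lp S).length)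
    (q3 : QF g ([x] ++ wd (rl c, η) K ++ [m]))
    (hM : Mks (MM M b) κ (Lp S) (rl c, η) (rl y) d' (some (c, false)) K K x m) :
    SN W (im2 G ((c, k) :: m1) g) c η := by
  have hyc' : rl y ≠ (((rl c, η) : Vx (Option (S × Bool)))).1 := by simpa [rl] using hyc
  have q4 : QF (im2 G m1 g) ([x] ++ wd (rl c, η) K ++ [m]) := by
    refine skipF hG (by simp) m1 ?_ _ q3
    intro p hp l hl
    obtain ⟨h6, h7, h7'⟩ := hm1 p hp
    have h8 := hd' p.1
    have hmark : ∀ l : (Vx (Option (S × Bool)) × Option (S × Bool)) × Bool, l.1.1.1 = rl y →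
        (l.1.2 = rl c ∨ l.1.2 = d' ∨ l.1.2 = some (c, false)) →
        l.1.1.1 ≠ rl p.1 ∧ l.1.2 ≠ rl p.1 := by
      intro l h9 h10
      refine ⟨?_, ?_⟩
      · rw [h9]
        simpa [rl] using h7.symm
      · rcases h10 with h10 | h10 | h10
        · rw [h10]
          simpa [rl] using h6.symm
        · rw [h10]
          exact h8
        · rw [h10]
          simp [rl]
    rcases List.mem_append.1 hl with hl | hl
    · rcases List.mem_append.1 hl with hl | hl
      · have hl' : l = x := by simpa using hl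
        subst hl'
        have := hmark l hM.x1 hM.x2
        exact ⟨this.1, Or.inl this.2⟩
      · simp only [wd, List.map_map, List.mem_map, Function.comp] at hl
        obtain ⟨a, _, rfl⟩ := hl
        exact ⟨by simpa [rl] using h6.symm, Or.inr ⟨hη, c, rfl, h7'⟩⟩
    · have hl' : l = m := by simpa using hl
      subst hl'
      have := hmark l hM.m1 hM.m2
      exact ⟨this.1, Or.inl this.2⟩
  have hL3 := Lp_length y
  have key : ∀ l : ℤ, 3 ≤ l.natAbs →
      FreeGroup.mk (wd (rl c, η) K) ^ l ≠ 1 ∧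
      (QF (im2 G ((c, k) :: m1) g) (FreeGroup.mk (wd (rl c, η) K) ^ l).toWord →
        SN W (im2 G ((c, k) :: m1) g) c η) := by
    intro l hl
    have h2n := Nat.mul_le_mul_right (Lp S).length hl
    have hP := mk_wd_zpow (rl c, η) K l
    rw [hK, rp_cw] at hP
    rw [← hK] at hP
    refine ⟨?_, fun hQ => ?_⟩
    · have hne : FreeGroup.mk (wd (rl c, η) (cw (Lp S) none j (l.natAbs * (Lp S).length))) ≠ 1 := by
        apply mk_wd_ne
        intro h3
        have h4 := cw_length (L := Lp S) (d0 := none) j (l.natAbs * (Lp S).length)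
        rw [h3, List.length_nil] at h4
        omega
      rcases hP with hP | hP
      · rw [hP]
        exact hne
      · rw [hP]
        intro h3
        exact hne (inv_eq_one.1 h3)
    · have h3 := QF.elt hP hQ
      exact ⟨⟨j, h3.sub (cw_pre (by omega))⟩, fun h4 => ⟨j, h3.sub (cw_pre h2n)⟩⟩
  have e1 : FreeGroup.mk (wd (rl c, η) K) * (FreeGroup.mk (wd (rl c, η) K))⁻¹ ^ k =
      FreeGroup.mk (wd (rl c, η) K) ^ (1 - k) := by
    generalize FreeGroup.mk (wd (rl c, η) K) = P
    group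
  have e2 : FreeGroup.mk (wd (rl c, η) K) ^ k * FreeGroup.mk (wd (rl c, η) K) =
      FreeGroup.mk (wd (rl c, η) K) ^ (k + 1) := by
    generalize FreeGroup.mk (wd (rl c, η) K) = P
    group
  have k1 := key (1 - k) (by omega)
  have k2 := key (k + 1) (by omega)
  rw [← e1] at k1
  rw [← e2] at k2
  have q5 := turn_two (N := MM M b) (κ := κ) (v := (rl c, η)) Lp_nodup hyc' hM q4 k k1.1 k2.1
  have e5 : im2 G ((c, k) :: m1) g =
      (((un (MM M b) κ Lp_nodup (rl c) ^ k : (Monoid.End (FG (Option (S × Bool))))ˣ) :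
        Monoid.End (FG (Option (S × Bool)))) (im2 G m1 g)) := by
    rw [im2_cons, im2_single hG]
    rfl
  rcases q5 with q5 | q5
  · apply k1.2
    rw [e5]
    exact q5
  · apply k2.2
    rw [e5]
    exact q5

/-- a turn at the end -/
theorem end_turn {G : ArtinGroup M →* (Monoid.End (FG (Option (S × Bool))))ˣ}
    (hG : ∀ x, G (PresentedGroup.of x) = ac M b κ x) {W : List (S × ℤ)} {c y : S}
    {g : FG (Option (S × Bool))} {η : Sym2 (Option (S × Bool)) → ℕ} (h : SN W g c η)
    (h4 : P4 W c) (hη : Good (MM M b) κ η) (hyc : y ≠ c)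
    (hlen : len (MM M b) κ (rl y) (rl c) = 2) {m1 m2 : List (S × ℤ)}
    (hm1 : ∀ p ∈ m1, p.1 ≠ c ∧ p.1 ≠ y ∧ M p.1 c = 2)
    (hm2 : ∀ p ∈ m2, p.1 ≠ c ∧ p.1 ≠ y ∧ M p.1 c = 2) {ε : ℤ}
    (hε : ε = 1 ∨ ε = -1) {k : ℤ} (hk : 4 ≤ k.natAbs) :
    SN W (im2 G ((c, k) :: (m1 ++ (y, ε) :: m2)) g) c η := by
  obtain ⟨A, d, B, hy, hd⟩ := Lp_tri y
  obtain ⟨A', d', B', hc, hd'⟩ := Lp_tri c
  have hyc' : rl y ≠ (((rl c, η) : Vx (Option (S × Bool)))).1 := by simpa [rl] using hyc
  have hgood := hη (rl y) (rl c) (by simpa [rl] using hyc)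
  have hL3 := Lp_length y
  have c0 : cw (Lp S) none A.length 1 = [d] := cw_one hy
  have c1 : cw (Lp S) none (A.length + 1) 1 = [rl y] := by
    have := cw_one (L := Lp S) (d0 := none) (A := A ++ [d]) (t := rl y)
      (B := some (y, false) :: B) (by rw [hy]; simp)
    rwa [List.length_append, List.length_singleton] at this
  have c2 : cw (Lp S) none (A.length + 1 + 1) 1 = [some (y, false)] := by
    have := cw_one (L := Lp S) (d0 := none) (A := A ++ [d] ++ [rl y]) (t := some (y, false))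
      (B := B) (by rw [hy]; simp)
    rwa [List.length_append, List.length_append, List.length_singleton, List.length_singleton] at this
  have cr : cw (Lp S) none (A.length + 1 + 1) ((Lp S).length - 1) = rest (Lp S) (rl y) := by
    have := rest_cw (L := Lp S) (d0 := none) (A := A ++ [d]) (t := rl y)
      (B := some (y, false) :: B) (by rw [hy]; simp) Lp_nodup
    rw [List.length_append, List.length_singleton] at this
    exact this.symm
  have skipQ : ∀ R : List (Option (S × Bool)), R ≠ [] → Q g (rl c, η) R →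
      Q (im2 G m2 g) (rl c, η) R := by
    intro R hR hQ
    refine skipF hG (by simpa [wd] using hR) m2 ?_ g hQ
    intro p hp l hl
    simp only [wd, List.map_map, List.mem_map, Function.comp] at hl
    obtain ⟨a, _, rfl⟩ := hl
    obtain ⟨h6, h7, h7'⟩ := hm2 p hp
    exact ⟨by simpa [rl] using h6.symm, Or.inr ⟨hη, c, rfl, h7'⟩⟩
  have e5 : im2 G ((c, k) :: (m1 ++ (y, ε) :: m2)) g = im2 G ((c, k) :: m1)
      (((un (MM M b) κ Lp_nodup (rl y) ^ ε : (Monoid.End (FG (Option (S × Bool))))ˣ) :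
        Monoid.End (FG (Option (S × Bool)))) (im2 G m2 g)) := by
    have : (c, k) :: (m1 ++ (y, ε) :: m2) = ((c, k) :: m1) ++ (y, ε) :: m2 := by simp
    rw [this, im2_append, im2_cons G (y, ε), im2_single hG]
    rfl
  rw [e5]
  by_cases h1 : 2 ≤ η s(rl y, rl c)
  · have q1 : Q g (rl c, η) ([rl y] ++ rest (Lp S) (rl y) ++ [rl y, some (y, false)]) := by
      have e : [rl y] ++ rest (Lp S) (rl y) ++ [rl y, some (y, false)] =
          cw (Lp S) none (A.length + 1) (1 + ((Lp S).length - 1) + (1 + 1)) := by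
        rw [cw_add, cw_add, c1, cr, cw_add]
        have e2 : A.length + 1 + (1 + ((Lp S).length - 1)) = A.length + 1 + (Lp S).length := by omega
        have e3 : A.length + 1 + (Lp S).length + 1 = A.length + 1 + 1 + (Lp S).length := by omega
        rw [e2, e3, cw_mod, cw_mod, c1, c2]
        rfl
      rw [e]
      exact h.fac3 h4 (by omega)
    obtain ⟨x, m, q3, hM⟩ := end_two (N := MM M b) (κ := κ) (v := (rl c, η)) Lp_nodup hy hc hyc' hη
      h1 (by
        show ¬ η s(rl y, rl c) + 1 ≤ len (MM M b) κ (rl y) (rl c)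
        omega) (skipQ _ (by simp) q1) hε
    refine end_fin hG hη hyc hm1 hk hd' (j := A.length + 1 + 1) ?_ q3 hM
    have e : (Lp S).length = ((Lp S).length - 1) + 1 := by omega
    conv_rhs => rw [e, cw_add, cr]
    have e2 : A.length + 1 + 1 + ((Lp S).length - 1) = A.length + 1 + (Lp S).length := by omega
    rw [e2, cw_mod, c1]
  · have q1 : Q g (rl c, η) ([d, rl y] ++ rest (Lp S) (rl y) ++ [rl y]) := by
      have e : [d, rl y] ++ rest (Lp S) (rl y) ++ [rl y] =
          cw (Lp S) none A.length (1 + 1 + ((Lp S).length - 1) + 1) := by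
        rw [cw_add, cw_add, cw_add, c0, c1]
        have e2 : A.length + (1 + 1 + ((Lp S).length - 1)) = A.length + 1 + (Lp S).length := by omega
        have e3 : A.length + (1 + 1) = A.length + 1 + 1 := by omega
        rw [e2, e3, cw_mod, cr, c1]
        rfl
      rw [e]
      exact h.fac3 h4 (by omega)
    obtain ⟨x, m, q3, hM⟩ := end_one (N := MM M b) (κ := κ) (v := (rl c, η)) Lp_nodup hy hc hyc' hη
      h1 (by
        show η s(rl y, rl c) + 1 ≤ len (MM M b) κ (rl y) (rl c)
        omega) (skipQ _ (by simp) q1) hε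
    refine end_fin hG hη hyc hm1 hk hd' (j := A.length + 1) ?_ q3 hM
    have e : (Lp S).length = 1 + ((Lp S).length - 1) := by omega
    conv_rhs => rw [e, cw_add, c1, cr]
    rfl

/-- through the end -/
theorem pass {G : ArtinGroup M →* (Monoid.End (FG (Option (S × Bool))))ˣ}
    (hG : ∀ x, G (PresentedGroup.of x) = ac M b κ x) {W : List (S × ℤ)} {c y : S}
    {g : FG (Option (S × Bool))} {η : Sym2 (Option (S × Bool)) → ℕ} (h : SN W g c η)
    (hη : Good (MM M b) κ η) (hyc : y ≠ c) (h0 : M y c ≠ 0)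
    (hlen : 3 ≤ len (MM M b) κ (rl y) (rl c))
    (hend : ¬ (2 ≤ η s(rl y, rl c) ∧ η s(rl y, rl c) + 1 ≤ len (MM M b) κ (rl y) (rl c)))
    {m1 m2 : List (S × ℤ)}
    (hm1 : ∀ p ∈ m1, p.1 ≠ c ∧ p.1 ≠ y) (hm2 : ∀ p ∈ m2, p.1 ≠ c ∧ p.1 ≠ y) {ε : ℤ}
    (hε : ε ≠ 0) {k : ℤ} {n m m' : ℕ} (hmm : m' ≤ m) (hB : Bi M n η m) :
    ∃ η' δ', Good (MM M b) κ η' ∧ Bi M n η' m' ∧
      Arr (im2 G ((c, k) :: (m1 ++ (y, ε) :: m2)) g) c η' k (some y) δ' := by
  have hgood := hη (rl y) (rl c) (by simpa [rl] using hyc)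
  have hcy0 : M c y ≠ 0 := by rw [M.symmetric]; exact h0
  have esw : s(rl c, rl y) = s(rl y, rl c) := Sym2.eq_swap
  have lsw : len (MM M b) κ (rl c) (rl y) = len (MM M b) κ (rl y) (rl c) := len_symm _ _
  have e5 : im2 G ((c, k) :: (m1 ++ (y, ε) :: m2)) g =
      ((ac M b κ c ^ k : (Monoid.End (FG (Option (S × Bool))))ˣ) :
        Monoid.End (FG (Option (S × Bool)))) (im2 G m1
      (((ac M b κ y ^ ε : (Monoid.End (FG (Option (S × Bool))))ˣ) :
        Monoid.End (FG (Option (S × Bool)))) (im2 G m2 g))) := by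
    rw [im2_cons, im2_single hG, im2_append, im2_cons, im2_single hG]
  rw [e5]
  by_cases h1 : 2 ≤ η s(rl y, rl c)
  · -- down, down
    have q1 : Q (im2 G m2 g) (rl c, η) [rl y, some (y, false)] := by
      refine skip hG (by simp) m2 (fun p hp => ⟨(hm2 p hp).1, ?_⟩) g h.dn
      have h6 := (hm2 p hp).2
      simp only [List.mem_cons, List.not_mem_nil, or_false, not_or]
      exact ⟨by simpa [rl] using h6, by simp [rl]⟩
    have q2 := q_dn hyc hη h1 q1 ε
    set η1 := Function.update η s(rl y, rl c) (η s(rl y, rl c) - 1) with hη1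
    have e1 : η1 s(rl c, rl y) = η s(rl y, rl c) - 1 := by
      rw [esw, hη1, Function.update_self]
    have g1 : Good (MM M b) κ η1 := good_update hη (by omega) (by omega)
    have q3 := skip hG (c := y) (R := [rl c, some (c, false)]) (by simp) m1 (fun p hp =>
      ⟨(hm1 p hp).2, by
        have h6 := (hm1 p hp).1
        simp only [List.mem_cons, List.not_mem_nil, or_false, not_or]
        exact ⟨by simpa [rl] using h6, by simp [rl]⟩⟩) _ (q2.dn hε (r := c) (Or.inl rfl))
    have q4 := q_dn hyc.symm g1 (by rw [e1]; omega) q3 k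
    have b1 : Bi M n η1 m := hB.upd le_rfl fun h => absurd h h0
    exact ⟨_, true, good_update g1 (by rw [e1]; omega) (by rw [e1, lsw]; omega),
      b1.upd hmm (fun h => absurd h hcy0), q4⟩
  · -- up, up
    obtain ⟨d, hd, hd'⟩ := Lp_pre y
    obtain ⟨e, he, he'⟩ := Lp_pre c
    have q1 : Q (im2 G m2 g) (rl c, η) [d, rl y] := by
      refine skip hG (by simp) m2 (fun p hp => ⟨(hm2 p hp).1, ?_⟩) g (h.up hd)
      have h6 := (hm2 p hp).2
      have h7 := hd' p.1
      simp only [List.mem_cons, List.not_mem_nil, or_false, not_or]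
      exact ⟨fun h => h7 h.symm, by simpa [rl] using h6⟩
    have q2 := q_u hyc hη (by omega) hd' q1 ε
    set η1 := Function.update η s(rl y, rl c) (η s(rl y, rl c) + 1) with hη1
    have e1 : η1 s(rl c, rl y) = η s(rl y, rl c) + 1 := by
      rw [esw, hη1, Function.update_self]
    have g1 : Good (MM M b) κ η1 := good_update hη (by omega) (by omega)
    have q3 := skip hG (c := y) (R := [e, rl c]) (by simp) m1 (fun p hp =>
      ⟨(hm1 p hp).2, by
        have h6 := (hm1 p hp).1
        have h7 := he' p.1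
        simp only [List.mem_cons, List.not_mem_nil, or_false, not_or]
        exact ⟨fun h => h7 h.symm, by simpa [rl] using h6⟩⟩) _
      (q2.up hε (by simp) (r := c) (Or.inl rfl) he he')
    have q4 := q_u hyc.symm g1 (by rw [e1, lsw]; omega) he' q3 k
    have b1 : Bi M n η1 m := hB.upd le_rfl fun h => absurd h h0
    exact ⟨_, false, good_update g1 (by rw [e1]; omega) (by rw [e1, lsw]; omega),
      b1.upd hmm (fun h => absurd h hcy0), q4⟩

/-- the walk -/
theorem exp_walk {W : List (S × ℤ)} (hR : Rd M W)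
    (H3 : ∀ x k y l, (x, k) ∈ W → (y, l) ∈ W → M x y = 3 → l.natAbs = 1 → 4 ≤ k.natAbs)
    (H4 : ∀ x k y l, (x, k) ∈ W → (y, l) ∈ W → 4 ≤ M x y → l.natAbs = 1 → 2 ≤ k.natAbs)
    (H5 : ∀ a k c l r l', (a, k) ∈ W → (c, l) ∈ W → (r, l') ∈ W → c ≠ r → M a c = 3 →
      M a r = 3 → M c r = 2 → ¬ (l.natAbs = 1 ∧ l'.natAbs = 1))
    {G : ArtinGroup M →* (Monoid.End (FG (Option (S × Bool))))ˣ}
    (hG : ∀ x, G (PresentedGroup.of x) = ac M b κ x) {n0 : ℕ} (hκ : κ = n0 + 1) : ∀ n : ℕ,
    (∀ (pre w : List (S × ℤ)) (c : S) (k : ℤ) (g : FG (Option (S × Bool)))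
      (η : Sym2 (Option (S × Bool)) → ℕ), pre.length = n → W = pre ++ (c, k) :: w → ¬ Uc W c →
      SN W g c η → Good (MM M b) κ η → Bi M n0 η n →
      ∃ c' η', Q (im2 G pre g) (rl c', η') [rl c', some (c', false)]) ∧
    (∀ (pre w : List (S × ℤ)) (c : S) (k : ℤ) (t : Option S) (δ : Bool)
      (g : FG (Option (S × Bool))) (η : Sym2 (Option (S × Bool)) → ℕ), pre.length = n →
      W = pre ++ (c, k) :: w → (t = none → δ = true) →
      (∀ a, t = some a → a ≠ c ∧ (M a c = 0 → δ = false) ∧ (Uc W c → ND M pre c k a)) →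
      Arr g c η k t δ → Good (MM M b) κ η → Bi M n0 η n →
      ∃ c' η', Q (im2 G pre g) (rl c', η') [rl c', some (c', false)]) := by
  intro n
  induction n using Nat.strong_induction_on with
  | _ n ih =>
    have hN : ∀ (pre w : List (S × ℤ)) (c : S) (k : ℤ) (g : FG (Option (S × Bool)))
        (η : Sym2 (Option (S × Bool)) → ℕ), pre.length = n → W = pre ++ (c, k) :: w → ¬ Uc W c →
        SN W g c η → Good (MM M b) κ η → Bi M n0 η n →
        ∃ c' η', Q (im2 G pre g) (rl c', η') [rl c', some (c', false)] := by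
      intro pre w c k g η hn hW hU hg hη hB
      by_cases hc : ∃ p ∈ pre, p.1 = c
      swap
      · -- the end
        refine ⟨c, η, skip hG (c := c) (by simp) pre (fun p hp => ?_) g hg.dn⟩
        have h1 : p.1 ≠ c := fun h1 => hc ⟨p, hp, h1⟩
        refine ⟨h1, ?_⟩
        simp only [List.mem_cons, List.not_mem_nil, or_false, not_or]
        exact ⟨by simpa [rl] using h1, by simp [rl]⟩
      obtain ⟨pre1, ⟨c', k'⟩, mid, hpre1, hc', hmid⟩ := split_last (fun p : S × ℤ => p.1 = c) pre hc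
      have hc'' : c' = c := hc'
      subst hc''
      have hck : (c', k') ∈ W := by rw [hW, hpre1]; simp
      have hk'0 : k' ≠ 0 := hR.1 _ hck
      have hk' : 2 ≤ k'.natAbs := by
        by_contra h
        exact hU ⟨k', hck, by omega⟩
      have hk4 : P4 W c' → 4 ≤ k'.natAbs := fun h => h k' hck
      obtain ⟨d, hd, hd1, hd2⟩ := hR.2 pre1 mid w c' k' k (by rw [hW, hpre1]; simp)
      have hpl : pre1.length < n := by
        rw [← hn, hpre1]
        simp
      by_cases hnd : ∃ m1 y l m2, mid = m1 ++ (y, l) :: m2 ∧ (∀ p ∈ m2, p.1 ≠ y) ∧ M y c' ≠ 2 ∧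
          (Uc W y → ND M (pre1 ++ (c', k') :: m1) y l c')
      · obtain ⟨m1, y, l, m2, hm, hm2, hyc2, hy⟩ := hnd
        have hyc : y ≠ c' := hmid (y, l) (by rw [hm]; simp)
        have hlt : (pre1 ++ (c', k') :: m1).length < n := by
          rw [← hn, hpre1, hm]
          simp only [List.length_append, List.length_cons]
          omega
        obtain ⟨η', δ', h1, h2, h3, h4⟩ := go hG (m2 := m2)
          (fun p hp => ⟨hmid p (by rw [hm]; simp [hp]), hm2 p hp⟩) hyc hyc2 hκ hlt hη hB l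
          (fun e he _ => hg.up he) (fun _ => hg.dn)
        obtain ⟨c2, η2, h5⟩ := (ih _ hlt).2 (pre1 ++ (c', k') :: m1) (m2 ++ (c', k) :: w) y l
          (some c') δ' _ η' rfl (by rw [hW, hpre1, hm]; simp) (by simp) (by
            intro a ha
            have ha' : c' = a := by simpa using ha
            subst ha'
            exact ⟨hyc.symm, fun h6 => h4 (by rw [M.symmetric]; exact h6), hy⟩) h3 h1 h2
        refine ⟨c2, η2, ?_⟩
        rw [← im2_append] at h5
        have e : pre = (pre1 ++ (c', k') :: m1) ++ ((y, l) :: m2) := by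
          rw [hpre1, hm]
          simp
        rw [e]
        exact h5
      push Not at hnd
      -- all the generators of the gap are dead
      have hdead : ∀ m1 y l m2, mid = m1 ++ (y, l) :: m2 → (∀ p ∈ m2, p.1 ≠ y) → M y c' ≠ 2 →
          y ≠ c' ∧ l.natAbs = 1 ∧ M c' y ≠ 0 ∧ ∀ p ∈ m1, p.1 ≠ y ∧ M p.1 y = 2 := by
        intro m1 y l m2 hm hm2 hyc2
        have hyc : y ≠ c' := hmid (y, l) (by rw [hm]; simp)
        obtain ⟨_, h1⟩ := hnd m1 y l m2 hm hm2 hyc2
        exact ⟨hyc, dead hR (z := m2 ++ (c', k) :: w) (by rw [hW, hpre1, hm]; simp)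
          (fun p hp => hmid p (by rw [hm]; simp [hp])) hyc h1⟩
      by_cases hB1 : ∃ m1 y l m2, mid = m1 ++ (y, l) :: m2 ∧ (∀ p ∈ m2, p.1 ≠ y) ∧ 4 ≤ M y c'
      · obtain ⟨m1, y, l, m2, hm, hm2, hy4⟩ := hB1
        obtain ⟨hyc, hl1, hy0, hm1⟩ := hdead m1 y l m2 hm hm2 (by omega)
        have hε : l = 1 ∨ l = -1 := by omega
        have hlen : 3 ≤ len (MM M b) κ (rl y) (rl c') := by
          rw [len_rl, if_neg (by omega)]
          omega
        have hm1' : ∀ p ∈ m1, p.1 ≠ c' ∧ p.1 ≠ y := fun p hp =>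
          ⟨hmid p (by rw [hm]; simp [hp]), (hm1 p hp).1⟩
        have hm2' : ∀ p ∈ m2, p.1 ≠ c' ∧ p.1 ≠ y := fun p hp =>
          ⟨hmid p (by rw [hm]; simp [hp]), hm2 p hp⟩
        by_cases hin : 2 ≤ η s(rl y, rl c') ∧
            η s(rl y, rl c') + 1 ≤ len (MM M b) κ (rl y) (rl c')
        · have h1 := mid_turn hG hg hη hyc hin.1 hin.2 hm1' hm2' hε hk' hk4
          obtain ⟨c2, η2, h5⟩ := (ih _ hpl).1 pre1 (mid ++ (c', k) :: w) c' k' _ η rfl
            (by rw [hW, hpre1]; simp) hU h1 hη (hB.mono hpl.le)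
          refine ⟨c2, η2, ?_⟩
          rw [← im2_append] at h5
          rw [hpre1, hm]
          exact h5
        · obtain ⟨η', δ', h1, h2, h3⟩ := pass (k := k') hG hg hη hyc (by omega) hlen hin hm1' hm2'
            (by omega : l ≠ 0) hpl.le hB
          obtain ⟨c2, η2, h5⟩ := (ih _ hpl).2 pre1 (mid ++ (c', k) :: w) c' k' (some y) δ' _ η' rfl
            (by rw [hW, hpre1]; simp) (by simp) (by
              intro a ha
              have ha' : y = a := by simpa using ha
              subst ha'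
              exact ⟨hyc, fun h6 => by omega, fun h6 => absurd h6 hU⟩) h3 h1 h2
          refine ⟨c2, η2, ?_⟩
          rw [← im2_append] at h5
          rw [hpre1, hm]
          exact h5
      · push Not at hB1
        -- one generator only
        obtain ⟨m1, ⟨y, l⟩, m2, hm, hy, hm2⟩ :=
          split_last (fun p : S × ℤ => p.1 = d.1) mid ⟨d, hd, rfl⟩
        have hyd : y = d.1 := hy
        have hm2' : ∀ p ∈ m2, p.1 ≠ y := fun p hp => by
          rw [hyd]
          exact hm2 p hp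
        obtain ⟨hyc, hl1, hy0, hm1⟩ := hdead m1 y l m2 hm hm2' (by rw [hyd]; exact hd2)
        have hy0' : M y c' ≠ 0 := by rw [M.symmetric]; exact hy0
        have hy3 : M y c' = 3 := by
          have h1 := hB1 m1 y l m2 hm hm2'
          have h2 := M.off_diagonal y c' hyc
          have h3 : M y c' ≠ 2 := by rw [hyd]; exact hd2
          omega
        have hyW : (y, l) ∈ W := by rw [hW, hpre1, hm]; simp
        have hcom : ∀ p ∈ mid, p.1 ≠ y → M p.1 c' = 2 := by
          intro p hp hpy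
          by_contra hp2
          obtain ⟨n1, ⟨z, lz⟩, n2, hn1, hz, hn2⟩ :=
            split_last (fun q : S × ℤ => q.1 = p.1) mid ⟨p, hp, rfl⟩
          have hzd : z = p.1 := hz
          have hn2' : ∀ q ∈ n2, q.1 ≠ z := fun q hq => by
            rw [hzd]
            exact hn2 q hq
          obtain ⟨hzc, hlz, hz0, hnn⟩ := hdead n1 z lz n2 hn1 hn2' (by rw [hzd]; exact hp2)
          have hz0' : M z c' ≠ 0 := by rw [M.symmetric]; exact hz0
          have hz3 : M z c' = 3 := by
            have h1 := hB1 n1 z lz n2 hn1 hn2'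
            have h2 := M.off_diagonal z c' hzc
            have h3 : M z c' ≠ 2 := by rw [hzd]; exact hp2
            omega
          have hyz : y ≠ z := by
            rw [hzd]
            exact hpy.symm
          have hyz2 : M y z = 2 := by
            rcases order (hm.symm.trans hn1) (y := (y, l)) (z := (z, lz)) (by
              intro h
              exact hyz (congrArg Prod.fst h)) with h1 | h1
            · exact (hnn (y, l) h1).2
            · rw [M.symmetric]
              exact (hm1 (z, lz) h1).2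
          exact H5 c' k' y l z lz hck hyW (by rw [hW, hpre1, hn1]; simp) hyz
            (by rw [M.symmetric]; exact hy3) (by rw [M.symmetric]; exact hz3) hyz2 ⟨hl1, hlz⟩
        have hP4 : P4 W c' := fun l' hl' =>
          H3 c' l' y l hl' hyW (by rw [M.symmetric]; exact hy3) hl1
        have hlen : len (MM M b) κ (rl y) (rl c') = 2 := by
          rw [len_rl, if_neg hy0', hy3]
        have h1 := end_turn hG hg hP4 hη hyc hlen (m1 := m1) (m2 := m2)
          (fun p hp => ⟨hmid p (by rw [hm]; simp [hp]), (hm1 p hp).1,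
            hcom p (by rw [hm]; simp [hp]) (hm1 p hp).1⟩)
          (fun p hp => ⟨hmid p (by rw [hm]; simp [hp]), hm2' p hp,
            hcom p (by rw [hm]; simp [hp]) (hm2' p hp)⟩) (by omega : l = 1 ∨ l = -1) (hk4 hP4)
        obtain ⟨c2, η2, h5⟩ := (ih _ hpl).1 pre1 (mid ++ (c', k) :: w) c' k' _ η rfl
          (by rw [hW, hpre1]; simp) hU h1 hη (hB.mono hpl.le)
        refine ⟨c2, η2, ?_⟩
        rw [← im2_append] at h5
        rw [hpre1, hm]
        exact h5
    refine ⟨hN, ?_⟩
    intro pre w c k t δ g η hn hW ht hta hg hη hB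
    have hk : k ≠ 0 := hR.1 (c, k) (by rw [hW]; simp)
    by_cases hU : Uc W c
    swap
    · have hck : (c, k) ∈ W := by rw [hW]; simp
      exact hN pre w c k g η hn hW hU (SN.of_Arr hg (by
        by_contra h
        exact hU ⟨k, hck, by omega⟩) fun h => h k hck) hη hB
    by_cases hc : ∃ p ∈ pre, p.1 = c
    swap
    · -- the end
      refine ⟨c, η, skip hG (c := c) (by simp) pre (fun p hp => ?_) g (hg.dn hk (r := c) ?_)⟩
      · have h1 : p.1 ≠ c := fun h1 => hc ⟨p, hp, h1⟩
        refine ⟨h1, ?_⟩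
        simp only [List.mem_cons, List.not_mem_nil, or_false, not_or]
        exact ⟨by simpa [rl] using h1, by simp [rl]⟩
      · right
        left
        intro h1
        exact (hta c h1).1 rfl
    obtain ⟨pre1, ⟨c', k'⟩, mid, hpre1, hc', hmid⟩ := split_last (fun p : S × ℤ => p.1 = c) pre hc
    have hc'' : c' = c := hc'
    subst hc''
    obtain ⟨d, hd, hd1, hd2⟩ := hR.2 pre1 mid w c' k' k (by rw [hW, hpre1]; simp)
    have key : ∀ r : S, (∃ l0, (r, l0) ∈ mid) → M r c' ≠ 2 →
        (∀ d, Fol (Lp S) d (rl r) → (∀ y, d ≠ rl y) → Q g (rl c', η) [d, rl r]) →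
        (M r c' ≠ 0 → Q g (rl c', η) [rl r, some (r, false)]) →
        ∃ c2 η', Q (im2 G pre g) (rl c2, η') [rl c2, some (c2, false)] := by
      rintro r ⟨l0, hr0⟩ hr2 hup hdn
      have hrc : r ≠ c' := hmid _ hr0
      obtain ⟨m1, ⟨r', l⟩, m2, hm, hr', hm2⟩ :=
        split_last (fun p : S × ℤ => p.1 = r) mid ⟨(r, l0), hr0, rfl⟩
      have hr'' : r' = r := hr'
      subst hr''
      have hlt : (pre1 ++ (c', k') :: m1).length < n := by
        rw [← hn, hpre1, hm]
        simp only [List.length_append, List.length_cons]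
        omega
      obtain ⟨η', δ', h1, h2, h3, h4⟩ := go hG (m2 := m2)
        (fun p hp => ⟨hmid p (by rw [hm]; simp [hp]), hm2 p hp⟩) hrc hr2 hκ hlt hη hB l hup hdn
      obtain ⟨c2, η2, h5⟩ := (ih _ hlt).2 (pre1 ++ (c', k') :: m1) (m2 ++ (c', k) :: w) r' l
        (some c') δ' _ η' rfl (by rw [hW, hpre1, hm]; simp) (by simp) (by
          intro a ha
          have ha' : c' = a := by simpa using ha
          subst ha'
          refine ⟨hrc.symm, fun h6 => h4 (by rw [M.symmetric]; exact h6), fun h6 => Or.inr (Or.inl ?_)⟩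
          obtain ⟨x, hx, hx1⟩ := hU
          obtain ⟨z, hz, hz1⟩ := h6
          by_contra h7
          have h8 := M.off_diagonal c' r' hrc.symm
          have h9 : M c' r' ≠ 2 := by rw [M.symmetric]; exact hr2
          by_cases h10 : M c' r' = 3
          · have := H3 c' x r' z hx hz h10 hz1
            omega
          · have := H4 c' x r' z hx hz (by omega) hz1
            omega) h3 h1 h2
      refine ⟨c2, η2, ?_⟩
      rw [← im2_append] at h5
      have e : pre = (pre1 ++ (c', k') :: m1) ++ ((r', l) :: m2) := by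
        rw [hpre1, hm]
        simp
      rw [e]
      exact h5
    by_cases hfree : ∃ d ∈ mid, M d.1 c' ≠ 2 ∧ (t ≠ some d.1 ∨ 2 ≤ k.natAbs)
    · obtain ⟨⟨r, l0⟩, hr0, hr2, hr3⟩ := hfree
      exact key r ⟨l0, hr0⟩ hr2 (fun e he he' => hg.up hk ht (Or.inr hr3) he he')
        (fun _ => hg.dn hk (Or.inr hr3))
    · have hfr : t = some d.1 ∧ k.natAbs = 1 := by
        by_contra h
        apply hfree
        refine ⟨d, hd, hd2, ?_⟩
        by_cases h1 : t = some d.1
        · right
          by_contra h3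
          exact h ⟨h1, by omega⟩
        · exact Or.inl h1
      obtain ⟨h1, h2, h3⟩ := hta d.1 hfr.1
      have h0 : M d.1 c' = 0 := by
        rcases h3 hU with h4 | h4 | h4
        · omega
        · exact h4
        · exfalso
          obtain ⟨z, hz, hz1, hz2⟩ := h4 pre1 k' mid hpre1 hmid
          apply hfree
          refine ⟨z, hz, hz2, Or.inl ?_⟩
          rw [hfr.1]
          intro h5
          exact hz1 (by simpa using h5.symm)
      exact key d.1 ⟨d.2, hd⟩ hd2 (fun e he he' => hg.up hk ht (Or.inl (h2 h0)) he he')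
        (fun h4 => absurd h0 h4)

/-- **words with long syllables** -/
theorem exp_main {W : List (S × ℤ)} (hR : Rd M W)
    (H3 : ∀ x k y l, (x, k) ∈ W → (y, l) ∈ W → M x y = 3 → l.natAbs = 1 → 4 ≤ k.natAbs)
    (H4 : ∀ x k y l, (x, k) ∈ W → (y, l) ∈ W → 4 ≤ M x y → l.natAbs = 1 → 2 ≤ k.natAbs)
    (H5 : ∀ a k c l r l', (a, k) ∈ W → (c, l) ∈ W → (r, l') ∈ W → c ≠ r → M a c = 3 →
      M a r = 3 → M c r = 2 → ¬ (l.natAbs = 1 ∧ l'.natAbs = 1)) (hb : ∃ p ∈ W, p.1 = b) :
    value M W ∉ Subgroup.closure {g : ArtinGroup M | ∃ t, t ≠ b ∧ g = PresentedGroup.of t} := by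
  intro hmem
  obtain ⟨v, ⟨b', k⟩, w, hWv, hb', hw⟩ := split_last (fun p : S × ℤ => p.1 = b) W hb
  have hb'' : b' = b := hb'
  subst hb''
  set κ := W.length + 1 with hκ
  have hGood : Good (MM M b') κ fun _ => 1 := good_c _ (by omega)
  obtain ⟨c', η', hq⟩ := (exp_walk (b := b') (κ := κ) hR H3 H4 H5 (rep2_of M b' κ) hκ v.length).2
    v w b' k none true _ (fun _ => 1) rfl hWv (fun _ => rfl) (by simp)
    (start3 (κ := κ) (k := k) (η := fun _ => 1) hGood rfl) hGood (by
      intro x y _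
      rw [hWv]
      simp only [List.length_append, List.length_cons]
      omega)
  have hfix : ∀ u : ArtinGroup M,
      u ∈ Subgroup.closure {g : ArtinGroup M | ∃ t, t ≠ b' ∧ g = PresentedGroup.of t} →
      (rep2 M b' κ u : Monoid.End (FG (Option (S × Bool)))) (d3 b' fun _ => 1) =
        d3 b' fun _ => 1 := fun u hu => stab2 M b' κ hu
  have h1 : im2 (rep2 M b' κ) W (d3 b' fun _ => 1) = d3 b' fun _ => 1 := hfix _ hmem
  rw [hWv, im2_append, im2_cons, im2_fix (rep2_of M b' κ) w (fun p hp => hw p hp),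
    im2_single (rep2_of M b' κ)] at h1
  rw [h1] at hq
  have h6 := d3_len b' (fun _ => 1)
  have h7 : ((d3 b' fun _ => 1)⁻¹).toWord.length = 1 := by
    rw [FreeGroup.toWord_inv, FreeGroup.invRev_length, h6]
  have h8 : (wd (rl c', η') [rl c', some (c', false)]).length ≤ 1 := by
    rcases hq with hq | hq
    · exact hq.length.trans h6.le
    · exact hq.length.trans h7.le
  simp [wd] at h8

end

end Pool.Agent.L7h63.AP
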