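import Mathlib

/-!
# Long syllables

Definitions used in the statement of `MP_a1ec0a_al.SharpExponents`.
-/

set_option autoImplicit false

namespace Pool.Agent.L7h63.AP

/-- The syllables of the word `w` are long enough: if `t` or `t⁻¹` is a syllable of `w`, then all
syllables of `s` have an exponent of absolute value at least `4` if `M s t = 3`, and at least `2` if
`4 ≤ M s t` (finite label), and also at least `2` if `M s t = 2` and some generator of `w` has label `3`
with both `s` and `t`. Nothing is required for pairs with `M s t = 0` (no relation). -/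
def Long {S : Type*} (M : CoxeterMatrix S) (w : List (S × ℤ)) : Prop :=
  ∀ p ∈ w, ∀ q ∈ w, |q.2| = 1 →
    (M p.1 q.1 = 3 → 4 ≤ |p.2|) ∧ (4 ≤ M p.1 q.1 → 2 ≤ |p.2|) ∧
    (∀ r ∈ w, M p.1 q.1 = 2 → M r.1 p.1 = 3 → M r.1 q.1 = 3 → 2 ≤ |p.2|)

/-- The exponents `k s` are large enough. -/
def Fits {S : Type*} (M : CoxeterMatrix S) (k : S → ℕ) : Prop :=
  (∀ s t, M s t = 3 → 4 ≤ k s * k t) ∧ (∀ s t, 4 ≤ M s t → 2 ≤ k s * k t) ∧
    ∀ s t r, M s t = 3 → M s r = 3 → M t r = 2 → 2 ≤ k t * k r

end Pool.Agent.L7h63.AP
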