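import Pool.Agent.L7h63.AP.Nec

/-!
# The characterisation of the exponents
-/

set_option autoImplicit false
set_option linter.unusedSectionVars false

namespace Pool.Agent.L7h63.AP

open Pool.Agent.K7.H20 Pool.Agent.K7.H20.AW

variable {S : Type*} [DecidableEq S] {M : CoxeterMatrix S}

/-- multiply the exponents -/
def scale (k : S → ℕ) (w : List (S × ℤ)) : List (S × ℤ) := w.map fun p => (p.1, (k p.1 : ℤ) * p.2)

theorem insert_scale {k : S → ℕ} (hk : ∀ s, 1 ≤ k s) (b : S) (j : ℤ) (w : List (S × ℤ)) :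
    AW.insert M b ((k b : ℤ) * j) (scale k w) = scale k (AW.insert M b j w) := by
  induction w with
  | nil => rfl
  | cons c w ih =>
    obtain ⟨c, l⟩ := c
    have e : scale k ((c, l) :: w) = (c, (k c : ℤ) * l) :: scale k w := rfl
    rw [e, AW.insert, AW.insert]
    by_cases h1 : c = b
    · subst h1
      rw [if_pos rfl, if_pos rfl, ← mul_add]
      have hkc : (k c : ℤ) ≠ 0 := by
        have := hk c
        omega
      by_cases h2 : j + l = 0
      · rw [if_pos h2, if_pos (by rw [h2, mul_zero])]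
      · rw [if_neg h2, if_neg (mul_ne_zero hkc h2)]
        rfl
    · rw [if_neg h1, if_neg h1]
      split_ifs with h2
      · rw [ih]
        rfl
      · rfl

theorem reduce_scale {k : S → ℕ} (hk : ∀ s, 1 ≤ k s) (w : List (S × ℤ)) :
    reduce M (scale k w) = scale k (reduce M w) := by
  induction w with
  | nil => rfl
  | cons c w ih =>
    obtain ⟨c, l⟩ := c
    have e : scale k ((c, l) :: w) = (c, (k c : ℤ) * l) :: scale k w := rfl
    have hkc : (k c : ℤ) ≠ 0 := by
      have := hk c
      omega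
    rw [e, reduce, reduce]
    by_cases h : l = 0
    · rw [if_pos h, if_pos (by rw [h, mul_zero]), ih]
    · rw [if_neg h, if_neg (mul_ne_zero hkc h), ih, insert_scale hk]

theorem scale_nil {k : S → ℕ} {w : List (S × ℤ)} (h : scale k w = []) : w = [] := by
  simpa [scale] using h

theorem insert_dec (b : S) (j : ℤ) (w : List (S × ℤ)) :
    AW.insert (decouple M ∅) b j w = AW.insert M b j w := by
  induction w with
  | nil => rfl
  | cons c w ih =>
    obtain ⟨c, l⟩ := c
    rw [AW.insert, AW.insert]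
    by_cases h1 : c = b
    · rw [if_pos h1, if_pos h1]
    · rw [if_neg h1, if_neg h1, ih]
      have h2 : decouple M ∅ c b = 2 ↔ M c b = 2 := by
        rw [dec_em h1]
        split_ifs with h3
        · simp [h3]
        · simp [h3]
      by_cases h3 : M c b = 2
      · rw [if_pos h3, if_pos (h2.2 h3)]
      · rw [if_neg h3, if_neg fun h4 => h3 (h2.1 h4)]

theorem reduce_dec (w : List (S × ℤ)) : reduce (decouple M ∅) w = reduce M w := by
  induction w with
  | nil => rfl
  | cons c w ih =>
    obtain ⟨c, l⟩ := c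
    rw [reduce, reduce, ih, insert_dec]

theorem value_reduce (w : List (S × ℤ)) : value M (reduce M w) = value M w := by
  have h1 : val M (reduce M w) = val M w := by
    have h2 := congrArg (qo (M := M)) (val_reduce (M := M) w)
    rwa [qo_val, qo_val] at h2
  rw [← ofArt_val (reduce M w), h1, ofArt_val]

theorem value_app (u v : List (S × ℤ)) : value M (u ++ v) = value M u * value M v := by
  simp [value]

theorem value_co (x : S) (k : ℤ) (w : List (S × ℤ)) :
    value M ((x, k) :: w) = (PresentedGroup.of x : ArtinGroup M) ^ k * value M w := by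
  simp [value]

theorem value_inv (w : List (S × ℤ)) :
    value M ((w.map fun p => (p.1, -p.2)).reverse) = (value M w)⁻¹ := by
  induction w with
  | nil => simp [value]
  | cons c w ih =>
    obtain ⟨c, l⟩ := c
    rw [List.map_cons, List.reverse_cons, value_app, ih]
    simp [value]

theorem value_surj (x : ArtinGroup M) : ∃ w, value M w = x := by
  have hx : x ∈ Subgroup.closure (Set.range (PresentedGroup.of : S → ArtinGroup M)) := by
    rw [PresentedGroup.closure_range_of]
    trivial
  induction hx using Subgroup.closure_induction with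
  | mem g hg =>
    obtain ⟨s, rfl⟩ := hg
    exact ⟨[(s, 1)], by simp [value]⟩
  | one => exact ⟨[], rfl⟩
  | mul x y _ _ hx hy =>
    obtain ⟨u, rfl⟩ := hx
    obtain ⟨v, rfl⟩ := hy
    exact ⟨u ++ v, value_app u v⟩
  | inv x _ hx =>
    obtain ⟨u, rfl⟩ := hx
    exact ⟨_, value_inv u⟩

theorem hom_value {k : S → ℕ} {f : ArtinGroup (decouple M ∅) →* ArtinGroup M}
    (hf : ∀ s, f (PresentedGroup.of s) = PresentedGroup.of s ^ k s) (w : List (S × ℤ)) :
    f (value (decouple M ∅) w) = value M (scale k w) := by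
  induction w with
  | nil => exact map_one f
  | cons c w ih =>
    obtain ⟨c, l⟩ := c
    have e : scale k ((c, l) :: w) = (c, (k c : ℤ) * l) :: scale k w := rfl
    rw [e, value_co, value_co, map_mul, ih, map_zpow, hf, zpow_mul, zpow_natCast]

/-- membership in a parabolic subgroup -/
theorem long_mem [Finite S] (w : List (S × ℤ)) (T : Set S) (h : Long M (reduce M w)) :
    value M w ∈ Subgroup.closure {g : ArtinGroup M | ∃ t ∈ T, g = PresentedGroup.of t} ↔
      ∀ p ∈ reduce M w, p.1 ∈ T := by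
  have := Fintype.ofFinite S
  rw [← value_reduce w]
  constructor
  · intro h1 p hp
    by_contra h2
    refine exp_main (b := p.1) (rd_reduce w) ?_ ?_ ?_ ⟨p, hp, rfl⟩ (Subgroup.closure_mono ?_ h1)
    · intro x k y l hx hy hxy hl
      have h3 := (h (x, k) hx (y, l) hy (by
        show |l| = 1
        rw [Int.abs_eq_natAbs, hl]
        rfl)).1 hxy
      have h4 : 4 ≤ |k| := h3
      rw [Int.abs_eq_natAbs] at h4
      omega
    · intro x k y l hx hy hxy hl
      have h3 := (h (x, k) hx (y, l) hy (by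
        show |l| = 1
        rw [Int.abs_eq_natAbs, hl]
        rfl)).2.1 hxy
      have h4 : 2 ≤ |k| := h3
      rw [Int.abs_eq_natAbs] at h4
      omega
    · rintro a k c l r l' ha hc hr _ hac har hcr ⟨hl, hl'⟩
      have h3 := (h (c, l) hc (r, l') hr (by
        show |l'| = 1
        rw [Int.abs_eq_natAbs, hl']
        rfl)).2.2 (a, k) ha hcr hac har
      have h4 : 2 ≤ |l| := h3
      rw [Int.abs_eq_natAbs, hl] at h4
      norm_num at h4
    · rintro _ ⟨t, ht, rfl⟩
      refine ⟨t, ?_, rfl⟩
      rintro rfl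
      exact h2 ht
  · exact value_mem M

theorem long_one [Finite S] (w : List (S × ℤ)) (h : Long M (reduce M w)) :
    value M w = 1 ↔ reduce M w = [] := by
  have h1 := long_mem w ∅ h
  have e : {g : ArtinGroup M | ∃ t ∈ (∅ : Set S), g = PresentedGroup.of t} = ∅ := by
    ext g
    simp
  rw [e, Subgroup.closure_empty, Subgroup.mem_bot] at h1
  rw [h1]
  constructor
  · intro h2
    rcases h3 : reduce M w with _ | ⟨p, v⟩
    · rfl
    · exact absurd (h2 p (by rw [h3]; simp)) (by simp)
  · intro h2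
    rw [h2]
    simp

theorem long_of_fits {k : S → ℕ} (hk : ∀ s, 1 ≤ k s) (h : Fits M k) {w : List (S × ℤ)}
    (h0 : ∀ p ∈ w, p.2 ≠ 0) : Long M (scale k w) := by
  have key : ∀ p ∈ scale k w, (k p.1 : ℤ) ≤ |p.2| := by
    intro p hp
    obtain ⟨q, hq, rfl⟩ := List.mem_map.1 hp
    show (k q.1 : ℤ) ≤ |(k q.1 : ℤ) * q.2|
    rw [abs_mul, Nat.abs_cast]
    have h1 : 1 ≤ |q.2| := Int.one_le_abs (h0 q hq)
    nlinarith
  intro p hp q hq hq1
  have h1 := key p hp
  have h2 := key q hq
  rw [hq1] at h2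
  have h3 : k q.1 = 1 := by
    have := hk q.1
    omega
  refine ⟨fun h4 => ?_, fun h4 => ?_, fun r hr h4 h5 h6 => ?_⟩
  · have h7 := h.1 p.1 q.1 h4
    rw [h3, mul_one] at h7
    omega
  · have h7 := h.2.1 p.1 q.1 h4
    rw [h3, mul_one] at h7
    omega
  · have h7 := h.2.2 r.1 p.1 q.1 h5 h6 h4
    rw [h3, mul_one] at h7
    omega

theorem exists_scale {k : S → ℕ} {w : List (S × ℤ)} (h : ∀ p ∈ w, (k p.1 : ℤ) ∣ p.2) :
    ∃ w0, w = scale k w0 := by
  induction w with
  | nil => exact ⟨[], rfl⟩
  | cons c w ih =>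
    obtain ⟨c, l⟩ := c
    obtain ⟨w0, hw0⟩ := ih fun p hp => h p (by simp [hp])
    obtain ⟨j, hj⟩ := h (c, l) (by simp)
    have hj' : l = (k c : ℤ) * j := hj
    exact ⟨(c, j) :: w0, by rw [hw0, hj']; rfl⟩

/-- the procedure -/
theorem proc_of_fits [Finite S] {k : S → ℕ} (hk : ∀ s, 1 ≤ k s) (h : Fits M k)
    (w : List (S × ℤ)) (hw : ∀ p ∈ w, (k p.1 : ℤ) ∣ p.2) : value M w = 1 ↔ reduce M w = [] := by
  apply long_one
  obtain ⟨w0, rfl⟩ := exists_scale hw
  rw [reduce_scale hk]
  exact long_of_fits hk h (rd_reduce w0).1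

theorem inj_of_proc {k : S → ℕ} (hk : ∀ s, 1 ≤ k s)
    {f : ArtinGroup (decouple M ∅) →* ArtinGroup M}
    (hf : ∀ s, f (PresentedGroup.of s) = PresentedGroup.of s ^ k s)
    (h : ∀ w : List (S × ℤ), (∀ p ∈ w, (k p.1 : ℤ) ∣ p.2) → (value M w = 1 ↔ reduce M w = [])) :
    Function.Injective f := by
  rw [injective_iff_map_eq_one]
  intro x hx
  obtain ⟨w, rfl⟩ := value_surj x
  rw [hom_value hf] at hx
  have h1 := (h (scale k w) (by
    intro p hp
    obtain ⟨q, hq, rfl⟩ := List.mem_map.1 hp
    exact Dvd.intro _ rfl)).1 hx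
  rw [reduce_scale hk] at h1
  have h2 := scale_nil h1
  rw [← value_reduce w, reduce_dec, h2]
  rfl

end Pool.Agent.L7h63.AP
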