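import Mathlib

/-!
# First letters of reduced words
-/

set_option autoImplicit false
set_option linter.unusedSectionVars false

namespace Pool.Agent.L7h63.AP

variable {α : Type*} [DecidableEq α]

theorem bne_self (x : Bool) : ¬ (x = !x) := by
  cases x <;> decide

/-- the first letter of the reduced word -/
def hd (g : FreeGroup α) : Option (α × Bool) := g.toWord.head?

/-- a letter -/
abbrev lt (l : α × Bool) : FreeGroup α := FreeGroup.mk [l]

theorem hd_one : hd (1 : FreeGroup α) = none := by
  rw [hd, FreeGroup.toWord_one]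
  rfl

theorem hd_none {g : FreeGroup α} : hd g = none ↔ g = 1 := by
  rw [hd, List.head?_eq_none_iff, FreeGroup.toWord_eq_nil_iff]

theorem lt_inv (l : α × Bool) : (lt l)⁻¹ = lt (l.1, !l.2) := by
  rw [FreeGroup.inv_mk]
  rfl

theorem mk_cons (l : α × Bool) (L : List (α × Bool)) :
    FreeGroup.mk (l :: L) = lt l * FreeGroup.mk L := by
  rw [FreeGroup.mul_mk]
  rfl

theorem mk_append (L L' : List (α × Bool)) :
    FreeGroup.mk (L ++ L') = FreeGroup.mk L * FreeGroup.mk L' := by
  rw [FreeGroup.mul_mk]

/-- junction without cancellation -/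
theorem toWord_mul' {g h : FreeGroup α} (hj : ∀ a ∈ g.toWord.getLast?, ∀ b ∈ hd h,
    a.1 = b.1 → a.2 = b.2) : (g * h).toWord = g.toWord ++ h.toWord := by
  rw [FreeGroup.toWord_mul]
  apply FreeGroup.IsReduced.reduce_eq
  rw [FreeGroup.IsReduced, List.isChain_append]
  exact ⟨FreeGroup.isReduced_toWord, FreeGroup.isReduced_toWord, hj⟩

theorem toWord_lt (l : α × Bool) : (lt l).toWord = [l] := by
  rw [FreeGroup.toWord_mk, FreeGroup.reduce_singleton]

/-- a letter in front -/
theorem toWord_cons {l : α × Bool} {g : FreeGroup α} (h : hd g ≠ some (l.1, !l.2)) :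
    (lt l * g).toWord = l :: g.toWord := by
  rw [toWord_mul', toWord_lt]
  · rfl
  · intro a ha b hb hab
    rw [toWord_lt] at ha
    have ha' : l = a := by simpa using ha
    subst ha'
    by_contra hne
    apply h
    have hb' : hd g = some b := hb
    rw [hb']
    congr 1
    refine Prod.ext hab.symm ?_
    show b.2 = !l.2
    cases h1 : l.2 <;> cases h2 : b.2 <;> simp_all

theorem hd_cons {l : α × Bool} {g : FreeGroup α} (h : hd g ≠ some (l.1, !l.2)) :
    hd (lt l * g) = some l := by
  rw [hd, toWord_cons h]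
  rfl

theorem red_sub {L L' : List (α × Bool)} (h : FreeGroup.IsReduced L)
    (h' : ∃ s t, s ++ L' ++ t = L) : FreeGroup.IsReduced L' := by
  obtain ⟨s, t, rfl⟩ := h'
  exact (List.IsChain.left_of_append h).right_of_append

/-- splitting off the first letter -/
theorem split_hd {g : FreeGroup α} {l : α × Bool} (h : hd g = some l) :
    ∃ g', g = lt l * g' ∧ g.toWord = l :: g'.toWord ∧ hd g' ≠ some (l.1, !l.2) := by
  obtain ⟨L, hL⟩ : ∃ L, g.toWord = l :: L := by
    cases hg : g.toWord with
    | nil => rw [hd, hg] at h; simp at h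
    | cons a L =>
      rw [hd, hg] at h
      have : a = l := by simpa using h
      exact ⟨L, by rw [this]⟩
  have hred : FreeGroup.IsReduced (l :: L) := hL ▸ FreeGroup.isReduced_toWord
  have hredL : FreeGroup.IsReduced L := red_sub hred ⟨[l], [], by simp⟩
  have e : (FreeGroup.mk L).toWord = L := by
    rw [FreeGroup.toWord_mk, hredL.reduce_eq]
  refine ⟨FreeGroup.mk L, ?_, ?_, ?_⟩
  · rw [← mk_cons, ← hL, FreeGroup.mk_toWord]
  · rw [e, hL]
  · intro hh
    rw [hd, e] at hh
    cases L with
    | nil => simp at hh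
    | cons b L =>
      have hb : b = (l.1, !l.2) := by simpa using hh
      rw [hb, FreeGroup.isReduced_cons_cons] at hred
      exact bne_self l.2 (hred.1 rfl)

/-- multiplication by a letter on the right does not change the first letter -/
theorem hd_mul_lt : ∀ (n : ℕ) {g : FreeGroup α} {l : α × Bool}, g.toWord.length = n → g ≠ 1 →
    g * lt l ≠ 1 → hd (g * lt l) = hd g := by
  intro n
  induction n with
  | zero =>
    intro g l hn hg
    exfalso
    exact hg (FreeGroup.toWord_eq_nil_iff.1 (List.length_eq_zero_iff.1 hn))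
  | succ n ih =>
    intro g l hn hg hgl
    obtain ⟨a, ha⟩ : ∃ a, hd g = some a := by
      cases h : hd g with
      | none => exact absurd (hd_none.1 h) hg
      | some a => exact ⟨a, rfl⟩
    obtain ⟨g', rfl, h2, h3⟩ := split_hd ha
    rw [ha, mul_assoc]
    apply hd_cons
    by_cases hg' : g' = 1
    · rw [hg', mul_one] at hgl
      rw [hg', one_mul, hd, toWord_lt]
      intro h4
      apply hgl
      have : l = (a.1, !a.2) := by simpa using h4
      rw [this, ← lt_inv, mul_inv_cancel]
    · by_cases hgl' : g' * lt l = 1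
      · rw [hgl', hd_one]
        simp
      · rw [ih (by rw [h2] at hn; simpa using hn) hg' hgl']
        exact h3

/-- the property that the reduced word does not begin with the inverse of a given letter -/
theorem N_lt {g : FreeGroup α} {l e : α × Bool} (h : hd g ≠ some e) (h' : l ≠ e ∨ g ≠ 1) :
    hd (g * lt l) ≠ some e := by
  by_cases hg : g = 1
  · subst hg
    rw [one_mul, hd, toWord_lt]
    rcases h' with h' | h'
    · intro h2
      exact h' (by simpa using h2)
    · exact absurd rfl h'
  · by_cases hgl : g * lt l = 1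
    · rw [hgl, hd_one]
      simp
    · rw [hd_mul_lt _ rfl hg hgl]
      exact h

/-- the letters -/
def Fr (V : Set α) (g : FreeGroup α) : Prop := ∀ l ∈ g.toWord, l.1 ∈ V

theorem Fr.one (V : Set α) : Fr V (1 : FreeGroup α) := by
  intro l hl
  rw [FreeGroup.toWord_one] at hl
  simp at hl

theorem Fr.mul {V : Set α} {g h : FreeGroup α} (hg : Fr V g) (hh : Fr V h) : Fr V (g * h) := by
  intro l hl
  rcases List.mem_append.1 ((FreeGroup.toWord_mul_sublist g h).subset hl) with h1 | h1
  · exact hg l h1
  · exact hh l h1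

theorem Fr.inv {V : Set α} {g : FreeGroup α} (hg : Fr V g) : Fr V g⁻¹ := by
  intro l hl
  rw [FreeGroup.toWord_inv, FreeGroup.invRev] at hl
  simp only [List.mem_reverse, List.mem_map] at hl
  obtain ⟨a, ha, rfl⟩ := hl
  exact hg a ha

theorem Fr.of {V : Set α} {a : α} (h : a ∈ V) : Fr V (FreeGroup.of a) := by
  intro l hl
  rw [FreeGroup.toWord_of] at hl
  have : l = (a, true) := by simpa using hl
  rw [this]
  exact h

theorem Fr.lt {V : Set α} {l : α × Bool} (h : l.1 ∈ V) : Fr V (lt l) := by
  intro l' hl'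
  rw [toWord_lt] at hl'
  have : l' = l := by simpa using hl'
  rw [this]
  exact h

theorem Fr.list {V : Set α} {l : List (FreeGroup α)} (h : ∀ g ∈ l, Fr V g) : Fr V l.prod := by
  induction l with
  | nil => exact Fr.one V
  | cons a l ih =>
    rw [List.prod_cons]
    exact (h a (by simp)).mul (ih fun g hg => h g (by simp [hg]))

theorem Fr.mono {V V' : Set α} {g : FreeGroup α} (h : Fr V g) (hV : V ⊆ V') : Fr V' g :=
  fun l hl => hV (h l hl)

theorem Fr.hd {V : Set α} {g : FreeGroup α} (h : Fr V g) {l : α × Bool} (hl : hd g = some l) :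
    l.1 ∈ V := by
  apply h
  rw [AP.hd, List.head?_eq_some_iff] at hl
  obtain ⟨L, hL⟩ := hl
  rw [hL]
  simp

/-- multiplication on the right by an element without the given letter -/
theorem N_mul {e : α × Bool} {V : Set α} (he : e.1 ∉ V) : ∀ (L : List (α × Bool)),
    (∀ l ∈ L, l.1 ∈ V) → ∀ g : FreeGroup α, hd g ≠ some e →
    hd (g * FreeGroup.mk L) ≠ some e := by
  intro L
  induction L with
  | nil =>
    intro _ g hg
    have : (FreeGroup.mk [] : FreeGroup α) = 1 := rfl
    rw [this, mul_one]
    exact hg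
  | cons l L ih =>
    intro hL g hg
    rw [mk_cons, ← mul_assoc]
    apply ih (fun a ha => hL a (by simp [ha]))
    apply N_lt hg
    left
    rintro rfl
    exact he (hL l (by simp))

theorem N_fr {e : α × Bool} {V : Set α} (he : e.1 ∉ V) {g h : FreeGroup α} (hh : Fr V h)
    (hg : hd g ≠ some e) : hd (g * h) ≠ some e := by
  have := N_mul he h.toWord hh g hg
  rwa [FreeGroup.mk_toWord] at this

/-- an element of the subgroup of `Vᶜ` in front of a word that begins with a letter in `V` -/
theorem toWord_K {V : Set α} {k g : FreeGroup α} (hk : Fr Vᶜ k)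
    (hg : ∀ l, hd g = some l → l.1 ∈ V) : (k * g).toWord = k.toWord ++ g.toWord := by
  apply toWord_mul'
  intro a ha b hb hab
  exfalso
  have h1 : a ∈ k.toWord := List.mem_of_getLast? ha
  have h2 := hk a h1
  have h3 := hg b hb
  rw [hab] at h2
  exact h2 h3

theorem hd_K {V : Set α} {k g : FreeGroup α} (hk : Fr Vᶜ k) (hk1 : k ≠ 1)
    (hg : ∀ l, hd g = some l → l.1 ∈ V) : hd (k * g) = hd k := by
  rw [hd, toWord_K hk hg, hd]
  cases h : k.toWord with
  | nil => exact absurd (FreeGroup.toWord_eq_nil_iff.1 h) hk1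
  | cons a L => rfl

section pattern

variable {V : Set α} {φ : FreeGroup α →* FreeGroup α} {u : α × Bool → FreeGroup α}

/-- a homomorphism that fixes the letters outside `V` and multiplies the letters in `V` by elements
without letters in `V` -/
structure Tw (V : Set α) (φ : FreeGroup α →* FreeGroup α) (u : α × Bool → FreeGroup α) : Prop where
  fix : ∀ a, a ∉ V → φ (FreeGroup.of a) = FreeGroup.of a
  mov : ∀ a, a ∈ V → φ (FreeGroup.of a) = u (a, true) * FreeGroup.of a * (u (a, false))⁻¹
  fr : ∀ l, Fr Vᶜ (u l)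

theorem Tw.fix_lt (h : Tw V φ u) {l : α × Bool} (hl : l.1 ∉ V) : φ (lt l) = lt l := by
  obtain ⟨a, ε⟩ := l
  cases ε
  · have : lt (a, false) = (FreeGroup.of a)⁻¹ := rfl
    rw [this, map_inv, h.fix a hl]
  · exact h.fix a hl

theorem Tw.fix_mk (h : Tw V φ u) {L : List (α × Bool)} (hL : ∀ l ∈ L, l.1 ∉ V) :
    φ (FreeGroup.mk L) = FreeGroup.mk L := by
  induction L with
  | nil => exact map_one φ
  | cons l L ih =>
    rw [mk_cons, map_mul, ih fun a ha => hL a (by simp [ha]), h.fix_lt (hL l (by simp))]

theorem Tw.mov_lt (h : Tw V φ u) {l : α × Bool} (hl : l.1 ∈ V) :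
    φ (lt l) = u l * lt l * (u (l.1, !l.2))⁻¹ := by
  obtain ⟨a, ε⟩ := l
  cases ε
  · have : lt (a, false) = (FreeGroup.of a)⁻¹ := rfl
    rw [this, map_inv, h.mov a hl]
    show (u (a, true) * FreeGroup.of a * (u (a, false))⁻¹)⁻¹ =
      u (a, false) * (FreeGroup.of a)⁻¹ * (u (a, true))⁻¹
    group
  · exact h.mov a hl

theorem fr_mk {V : Set α} {L : List (α × Bool)} (hL : ∀ l ∈ L, l.1 ∈ V) :
    Fr V (FreeGroup.mk L) := by
  induction L with
  | nil => exact Fr.one V
  | cons l L ih =>
    rw [mk_cons]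
    exact (Fr.lt (hL l (by simp))).mul (ih fun a ha => hL a (by simp [ha]))

theorem Tw.main (h : Tw V φ u) [DecidablePred (· ∈ V)] : ∀ (n : ℕ) (l : α × Bool)
    (L : List (α × Bool)), L.length = n → FreeGroup.IsReduced (l :: L) → l.1 ∈ V →
    ∃ δ, φ (FreeGroup.mk (l :: L)) = u l * (lt l * δ) ∧ hd δ ≠ some (l.1, !l.2) := by
  intro n
  induction n using Nat.strong_induction_on with
  | _ n ih =>
    intro l L hn hred hl
    set P := L.takeWhile (fun a => decide (a.1 ∉ V)) with hP
    have hPV : ∀ a ∈ P, a.1 ∉ V := by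
      intro a ha
      simpa using List.mem_takeWhile_imp ha
    have hsplit : L = P ++ L.dropWhile (fun a => decide (a.1 ∉ V)) :=
      (List.takeWhile_append_dropWhile).symm
    have hu : Fr Vᶜ (u (l.1, !l.2))⁻¹ := (h.fr _).inv
    cases hD : L.dropWhile (fun a => decide (a.1 ∉ V)) with
    | nil =>
      rw [hD, List.append_nil] at hsplit
      refine ⟨(u (l.1, !l.2))⁻¹ * FreeGroup.mk P, ?_, ?_⟩
      · rw [mk_cons, map_mul, h.mov_lt hl]
        conv_lhs => rw [hsplit, h.fix_mk hPV]
        simp only [mul_assoc]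
      · intro hh
        have := (hu.mul (fr_mk (V := Vᶜ) hPV)).hd hh
        exact this hl
    | cons l2 L3 =>
      rw [hD] at hsplit
      have hl2 : l2.1 ∈ V := by
        have := List.head?_dropWhile_not (fun a : α × Bool => decide (a.1 ∉ V)) L
        rw [hD] at this
        simpa using this
      have hred2 : FreeGroup.IsReduced (l2 :: L3) := by
        apply red_sub hred
        rw [hsplit]
        exact ⟨l :: P, [], by simp⟩
      obtain ⟨δ, hδ, hδ'⟩ := ih L3.length (by
        rw [← hn, hsplit]
        simp only [List.length_append, List.length_cons]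
        omega) l2 L3 rfl hred2 hl2
      refine ⟨(u (l.1, !l.2))⁻¹ * FreeGroup.mk P * u l2 * (lt l2 * δ), ?_, ?_⟩
      · rw [mk_cons, map_mul, h.mov_lt hl]
        conv_lhs => rw [hsplit, mk_append, map_mul, h.fix_mk hPV, hδ]
        simp only [mul_assoc]
      · have hh : ∀ l', hd (lt l2 * δ) = some l' → l'.1 ∈ V := by
          intro l' hl'
          rw [hd_cons hδ'] at hl'
          have : l2 = l' := by simpa using hl'
          rw [← this]
          exact hl2
        have hκ : Fr Vᶜ ((u (l.1, !l.2))⁻¹ * FreeGroup.mk P * u l2) :=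
          (hu.mul (fr_mk (V := Vᶜ) hPV)).mul (h.fr _)
        by_cases hκ1 : (u (l.1, !l.2))⁻¹ * FreeGroup.mk P * u l2 = 1
        · rw [hκ1, one_mul, hd_cons hδ']
          intro h5
          have h6 : l2 = (l.1, !l.2) := by simpa using h5
          rw [h6] at hκ1
          have h7 : FreeGroup.mk P = 1 := by
            have h8 := congrArg (fun x => u (l.1, !l.2) * x * (u (l.1, !l.2))⁻¹) hκ1
            simp only [mul_one, mul_inv_cancel] at h8
            rw [← h8]
            group
          have hPred : FreeGroup.IsReduced P := by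
            apply red_sub hred
            rw [hsplit]
            exact ⟨[l], l2 :: L3, by simp⟩
          have hP0 : P = [] := by
            have h9 : (FreeGroup.mk P).toWord = P := by
              rw [FreeGroup.toWord_mk, hPred.reduce_eq]
            rw [← h9, h7, FreeGroup.toWord_one]
          rw [hsplit, hP0, h6] at hred
          exact bne_self l.2 ((FreeGroup.isReduced_cons_cons.1 hred).1 rfl)
        · rw [hd_K hκ hκ1 hh]
          intro h5
          exact (hκ.hd h5) hl

/-- the image of an element -/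
theorem Tw.first (h : Tw V φ u) [DecidablePred (· ∈ V)] (g : FreeGroup α) :
    ∃ P : FreeGroup α, Fr Vᶜ P ∧ (P ≠ 1 → hd g = hd P) ∧
      ((g = P ∧ φ g = g) ∨ ∃ l ζ, l.1 ∈ V ∧ (P = 1 → hd g = some l) ∧
        φ g = P * u l * ζ ∧ ∀ l', hd ζ = some l' → l'.1 ∈ V) := by
  set L := g.toWord with hL
  set P := L.takeWhile (fun a => decide (a.1 ∉ V)) with hP
  have hPV : ∀ a ∈ P, a.1 ∉ V := by
    intro a ha
    simpa using List.mem_takeWhile_imp ha
  have hsplit : L = P ++ L.dropWhile (fun a => decide (a.1 ∉ V)) :=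
    (List.takeWhile_append_dropWhile).symm
  have hgL : g = FreeGroup.mk L := by rw [hL, FreeGroup.mk_toWord]
  have hred : FreeGroup.IsReduced L := FreeGroup.isReduced_toWord
  have hPred : FreeGroup.IsReduced P := by
    apply red_sub hred
    rw [hsplit]
    exact ⟨[], L.dropWhile (fun a => decide (a.1 ∉ V)), by simp⟩
  have hPw : (FreeGroup.mk P).toWord = P := by
    rw [FreeGroup.toWord_mk, hPred.reduce_eq]
  refine ⟨FreeGroup.mk P, fr_mk (V := Vᶜ) hPV, ?_, ?_⟩
  · intro h1
    rw [hd, hd, hPw, ← hL, hsplit]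
    cases hPc : P with
    | nil => rw [hPc] at h1; exact absurd rfl h1
    | cons a P' => rfl
  · cases hD : L.dropWhile (fun a => decide (a.1 ∉ V)) with
    | nil =>
      rw [hD, List.append_nil] at hsplit
      left
      rw [hgL, hsplit]
      exact ⟨rfl, h.fix_mk hPV⟩
    | cons l L3 =>
      rw [hD] at hsplit
      have hl : l.1 ∈ V := by
        have := List.head?_dropWhile_not (fun a : α × Bool => decide (a.1 ∉ V)) L
        rw [hD] at this
        simpa using this
      have hred2 : FreeGroup.IsReduced (l :: L3) := by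
        apply red_sub hred
        rw [hsplit]
        exact ⟨P, [], by simp⟩
      obtain ⟨δ, hδ, hδ'⟩ := h.main L3.length l L3 rfl hred2 hl
      right
      refine ⟨l, lt l * δ, hl, ?_, ?_, ?_⟩
      · intro h1
        have hP0 : P = [] := by rw [← hPw, h1, FreeGroup.toWord_one]
        rw [hd, ← hL, hsplit, hP0]
        rfl
      · conv_lhs => rw [hgL, hsplit, mk_append, map_mul, h.fix_mk hPV, hδ]
        simp only [mul_assoc]
      · intro l' hl'
        rw [hd_cons hδ'] at hl'
        have : l = l' := by simpa using hl'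
        rw [← this]
        exact hl

/-- a twist that does not involve the letter `e` preserves the words that begin with `e` -/
theorem Tw.keep (h : Tw V φ u) [DecidablePred (· ∈ V)] {e : α} (he : e ∉ V)
    (hu : ∀ l, Fr {e}ᶜ (u l)) {g : FreeGroup α} (hg : hd g = some (e, true)) :
    hd (φ g) = some (e, true) := by
  obtain ⟨P, hP, h1, h2⟩ := h.first g
  rcases h2 with ⟨_, h2⟩ | ⟨l, ζ, hl, h3, h4, h5⟩
  · rw [h2, hg]
  · have hP1 : P ≠ 1 := by
      intro hP1
      have h6 := h3 hP1
      rw [hg] at h6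
      have : (e, true) = l := by simpa using h6
      rw [← this] at hl
      exact he hl
    have hPe : hd P = some (e, true) := by rw [← h1 hP1, hg]
    obtain ⟨P', rfl, _, hP'⟩ := split_hd hPe
    have h6 : hd (P' * u l) ≠ some (e, false) :=
      N_fr (e := (e, false)) (V := {e}ᶜ) (by simp) (hu l) hP'
    have h7 : hd (lt (e, true) * P' * u l) = some (e, true) := by
      rw [mul_assoc]
      exact hd_cons h6
    rw [h4, hd_K (hP.mul (h.fr l)) ?_ h5, h7]
    intro h8
    rw [h8, hd_one] at h7
    simp at h7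

/-- the key computation: `c = e r` is a cyclic word, `U = q e p` one of its rotations -/
theorem rot_key {e : α} {r p q k : FreeGroup α} (hp : Fr {e}ᶜ p) (hq : Fr {e}ᶜ q) (hr : r = p * q)
    (hk : hd k = some (e, true)) :
    hd (lt (e, true) * r * (k * (q * lt (e, true) * p)⁻¹)) = some (e, true) := by
  have hrf : Fr {e}ᶜ r := hr ▸ hp.mul hq
  obtain ⟨κ, rfl, _, hκ⟩ := split_hd hk
  have hκ' : hd κ ≠ some (e, false) := hκ
  by_cases h1 : κ = p
  · have e1 : lt (e, true) * r * (lt (e, true) * κ * (q * lt (e, true) * p)⁻¹) =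
        lt (e, true) * p := by
      rw [h1, hr]
      group
    rw [e1]
    apply hd_cons
    intro h2
    exact (hp.hd h2) rfl
  · have e1 : lt (e, true) * r * (lt (e, true) * κ * (q * lt (e, true) * p)⁻¹) =
        lt (e, true) * (r * (lt (e, true) * (κ * p⁻¹ * (lt (e, true))⁻¹ * q⁻¹))) := by group
    have n1 : hd (κ * p⁻¹) ≠ some (e, false) :=
      N_fr (e := (e, false)) (V := {e}ᶜ) (by simp) hp.inv hκ'
    have n2 : hd (κ * p⁻¹ * (lt (e, true))⁻¹) ≠ some (e, false) := by
      rw [lt_inv]
      exact N_lt n1 (Or.inr fun h2 => h1 (mul_inv_eq_one.1 h2))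
    have n3 : hd (κ * p⁻¹ * (lt (e, true))⁻¹ * q⁻¹) ≠ some (e, false) :=
      N_fr (e := (e, false)) (V := {e}ᶜ) (by simp) hq.inv n2
    have n4 : hd (lt (e, true) * (κ * p⁻¹ * (lt (e, true))⁻¹ * q⁻¹)) = some (e, true) := hd_cons n3
    rw [e1]
    apply hd_cons
    by_cases hr1 : r = 1
    · rw [hr1, one_mul, n4]
      simp
    · rw [hd_K (V := {e}) hrf hr1 (by
        intro l hl
        rw [n4] at hl
        have : (e, true) = l := by simpa using hl
        rw [← this]
        rfl)]
      intro h2
      exact (hrf.hd h2) rfl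

theorem rot_key' {e : α} {r U k : FreeGroup α} (hrf : Fr {e}ᶜ r) (hU : Fr {e}ᶜ U)
    (hk : hd k = some (e, true)) :
    hd (lt (e, true) * r * (k * U⁻¹)) = some (e, true) := by
  have n4 : hd (k * U⁻¹) = some (e, true) := by
    obtain ⟨κ, rfl, _, hκ⟩ := split_hd hk
    rw [mul_assoc]
    apply hd_cons
    exact N_fr (e := (e, false)) (V := {e}ᶜ) (by simp) hU.inv hκ
  rw [mul_assoc]
  apply hd_cons
  by_cases hr1 : r = 1
  · rw [hr1, one_mul, n4]
    simp
  · rw [hd_K (V := {e}) hrf hr1 (by
      intro l hl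
      rw [n4] at hl
      have : (e, true) = l := by simpa using hl
      rw [← this]
      rfl)]
    intro h2
    exact (hrf.hd h2) rfl

/-- the twist along the annulus of `e` moves the words to the right -/
theorem Tw.push (h : Tw V φ u) [DecidablePred (· ∈ V)] {e : α} (he : e ∉ V) {r : FreeGroup α}
    (hr : Fr {e}ᶜ r) (hrV : Fr Vᶜ r)
    (hu : ∀ l, ∃ U, u l = U⁻¹ ∧ (Fr {e}ᶜ U ∨ ∃ p q, Fr {e}ᶜ p ∧ Fr {e}ᶜ q ∧ r = p * q ∧
      U = q * lt (e, true) * p)) {g : FreeGroup α} (hg : g = 1 ∨ hd g = some (e, true)) :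
    hd (lt (e, true) * r * φ g) = some (e, true) := by
  rcases hg with rfl | hg
  · rw [map_one, mul_one]
    apply hd_cons
    intro h2
    exact (hr.hd h2) rfl
  obtain ⟨P, hP, h1, h2⟩ := h.first g
  rcases h2 with ⟨_, h2⟩ | ⟨l, ζ, hl, h3, h4, h5⟩
  · rw [h2]
    have := rot_key' (U := 1) hr (Fr.one _) hg
    rwa [inv_one, mul_one] at this
  · have hP1 : P ≠ 1 := by
      intro hP1
      have h6 := h3 hP1
      rw [hg] at h6
      have : (e, true) = l := by simpa using h6
      rw [← this] at hl
      exact he hl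
    have hPe : hd P = some (e, true) := by rw [← h1 hP1, hg]
    have h7 : hd (lt (e, true) * r * (P * u l)) = some (e, true) := by
      obtain ⟨U, hU, hU'⟩ := hu l
      rw [hU]
      rcases hU' with hU' | ⟨p, q, hp, hq, hr', rfl⟩
      · exact rot_key' hr hU' hPe
      · exact rot_key hp hq hr' hPe
    rw [h4, ← mul_assoc, hd_K (((Fr.lt (V := Vᶜ) (l := (e, true)) he).mul hrV).mul (hP.mul (h.fr l))) ?_ h5, h7]
    intro h8
    rw [h8, hd_one] at h7
    simp at h7

end pattern

end Pool.Agent.L7h63.AP
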