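import Pool.Agent.L7h63.AP.Brick

/-!
# Two parallel chains of annuli and an arc crossing them: the twists satisfy the braid relations
-/

set_option autoImplicit false
set_option linter.unusedSimpArgs false

namespace Pool.Agent.L7h63.AP

/-- the letters of two parallel chains and of an arc -/
inductive Le : Type
  | z (c : Bool) (j : ℕ)
  | d (c : Bool) (j : ℕ)
  | w

/-- the free group of the chains -/
abbrev FL : Type := FreeGroup Le

/-- the first part of the core of the `j`-th annulus -/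
def Z (c : Bool) (j : ℕ) : FL := FreeGroup.of (Le.z c j)

/-- the second part of the core of the `j`-th annulus -/
def D (c : Bool) (j : ℕ) : FL := FreeGroup.of (Le.d c j)

/-- the arc, which crosses the annuli number `i₀` -/
def A : FL := FreeGroup.of Le.w

/-- the image of a generator under the `i`-th twist -/
def im (n i₀ i : ℕ) : Le → FL
  | Le.z c j => if j = i + 1 ∧ j ≤ n then Z c j * (Z c i * D c i)
      else if j + 1 = i ∧ 1 ≤ j then (D c i * Z c i)⁻¹ * Z c j else Z c j
  | Le.d c j => D c j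
  | Le.w => if i = i₀ then (D true i * Z true i)⁻¹ * A * (D false i * Z false i) else A

/-- the `i`-th twist of the chains of length `n` -/
def sig (n i₀ i : ℕ) : Monoid.End FL := FreeGroup.lift (im n i₀ i)

variable {i₀ : ℕ}

theorem sig_D (n i : ℕ) (c : Bool) (j : ℕ) : sig n i₀ i (D c j) = D c j := by
  show FreeGroup.lift (im n i₀ i) (FreeGroup.of (Le.d c j)) = D c j
  rw [FreeGroup.lift_apply_of]
  rfl

theorem sig_Z (n i : ℕ) (c : Bool) (j : ℕ) : sig n i₀ i (Z c j) =
    if j = i + 1 ∧ j ≤ n then Z c j * (Z c i * D c i)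
      else if j + 1 = i ∧ 1 ≤ j then (D c i * Z c i)⁻¹ * Z c j else Z c j := by
  show FreeGroup.lift (im n i₀ i) (FreeGroup.of (Le.z c j)) = _
  rw [FreeGroup.lift_apply_of]
  rfl

theorem sig_A (n i : ℕ) : sig n i₀ i A =
    if i = i₀ then (D true i * Z true i)⁻¹ * A * (D false i * Z false i) else A := by
  show FreeGroup.lift (im n i₀ i) (FreeGroup.of Le.w) = _
  rw [FreeGroup.lift_apply_of]
  rfl

theorem sig_Z1 {n i : ℕ} (c : Bool) (h : i + 1 ≤ n) :
    sig n i₀ i (Z c (i + 1)) = Z c (i + 1) * (Z c i * D c i) := by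
  rw [sig_Z, if_pos ⟨rfl, h⟩]

theorem sig_Z2 {n j : ℕ} (c : Bool) (h : 1 ≤ j) :
    sig n i₀ (j + 1) (Z c j) = (D c (j + 1) * Z c (j + 1))⁻¹ * Z c j := by
  rw [sig_Z, if_neg (by omega), if_pos ⟨rfl, h⟩]

theorem sig_Z0 {n i j : ℕ} (c : Bool) (h1 : ¬ (j = i + 1 ∧ j ≤ n)) (h2 : ¬ (j + 1 = i ∧ 1 ≤ j)) :
    sig n i₀ i (Z c j) = Z c j := by
  rw [sig_Z, if_neg h1, if_neg h2]

theorem end_ext {f g : Monoid.End FL} (h1 : ∀ c j, f (Z c j) = g (Z c j))
    (h2 : ∀ c j, f (D c j) = g (D c j)) (h3 : f A = g A) : f = g := by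
  apply FreeGroup.ext_hom
  rintro (⟨c, j⟩ | ⟨c, j⟩ | _)
  · exact h1 c j
  · exact h2 c j
  · exact h3

theorem em_apply (f g : Monoid.End FL) (x : FL) : (f * g) x = f (g x) := rfl

theorem br_sig (n i₀ : ℕ) : Br (sig n i₀) n where
  comm i j h1 h2 h3 := by
    have a1 : ∀ c, sig n i₀ i (Z c j) = Z c j := fun c => sig_Z0 c (by omega) (by omega)
    have a2 : ∀ c, sig n i₀ j (Z c i) = Z c i := fun c => sig_Z0 c (by omega) (by omega)
    apply end_ext
    · intro c k
      rw [em_apply, em_apply]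
      by_cases c1 : k = i + 1 ∧ k ≤ n
      · have b1 : sig n i₀ i (Z c k) = Z c k * (Z c i * D c i) := by rw [sig_Z, if_pos c1]
        by_cases c2 : k + 1 = j ∧ 1 ≤ k
        · have b2 : sig n i₀ j (Z c k) = (D c j * Z c j)⁻¹ * Z c k := by
            rw [sig_Z, if_neg (by omega), if_pos c2]
          rw [b1, b2]
          simp only [map_mul, map_inv, sig_D, a1, a2, b1, b2, mul_assoc]
        · have b2 : sig n i₀ j (Z c k) = Z c k := sig_Z0 c (by omega) c2
          rw [b1, b2]
          simp only [map_mul, sig_D, a2, b1, b2]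
      by_cases c3 : k + 1 = i ∧ 1 ≤ k
      · have b1 : sig n i₀ i (Z c k) = (D c i * Z c i)⁻¹ * Z c k := by
          rw [sig_Z, if_neg c1, if_pos c3]
        have b2 : sig n i₀ j (Z c k) = Z c k := sig_Z0 c (by omega) (by omega)
        rw [b1, b2]
        simp only [map_mul, map_inv, sig_D, a2, b1, b2]
      have b1 : sig n i₀ i (Z c k) = Z c k := sig_Z0 c c1 c3
      rw [b1, sig_Z n j c k]
      split_ifs
      · simp only [map_mul, sig_D, a1, b1]
      · simp only [map_mul, map_inv, sig_D, a1, b1]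
      · exact b1
    · intro c k
      rw [em_apply, em_apply, sig_D, sig_D, sig_D]
    · rw [em_apply, em_apply, sig_A, sig_A]
      split_ifs with e1 e2 e2
      · omega
      · simp only [map_mul, map_inv, sig_D, a1, sig_A, if_neg e2, if_pos e1]
      · simp only [map_mul, map_inv, sig_D, a2, sig_A, if_neg e1, if_pos e2]
      · rw [sig_A, sig_A, if_neg e1, if_neg e2]
  br i h1 h2 := by
    apply end_ext
    · intro c k
      simp only [em_apply]
      by_cases k1 : k = i + 1
      · subst k1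
        rw [sig_Z1 c h2, sig_Z0 (i := i + 1) (j := i + 1) c (by omega) (by omega), sig_Z1 c h2]
        simp only [map_mul, map_inv, sig_D, sig_Z1 c h2, sig_Z2 c h1,
          sig_Z0 (n := n) (i := i + 1) (j := i + 1) c (by omega) (by omega),
          sig_Z0 (n := n) (i := i) (j := i) c (by omega) (by omega)]
        group
      by_cases k2 : k = i
      · subst k2
        rw [sig_Z2 c h1, sig_Z0 (i := k) (j := k) c (by omega) (by omega), sig_Z2 c h1]
        simp only [map_mul, map_inv, sig_D, sig_Z1 c h2, sig_Z2 c h1,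
          sig_Z0 (n := n) (i := k + 1) (j := k + 1) c (by omega) (by omega),
          sig_Z0 (n := n) (i := k) (j := k) c (by omega) (by omega)]
        group
      by_cases k3 : k = i + 2 ∧ k ≤ n
      · obtain ⟨rfl, k4⟩ := k3
        rw [sig_Z0 (i := i) (j := i + 2) c (by omega) (by omega), sig_Z1 (i := i + 1) c (by omega)]
        simp only [map_mul, map_inv, sig_D, sig_Z1 c h2, sig_Z1 (i := i + 1) (n := n) c (by omega),
          sig_Z2 c h1,
          sig_Z0 (n := n) (i := i) (j := i + 2) c (by omega) (by omega),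
          sig_Z0 (n := n) (i := i + 1) (j := i + 1) c (by omega) (by omega),
          sig_Z0 (n := n) (i := i) (j := i) c (by omega) (by omega)]
        group
      by_cases k5 : k + 1 = i ∧ 1 ≤ k
      · obtain ⟨rfl, k6⟩ := k5
        rw [sig_Z0 (i := k + 1 + 1) (j := k) c (by omega) (by omega), sig_Z2 c k6]
        simp only [map_mul, map_inv, sig_D, sig_Z1 c h2, sig_Z2 c h1, sig_Z2 c k6,
          sig_Z0 (n := n) (i := k + 1 + 1) (j := k) c (by omega) (by omega),
          sig_Z0 (n := n) (i := k + 1 + 1) (j := k + 1 + 1) c (by omega) (by omega),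
          sig_Z0 (n := n) (i := k + 1) (j := k + 1) c (by omega) (by omega)]
        group
      · have a1 : sig n i₀ i (Z c k) = Z c k := sig_Z0 c (by omega) (by omega)
        have a2 : sig n i₀ (i + 1) (Z c k) = Z c k := sig_Z0 c (by omega) (by omega)
        rw [a1, a2, a1, a2]
    · intro c k
      simp only [em_apply, sig_D]
    · simp only [em_apply]
      by_cases e1 : i = i₀
      · subst e1
        have b1 : sig n i (i + 1) A = A := by rw [sig_A, if_neg (by omega)]
        have b2 : sig n i i A = (D true i * Z true i)⁻¹ * A * (D false i * Z false i) := by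
          rw [sig_A, if_pos rfl]
        rw [b1, b2]
        simp only [map_mul, map_inv, sig_D, b1, b2, sig_Z1 _ h2, sig_Z2 _ h1,
          sig_Z0 (n := n) (i := i) (j := i) _ (by omega) (by omega)]
        group
      by_cases e2 : i + 1 = i₀
      · subst e2
        have b1 : sig n (i + 1) i A = A := by rw [sig_A, if_neg (by omega)]
        have b2 : sig n (i + 1) (i + 1) A =
            (D true (i + 1) * Z true (i + 1))⁻¹ * A * (D false (i + 1) * Z false (i + 1)) := by
          rw [sig_A, if_pos rfl]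
        rw [b1, b2]
        simp only [map_mul, map_inv, sig_D, b1, b2, sig_Z1 _ h2, sig_Z2 _ h1,
          sig_Z0 (n := n) (i := i + 1) (j := i + 1) _ (by omega) (by omega)]
        group
      · have b1 : sig n i₀ i A = A := by rw [sig_A, if_neg e1]
        have b2 : sig n i₀ (i + 1) A = A := by rw [sig_A, if_neg e2]
        rw [b1, b2, b1, b2]

theorem row_D (n k : ℕ) (c : Bool) : ∀ m j : ℕ, row (sig n i₀) k m (D c j) = D c j := by
  intro m
  induction m with
  | zero => intro j; rfl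
  | succ m ih =>
    intro j
    by_cases h : (m + 1 + k) % 2 = 0
    · rw [row_pos h (by omega), em_apply, sig_D]
      exact ih j
    · rw [row_neg h (by omega)]
      exact ih j

/-- the rows -/
theorem row_Z (n k : ℕ) (c : Bool) : ∀ m : ℕ, m ≤ n → ∀ j : ℕ, row (sig n i₀) k m (Z c j) =
    (if 1 ≤ j ∧ j + 1 ≤ m ∧ (j + 1 + k) % 2 = 0 then (D c (j + 1) * Z c (j + 1))⁻¹ else 1) *
    Z c j *
    (if 2 ≤ j ∧ j ≤ m + 1 ∧ j ≤ n ∧ (j + 1 + k) % 2 = 0 then Z c (j - 1) * D c (j - 1)
      else 1) := by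
  intro m
  induction m with
  | zero =>
    intro _ j
    rw [if_neg (by omega), if_neg (by omega), one_mul, mul_one]
    rfl
  | succ m ih =>
    intro hm j
    have ih' := ih (by omega)
    by_cases h : (m + 1 + k) % 2 = 0
    · rw [row_pos h (by omega), em_apply]
      have e : m + 1 - 1 = m := rfl
      rw [e]
      have f1 : row (sig n i₀) k m (Z c (m + 1)) = Z c (m + 1) := by
        rw [ih', if_neg (by omega), if_neg (by omega), one_mul, mul_one]
      by_cases h1 : j = m + 1 + 1 ∧ j ≤ n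
      · obtain ⟨rfl, h3⟩ := h1
        rw [sig_Z1 c h3, map_mul, map_mul, f1, row_D, ih', if_neg (by omega), if_neg (by omega),
          if_neg (by omega), if_pos (by omega)]
        simp
      by_cases h2 : j + 1 = m + 1 ∧ 1 ≤ j
      · obtain ⟨h3, h4⟩ := h2
        have : j = m := by omega
        subst this
        rw [sig_Z2 c h4, map_mul, map_inv, map_mul, f1, row_D, ih', if_neg (by omega),
          if_pos (c := 1 ≤ j ∧ j + 1 ≤ j + 1 ∧ (j + 1 + k) % 2 = 0) (by omega)]
        have h5 : (2 ≤ j ∧ j ≤ j + 1 ∧ j ≤ n ∧ (j + 1 + k) % 2 = 0) ↔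
          (2 ≤ j ∧ j ≤ j + 1 + 1 ∧ j ≤ n ∧ (j + 1 + k) % 2 = 0) := by omega
        simp only [h5, one_mul, mul_assoc]
      · rw [sig_Z0 c h1 h2, ih']
        have h5 : (1 ≤ j ∧ j + 1 ≤ m ∧ (j + 1 + k) % 2 = 0) ↔
          (1 ≤ j ∧ j + 1 ≤ m + 1 ∧ (j + 1 + k) % 2 = 0) := by omega
        have h6 : (2 ≤ j ∧ j ≤ m + 1 ∧ j ≤ n ∧ (j + 1 + k) % 2 = 0) ↔
          (2 ≤ j ∧ j ≤ m + 1 + 1 ∧ j ≤ n ∧ (j + 1 + k) % 2 = 0) := by omega
        simp only [h5, h6]
    · rw [row_neg h (by omega)]
      have e : m + 1 - 1 = m := rfl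
      rw [e, ih']
      have h5 : (1 ≤ j ∧ j + 1 ≤ m ∧ (j + 1 + k) % 2 = 0) ↔
        (1 ≤ j ∧ j + 1 ≤ m + 1 ∧ (j + 1 + k) % 2 = 0) := by omega
      have h6 : (2 ≤ j ∧ j ≤ m + 1 ∧ j ≤ n ∧ (j + 1 + k) % 2 = 0) ↔
        (2 ≤ j ∧ j ≤ m + 1 + 1 ∧ j ≤ n ∧ (j + 1 + k) % 2 = 0) := by omega
      simp only [h5, h6]

/-- the rows -/
theorem row_A (n k : ℕ) : ∀ m : ℕ, m ≤ n → row (sig n i₀) k m A =
    if 1 ≤ i₀ ∧ i₀ ≤ m ∧ (i₀ + k) % 2 = 0 then
      (D true i₀ * Z true i₀)⁻¹ * A * (D false i₀ * Z false i₀) else A := by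
  intro m
  induction m with
  | zero =>
    intro _
    rw [if_neg (by omega)]
    rfl
  | succ m ih =>
    intro hm
    have ih' := ih (by omega)
    by_cases h : (m + 1 + k) % 2 = 0
    · rw [row_pos h (by omega), em_apply]
      have e : m + 1 - 1 = m := rfl
      rw [e]
      have f1 : ∀ c, row (sig n i₀) k m (Z c (m + 1)) = Z c (m + 1) := by
        intro c
        rw [row_Z n k c m (by omega), if_neg (by omega), if_neg (by omega), one_mul, mul_one]
      by_cases h1 : m + 1 = i₀
      · subst h1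
        rw [if_neg (by omega)] at ih'
        rw [sig_A, if_pos rfl, if_pos (by omega)]
        simp only [map_mul, map_inv, row_D, f1, ih']
      · have h5 : (1 ≤ i₀ ∧ i₀ ≤ m + 1 ∧ (i₀ + k) % 2 = 0) ↔
          (1 ≤ i₀ ∧ i₀ ≤ m ∧ (i₀ + k) % 2 = 0) := by omega
        rw [sig_A, if_neg h1, ih']
        simp only [h5]
    · rw [row_neg h (by omega)]
      have e : m + 1 - 1 = m := rfl
      have h5 : (1 ≤ i₀ ∧ i₀ ≤ m + 1 ∧ (i₀ + k) % 2 = 0) ↔
        (1 ≤ i₀ ∧ i₀ ≤ m ∧ (i₀ + k) % 2 = 0) := by omega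
      rw [e, ih']
      simp only [h5]

end Pool.Agent.L7h63.AP
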