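import Pool.Agent.L7h63.AP.Turn

/-!
# Images of lists of letters, and cyclic words
-/

set_option autoImplicit false
set_option linter.unusedSectionVars false

namespace Pool.Agent.L7h63.AP

section pattern

variable {α : Type*} [DecidableEq α]
variable {V : Set α} {φ : FreeGroup α →* FreeGroup α} {u : α × Bool → FreeGroup α}

/-- the image of a list of letters in `V` -/
def eL (u : α × Bool → FreeGroup α) : List (α × Bool) → List (α × Bool)
  | [] => []
  | [x] => [x]
  | x :: y :: F => x :: (((u (iv x))⁻¹ * u y).toWord ++ eL u (y :: F))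

theorem eL_cons (x : α × Bool) (F : List (α × Bool)) : ∃ F', eL u (x :: F) = x :: F' := by
  cases F with
  | nil => exact ⟨[], rfl⟩
  | cons y F => exact ⟨_, rfl⟩

theorem Tw.tailL (h : Tw V φ u) [DecidablePred (· ∈ V)] {B : List (α × Bool)} :
    ∀ (F : List (α × Bool)) (x : α × Bool), (∀ l ∈ x :: F, l.1 ∈ V) →
    FreeGroup.IsReduced (x :: F ++ B) →
    ∃ D, φ (FreeGroup.mk (x :: F ++ B)) = u x * FreeGroup.mk (eL u (x :: F) ++ D) ∧
      FreeGroup.IsReduced (eL u (x :: F) ++ D) := by
  intro F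
  induction F with
  | nil =>
    intro x hF hred
    obtain ⟨ε, h3, h4⟩ := h.main _ x B rfl hred (hF x (by simp))
    have h5 : (lt x * ε).toWord = x :: ε.toWord := toWord_cons h4
    refine ⟨ε.toWord, ?_, ?_⟩
    · have e1 : ([x] ++ B : List (α × Bool)) = x :: B := rfl
      rw [e1, h3]
      congr 1
      have e2 : eL u [x] ++ ε.toWord = (lt x * ε).toWord := h5.symm
      rw [e2, FreeGroup.mk_toWord]
    · have e2 : eL u [x] ++ ε.toWord = (lt x * ε).toWord := h5.symm
      rw [e2]
      exact FreeGroup.isReduced_toWord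
  | cons y F ih =>
    intro x hF hred
    have hx : x.1 ∈ V := hF x (by simp)
    have hy : y.1 ∈ V := hF y (by simp)
    obtain ⟨D, hD, hD2⟩ := ih y (fun l hl => hF l (by
      rcases List.mem_cons.1 hl with rfl | hl
      · simp
      · simp [hl])) (red_sub hred ⟨[x], [], by simp⟩)
    set Z := FreeGroup.mk (eL u (y :: F) ++ D) with hZ
    have hZw : Z.toWord = eL u (y :: F) ++ D := by
      rw [hZ, FreeGroup.toWord_mk, hD2.reduce_eq]
    have hZh : hd Z = some y := by
      obtain ⟨F', hF'⟩ := eL_cons (u := u) y F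
      rw [hd, hZw, hF']
      rfl
    set P := (u (iv x))⁻¹ * u y with hP
    have hPf : Fr Vᶜ P := (h.fr _).inv.mul (h.fr _)
    have h1 : (P * Z).toWord = P.toWord ++ Z.toWord := toWord_K hPf fun l hl => by
      rw [hZh] at hl
      have : y = l := by simpa using hl
      rw [← this]
      exact hy
    have h2 : hd (P * Z) ≠ some (x.1, !x.2) := by
      by_cases hP1 : P = 1
      · rw [hP1, one_mul, hZh]
        intro h3
        have h4 : y = (x.1, !x.2) := by simpa using h3
        have h5 : FreeGroup.IsReduced (x :: y :: (F ++ B)) := hred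
        rw [FreeGroup.isReduced_cons_cons] at h5
        have h6 := h5.1 (by rw [h4])
        rw [h4] at h6
        exact bne_self x.2 h6
      · rw [hd_K hPf hP1 (fun l hl => by
          rw [hZh] at hl
          have : y = l := by simpa using hl
          rw [← this]
          exact hy)]
        intro h3
        exact (hPf.hd h3) hx
    have h3 : (lt x * (P * Z)).toWord = x :: (P * Z).toWord := toWord_cons h2
    have h4 : eL u (x :: y :: F) ++ D = (lt x * (P * Z)).toWord := by
      rw [h3, h1, hZw]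
      simp [eL, hP]
    refine ⟨D, ?_, ?_⟩
    · have e1 : (x :: y :: F ++ B : List (α × Bool)) = x :: (y :: F ++ B) := rfl
      rw [e1, mk_cons, map_mul, h.mov_lt hx, hD, h4, FreeGroup.mk_toWord, hP]
      show u x * lt x * (u (iv x))⁻¹ * (u y * Z) = _
      simp only [mul_assoc]
    · rw [h4]
      exact FreeGroup.isReduced_toWord

theorem Tw.facL (h : Tw V φ u) [DecidablePred (· ∈ V)] {g : FreeGroup α} {x : α × Bool}
    {F : List (α × Bool)} (hF : ∀ l ∈ x :: F, l.1 ∈ V) (hg : Fac (x :: F) g.toWord) :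
    Fac (eL u (x :: F)) (φ g).toWord := by
  obtain ⟨A, B, hAB⟩ := hg
  have hred : FreeGroup.IsReduced g.toWord := FreeGroup.isReduced_toWord
  rw [hAB] at hred
  obtain ⟨D, hD, hD2⟩ := h.tailL (B := B) F x hF (red_sub hred ⟨A, [], by simp⟩)
  obtain ⟨δ, h1, h2⟩ := h.main' (A := A) (x := x) (red_sub hred ⟨[], F ++ B, by simp⟩)
    (hF x (by simp))
  have h3 : φ (FreeGroup.mk A) = δ⁻¹ * (u x)⁻¹ := by
    have h5 : FreeGroup.mk (A ++ [x]) = FreeGroup.mk A * lt x := mk_append _ _
    rw [h5, map_mul, h.mov_lt (hF x (by simp))] at h1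
    have h6 : φ (FreeGroup.mk A) * (u x * lt x * (u (iv x))⁻¹) = δ⁻¹ * lt x * (u (iv x))⁻¹ := h1
    have h7 : φ (FreeGroup.mk A) * u x = δ⁻¹ := by
      rw [mul_assoc, mul_assoc, ← mul_assoc (φ _), ← mul_assoc (φ _ * u x), ← mul_assoc] at h6
      have h8 := mul_right_cancel h6
      exact mul_right_cancel h8
    rw [← h7, mul_assoc, mul_inv_cancel, mul_one]
  have e : φ g = δ⁻¹ * FreeGroup.mk (eL u (x :: F) ++ D) := by
    have e1 : g = FreeGroup.mk A * FreeGroup.mk (x :: F ++ B) := by
      rw [← mk_append, ← FreeGroup.mk_toWord (x := g), hAB]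
      simp
    rw [e1, map_mul, h3, hD]
    simp only [mul_assoc, inv_mul_cancel_left]
  have hZw : (FreeGroup.mk (eL u (x :: F) ++ D)).toWord = eL u (x :: F) ++ D := by
    rw [FreeGroup.toWord_mk, hD2.reduce_eq]
  refine ⟨δ⁻¹.toWord, D, ?_⟩
  rw [e, toWord_mul', hZw, List.append_assoc]
  intro a ha b hb hab
  obtain ⟨F', hF'⟩ := eL_cons (u := u) x F
  have hb' : x = b := by
    rw [hd, hZw, hF'] at hb
    simpa using hb
  subst hb'
  have h5 := last_inv ha
  by_contra hne
  apply h2
  rw [h5]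
  congr 1
  refine Prod.ext hab ?_
  show (!a.2) = x.2
  cases h6 : a.2 <;> cases h7 : x.2 <;> simp_all

/-- a block of fixed letters between two letters in `V` -/
theorem Tw.segK (h : Tw V φ u) [DecidablePred (· ∈ V)] {g : FreeGroup α} {x m : α × Bool}
    {K : List (α × Bool)} (hK : ∀ l ∈ K, l.1 ∉ V)
    (hx : x.1 ∈ V) (hm : m.1 ∈ V) (hg : Fac ([x] ++ K ++ [m]) g.toWord)
    (hP : (u (iv x))⁻¹ * FreeGroup.mk K * u m ≠ 1) :
    Fac ([x] ++ ((u (iv x))⁻¹ * FreeGroup.mk K * u m).toWord ++ [m]) (φ g).toWord := by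
  obtain ⟨A, B, hAB⟩ := hg
  have hred : FreeGroup.IsReduced g.toWord := FreeGroup.isReduced_toWord
  rw [hAB] at hred
  have r1 : FreeGroup.IsReduced (A ++ [x]) := red_sub hred ⟨[], K ++ [m] ++ B, by simp⟩
  have r2 : FreeGroup.IsReduced (m :: B) := red_sub hred ⟨A ++ [x] ++ K, [], by simp⟩
  obtain ⟨δ, h1, h2⟩ := h.main' r1 hx
  obtain ⟨ε, h3, h4⟩ := h.main _ m B rfl r2 hm
  set P := (u (iv x))⁻¹ * FreeGroup.mk K * u m with hPdef
  have e : φ g = (δ⁻¹ * lt x) * P * (lt m * ε) := by
    have : g = FreeGroup.mk (A ++ [x]) * FreeGroup.mk K * FreeGroup.mk (m :: B) := by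
      rw [← mk_append, ← mk_append, ← FreeGroup.mk_toWord (x := g), hAB]
      simp
    rw [this, map_mul, map_mul, h1, h3, h.fix_mk hK, hPdef]
    simp only [mul_assoc]
  have w1 : (δ⁻¹ * lt x).toWord = δ⁻¹.toWord ++ [x] := by
    rw [toWord_mul', toWord_lt]
    intro a ha b hb hab
    have h5 := last_inv ha
    have hb' : x = b := by rw [hd, toWord_lt] at hb; simpa using hb
    subst hb'
    by_contra hne
    apply h2
    rw [h5]
    congr 1
    refine Prod.ext hab ?_
    show (!a.2) = x.2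
    cases h6 : a.2 <;> cases h7 : x.2 <;> simp_all
  have w2 : (lt m * ε).toWord = m :: ε.toWord := toWord_cons h4
  have hκ : Fr Vᶜ P := by
    refine ((h.fr _).inv.mul ?_).mul (h.fr _)
    exact fr_mk (V := Vᶜ) hK
  have w3 : ((δ⁻¹ * lt x) * P).toWord = (δ⁻¹.toWord ++ [x]) ++ P.toWord := by
    rw [toWord_mul', w1]
    intro a ha b hb hab
    exfalso
    rw [w1] at ha
    have ha' : x = a := by simpa using ha
    have h5 := hκ.hd (l := b) hb
    apply h5
    rw [← hab, ← ha']
    exact hx
  have w4 : (φ g).toWord = (δ⁻¹.toWord ++ [x]) ++ P.toWord ++ (m :: ε.toWord) := by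
    rw [e, toWord_mul', w3, w2]
    intro a ha b hb hab
    have hb' : m = b := by rw [hd, w2] at hb; simpa using hb
    subst hb'
    rw [w3] at ha
    rcases List.eq_nil_or_concat P.toWord with h5 | ⟨K', k, h5⟩
    · exact absurd (FreeGroup.toWord_eq_nil_iff.1 h5) hP
    · exfalso
      rw [h5, List.concat_eq_append, ← List.append_assoc, List.getLast?_concat] at ha
      have ha' : k = a := by simpa using ha
      have h6 := hκ k (by rw [h5]; simp)
      apply h6
      rw [ha', hab]
      exact hm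
  rw [w4]
  exact ⟨δ⁻¹.toWord, ε.toWord, by simp⟩

end pattern

end Pool.Agent.L7h63.AP
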