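import Pool.Agent.L7h63.AP.Exp
import Pool.Agent.L7h63.AP.ExpDefs
import Pool.Agent.K7.H20.AW.DefsDec

/-!
# Powers of the generators
-/

set_option autoImplicit false
set_option linter.unusedSectionVars false

namespace Pool.Agent.L7h63.AP

open Pool.Agent.K7.H20.AW

section grp

variable {G : Type*} [Group G]

theorem alt3 {s t : G} : altProd 3 s t = s * t * s := by
  simp [altProd, mul_assoc]

/-- the relation of `s ^ 2` and `t` -/
theorem br_two {s t : G} (h : s * t * s = t * s * t) :
    (s ^ 2 * t) * (s ^ 2 * t) = (t * s ^ 2) * (t * s ^ 2) := by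
  have h1 : (s ^ 2 * t) * (s ^ 2 * t) = (s * t * s) * (s * t * s) := by
    calc (s ^ 2 * t) * (s ^ 2 * t) = s * (s * t * s) * (s * t) := by simp [pow_two, mul_assoc]
      _ = s * (t * s * t) * (s * t) := by rw [h]
      _ = (s * t * s) * (t * s * t) := by simp [mul_assoc]
      _ = (s * t * s) * (s * t * s) := by rw [h]
  have h2 : (t * s ^ 2) * (t * s ^ 2) = (s * t * s) * (s * t * s) := by
    calc (t * s ^ 2) * (t * s ^ 2) = t * s * (s * t * s) * s := by simp [pow_two, mul_assoc]
      _ = t * s * (t * s * t) * s := by rw [h]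
      _ = (t * s * t) * (s * t * s) := by simp [mul_assoc]
      _ = (s * t * s) * (s * t * s) := by rw [h]
  rw [h1, h2]

/-- the relation of `s ^ 3` and `t` -/
theorem br_three {s t : G} (h : s * t * s = t * s * t) :
    (s ^ 3 * t) * (s ^ 3 * t) * (s ^ 3 * t) = (t * s ^ 3) * (t * s ^ 3) * (t * s ^ 3) := by
  set Δ := s * t * s with hΔ
  have e1 : s * Δ = Δ * t := by
    rw [hΔ]
    calc s * (s * t * s) = s * (t * s * t) := by rw [← h, hΔ]
      _ = s * t * s * t := by simp [mul_assoc]
  have e2 : t * Δ = Δ * s := by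
    calc t * Δ = t * (s * t * s) := rfl
      _ = (t * s * t) * s := by simp [mul_assoc]
      _ = Δ * s := by rw [← h]
  have h1 : (s ^ 3 * t) * (s ^ 3 * t) * (s ^ 3 * t) = Δ * Δ * (Δ * Δ) := by
    calc (s ^ 3 * t) * (s ^ 3 * t) * (s ^ 3 * t)
        = s * s * (s * t * s) * s * (s * t * s) * s * (s * t) := by simp [pow_succ, mul_assoc]
      _ = s * s * Δ * (s * Δ) * s * (s * t) := by rw [← hΔ]; simp [mul_assoc]
      _ = s * s * Δ * (Δ * t) * s * (s * t) := by rw [e1]
      _ = s * (s * Δ) * Δ * (t * s * s * t) := by simp [mul_assoc]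
      _ = s * (Δ * t) * Δ * (t * s * s * t) := by rw [e1]
      _ = (s * Δ) * (t * Δ) * (t * s * s * t) := by simp [mul_assoc]
      _ = (Δ * t) * (Δ * s) * (t * s * s * t) := by rw [e1, e2]
      _ = Δ * (t * Δ) * (s * t * s) * (s * t) := by simp [mul_assoc]
      _ = Δ * (Δ * s) * Δ * (s * t) := by rw [e2]
      _ = Δ * Δ * (s * Δ) * (s * t) := by simp [mul_assoc]
      _ = Δ * Δ * (Δ * t) * (s * t) := by rw [e1]
      _ = Δ * Δ * (Δ * (t * s * t)) := by simp [mul_assoc]
      _ = Δ * Δ * (Δ * Δ) := by rw [← h]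
  have h3 : (t * s ^ 3) * (t * s ^ 3) * (t * s ^ 3) =
      t * ((s ^ 3 * t) * (s ^ 3 * t) * (s ^ 3 * t)) * t⁻¹ := by
    group
  have h4 : t * (Δ * Δ * (Δ * Δ)) = (Δ * Δ * (Δ * Δ)) * t := by
    calc t * (Δ * Δ * (Δ * Δ)) = (t * Δ) * Δ * (Δ * Δ) := by simp [mul_assoc]
      _ = (Δ * s) * Δ * (Δ * Δ) := by rw [e2]
      _ = Δ * (s * Δ) * (Δ * Δ) := by simp [mul_assoc]
      _ = Δ * (Δ * t) * (Δ * Δ) := by rw [e1]
      _ = Δ * Δ * (t * Δ) * Δ := by simp [mul_assoc]
      _ = Δ * Δ * (Δ * s) * Δ := by rw [e2]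
      _ = Δ * Δ * Δ * (s * Δ) := by simp [mul_assoc]
      _ = Δ * Δ * Δ * (Δ * t) := by rw [e1]
      _ = _ := by simp [mul_assoc]
  rw [h3, h1, h4, mul_inv_cancel_right]

/-- the relation in the case of two generators with label `2` -/
theorem br_four {a c r : G} (h1 : a * c * a = c * a * c) (h2 : a * r * a = r * a * r)
    (h3 : c * r = r * c) (k : ℕ) :
    a ^ k * ((c * r⁻¹) * a ^ k * (c * r⁻¹)⁻¹) = ((c * r⁻¹) * a ^ k * (c * r⁻¹)⁻¹) * a ^ k := by
  have e1 : a = (c * a) * c * (c * a)⁻¹ := by
    rw [eq_mul_inv_iff_mul_eq, ← h1]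
    simp [mul_assoc]
  have e2 : (c * r⁻¹) * a * (c * r⁻¹)⁻¹ = (c * a) * r * (c * a)⁻¹ := by
    have h4 : r⁻¹ * a * r = a * r * a⁻¹ := by
      rw [eq_mul_inv_iff_mul_eq, mul_assoc, mul_assoc, inv_mul_eq_iff_eq_mul]
      rw [← mul_assoc, h2]
      simp [mul_assoc]
    calc (c * r⁻¹) * a * (c * r⁻¹)⁻¹ = c * (r⁻¹ * a * r) * c⁻¹ := by simp [mul_assoc]
      _ = c * (a * r * a⁻¹) * c⁻¹ := by rw [h4]
      _ = _ := by simp [mul_assoc]
  have e3 : a ^ k = (c * a) * c ^ k * (c * a)⁻¹ := by
    conv_lhs => rw [e1]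
    rw [conj_pow]
  have e4 : (c * r⁻¹) * a ^ k * (c * r⁻¹)⁻¹ = (c * a) * r ^ k * (c * a)⁻¹ := by
    rw [← conj_pow, e2, conj_pow]
  have h5 : c ^ k * r ^ k = r ^ k * c ^ k := (Commute.pow_pow h3 k k).eq
  have e5 : a ^ k * ((c * r⁻¹) * a ^ k * (c * r⁻¹)⁻¹) = (c * a) * (c ^ k * r ^ k) * (c * a)⁻¹ := by
    rw [e4]
    conv_lhs => rw [e3]
    group
  have e6 : ((c * r⁻¹) * a ^ k * (c * r⁻¹)⁻¹) * a ^ k = (c * a) * (r ^ k * c ^ k) * (c * a)⁻¹ := by
    rw [e4]
    conv_lhs => rw [e3]
    group
  rw [e5, e6, h5]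

theorem dih_alt : ∀ m : ℕ,
    altProd m (DihedralGroup.sr (0 : ZMod 0)) (DihedralGroup.sr 1) =
      (if m % 2 = 0 then DihedralGroup.r ((m / 2 : ℕ) : ZMod 0)
        else DihedralGroup.sr (-((m / 2 : ℕ) : ZMod 0))) ∧
    altProd m (DihedralGroup.sr (1 : ZMod 0)) (DihedralGroup.sr 0) =
      (if m % 2 = 0 then DihedralGroup.r (-((m / 2 : ℕ) : ZMod 0))
        else DihedralGroup.sr (1 + ((m / 2 : ℕ) : ZMod 0))) := by
  have hs : ∀ (m : ℕ) (a b : DihedralGroup 0), altProd (m + 1) a b = a * altProd m b a :=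
    fun _ _ _ => rfl
  intro m
  induction m with
  | zero => simp [altProd]
  | succ m ih =>
    rcases Nat.even_or_odd' m with ⟨j, rfl | rfl⟩
    · have e1 : 2 * j % 2 = 0 := by omega
      have e2 : ¬ (2 * j + 1) % 2 = 0 := by omega
      have e3 : 2 * j / 2 = j := by omega
      have e4 : (2 * j + 1) / 2 = j := by omega
      rw [if_pos e1, if_pos e1, e3] at ih
      rw [if_neg e2, if_neg e2, e4, hs, hs, ih.1, ih.2, DihedralGroup.sr_mul_r,
        DihedralGroup.sr_mul_r]
      simp
    · have e1 : (2 * j + 1 + 1) % 2 = 0 := by omega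
      have e2 : ¬ (2 * j + 1) % 2 = 0 := by omega
      have e3 : (2 * j + 1 + 1) / 2 = j + 1 := by omega
      have e4 : (2 * j + 1) / 2 = j := by omega
      rw [if_neg e2, if_neg e2, e4] at ih
      rw [if_pos e1, if_pos e1, e3, hs (2 * j + 1), hs (2 * j + 1), ih.1, ih.2, DihedralGroup.sr_mul_sr,
        DihedralGroup.sr_mul_sr]
      constructor
      · congr 1
        push_cast
        ring
      · congr 1
        push_cast
        ring

theorem dih_ne {m : ℕ} (hm : 1 ≤ m) :
    altProd m (DihedralGroup.sr (0 : ZMod 0)) (DihedralGroup.sr 1) ≠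
      altProd m (DihedralGroup.sr (1 : ZMod 0)) (DihedralGroup.sr 0) := by
  rw [(dih_alt m).1, (dih_alt m).2]
  split_ifs with h
  · intro h1
    have h2 : ((m / 2 : ℕ) : ZMod 0) = -((m / 2 : ℕ) : ZMod 0) := by simpa using h1
    have h3 : ((m / 2 : ℕ) : ℤ) = -((m / 2 : ℕ) : ℤ) := h2
    omega
  · intro h1
    have h2 : -((m / 2 : ℕ) : ZMod 0) = 1 + ((m / 2 : ℕ) : ZMod 0) := by simpa using h1
    have h3 : -((m / 2 : ℕ) : ℤ) = 1 + ((m / 2 : ℕ) : ℤ) := h2
    omega

/-- two permutations -/
def pa : Equiv.Perm (Fin 4) := Equiv.swap 2 3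

/-- two permutations -/
def pb : Equiv.Perm (Fin 4) := Equiv.swap 0 1 * Equiv.swap 1 2

theorem perm_two : (pa * pb) * (pa * pb) ≠ (pb * pa) * (pb * pa) := by decide

theorem perm_three : (pa * pb) * (pa * pb) * (pa * pb) ≠ (pb * pa) * (pb * pa) * (pb * pa) := by
  decide

theorem perm_comm : pa * (pb * pa * pb⁻¹) ≠ pb * pa * pb⁻¹ * pa := by decide

end grp

section hom

variable {S : Type*} [DecidableEq S] {M : CoxeterMatrix S}

theorem dec_em {i j : S} (h : i ≠ j) : decouple M ∅ i j = if M i j = 2 then 2 else 0 := by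
  show (if i = j then 1 else if M i j = 2 ∨ (i ∈ (∅ : Finset S) ∧ j ∈ (∅ : Finset S))
    then M i j else 0) = _
  rw [if_neg h]
  by_cases h2 : M i j = 2
  · rw [if_pos (Or.inl h2), if_pos h2, h2]
  · rw [if_neg (by
      rintro (h3 | h3)
      · exact h2 h3
      · simp at h3), if_neg h2]

/-- homomorphisms of the right-angled group -/
theorem raag_hom {H : Type*} [Group H] (h : S → H) (hc : ∀ i j, M i j = 2 → h i * h j = h j * h i) :
    ∃ φ : ArtinGroup (decouple M ∅) →* H, ∀ i, φ (PresentedGroup.of i) = h i := by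
  refine ⟨PresentedGroup.toGroup (f := h) ?_, fun i => PresentedGroup.toGroup.of _⟩
  rintro _ ⟨s, t, rfl⟩
  rw [map_mul, map_inv, map_altProd, map_altProd, FreeGroup.lift_apply_of,
    FreeGroup.lift_apply_of, mul_inv_eq_one]
  by_cases hst : s = t
  · rw [hst]
  · rw [dec_em hst]
    split_ifs with h2
    · simp only [altProd, mul_one]
      exact hc s t h2
    · rfl

/-- a quotient -/
theorem raag_two {H : Type*} [Group H] {s t : S} (hst : s ≠ t) (h2 : M s t ≠ 2) (x y : H) :
    ∃ φ : ArtinGroup (decouple M ∅) →* H, φ (PresentedGroup.of s) = x ∧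
      φ (PresentedGroup.of t) = y ∧ ∀ r, r ≠ s → r ≠ t → φ (PresentedGroup.of r) = 1 := by
  obtain ⟨φ, hφ⟩ := raag_hom (M := M) (fun r => if r = s then x else if r = t then y else 1) (by
    intro i j hij
    have h2' : M t s ≠ 2 := by rw [M.symmetric]; exact h2
    by_cases h1 : i = s
    · subst h1
      by_cases h3 : j = i
      · subst h3
        rfl
      · have h4 : j ≠ t := by
          rintro rfl
          exact h2 hij
        simp [h3, h4]
    · by_cases h3 : i = t
      · subst h3
        have h4 : j ≠ s := by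
          rintro rfl
          exact h2' hij
        by_cases h5 : j = i
        · subst h5
          rfl
        · simp [h4, h5]
      · simp [h1, h3])
  refine ⟨φ, ?_, ?_, ?_⟩
  · rw [hφ, if_pos rfl]
  · rw [hφ, if_neg hst.symm, if_pos rfl]
  · intro r hr hr'
    rw [hφ, if_neg hr, if_neg hr']

theorem art_rel (s t : S) :
    altProd (M s t) (PresentedGroup.of s : ArtinGroup M) (PresentedGroup.of t) =
      altProd (M s t) (PresentedGroup.of t) (PresentedGroup.of s) := by
  have h := PresentedGroup.one_of_mem (rels := {r : FreeGroup S | ∃ s t : S, r =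
    altProd (M s t) (FreeGroup.of s) (FreeGroup.of t) *
      (altProd (M s t) (FreeGroup.of t) (FreeGroup.of s))⁻¹}) ⟨s, t, rfl⟩
  rw [map_mul, map_inv, map_altProd, map_altProd, mul_inv_eq_one] at h
  exact h

theorem art_comm {s t : S} (h : M s t = 2) :
    (PresentedGroup.of s : ArtinGroup M) * PresentedGroup.of t =
      PresentedGroup.of t * PresentedGroup.of s := by
  have h1 := art_rel (M := M) s t
  rw [h] at h1
  simpa [altProd] using h1

theorem art_three {s t : S} (h : M s t = 3) :
    (PresentedGroup.of s : ArtinGroup M) * PresentedGroup.of t * PresentedGroup.of s =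
      PresentedGroup.of t * PresentedGroup.of s * PresentedGroup.of t := by
  have h1 := art_rel (M := M) s t
  rw [h, alt3, alt3] at h1
  exact h1

/-- the powers of the generators -/
theorem pow_hom (k : S → ℕ) :
    ∃ f : ArtinGroup (decouple M ∅) →* ArtinGroup M,
      ∀ s, f (PresentedGroup.of s) = PresentedGroup.of s ^ k s :=
  raag_hom (fun s => PresentedGroup.of s ^ k s) fun i j h =>
    (Commute.pow_pow (art_comm h) (k i) (k j)).eq

/-- the powers satisfy other relations if they are too small -/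
theorem not_inj {k : S → ℕ} (hk : ∀ s, 1 ≤ k s)
    {f : ArtinGroup (decouple M ∅) →* ArtinGroup M}
    (hf : ∀ s, f (PresentedGroup.of s) = PresentedGroup.of s ^ k s)
    (hi : Function.Injective f) : Fits M k := by
  have small : ∀ s t, s ≠ t → M s t ≠ 2 → M s t ≠ 0 → ¬ (k s = 1 ∧ k t = 1) := by
    rintro s t hst h2 h0 ⟨hs, ht⟩
    have h1 : f (altProd (M s t) (PresentedGroup.of s) (PresentedGroup.of t)) =
        f (altProd (M s t) (PresentedGroup.of t) (PresentedGroup.of s)) := by
      rw [map_altProd, map_altProd, hf, hf, hs, ht, pow_one, pow_one]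
      exact art_rel s t
    obtain ⟨φ, h3, h4, _⟩ := raag_two hst h2 (DihedralGroup.sr (0 : ZMod 0)) (DihedralGroup.sr 1)
    have h5 := congrArg φ (hi h1)
    rw [map_altProd, map_altProd, h3, h4] at h5
    exact dih_ne (by omega) h5
  have two : ∀ s t, M s t = 3 → ¬ (k s = 2 ∧ k t = 1) := by
    rintro s t h ⟨hs, ht⟩
    have hst : s ≠ t := by
      rintro rfl
      rw [M.diagonal] at h
      omega
    have h1 : f ((PresentedGroup.of s * PresentedGroup.of t) *
        (PresentedGroup.of s * PresentedGroup.of t)) =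
        f ((PresentedGroup.of t * PresentedGroup.of s) *
        (PresentedGroup.of t * PresentedGroup.of s)) := by
      simp only [map_mul, hf, hs, ht, pow_one]
      exact br_two (art_three h)
    obtain ⟨φ, h3, h4, _⟩ := raag_two (M := M) hst (by omega) pa pb
    have h5 := congrArg φ (hi h1)
    simp only [map_mul, h3, h4] at h5
    exact perm_two h5
  have three : ∀ s t, M s t = 3 → ¬ (k s = 3 ∧ k t = 1) := by
    rintro s t h ⟨hs, ht⟩
    have hst : s ≠ t := by
      rintro rfl
      rw [M.diagonal] at h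
      omega
    have h1 : f ((PresentedGroup.of s * PresentedGroup.of t) *
        (PresentedGroup.of s * PresentedGroup.of t) *
        (PresentedGroup.of s * PresentedGroup.of t)) =
        f ((PresentedGroup.of t * PresentedGroup.of s) *
        (PresentedGroup.of t * PresentedGroup.of s) *
        (PresentedGroup.of t * PresentedGroup.of s)) := by
      simp only [map_mul, hf, hs, ht, pow_one]
      exact br_three (art_three h)
    obtain ⟨φ, h3, h4, _⟩ := raag_two (M := M) hst (by omega) pa pb
    have h5 := congrArg φ (hi h1)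
    simp only [map_mul, h3, h4] at h5
    exact perm_three h5
  refine ⟨?_, ?_, ?_⟩
  · intro s t h
    have hst : s ≠ t := by
      rintro rfl
      rw [M.diagonal] at h
      omega
    have h' : M t s = 3 := by rw [M.symmetric]; exact h
    have c1 := small s t hst (by omega) (by omega)
    have c2 := two s t h
    have c3 := two t s h'
    have c4 := three s t h
    have c5 := three t s h'
    have ks := hk s
    have kt := hk t
    by_contra hlt
    push Not at hlt
    have b1 : k s ≤ 3 := by nlinarith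
    have b2 : k t ≤ 3 := by nlinarith
    interval_cases k s <;> interval_cases k t <;> simp_all
  · intro s t h
    have hst : s ≠ t := by
      rintro rfl
      rw [M.diagonal] at h
      omega
    have c1 := small s t hst (by omega) (by omega)
    have ks := hk s
    have kt := hk t
    by_contra hlt
    push Not at hlt
    apply c1
    constructor
    · nlinarith
    · nlinarith
  · intro a c r hac har hcr
    have kc := hk c
    have kr := hk r
    by_contra hlt
    push Not at hlt
    have hc1 : k c = 1 := by nlinarith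
    have hr1 : k r = 1 := by nlinarith
    have hne : a ≠ c := by
      rintro rfl
      rw [M.diagonal] at hac
      omega
    have hra : r ≠ a := by
      rintro rfl
      rw [M.diagonal] at har
      omega
    have hrc : r ≠ c := by
      rintro rfl
      rw [M.diagonal] at hcr
      omega
    have h1 : f (PresentedGroup.of a * ((PresentedGroup.of c * (PresentedGroup.of r)⁻¹) *
        PresentedGroup.of a * (PresentedGroup.of c * (PresentedGroup.of r)⁻¹)⁻¹)) =
        f (((PresentedGroup.of c * (PresentedGroup.of r)⁻¹) *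
        PresentedGroup.of a * (PresentedGroup.of c * (PresentedGroup.of r)⁻¹)⁻¹) *
          PresentedGroup.of a) := by
      simp only [map_mul, map_inv, hf, hc1, hr1, pow_one]
      exact br_four (art_three hac) (art_three har) (art_comm hcr) (k a)
    obtain ⟨φ, h3, h4, h6⟩ := raag_two (M := M) hne (by omega) pa pb
    have h5 := congrArg φ (hi h1)
    simp only [map_mul, map_inv, h3, h4, h6 r hra hrc, inv_one, mul_one] at h5
    exact perm_comm h5

end hom

end Pool.Agent.L7h63.AP
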