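import Pool.Agent.L7h63.AP.Rel
import Pool.Agent.L7h63.AP.Head

/-!
# Words with a positive generator
-/

set_option autoImplicit false
set_option linter.unusedSectionVars false

namespace Pool.Agent.L7h63.AP

open Pool.Agent.K7.H20.AW

variable {S : Type*} [DecidableEq S]

/-- one more generator, joined to `b` by the label `3` and commuting with the others -/
def star (M : CoxeterMatrix S) (b : S) : CoxeterMatrix (Option S) where
  M := Matrix.of fun i j => match i, j with
    | none, none => 1
    | none, some x => if x = b then 3 else 2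
    | some x, none => if x = b then 3 else 2
    | some x, some y => M x y
  isSymm := by
    ext i j
    rcases i with _ | i <;> rcases j with _ | j <;>
      simp only [Matrix.transpose_apply, Matrix.of_apply]
    exact M.symmetric _ _
  diagonal i := by
    rcases i with _ | i
    · rfl
    · exact M.diagonal i
  off_diagonal i j h := by
    rcases i with _ | i <;> rcases j with _ | j
    · exact absurd rfl h
    · show (if j = b then 3 else 2) ≠ 1
      split_ifs <;> norm_num
    · show (if i = b then 3 else 2) ≠ 1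
      split_ifs <;> norm_num
    · exact M.off_diagonal i j fun h' => h (by rw [h'])

theorem star_some (M : CoxeterMatrix S) (b x y : S) : star M b (some x) (some y) = M x y := rfl

theorem star_b (M : CoxeterMatrix S) (b : S) : star M b (some b) none = 3 := by
  show (if b = b then 3 else 2) = 3
  rw [if_pos rfl]

variable [Fintype S]

/-- the cyclic order of the ports -/
noncomputable def Li (S : Type*) [Fintype S] : List (Option S) :=
  none :: ((Finset.univ : Finset S).toList.map some)

theorem Li_nodup : (Li S).Nodup := by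
  rw [Li, List.nodup_cons]
  refine ⟨by simp, ?_⟩
  exact (Finset.nodup_toList _).map (Option.some_injective S)

theorem Li_mem (a : Option S) : a ∈ Li S := by
  rcases a with _ | a
  · simp [Li]
  · simp [Li]

theorem one_le_len {S : Type*} [DecidableEq S] (M : CoxeterMatrix S) {s t : S} (h : s ≠ t) :
    1 ≤ len M 1 s t := by
  rw [len]
  split_ifs with h0
  · exact le_rfl
  · have := M.off_diagonal s t h
    omega

theorem good_one {S : Type*} [DecidableEq S] (M : CoxeterMatrix S) : Good M 1 fun _ => 1 :=
  fun _ _ h => ⟨le_rfl, one_le_len M h⟩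

section fr

variable {S : Type*} [DecidableEq S] [DecidableEq (Vx S × S)] {M : CoxeterMatrix S} {L : List S}

theorem fr_X (v : Vx S) (t : S) : Fr {z | z.1 = v} (X v t) := Fr.of rfl

theorem fr_R (v : Vx S) (t : S) : Fr {z | z.1 = v} (Rr L v t) := by
  apply Fr.list
  intro g hg
  obtain ⟨a, _, rfl⟩ := List.mem_map.1 hg
  exact fr_X v a

theorem fr_up (s : S) (u : Vx S) : Fr {z | z.1.1 = s} (up M 1 L s u) := by
  rw [up]
  split_ifs
  · refine (Fr.inv (Fr.mul (fr_R _ _) (fr_X _ _))).mono ?_
    rintro z hz
    show z.1.1 = s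
    rw [show z.1 = _ from hz]
    rfl
  · exact Fr.one _

theorem fr_dn (s : S) (u : Vx S) : Fr {z | z.1.1 = s} (dn M 1 L s u) := by
  rw [dn]
  split_ifs
  · refine (Fr.mul (fr_X _ _) (fr_R _ _)).mono ?_
    rintro z hz
    show z.1.1 = s
    rw [show z.1 = _ from hz]
    rfl
  · exact Fr.one _

/-- the letters moved by `T s` -/
def Vs (s : S) : Set (Vx S × S) := {z | z.2 = s ∧ z.1.1 ≠ s}

variable (M L) in
/-- the factors of `T s` -/
noncomputable def us (s : S) (l : (Vx S × S) × Bool) : FG S :=
  if l.2 = true then up M 1 L s l.1.1 else (dn M 1 L s l.1.1)⁻¹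

variable (M L) in
/-- the factors of the inverse -/
noncomputable def ui (s : S) (l : (Vx S × S) × Bool) : FG S :=
  if l.2 = true then (up M 1 L s l.1.1)⁻¹ else dn M 1 L s l.1.1

theorem fr_us (s : S) (l : (Vx S × S) × Bool) : Fr {z | z.1.1 = s} (us M L s l) := by
  rw [us]
  split_ifs
  · exact fr_up _ _
  · exact (fr_dn _ _).inv

theorem fr_ui (s : S) (l : (Vx S × S) × Bool) : Fr {z | z.1.1 = s} (ui M L s l) := by
  rw [ui]
  split_ifs
  · exact (fr_up _ _).inv
  · exact fr_dn _ _

theorem tw_T (s : S) : Tw (Vs s) (T M 1 L s : FG S →* FG S) (us M L s) where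
  fix := by
    rintro ⟨v, r⟩ h
    apply T_X0 (v := v) (r := r)
    by_contra hc
    push Not at hc
    exact h hc
  mov := by
    rintro ⟨v, r⟩ ⟨h1, h2⟩
    have h1' : r = s := h1
    subst h1'
    have : us M L r ((v, r), false) = (dn M 1 L r v)⁻¹ := rfl
    rw [this, inv_inv]
    exact T_X1 (v := v) h2
  fr := fun l => (fr_us s l).mono fun z hz h => h.2 hz

theorem tw_Ti (s : S) : Tw (Vs s) (Ti M 1 L s : FG S →* FG S) (ui M L s) where
  fix := by
    rintro ⟨v, r⟩ h
    apply Ti_X0 (v := v) (r := r)
    by_contra hc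
    push Not at hc
    exact h hc
  mov := by
    rintro ⟨v, r⟩ ⟨h1, h2⟩
    have h1' : r = s := h1
    subst h1'
    exact Ti_X1 (v := v) h2
  fr := fun l => (fr_ui s l).mono fun z hz h => h.2 hz

end fr

section main

variable (M : CoxeterMatrix S) (b : S)

/-- the base annulus -/
def v0 : Vx (Option S) := (some b, fun _ => 1)

/-- the arc that crosses the base annulus only -/
def dd : FG (Option S) :=
  X (none, Function.update (fun _ => 1) s(some b, none) 2) (some b)

/-- the base letter -/
def ee : Vx (Option S) × Option S := (v0 b, none)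

/-- the rest of the core of the base annulus -/
noncomputable def rr : FG (Option S) := Rr (Li S) (v0 b) none

theorem len_b : len (star M b) 1 (some b) none = 2 := by
  rw [len, star_b]
  rfl

theorem T_dd : T (star M b) 1 (Li S) (some b) (dd b) = dd b * (lt (ee b, true) * rr b) := by
  have hne : (none : Option S) ≠ some b := by simp
  have hg : Good (star M b) 1 (Function.update (fun _ => 1) s(some b, none) 2) :=
    good_update (good_one _) (by norm_num) (by rw [len_b])
  have e : Function.update (fun _ => 1) s(some b, none) 2 s(some b, (none : Option S)) = 2 :=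
    Function.update_self _ _ _
  have h1 : up (star M b) 1 (Li S) (some b)
      (none, Function.update (fun _ => 1) s(some b, (none : Option S)) 2) = 1 := by
    rw [up, if_neg]
    rintro ⟨_, h⟩
    have h' : Function.update (fun _ => 1) s(some b, none) 2 s(some b, (none : Option S)) + 1 ≤
      len (star M b) 1 (some b) none := h
    rw [e, len_b] at h'
    omega
  have h2 : dn (star M b) 1 (Li S) (some b)
      (none, Function.update (fun _ => 1) s(some b, (none : Option S)) 2) =
      lt (ee b, true) * rr b := by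
    have e2 : nb (none, Function.update (fun _ => 1) s(some b, (none : Option S)) 2) (some b)
        (Function.update (fun _ => 1) s(some b, none) 2 s(some b, (none : Option S)) - 1) =
        v0 b := by
      rw [e]
      unfold nb v0
      simp only [Function.update_idem]
      congr 1
      exact Function.update_eq_self _ _
    rw [dn, if_pos ⟨hg, e.ge⟩]
    show X (nb (none, Function.update (fun _ => 1) s(some b, (none : Option S)) 2) (some b)
        (Function.update (fun _ => 1) s(some b, none) 2 s(some b, (none : Option S)) - 1)) none *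
      Rr (Li S) (nb (none, Function.update (fun _ => 1) s(some b, (none : Option S)) 2) (some b)
        (Function.update (fun _ => 1) s(some b, none) 2 s(some b, (none : Option S)) - 1)) none = _
    rw [e2]
    rfl
  rw [dd, T_X1 hne, h1, h2, one_mul]

theorem T_dd' {x : S} (hx : x ≠ b) : T (star M b) 1 (Li S) (some x) (dd b) = dd b :=
  T_X0 (Or.inl fun h => hx (Option.some_injective _ h).symm)

theorem Ti_dd' {x : S} (hx : x ≠ b) : Ti (star M b) 1 (Li S) (some x) (dd b) = dd b :=
  Ti_X0 (Or.inl fun h => hx (Option.some_injective _ h).symm)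

noncomputable section

open Classical

theorem T_keep {x : S} (hx : x ≠ b) {g : FG (Option S)} (hg : hd g = some (ee b, true)) :
    hd (T (star M b) 1 (Li S) (some x) g) = some (ee b, true) := by
  apply (tw_T (M := star M b) (L := Li S) (some x)).keep (e := ee b) ?_ ?_ hg
  · rintro ⟨h, _⟩
    have h' : (none : Option S) = some x := h
    simp at h'
  · intro l
    refine (fr_us (some x) l).mono ?_
    rintro z hz h
    have h1 : z.1.1 = some x := hz
    have h2 : z = ee b := h
    rw [h2] at h1
    have h3 : some b = some x := h1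
    exact hx (Option.some_injective _ h3).symm

theorem Ti_keep {x : S} (hx : x ≠ b) {g : FG (Option S)} (hg : hd g = some (ee b, true)) :
    hd (Ti (star M b) 1 (Li S) (some x) g) = some (ee b, true) := by
  apply (tw_Ti (M := star M b) (L := Li S) (some x)).keep (e := ee b) ?_ ?_ hg
  · rintro ⟨h, _⟩
    have h' : (none : Option S) = some x := h
    simp at h'
  · intro l
    refine (fr_ui (some x) l).mono ?_
    rintro z hz h
    have h1 : z.1.1 = some x := hz
    have h2 : z = ee b := h
    rw [h2] at h1
    have h3 : some b = some x := h1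
    exact hx (Option.some_injective _ h3).symm

theorem fr_map {P : List (Option S)} (hP : ∀ a ∈ P, a ≠ none) :
    Fr {ee b}ᶜ ((P.map (X (v0 b))).prod) := by
  apply Fr.list
  intro g hg
  obtain ⟨a, ha, rfl⟩ := List.mem_map.1 hg
  apply Fr.of
  intro h
  have h' : ((v0 b, a) : Vx (Option S) × Option S) = (v0 b, none) := h
  exact hP a ha (congrArg Prod.snd h')

theorem fr_rr : Fr {ee b}ᶜ (rr b) := fr_map b fun _ ha => ne_of_mem_rest Li_nodup ha

theorem rot (v : Vx (Option S)) (t : Option S) {U : FG (Option S)}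
    (hU : U = Rr (Li S) v t * X v t ∨ U = X v t * Rr (Li S) v t) :
    Fr {ee b}ᶜ U ∨ ∃ p q, Fr {ee b}ᶜ p ∧ Fr {ee b}ᶜ q ∧ rr b = p * q ∧
      U = q * lt (ee b, true) * p := by
  by_cases hv : v = v0 b
  · subst hv
    right
    by_cases ht : t = none
    · subst ht
      rcases hU with rfl | rfl
      · exact ⟨1, rr b, Fr.one _, fr_rr b, (one_mul _).symm, (mul_one _).symm⟩
      · exact ⟨rr b, 1, fr_rr b, Fr.one _, (mul_one _).symm, by rw [one_mul]; rfl⟩
    · obtain ⟨P, Q, hP, hQ⟩ := rest_two (t := none) (r := t) Li_nodup (Li_mem _) (Li_mem _) ht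
      have hP' : ∀ a ∈ P, a ≠ none := fun a ha =>
        ne_of_mem_rest (t := none) (L := Li S) Li_nodup (by rw [hP]; simp [ha])
      have hQ' : ∀ a ∈ Q, a ≠ none := fun a ha =>
        ne_of_mem_rest (t := none) (L := Li S) Li_nodup (by rw [hP]; simp [ha])
      have hX : Fr {ee b}ᶜ (X (v0 b) t) := by
        have := fr_map b (P := [t]) (by simpa using ht)
        simpa using this
      have e1 : rr b = (P.map (X (v0 b))).prod * X (v0 b) t * (Q.map (X (v0 b))).prod := by
        rw [rr, Rr, hP]
        simp [mul_assoc]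
      have e2 : Rr (Li S) (v0 b) t =
          (Q.map (X (v0 b))).prod * lt (ee b, true) * (P.map (X (v0 b))).prod := by
        rw [Rr, hQ]
        simp only [List.map_append, List.prod_append, List.map_cons, List.prod_cons, mul_assoc]
        rfl
      rcases hU with rfl | rfl
      · refine ⟨(P.map (X (v0 b))).prod * X (v0 b) t, (Q.map (X (v0 b))).prod,
          (fr_map b hP').mul hX, fr_map b hQ', e1, ?_⟩
        rw [e2]
        simp only [mul_assoc]
      · refine ⟨(P.map (X (v0 b))).prod, X (v0 b) t * (Q.map (X (v0 b))).prod,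
          fr_map b hP', hX.mul (fr_map b hQ'), by rw [e1]; simp only [mul_assoc], ?_⟩
        rw [e2]
        simp only [mul_assoc]
  · left
    have h1 : ({z | z.1 = v} : Set (Vx (Option S) × Option S)) ⊆ {ee b}ᶜ := by
      rintro z hz h
      apply hv
      have h2 : z = ee b := h
      have h3 : z.1 = v := hz
      rw [← h3, h2]
      rfl
    rcases hU with rfl | rfl
    · exact ((fr_R v t).mul (fr_X v t)).mono h1
    · exact ((fr_X v t).mul (fr_R v t)).mono h1

theorem T_push {g : FG (Option S)} (hg : g = 1 ∨ hd g = some (ee b, true)) :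
    hd (lt (ee b, true) * rr b * T (star M b) 1 (Li S) (some b) g) = some (ee b, true) := by
  apply (tw_T (M := star M b) (L := Li S) (some b)).push (e := ee b) ?_ (fr_rr b) ?_ ?_ hg
  · rintro ⟨h, _⟩
    have h' : (none : Option S) = some b := h
    simp at h'
  · refine (fr_R (v0 b) none).mono ?_
    rintro z hz h
    apply h.2
    rw [show z.1 = v0 b from hz]
    rfl
  · rintro ⟨z, ε⟩
    rcases ε with _ | _
    · -- the right factor
      show ∃ U, (dn (star M b) 1 (Li S) (some b) z.1)⁻¹ = U⁻¹ ∧ _
      refine ⟨dn (star M b) 1 (Li S) (some b) z.1, rfl, ?_⟩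
      by_cases hc : Good (star M b) 1 z.1.2 ∧ 2 ≤ z.1.2 s(some b, z.1.1)
      · exact rot b _ _ (Or.inr (by rw [dn, if_pos hc]))
      · left
        rw [dn, if_neg hc]
        exact Fr.one _
    · show ∃ U, up (star M b) 1 (Li S) (some b) z.1 = U⁻¹ ∧ _
      by_cases hc : Good (star M b) 1 z.1.2 ∧
          z.1.2 s(some b, z.1.1) + 1 ≤ len (star M b) 1 (some b) z.1.1
      · exact ⟨_, by rw [up, if_pos hc], rot b _ _ (Or.inl rfl)⟩
      · exact ⟨1, by rw [up, if_neg hc, inv_one], Or.inl (Fr.one _)⟩

/-- the generators act by automorphisms -/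
def uni (s : S) : (Monoid.End (FG (Option S)))ˣ :=
  ⟨T (star M b) 1 (Li S) (some s), Ti (star M b) 1 (Li S) (some s), T_Ti Li_nodup, Ti_T Li_nodup⟩

theorem map_altProd {G H : Type*} [Monoid G] [Monoid H] (f : G →* H) : ∀ (m : ℕ) (x y : G),
    f (altProd m x y) = altProd m (f x) (f y) := by
  intro m
  induction m with
  | zero => intro x y; exact map_one f
  | succ m ih => intro x y; rw [altProd, altProd, map_mul, ih]

/-- the action -/
def rep : ArtinGroup M →* (Monoid.End (FG (Option S)))ˣ :=
  PresentedGroup.toGroup (f := uni M b) (by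
    rintro _ ⟨s, t, rfl⟩
    rw [map_mul, map_inv, map_altProd, map_altProd, FreeGroup.lift_apply_of,
      FreeGroup.lift_apply_of, mul_inv_eq_one]
    apply Units.ext
    have h := T_rel (M := star M b) (κ := 1) (L := Li S) Li_nodup Li_mem (some s) (some t)
    have h1 := map_altProd (Units.coeHom (Monoid.End (FG (Option S)))) (M s t) (uni M b s)
      (uni M b t)
    have h2 := map_altProd (Units.coeHom (Monoid.End (FG (Option S)))) (M s t) (uni M b t)
      (uni M b s)
    exact h1.trans (h.trans h2.symm))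

theorem rep_of (s : S) : rep M b (PresentedGroup.of s) = uni M b s :=
  PresentedGroup.toGroup.of _

/-- the images of the arc -/
def Im0 (y : FG (Option S)) : Prop := ∃ γ, (γ = 1 ∨ hd γ = some (ee b, true)) ∧ y = dd b * γ

/-- the images of the arc that are moved to the right -/
def Im1 (y : FG (Option S)) : Prop := ∃ γ, hd γ = some (ee b, true) ∧ y = dd b * γ

variable {b}

theorem Im1.im0 {y : FG (Option S)} (h : Im1 b y) : Im0 b y := by
  obtain ⟨γ, h1, h2⟩ := h
  exact ⟨γ, Or.inr h1, h2⟩

theorem pow_pres {R : FG (Option S) → Prop} {f : Monoid.End (FG (Option S))}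
    (h : ∀ y, R y → R (f y)) : ∀ (n : ℕ) (y : FG (Option S)), R y → R ((f ^ n) y) := by
  intro n
  induction n with
  | zero => intro y hy; rw [pow_zero]; exact hy
  | succ n ih =>
    intro y hy
    rw [pow_succ']
    exact h _ (ih y hy)

theorem uni_pres {R : FG (Option S) → Prop} {x : S}
    (h : ∀ y, R y → R (T (star M b) 1 (Li S) (some x) y))
    (h' : ∀ y, R y → R (Ti (star M b) 1 (Li S) (some x) y)) (k : ℤ) (y : FG (Option S))
    (hy : R y) : R (((uni M b x ^ k : (Monoid.End (FG (Option S)))ˣ) :
      Monoid.End (FG (Option S))) y) := by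
  rcases k with n | n
  · rw [Int.ofNat_eq_natCast, zpow_natCast, Units.val_pow_eq_pow_val]
    exact pow_pres h n y hy
  · rw [zpow_negSucc, ← inv_pow, Units.val_pow_eq_pow_val]
    exact pow_pres h' (n + 1) y hy

theorem Im1_T {x : S} (hx : x ≠ b) {y : FG (Option S)} (hy : Im1 b y) :
    Im1 b (T (star M b) 1 (Li S) (some x) y) := by
  obtain ⟨γ, h1, rfl⟩ := hy
  exact ⟨_, T_keep M b hx h1, by rw [map_mul, T_dd' M b hx]⟩

theorem Im1_Ti {x : S} (hx : x ≠ b) {y : FG (Option S)} (hy : Im1 b y) :
    Im1 b (Ti (star M b) 1 (Li S) (some x) y) := by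
  obtain ⟨γ, h1, rfl⟩ := hy
  exact ⟨_, Ti_keep M b hx h1, by rw [map_mul, Ti_dd' M b hx]⟩

theorem Im0_T {x : S} (hx : x ≠ b) {y : FG (Option S)} (hy : Im0 b y) :
    Im0 b (T (star M b) 1 (Li S) (some x) y) := by
  obtain ⟨γ, h1 | h1, rfl⟩ := hy
  · exact ⟨1, Or.inl rfl, by rw [h1, mul_one, T_dd' M b hx]⟩
  · exact (Im1_T M hx ⟨γ, h1, rfl⟩).im0

theorem Im0_Ti {x : S} (hx : x ≠ b) {y : FG (Option S)} (hy : Im0 b y) :
    Im0 b (Ti (star M b) 1 (Li S) (some x) y) := by
  obtain ⟨γ, h1 | h1, rfl⟩ := hy
  · exact ⟨1, Or.inl rfl, by rw [h1, mul_one, Ti_dd' M b hx]⟩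
  · exact (Im1_Ti M hx ⟨γ, h1, rfl⟩).im0

theorem Im_push {y : FG (Option S)} (hy : Im0 b y) :
    Im1 b (T (star M b) 1 (Li S) (some b) y) := by
  obtain ⟨γ, h1, rfl⟩ := hy
  exact ⟨_, T_push M b h1, by rw [map_mul, T_dd]; simp only [mul_assoc]⟩

theorem value_cons (x : S) (k : ℤ) (w : List (S × ℤ)) :
    value M ((x, k) :: w) = (PresentedGroup.of x : ArtinGroup M) ^ k * value M w := by
  simp [value]

theorem word_im (w : List (S × ℤ)) (h0 : ∀ p ∈ w, p.1 = b → 0 ≤ p.2) :
    Im0 b ((rep M b (value M w) : Monoid.End (FG (Option S))) (dd b)) ∧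
      ((∃ p ∈ w, p.1 = b ∧ 0 < p.2) →
        Im1 b ((rep M b (value M w) : Monoid.End (FG (Option S))) (dd b))) := by
  induction w with
  | nil =>
    refine ⟨⟨1, Or.inl rfl, ?_⟩, ?_⟩
    · have : value M [] = 1 := rfl
      rw [this, map_one, mul_one]
      rfl
    · rintro ⟨p, hp, _⟩
      simp at hp
  | cons p w ih =>
    obtain ⟨x, k⟩ := p
    obtain ⟨ih0, ih1⟩ := ih fun p hp => h0 p (by simp [hp])
    rw [value_cons, map_mul, map_zpow, rep_of, Units.val_mul]
    show Im0 b (((uni M b x ^ k : (Monoid.End (FG (Option S)))ˣ) : Monoid.End (FG (Option S))) _) ∧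
      (_ → Im1 b (((uni M b x ^ k : (Monoid.End (FG (Option S)))ˣ) :
        Monoid.End (FG (Option S))) _))
    by_cases hx : x = b
    · subst hx
      have hk : 0 ≤ k := h0 (x, k) (by simp) rfl
      obtain ⟨n, rfl⟩ := Int.eq_ofNat_of_zero_le hk
      rw [zpow_natCast, Units.val_pow_eq_pow_val]
      have a0 : ∀ y, Im0 x y → Im0 x (T (star M x) 1 (Li S) (some x) y) := fun y hy =>
        (Im_push M hy).im0
      have a1 : ∀ y, Im1 x y → Im1 x (T (star M x) 1 (Li S) (some x) y) := fun y hy =>
        Im_push M hy.im0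
      refine ⟨pow_pres a0 n _ ih0, ?_⟩
      rintro ⟨p, hp, hp1, hp2⟩
      rcases List.mem_cons.1 hp with h | h
      · have hp2' : (0 : ℤ) < (n : ℤ) := by simpa [h] using hp2
        have hn : 0 < n := by exact_mod_cast hp2'
        obtain ⟨m, rfl⟩ : ∃ m, n = m + 1 := ⟨n - 1, by omega⟩
        rw [pow_succ']
        exact Im_push M (pow_pres a0 m _ ih0)
      · exact pow_pres a1 n _ (ih1 ⟨p, h, hp1, hp2⟩)
    · refine ⟨uni_pres M (fun y hy => Im0_T M hx hy) (fun y hy => Im0_Ti M hx hy) k _ ih0, ?_⟩
      rintro ⟨p, hp, hp1, hp2⟩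
      rcases List.mem_cons.1 hp with h | h
      · rw [h] at hp1
        exact absurd hp1 hx
      · exact uni_pres M (fun y hy => Im1_T M hx hy) (fun y hy => Im1_Ti M hx hy) k _
          (ih1 ⟨p, h, hp1, hp2⟩)

theorem stab {g : ArtinGroup M}
    (hg : g ∈ Subgroup.closure {g : ArtinGroup M | ∃ t, t ≠ b ∧ g = PresentedGroup.of t}) :
    (rep M b g : Monoid.End (FG (Option S))) (dd b) = dd b := by
  induction hg using Subgroup.closure_induction with
  | mem g hg =>
    obtain ⟨t, ht, rfl⟩ := hg
    rw [rep_of]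
    exact T_dd' M b ht
  | one => rw [map_one]; rfl
  | mul x y _ _ hx hy =>
    rw [map_mul, Units.val_mul]
    show (rep M b x : Monoid.End (FG (Option S))) ((rep M b y : Monoid.End (FG (Option S))) _) = _
    rw [hy, hx]
  | inv x _ hx =>
    rw [map_inv]
    have h : (((rep M b x)⁻¹ : (Monoid.End (FG (Option S)))ˣ) * rep M b x).1 (dd b) = dd b := by
      rw [inv_mul_cancel]
      rfl
    rw [Units.val_mul] at h
    have h' : (((rep M b x)⁻¹ : (Monoid.End (FG (Option S)))ˣ) : Monoid.End (FG (Option S)))
      ((rep M b x : Monoid.End (FG (Option S))) (dd b)) = dd b := h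
    rwa [hx] at h'

/-- a word that contains `b` with positive exponents only is not in the subgroup of the other
generators -/
theorem pos_main (w : List (S × ℤ)) (h0 : ∀ p ∈ w, p.1 = b → 0 ≤ p.2)
    (h1 : ∃ p ∈ w, p.1 = b ∧ 0 < p.2) :
    value M w ∉ Subgroup.closure {g : ArtinGroup M | ∃ t, t ≠ b ∧ g = PresentedGroup.of t} := by
  intro hw
  obtain ⟨γ, hγ, h2⟩ := (word_im M w h0).2 h1
  rw [stab M hw] at h2
  have h3 : γ = 1 := (mul_eq_left.1 h2.symm)
  rw [h3, hd_one] at hγ
  simp at hγ

end

end main

end Pool.Agent.L7h63.AP
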