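import Pool.Agent.L7h63.AP.Rep

/-!
# The relations of the Artin group
-/

set_option autoImplicit false
set_option linter.unusedSectionVars false

namespace Pool.Agent.L7h63.AP

open Pool.Agent.K7.H20.AW

variable {S : Type*} [DecidableEq S] {M : CoxeterMatrix S} {κ : ℕ} {L : List S}

theorem key (hL : L.Nodup) (hmem : ∀ a, a ∈ L) {s t : S} (hst : s ≠ t)
    (hm : M s t = len M κ s t + 1) (v : Vx S) :
    altProd (M s t) (T M κ L s) (T M κ L t) (X v s) =
      altProd (M s t) (T M κ L t) (T M κ L s) (X v s) := by
  classical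
  have f2 : T M κ L t (X v s) = X v s := T_X0 (Or.inl hst)
  by_cases hv : v.1 = s
  · have f1 : T M κ L s (X v s) = X v s := T_X0 (Or.inr hv)
    rw [alt_fix f1 f2, alt_fix f2 f1]
  by_cases hg : Good M κ v.2
  swap
  · have f1 : T M κ L s (X v s) = X v s := by
      rw [T_X1 hv, up, dn, if_neg (fun h => hg h.1), if_neg (fun h => hg h.1), one_mul, mul_one]
    rw [alt_fix f1 f2, alt_fix f2 f1]
  set i₀ := v.2 s(s, t) with hi₀
  have hi : 1 ≤ i₀ ∧ i₀ ≤ len M κ s t := hg s t hst
  by_cases hvt : v.1 = t
  · -- a letter of the chain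
    let C : Ch S := ⟨fun _ => v.2, fun _ => True, 1⟩
    have hC : ∀ c, Good M κ (C.η c) := fun _ => hg
    have hA : ∀ (s t : S) (ρ : ℕ), Arc M κ L C i₀ s t ρ := by
      intro s t ρ
      unfold Arc
      have h1 : th M κ L C s t ρ (D true i₀ * Z true i₀) =
          th M κ L C s t ρ (D false i₀ * Z false i₀) := by
        rw [map_mul, map_mul, th_D, th_D, th_Z, th_Z]
      rw [h1]
      show T M κ L s 1 = if _ then _ * 1 * _ else 1
      rw [map_one, mul_one, inv_mul_cancel, ite_self]
    have e : X v s = th M κ L C s t (i₀ + 1) (Z false i₀) := by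
      rw [th_Z, if_pos ⟨trivial, hi.1, hi.2⟩, vt, ty_neg (by omega), ty_pos (by omega)]
      show _ = X (t, Function.update v.2 s(s, t) i₀) s
      rw [hi₀, Function.update_eq_self, ← hvt]
    rw [e]
    exact alt_eq hL hC hst hm hi _ (hA _ _ _) (hA _ _ _) _
  · -- a letter of another annulus, which crosses two chains
    set q := v.1 with hq
    set i := v.2 s(s, q) with hi'
    obtain ⟨P, Q, hP, hQ⟩ := rest_two hL (hmem t) (hmem q) hvt
    have hne : s(s, t) ≠ s(s, q) := by
      intro h
      rcases Sym2.eq_iff.1 h with ⟨_, h⟩ | ⟨h, _⟩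
      · exact hvt h.symm
      · exact hv h.symm
    have hPt : ∀ a ∈ P, a ≠ t := fun a ha => ne_of_mem_rest hL (t := t) (by rw [hP]; simp [ha])
    let η : Bool → Sym2 S → ℕ := fun c => if c = true then
      (if i + 1 ≤ len M κ s q then Function.update v.2 s(s, q) (i + 1) else v.2) else
      (if 2 ≤ i then Function.update v.2 s(s, q) (i - 1) else v.2)
    let pr : Bool → Prop := fun c => if c = true then i + 1 ≤ len M κ s q else 2 ≤ i
    let w1 : FG S := (P.map (X (s, η true))).prod * X (s, η true) q
    let w0 : FG S := (P.map (X (s, η false))).prod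
    let C : Ch S := ⟨η, pr, w1 * X v s * w0⁻¹⟩
    have hC : ∀ c, Good M κ (C.η c) := by
      intro c
      have hir := hg s q (Ne.symm hv)
      rw [← hi'] at hir
      show Good M κ (η c)
      simp only [η]
      split_ifs with h1 h2 h3
      · exact good_update hg (by omega) h2
      · exact hg
      · exact good_update hg (by omega) (by omega)
      · exact hg
    have hη : ∀ c, η c s(s, t) = i₀ := by
      intro c
      simp only [η]
      split_ifs with h1 h2 h3
      · rw [Function.update_of_ne hne]
      · rfl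
      · rw [Function.update_of_ne hne]
      · rfl
    have hvt' : ∀ c, vt (C.η c) s t i₀ i₀ = (s, η c) := by
      intro c
      rw [vt, ty_pos (by omega)]
      show (s, Function.update (η c) s(s, t) i₀) = _
      rw [← hη c, Function.update_eq_self]
    have hZ : ∀ c, th M κ L C s t i₀ (Z c i₀) = if pr c then X (s, η c) t else 1 := by
      intro c
      rw [th_Z, hvt', ty_neg (ρ := i₀ + 1) (by omega)]
      by_cases h : pr c
      · rw [if_pos h, if_pos ⟨h, hi.1, hi.2⟩]
      · rw [if_neg h, if_neg (fun h' => h h'.1)]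
    have hD : ∀ c, th M κ L C s t i₀ (D c i₀) = if pr c then Rr L (s, η c) t else 1 := by
      intro c
      rw [th_D, hvt', ty_neg (ρ := i₀ + 1) (by omega)]
      by_cases h : pr c
      · rw [if_pos h, if_pos ⟨h, hi.1, hi.2⟩]
      · rw [if_neg h, if_neg (fun h' => h h'.1)]
    have hRt : ∀ c, Rr L (s, η c) t =
        (P.map (X (s, η c))).prod * X (s, η c) q * (Q.map (X (s, η c))).prod := by
      intro c
      rw [Rr, hP]
      simp [mul_assoc]
    have hRq : ∀ c, Rr L (s, η c) q =
        (Q.map (X (s, η c))).prod * X (s, η c) t * (P.map (X (s, η c))).prod := by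
      intro c
      rw [Rr, hQ]
      simp [mul_assoc]
    have fw1 : T M κ L s w1 = w1 := by
      rw [map_mul, T_map (s := s) (Or.inr rfl), T_X0 (s := s) (Or.inr rfl)]
    have fw0 : T M κ L s w0 = w0 := T_map (Or.inr rfl)
    have fw1' : T M κ L t w1 = w1 := by
      rw [map_mul, T_map (Or.inl hPt), T_X0 (s := t) (Or.inl hvt)]
    have fw0' : T M κ L t w0 = w0 := T_map (Or.inl hPt)
    have h1 : w1 * up M κ L s v = (th M κ L C s t i₀ (D true i₀ * Z true i₀))⁻¹ * w1 := by
      rw [map_mul, hZ, hD, up, ← hq, ← hi']
      by_cases h : i + 1 ≤ len M κ s q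
      · have e : nb v s (i + 1) = (s, η true) := by
          simp only [nb, η, if_pos h, if_true]
          rw [← hq]
        rw [if_pos ⟨hg, h⟩, if_pos (show pr true from h), if_pos (show pr true from h), e, hRt, hRq]
        show (P.map (X (s, η true))).prod * X (s, η true) q * _ = _ *
          ((P.map (X (s, η true))).prod * X (s, η true) q)
        group
      · rw [if_neg (fun h' => h h'.2), if_neg (show ¬ pr true from h),
          if_neg (show ¬ pr true from h)]
        simp
    have h2 : dn M κ L s v * w0⁻¹ = w0⁻¹ * th M κ L C s t i₀ (D false i₀ * Z false i₀) := by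
      rw [map_mul, hZ, hD, dn, ← hq, ← hi']
      by_cases h : 2 ≤ i
      · have e : nb v s (i - 1) = (s, η false) := by
          simp only [nb, η, if_pos h]
          rw [← hq]
          simp
        have hp : pr false := by
          show if false = true then _ else _
          simpa using h
        rw [if_pos ⟨hg, h⟩, if_pos hp, if_pos hp, e, hRt, hRq]
        show _ * ((P.map (X (s, η false))).prod)⁻¹ = ((P.map (X (s, η false))).prod)⁻¹ * _
        group
      · have hp : ¬ pr false := by
          intro h'
          apply h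
          have : (if false = true then i + 1 ≤ len M κ s q else 2 ≤ i) := h'
          simpa using this
        rw [if_neg (fun h' => h h'.2), if_neg hp, if_neg hp]
        simp
    have hA1 : Arc M κ L C i₀ s t i₀ := by
      unfold Arc
      rw [if_pos (by omega)]
      show T M κ L s (w1 * X v s * w0⁻¹) = _ * (w1 * X v s * w0⁻¹) * _
      rw [map_mul, map_mul, map_inv, fw1, fw0, T_X1 (by rw [← hq]; exact hv)]
      calc w1 * (up M κ L s v * X v s * dn M κ L s v) * w0⁻¹
          = (w1 * up M κ L s v) * X v s * (dn M κ L s v * w0⁻¹) := by group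
        _ = _ := by
          rw [h1, h2]
          group
    have hA2 : Arc M κ L C i₀ t s (i₀ + 1) := by
      unfold Arc
      rw [if_neg (by omega)]
      show T M κ L t (w1 * X v s * w0⁻¹) = w1 * X v s * w0⁻¹
      rw [map_mul, map_mul, map_inv, fw1', fw0', f2]
    have h3 := alt_eq hL hC hst hm hi i₀ hA1 hA2 A
    rw [th_A] at h3
    have h4 : X v s = w1⁻¹ * C.ω * w0 := by
      show _ = w1⁻¹ * (w1 * X v s * w0⁻¹) * w0
      group
    rw [h4]
    simp only [map_mul, map_inv]
    rw [h3, alt_fix fw1 fw1', alt_fix fw1' fw1, alt_fix fw0 fw0', alt_fix fw0' fw0]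

/-- the relations of the Artin group -/
theorem T_rel (hL : L.Nodup) (hmem : ∀ a, a ∈ L) (s t : S) :
    altProd (M s t) (T M κ L s) (T M κ L t) = altProd (M s t) (T M κ L t) (T M κ L s) := by
  by_cases hst : s = t
  · rw [hst]
  by_cases hm : M s t = 0
  · rw [hm]
    rfl
  have h2 : 2 ≤ M s t := by
    have := M.off_diagonal s t hst
    omega
  have hlen : len M κ s t = M s t - 1 := if_neg hm
  have hm' : M s t = len M κ s t + 1 := by omega
  apply eg_ext
  intro v r
  by_cases h1 : r = s
  · subst h1
    exact key hL hmem hst hm' v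
  by_cases h3 : r = t
  · subst h3
    have := key hL hmem (κ := κ) (Ne.symm hst) (by rw [M.symmetric, len_symm]; exact hm') v
    rw [M.symmetric] at this
    exact this.symm
  · rw [alt_fix (T_X0 (Or.inl h1)) (T_X0 (Or.inl h3)),
      alt_fix (T_X0 (Or.inl h3)) (T_X0 (Or.inl h1))]

end Pool.Agent.L7h63.AP
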