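import Pool.Agent.L7h63.AP.Loc
import Pool.Agent.K7.H20.AW.Defs

/-!
# An action of an Artin group on a free group

The vertices are the pairs of a generator `s` and a function from the pairs of generators to the
natural numbers (positions). Two vertices of types `s ≠ t` are neighbours if their positions at the
pair `{s, t}` differ by one (and lie between `1` and `M s t - 1`) and all the other positions
coincide, so that the vertices of types `s` and `t` form chains of length `M s t - 1`. Every vertex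
is an annulus, neighbouring annuli cross once, and the generator `s` acts as the product of the
twists along the annuli of type `s`.
-/

set_option autoImplicit false
set_option linter.unusedSectionVars false

namespace Pool.Agent.L7h63.AP

open Pool.Agent.K7.H20.AW

variable {S : Type*} [DecidableEq S]

/-- the vertices -/
abbrev Vx (S : Type*) : Type _ := S × (Sym2 S → ℕ)

/-- the free group -/
abbrev FG (S : Type*) : Type _ := FreeGroup (Vx S × S)

/-- the part of the core of the annulus `v` at the port `t` -/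
def X (v : Vx S) (t : S) : FG S := FreeGroup.of (v, t)

/-- the ports after `t` in the cyclic order given by the list `L` -/
def rest (L : List S) (t : S) : List S :=
  (L.dropWhile fun r => decide (r ≠ t)).tail ++ L.takeWhile fun r => decide (r ≠ t)

/-- the rest of the core -/
def Rr (L : List S) (v : Vx S) (t : S) : FG S := ((rest L t).map (X v)).prod

/-- the length of the chains -/
def len (M : CoxeterMatrix S) (κ : ℕ) (s t : S) : ℕ := if M s t = 0 then κ else M s t - 1

/-- all the positions are in the chains -/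
def Good (M : CoxeterMatrix S) (κ : ℕ) (η : Sym2 S → ℕ) : Prop :=
  ∀ s t : S, s ≠ t → 1 ≤ η s(s, t) ∧ η s(s, t) ≤ len M κ s t

/-- the vertex of type `s` with the position `i` at the pair of `s` and the type of `u` -/
def nb (u : Vx S) (s : S) (i : ℕ) : Vx S := (s, Function.update u.2 s(s, u.1) i)

open Classical in
/-- the left factor -/
noncomputable def up (M : CoxeterMatrix S) (κ : ℕ) (L : List S) (s : S) (u : Vx S) : FG S :=
  if Good M κ u.2 ∧ u.2 s(s, u.1) + 1 ≤ len M κ s u.1 then
    (Rr L (nb u s (u.2 s(s, u.1) + 1)) u.1 * X (nb u s (u.2 s(s, u.1) + 1)) u.1)⁻¹ else 1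

open Classical in
/-- the right factor -/
noncomputable def dn (M : CoxeterMatrix S) (κ : ℕ) (L : List S) (s : S) (u : Vx S) : FG S :=
  if Good M κ u.2 ∧ 2 ≤ u.2 s(s, u.1) then
    X (nb u s (u.2 s(s, u.1) - 1)) u.1 * Rr L (nb u s (u.2 s(s, u.1) - 1)) u.1 else 1

/-- the image of a letter -/
noncomputable def ima (M : CoxeterMatrix S) (κ : ℕ) (L : List S) (s : S) (z : Vx S × S) : FG S :=
  if z.2 = s ∧ z.1.1 ≠ s then up M κ L s z.1 * X z.1 z.2 * dn M κ L s z.1 else X z.1 z.2

/-- the image of a letter under the inverse -/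
noncomputable def imi (M : CoxeterMatrix S) (κ : ℕ) (L : List S) (s : S) (z : Vx S × S) : FG S :=
  if z.2 = s ∧ z.1.1 ≠ s then (up M κ L s z.1)⁻¹ * X z.1 z.2 * (dn M κ L s z.1)⁻¹
  else X z.1 z.2

/-- the product of the twists of type `s` -/
noncomputable def T (M : CoxeterMatrix S) (κ : ℕ) (L : List S) (s : S) : Monoid.End (FG S) :=
  FreeGroup.lift (ima M κ L s)

/-- the inverse -/
noncomputable def Ti (M : CoxeterMatrix S) (κ : ℕ) (L : List S) (s : S) : Monoid.End (FG S) :=
  FreeGroup.lift (imi M κ L s)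

variable {M : CoxeterMatrix S} {κ : ℕ} {L : List S} {s t : S}

theorem T_X (v : Vx S) (r : S) : T M κ L s (X v r) = ima M κ L s (v, r) := by
  show FreeGroup.lift (ima M κ L s) (FreeGroup.of (v, r)) = _
  rw [FreeGroup.lift_apply_of]

theorem Ti_X (v : Vx S) (r : S) : Ti M κ L s (X v r) = imi M κ L s (v, r) := by
  show FreeGroup.lift (imi M κ L s) (FreeGroup.of (v, r)) = _
  rw [FreeGroup.lift_apply_of]

theorem T_X0 {v : Vx S} {r : S} (h : r ≠ s ∨ v.1 = s) : T M κ L s (X v r) = X v r := by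
  rw [T_X, ima, if_neg]
  rintro ⟨h1, h2⟩
  rcases h with h | h
  · exact h h1
  · exact h2 h

theorem Ti_X0 {v : Vx S} {r : S} (h : r ≠ s ∨ v.1 = s) : Ti M κ L s (X v r) = X v r := by
  rw [Ti_X, imi, if_neg]
  rintro ⟨h1, h2⟩
  rcases h with h | h
  · exact h h1
  · exact h2 h

theorem T_X1 {v : Vx S} (h : v.1 ≠ s) :
    T M κ L s (X v s) = up M κ L s v * X v s * dn M κ L s v := by
  rw [T_X, ima, if_pos ⟨rfl, h⟩]

theorem Ti_X1 {v : Vx S} (h : v.1 ≠ s) :
    Ti M κ L s (X v s) = (up M κ L s v)⁻¹ * X v s * (dn M κ L s v)⁻¹ := by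
  rw [Ti_X, imi, if_pos ⟨rfl, h⟩]

theorem rest_eq {P Q : List S} (h : t ∉ P) : rest (P ++ t :: Q) t = Q ++ P := by
  have h1 : (P ++ t :: Q).takeWhile (fun r => decide (r ≠ t)) = P := by
    rw [List.takeWhile_append_of_pos]
    · simp
    · intro a ha
      simpa using fun h' : a = t => h (h' ▸ ha)
  have h2 : (P ++ t :: Q).dropWhile (fun r => decide (r ≠ t)) = t :: Q := by
    rw [List.dropWhile_append_of_pos]
    · simp
    · intro a ha
      simpa using fun h' : a = t => h (h' ▸ ha)
  rw [rest, h1, h2, List.tail_cons]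

theorem rest_not (h : t ∉ L) : rest L t = L := by
  have h1 : L.takeWhile (fun r => decide (r ≠ t)) = L := by
    rw [List.takeWhile_eq_self_iff]
    intro a ha
    simpa using fun h' : a = t => h (h' ▸ ha)
  have h2 : L.dropWhile (fun r => decide (r ≠ t)) = [] := by
    rw [List.dropWhile_eq_nil_iff]
    intro a ha
    simpa using fun h' : a = t => h (h' ▸ ha)
  rw [rest, h1, h2]
  rfl

theorem ne_of_mem_rest (hL : L.Nodup) {r : S} (h : r ∈ rest L t) : r ≠ t := by
  rintro rfl
  by_cases hr : r ∈ L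
  · obtain ⟨P, Q, rfl, hP⟩ := List.eq_append_cons_of_mem hr
    rw [rest_eq hP, List.mem_append] at h
    have h2 := List.nodup_append.1 hL
    rcases h with h | h
    · exact (List.nodup_cons.1 h2.2.1).1 h
    · exact hP h
  · rw [rest_not hr] at h
    exact hr h

/-- the ports between `t` and `r` and between `r` and `t` -/
theorem rest_two (hL : L.Nodup) {r : S} (ht : t ∈ L) (hr : r ∈ L) (hrt : r ≠ t) :
    ∃ P Q, rest L t = P ++ r :: Q ∧ rest L r = Q ++ t :: P := by
  obtain ⟨A, B, rfl, hA⟩ := List.eq_append_cons_of_mem ht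
  by_cases hrA : r ∈ A
  · obtain ⟨A1, A2, rfl, hA1⟩ := List.eq_append_cons_of_mem hrA
    refine ⟨B ++ A1, A2, ?_, ?_⟩
    · rw [rest_eq hA]
      simp
    · have : A1 ++ r :: A2 ++ t :: B = A1 ++ r :: (A2 ++ t :: B) := by simp
      rw [this, rest_eq hA1]
      simp
  · have hrB : r ∈ B := by
      rcases List.mem_append.1 hr with h | h
      · exact absurd h hrA
      · rcases List.mem_cons.1 h with h | h
        · exact absurd h hrt
        · exact h
    obtain ⟨B1, B2, rfl, hB1⟩ := List.eq_append_cons_of_mem hrB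
    refine ⟨B1, B2 ++ A, ?_, ?_⟩
    · rw [rest_eq hA]
      simp
    · have : A ++ t :: (B1 ++ r :: B2) = (A ++ t :: B1) ++ r :: B2 := by simp
      rw [this, rest_eq]
      · simp
      · rw [List.mem_append, List.mem_cons]
        rintro (h | h | h)
        · exact hrA h
        · exact hrt h
        · exact hB1 h

theorem T_map {v : Vx S} {l : List S} (h : (∀ a ∈ l, a ≠ s) ∨ v.1 = s) :
    T M κ L s ((l.map (X v)).prod) = (l.map (X v)).prod := by
  rw [map_list_prod, List.map_map]
  congr 1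
  apply List.map_congr_left
  intro a ha
  apply T_X0
  rcases h with h | h
  · exact Or.inl (h a ha)
  · exact Or.inr h

theorem Ti_map {v : Vx S} {l : List S} (h : (∀ a ∈ l, a ≠ s) ∨ v.1 = s) :
    Ti M κ L s ((l.map (X v)).prod) = (l.map (X v)).prod := by
  rw [map_list_prod, List.map_map]
  congr 1
  apply List.map_congr_left
  intro a ha
  apply Ti_X0
  rcases h with h | h
  · exact Or.inl (h a ha)
  · exact Or.inr h

theorem T_R {v : Vx S} {r : S} (hL : L.Nodup) (h : r = s ∨ v.1 = s) :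
    T M κ L s (Rr L v r) = Rr L v r := by
  apply T_map
  rcases h with h | h
  · exact Or.inl fun a ha => h ▸ ne_of_mem_rest hL ha
  · exact Or.inr h

theorem Ti_R {v : Vx S} {r : S} (hL : L.Nodup) (h : r = s ∨ v.1 = s) :
    Ti M κ L s (Rr L v r) = Rr L v r := by
  apply Ti_map
  rcases h with h | h
  · exact Or.inl fun a ha => h ▸ ne_of_mem_rest hL ha
  · exact Or.inr h

theorem T_up (hL : L.Nodup) (u : Vx S) : T M κ L s (up M κ L s u) = up M κ L s u := by
  rw [up]
  split_ifs
  · rw [map_inv, map_mul, T_R (s := s) hL (Or.inr rfl), T_X0 (s := s) (Or.inr rfl)]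
  · exact map_one _

theorem T_dn (hL : L.Nodup) (u : Vx S) : T M κ L s (dn M κ L s u) = dn M κ L s u := by
  rw [dn]
  split_ifs
  · rw [map_mul, T_R (s := s) hL (Or.inr rfl), T_X0 (s := s) (Or.inr rfl)]
  · exact map_one _

theorem Ti_up (hL : L.Nodup) (u : Vx S) : Ti M κ L s (up M κ L s u) = up M κ L s u := by
  rw [up]
  split_ifs
  · rw [map_inv, map_mul, Ti_R (s := s) hL (Or.inr rfl), Ti_X0 (s := s) (Or.inr rfl)]
  · exact map_one _

theorem Ti_dn (hL : L.Nodup) (u : Vx S) : Ti M κ L s (dn M κ L s u) = dn M κ L s u := by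
  rw [dn]
  split_ifs
  · rw [map_mul, Ti_R (s := s) hL (Or.inr rfl), Ti_X0 (s := s) (Or.inr rfl)]
  · exact map_one _

theorem eg_apply (f g : Monoid.End (FG S)) (x : FG S) : (f * g) x = f (g x) := rfl

theorem eg_ext {f g : Monoid.End (FG S)} (h : ∀ v r, f (X v r) = g (X v r)) : f = g := by
  apply FreeGroup.ext_hom
  rintro ⟨v, r⟩
  exact h v r

theorem T_Ti (hL : L.Nodup) : T M κ L s * Ti M κ L s = 1 := by
  apply eg_ext
  intro v r
  rw [eg_apply]
  by_cases h : r = s ∧ v.1 ≠ s
  · obtain ⟨rfl, h⟩ := h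
    rw [Ti_X1 h, map_mul, map_mul, map_inv, map_inv, T_up hL, T_dn hL, T_X1 h]
    show _ = X v r
    group
  · have h' : r ≠ s ∨ v.1 = s := by
      by_contra hc
      push Not at hc
      exact h hc
    rw [Ti_X0 h', T_X0 h']
    rfl

theorem Ti_T (hL : L.Nodup) : Ti M κ L s * T M κ L s = 1 := by
  apply eg_ext
  intro v r
  rw [eg_apply]
  by_cases h : r = s ∧ v.1 ≠ s
  · obtain ⟨rfl, h⟩ := h
    rw [T_X1 h, map_mul, map_mul, Ti_up hL, Ti_dn hL, Ti_X1 h]
    show _ = X v r
    group
  · have h' : r ≠ s ∨ v.1 = s := by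
      by_contra hc
      push Not at hc
      exact h hc
    rw [T_X0 h', Ti_X0 h']
    rfl

/-! ### The chains -/

/-- the type of the `j`-th vertex of a chain -/
def ty (s t : S) (ρ j : ℕ) : S := if (j + ρ) % 2 = 0 then s else t

/-- the `j`-th vertex of a chain -/
def vt (η : Sym2 S → ℕ) (s t : S) (ρ j : ℕ) : Vx S := (ty s t ρ j, Function.update η s(s, t) j)

/-- two parallel chains and an arc -/
structure Ch (S : Type*) where
  η : Bool → Sym2 S → ℕ
  pr : Bool → Prop
  ω : FG S

open Classical in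
variable (M κ L) in
/-- the map of the chains -/
noncomputable def imt (C : Ch S) (s t : S) (ρ : ℕ) : Le → FG S
  | Le.z c j => if C.pr c ∧ 1 ≤ j ∧ j ≤ len M κ s t then
      X (vt (C.η c) s t ρ j) (ty s t (ρ + 1) j) else 1
  | Le.d c j => if C.pr c ∧ 1 ≤ j ∧ j ≤ len M κ s t then
      Rr L (vt (C.η c) s t ρ j) (ty s t (ρ + 1) j) else 1
  | Le.w => C.ω

variable (M κ L) in
/-- the map of the chains -/
noncomputable def th (C : Ch S) (s t : S) (ρ : ℕ) : FL →* FG S :=
  FreeGroup.lift (imt M κ L C s t ρ)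

open Classical in
theorem th_Z (C : Ch S) (s t : S) (ρ : ℕ) (c : Bool) (j : ℕ) : th M κ L C s t ρ (Z c j) =
    if C.pr c ∧ 1 ≤ j ∧ j ≤ len M κ s t then
      X (vt (C.η c) s t ρ j) (ty s t (ρ + 1) j) else 1 := by
  rw [th, Z, FreeGroup.lift_apply_of]
  rfl

open Classical in
theorem th_D (C : Ch S) (s t : S) (ρ : ℕ) (c : Bool) (j : ℕ) : th M κ L C s t ρ (D c j) =
    if C.pr c ∧ 1 ≤ j ∧ j ≤ len M κ s t then
      Rr L (vt (C.η c) s t ρ j) (ty s t (ρ + 1) j) else 1 := by
  rw [th, D, FreeGroup.lift_apply_of]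
  rfl

theorem th_A (C : Ch S) (s t : S) (ρ : ℕ) : th M κ L C s t ρ A = C.ω := by
  rw [th, A, FreeGroup.lift_apply_of]
  rfl

theorem len_symm (s t : S) : len M κ s t = len M κ t s := by
  rw [len, len, M.symmetric]

theorem ty_swap (s t : S) (ρ j : ℕ) : ty t s (ρ + 1) j = ty s t ρ j := by
  unfold ty
  by_cases h : (j + ρ) % 2 = 0
  · rw [if_pos h, if_neg (by omega)]
  · rw [if_neg h, if_pos (by omega)]

theorem th_swap (C : Ch S) (s t : S) (ρ : ℕ) :
    th M κ L C t s (ρ + 1) = th M κ L C s t ρ := by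
  unfold th
  congr 1
  ext1 j
  have h : ∀ c j, vt (C.η c) t s (ρ + 1) j = vt (C.η c) s t ρ j := by
    intro c j
    rw [vt, vt, ty_swap, Sym2.eq_swap]
  rcases j with ⟨c, j⟩ | ⟨c, j⟩ | _
  · simp only [imt]
    rw [h, ty_swap, len_symm]
  · simp only [imt]
    rw [h, ty_swap, len_symm]
  · rfl

theorem ty_pos {s t : S} {ρ j : ℕ} (h : (j + ρ) % 2 = 0) : ty s t ρ j = s := if_pos h

theorem ty_neg {s t : S} {ρ j : ℕ} (h : (j + ρ) % 2 ≠ 0) : ty s t ρ j = t := if_neg h

/-- the condition for the arc -/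
def Arc (M : CoxeterMatrix S) (κ : ℕ) (L : List S) (C : Ch S) (i₀ : ℕ) (s t : S) (ρ : ℕ) : Prop :=
  T M κ L s C.ω = if (i₀ + ρ) % 2 = 0 then
    (th M κ L C s t ρ (D true i₀ * Z true i₀))⁻¹ * C.ω *
      th M κ L C s t ρ (D false i₀ * Z false i₀) else C.ω

theorem good_update {η : Sym2 S → ℕ} (h : Good M κ η) {s t : S} {i : ℕ} (h1 : 1 ≤ i)
    (h2 : i ≤ len M κ s t) : Good M κ (Function.update η s(s, t) i) := by
  intro a b hab
  by_cases e : s(a, b) = s(s, t)
  · rw [e, Function.update_self]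
    refine ⟨h1, ?_⟩
    rcases Sym2.eq_iff.1 e with ⟨rfl, rfl⟩ | ⟨rfl, rfl⟩
    · exact h2
    · rw [len_symm]
      exact h2
  · rw [Function.update_of_ne e]
    exact h a b hab

/-- the twists of type `s` on the chains -/
theorem T_th (hL : L.Nodup) {C : Ch S} (hC : ∀ c, Good M κ (C.η c)) {s t : S} (hst : s ≠ t)
    {i₀ : ℕ} (hi₀ : 1 ≤ i₀ ∧ i₀ ≤ len M κ s t) (ρ : ℕ) (hA : Arc M κ L C i₀ s t ρ) (x : FL) :
    T M κ L s (th M κ L C s t ρ x) =
      th M κ L C s t ρ (row (sig (len M κ s t) i₀) ρ (len M κ s t) x) := by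
  have key : (T M κ L s : FG S →* FG S).comp (th M κ L C s t ρ) =
      (th M κ L C s t ρ).comp
        ((row (sig (len M κ s t) i₀) ρ (len M κ s t) : Monoid.End FL) : FL →* FL) := by
    apply FreeGroup.ext_hom
    rintro (⟨c, j⟩ | ⟨c, j⟩ | _)
    · show T M κ L s (th M κ L C s t ρ (Z c j)) =
        th M κ L C s t ρ (row (sig (len M κ s t) i₀) ρ (len M κ s t) (Z c j))
      rw [row_Z _ _ _ _ le_rfl]
      by_cases hj : C.pr c ∧ 1 ≤ j ∧ j ≤ len M κ s t
      · obtain ⟨hc, hj1, hj2⟩ := hj
        by_cases hp : (j + ρ) % 2 = 0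
        · rw [if_neg (by omega), if_neg (by omega), one_mul, mul_one, th_Z, if_pos ⟨hc, hj1, hj2⟩]
          exact T_X0 (Or.inr (ty_pos hp))
        · have e1 : ty s t (ρ + 1) j = s := ty_pos (by omega)
          have e2 : ty s t ρ j = t := ty_neg hp
          have e3 : (vt (C.η c) s t ρ j).1 ≠ s := by
            show ty s t ρ j ≠ s
            rw [e2]
            exact hst.symm
          have e4 : (vt (C.η c) s t ρ j).2 s(s, (vt (C.η c) s t ρ j).1) = j := by
            show Function.update (C.η c) s(s, t) j s(s, ty s t ρ j) = j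
            rw [e2, Function.update_self]
          have e6 : (vt (C.η c) s t ρ j).1 = t := e2
          have e7 : ∀ i, (i + ρ) % 2 = 0 → nb (vt (C.η c) s t ρ j) s i = vt (C.η c) s t ρ i := by
            intro i hi
            unfold nb vt
            rw [ty_pos hi]
            show (s, Function.update (Function.update (C.η c) s(s, t) j) s(s, ty s t ρ j) i) = _
            rw [e2, Function.update_idem]
          have e8 : Good M κ (vt (C.η c) s t ρ j).2 := good_update (hC c) hj1 hj2
          have hZ : th M κ L C s t ρ (Z c j) = X (vt (C.η c) s t ρ j) s := by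
            rw [th_Z, if_pos ⟨hc, hj1, hj2⟩, e1]
          rw [map_mul, map_mul, hZ, T_X1 e3]
          congr 1
          · congr 1
            rw [up, e4, e6, e7 (j + 1) (by omega)]
            by_cases h1 : j + 1 ≤ len M κ s t
            · have k1 : th M κ L C s t ρ (Z c (j + 1)) = X (vt (C.η c) s t ρ (j + 1)) t := by
                rw [th_Z, if_pos ⟨hc, by omega, h1⟩, ty_neg (ρ := ρ + 1) (by omega)]
              have k2 : th M κ L C s t ρ (D c (j + 1)) = Rr L (vt (C.η c) s t ρ (j + 1)) t := by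
                rw [th_D, if_pos ⟨hc, by omega, h1⟩, ty_neg (ρ := ρ + 1) (by omega)]
              rw [if_pos ⟨e8, h1⟩, if_pos ⟨hj1, h1, by omega⟩, map_inv, map_mul, k1, k2]
            · rw [if_neg (fun h => h1 h.2), if_neg (by omega), map_one]
          · rw [dn, e4, e6, e7 (j - 1) (by omega)]
            by_cases h1 : 2 ≤ j
            · have k1 : th M κ L C s t ρ (Z c (j - 1)) = X (vt (C.η c) s t ρ (j - 1)) t := by
                rw [th_Z, if_pos ⟨hc, by omega, by omega⟩, ty_neg (ρ := ρ + 1) (by omega)]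
              have k2 : th M κ L C s t ρ (D c (j - 1)) = Rr L (vt (C.η c) s t ρ (j - 1)) t := by
                rw [th_D, if_pos ⟨hc, by omega, by omega⟩, ty_neg (ρ := ρ + 1) (by omega)]
              rw [if_pos ⟨e8, h1⟩, if_pos ⟨h1, by omega, hj2, by omega⟩, map_mul, k1, k2]
            · rw [if_neg (fun h => h1 h.2), if_neg (by omega), map_one]
      · have h0 : th M κ L C s t ρ (Z c j) = 1 := by rw [th_Z, if_neg hj]
        rw [map_mul, map_mul, h0, map_one, mul_one]
        have h1 : th M κ L C s t ρ (if 1 ≤ j ∧ j + 1 ≤ len M κ s t ∧ (j + 1 + ρ) % 2 = 0 then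
            (D c (j + 1) * Z c (j + 1))⁻¹ else 1) = 1 := by
          split_ifs with h
          · have hc : ¬ C.pr c := fun hc => hj ⟨hc, by omega, by omega⟩
            rw [map_inv, map_mul, th_D, th_Z, if_neg (fun h => hc h.1), if_neg (fun h => hc h.1)]
            simp
          · exact map_one _
        have h2 : th M κ L C s t ρ (if 2 ≤ j ∧ j ≤ len M κ s t + 1 ∧ j ≤ len M κ s t ∧
            (j + 1 + ρ) % 2 = 0 then Z c (j - 1) * D c (j - 1) else 1) = 1 := by
          split_ifs with h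
          · have hc : ¬ C.pr c := fun hc => hj ⟨hc, by omega, by omega⟩
            rw [map_mul, th_D, th_Z, if_neg (fun h => hc h.1), if_neg (fun h => hc h.1)]
            simp
          · exact map_one _
        rw [h1, h2, one_mul]
    · show T M κ L s (th M κ L C s t ρ (D c j)) =
        th M κ L C s t ρ (row (sig (len M κ s t) i₀) ρ (len M κ s t) (D c j))
      rw [row_D, th_D]
      split_ifs with hj
      · apply T_R hL
        by_cases hp : (j + ρ) % 2 = 0
        · exact Or.inr (ty_pos hp)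
        · exact Or.inl (ty_pos (by omega))
      · exact map_one _
    · show T M κ L s (th M κ L C s t ρ A) =
        th M κ L C s t ρ (row (sig (len M κ s t) i₀) ρ (len M κ s t) A)
      rw [row_A _ _ _ le_rfl, th_A, hA]
      by_cases h : (i₀ + ρ) % 2 = 0
      · rw [if_pos h, if_pos ⟨hi₀.1, hi₀.2, h⟩]
        simp only [map_mul, map_inv, th_A]
      · rw [if_neg h, if_neg (by omega), th_A]
  exact DFunLike.congr_fun key x

theorem alt_th (hL : L.Nodup) {C : Ch S} (hC : ∀ c, Good M κ (C.η c)) {i₀ : ℕ} :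
    ∀ (m : ℕ) {s t : S} (_ : s ≠ t) (_ : 1 ≤ i₀ ∧ i₀ ≤ len M κ s t) (ρ : ℕ)
    (_ : Arc M κ L C i₀ s t ρ) (_ : Arc M κ L C i₀ t s (ρ + 1)) (x : FL),
    altProd m (T M κ L s) (T M κ L t) (th M κ L C s t ρ x) =
      th M κ L C s t ρ (wall (sig (len M κ s t) i₀) ρ m (len M κ s t) x) := by
  intro m
  induction m with
  | zero => intro s t _ _ ρ _ _ x; rfl
  | succ m ih =>
    intro s t hst hi ρ h1 h2 x
    have h3 : Arc M κ L C i₀ s t (ρ + 1 + 1) := by
      unfold Arc at h1 ⊢
      rw [h1, th_swap, th_swap]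
      have : (i₀ + (ρ + 1 + 1)) % 2 = (i₀ + ρ) % 2 := by omega
      rw [this]
    rw [altProd, eg_apply, ← th_swap, ih hst.symm (by rw [len_symm]; exact hi) (ρ + 1) h2 h3,
      th_swap, T_th hL hC hst hi ρ h1, wall_front, len_symm]
    rfl

theorem alt_fix {a b : Monoid.End (FG S)} {x : FG S} : ∀ {m : ℕ} (_ : a x = x) (_ : b x = x),
    altProd m a b x = x := by
  intro m
  induction m generalizing a b with
  | zero => intro _ _; rfl
  | succ m ih =>
    intro ha hb
    rw [altProd, eg_apply, ih hb ha, ha]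

/-- the two alternating products agree on the chains and on the arc -/
theorem alt_eq (hL : L.Nodup) {C : Ch S} (hC : ∀ c, Good M κ (C.η c)) {i₀ : ℕ} {s t : S}
    (hst : s ≠ t) (hm : M s t = len M κ s t + 1) (hi : 1 ≤ i₀ ∧ i₀ ≤ len M κ s t) (ρ : ℕ)
    (h1 : Arc M κ L C i₀ s t ρ) (h2 : Arc M κ L C i₀ t s (ρ + 1)) (x : FL) :
    altProd (M s t) (T M κ L s) (T M κ L t) (th M κ L C s t ρ x) =
      altProd (M s t) (T M κ L t) (T M κ L s) (th M κ L C s t ρ x) := by
  have h3 : Arc M κ L C i₀ s t (ρ + 1 + 1) := by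
    unfold Arc at h1 ⊢
    rw [h1, th_swap, th_swap]
    have : (i₀ + (ρ + 1 + 1)) % 2 = (i₀ + ρ) % 2 := by omega
    rw [this]
  rw [alt_th hL hC _ hst hi ρ h1 h2]
  have e := alt_th hL hC (M s t) hst.symm (by rw [len_symm]; exact hi) (ρ + 1) h2 h3 x
  rw [th_swap] at e
  rw [e, len_symm t s, hm, brick (br_sig (len M κ s t) i₀) ρ]

end Pool.Agent.L7h63.AP
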