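import Pool.Agent.L7h63.AP.Head

/-!
# Parts of reduced words that survive
-/

set_option autoImplicit false
set_option linter.unusedSectionVars false

namespace Pool.Agent.L7h63.AP

/-- consecutive letters -/
def Fac {β : Type*} (F G : List β) : Prop := ∃ A B, G = A ++ F ++ B

theorem Fac.trans {β : Type*} {F G H : List β} (h1 : Fac F G) (h2 : Fac G H) : Fac F H := by
  obtain ⟨A, B, rfl⟩ := h1
  obtain ⟨A', B', rfl⟩ := h2
  exact ⟨A' ++ A, B ++ B', by simp⟩

theorem Fac.map {β γ : Type*} {F G : List β} (f : β → γ) (h : Fac F G) :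
    Fac (F.map f) (G.map f) := by
  obtain ⟨A, B, rfl⟩ := h
  exact ⟨A.map f, B.map f, by simp⟩

theorem Fac.length {β : Type*} {F G : List β} (h : Fac F G) : F.length ≤ G.length := by
  obtain ⟨A, B, rfl⟩ := h
  simp only [List.length_append]
  omega

theorem Fac.refl {β : Type*} (F : List β) : Fac F F := ⟨[], [], by simp⟩

variable {α : Type*} [DecidableEq α]

section pattern

variable {V : Set α} {φ : FreeGroup α →* FreeGroup α} {u : α × Bool → FreeGroup α}

theorem Tw.fix_fr (h : Tw V φ u) {g : FreeGroup α} (hg : Fr Vᶜ g) : φ g = g := by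
  have := h.fix_mk (L := g.toWord) hg
  rwa [FreeGroup.mk_toWord] at this

theorem Tw.comp (h : Tw V φ u) {φ' : FreeGroup α →* FreeGroup α} {u' : α × Bool → FreeGroup α}
    (h' : Tw V φ' u') : Tw V (φ.comp φ') (fun l => u' l * u l) where
  fix a ha := by
    show φ (φ' _) = _
    rw [h'.fix a ha, h.fix a ha]
  mov a ha := by
    show φ (φ' _) = _
    rw [h'.mov a ha, map_mul, map_mul, map_inv, h.mov a ha, h.fix_fr (h'.fr _),
      h.fix_fr (h'.fr _)]
    group
  fr l := (h'.fr l).mul (h.fr l)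

theorem Tw.pow {f : Monoid.End (FreeGroup α)} (h : Tw V (f : FreeGroup α →* FreeGroup α) u)
    (n : ℕ) : Tw V ((f ^ n : Monoid.End (FreeGroup α)) : FreeGroup α →* FreeGroup α)
      (fun l => u l ^ n) := by
  induction n with
  | zero =>
    refine ⟨fun a _ => rfl, fun a _ => ?_, fun l => ?_⟩
    · simp only [pow_zero, inv_one, one_mul, mul_one]
      rfl
    · simp only [pow_zero]
      exact Fr.one _
  | succ n ih =>
    have := ih.comp h
    rw [pow_succ]
    simp only [pow_succ']
    exact this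

/-- the inverse letter -/
abbrev iv (l : α × Bool) : α × Bool := (l.1, !l.2)

theorem iv_iv (l : α × Bool) : iv (iv l) = l := by
  simp [iv]

theorem last_inv {g : FreeGroup α} {a : α × Bool} (h : a ∈ (g⁻¹).toWord.getLast?) :
    hd g = some (iv a) := by
  rw [FreeGroup.toWord_inv, FreeGroup.invRev, List.getLast?_reverse, List.head?_map] at h
  rw [hd]
  cases h1 : g.toWord.head? with
  | none => rw [h1] at h; simp at h
  | some b =>
    rw [h1] at h
    have h2 : (b.1, !b.2) = a := by simpa using h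
    rw [← h2]
    simp [iv]

theorem isReduced_invRev {L : List (α × Bool)} (h : FreeGroup.IsReduced L) :
    FreeGroup.IsReduced (FreeGroup.invRev L) := by
  have h1 : (FreeGroup.mk L).toWord = L := by rw [FreeGroup.toWord_mk, h.reduce_eq]
  have h2 : ((FreeGroup.mk L)⁻¹).toWord = FreeGroup.invRev L := by
    rw [FreeGroup.toWord_inv, h1]
  rw [← h2]
  exact FreeGroup.isReduced_toWord

theorem invRev_snoc (A : List (α × Bool)) (x : α × Bool) :
    FreeGroup.invRev (A ++ [x]) = iv x :: FreeGroup.invRev A := by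
  simp [FreeGroup.invRev, iv]

/-- the mirror image of `Tw.main` -/
theorem Tw.main' (h : Tw V φ u) [DecidablePred (· ∈ V)] {A : List (α × Bool)} {x : α × Bool}
    (hred : FreeGroup.IsReduced (A ++ [x])) (hx : x.1 ∈ V) :
    ∃ δ, φ (FreeGroup.mk (A ++ [x])) = δ⁻¹ * lt x * (u (iv x))⁻¹ ∧ hd δ ≠ some x := by
  have h1 := isReduced_invRev hred
  rw [invRev_snoc] at h1
  obtain ⟨δ, h2, h3⟩ := h.main _ (iv x) (FreeGroup.invRev A) rfl h1 hx
  refine ⟨δ, ?_, ?_⟩
  · have h4 : FreeGroup.mk (A ++ [x]) = (FreeGroup.mk (iv x :: FreeGroup.invRev A))⁻¹ := by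
      rw [← invRev_snoc, ← FreeGroup.inv_mk, inv_inv]
    rw [h4, map_inv, h2]
    have h5 : (lt (iv x))⁻¹ = lt x := by
      rw [lt_inv]
      exact congrArg lt (iv_iv x)
    rw [mul_inv_rev, mul_inv_rev, h5]
  · have : ((iv x).1, !(iv x).2) = x := iv_iv x
    rw [this] at h3
    exact h3

/-- two consecutive letters: what is between them in the image -/
theorem Tw.seg (h : Tw V φ u) [DecidablePred (· ∈ V)] {g : FreeGroup α} {x m : α × Bool}
    (hx : x.1 ∈ V) (hm : m.1 ∈ V) (hg : Fac [x, m] g.toWord) :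
    Fac ([x] ++ ((u (iv x))⁻¹ * u m).toWord ++ [m]) (φ g).toWord := by
  obtain ⟨A, B, hAB⟩ := hg
  have hred : FreeGroup.IsReduced g.toWord := FreeGroup.isReduced_toWord
  rw [hAB] at hred
  have r1 : FreeGroup.IsReduced (A ++ [x]) := red_sub hred ⟨[], m :: B, by simp⟩
  have r2 : FreeGroup.IsReduced (m :: B) := red_sub hred ⟨A ++ [x], [], by simp⟩
  have r3 : FreeGroup.IsReduced [x, m] := red_sub hred ⟨A, B, rfl⟩
  obtain ⟨δ, h1, h2⟩ := h.main' r1 hx
  obtain ⟨ε, h3, h4⟩ := h.main _ m B rfl r2 hm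
  have e : φ g = (δ⁻¹ * lt x) * ((u (iv x))⁻¹ * u m) * (lt m * ε) := by
    have : g = FreeGroup.mk (A ++ [x]) * FreeGroup.mk (m :: B) := by
      rw [← mk_append, ← FreeGroup.mk_toWord (x := g), hAB]
      simp
    rw [this, map_mul, h1, h3]
    simp only [mul_assoc]
  have w1 : (δ⁻¹ * lt x).toWord = δ⁻¹.toWord ++ [x] := by
    rw [toWord_mul', toWord_lt]
    intro a ha b hb hab
    have h5 := last_inv ha
    have hb' : x = b := by rw [hd, toWord_lt] at hb; simpa using hb
    subst hb'
    by_contra hne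
    apply h2
    rw [h5]
    congr 1
    refine Prod.ext hab ?_
    show (!a.2) = x.2
    cases h6 : a.2 <;> cases h7 : x.2 <;> simp_all
  have w2 : (lt m * ε).toWord = m :: ε.toWord := toWord_cons h4
  have hκ : Fr Vᶜ ((u (iv x))⁻¹ * u m) := (h.fr _).inv.mul (h.fr _)
  have w3 : ((δ⁻¹ * lt x) * ((u (iv x))⁻¹ * u m)).toWord =
      (δ⁻¹.toWord ++ [x]) ++ ((u (iv x))⁻¹ * u m).toWord := by
    rw [toWord_mul', w1]
    intro a ha b hb hab
    exfalso
    rw [w1] at ha
    have ha' : x = a := by simpa using ha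
    have h5 := hκ.hd (l := b) hb
    apply h5
    rw [← hab, ← ha']
    exact hx
  have w4 : (φ g).toWord = (δ⁻¹.toWord ++ [x]) ++ ((u (iv x))⁻¹ * u m).toWord ++
      (m :: ε.toWord) := by
    rw [e, toWord_mul', w3, w2]
    intro a ha b hb hab
    have hb' : m = b := by rw [hd, w2] at hb; simpa using hb
    subst hb'
    rw [w3] at ha
    rcases List.eq_nil_or_concat ((u (iv x))⁻¹ * u m).toWord with h5 | ⟨K, k, h5⟩
    · rw [h5, List.append_nil] at ha
      have ha' : x = a := by simpa using ha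
      subst ha'
      exact (FreeGroup.isReduced_cons_cons.1 r3).1 hab
    · exfalso
      rw [h5, List.concat_eq_append, ← List.append_assoc, List.getLast?_concat] at ha
      have ha' : k = a := by simpa using ha
      have h6 := hκ k (by rw [h5]; simp)
      apply h6
      rw [ha', hab]
      exact hm
  rw [w4]
  exact ⟨δ⁻¹.toWord, ε.toWord, by simp⟩

/-- letters that are not changed -/
theorem Tw.keep_tail (h : Tw V φ u) [DecidablePred (· ∈ V)] {B : List (α × Bool)} :
    ∀ (F : List (α × Bool)) (_ : F ≠ []) (_ : ∀ l ∈ F, l.1 ∈ V ∧ u l = 1 ∧ u (iv l) = 1)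
    (_ : FreeGroup.IsReduced (F ++ B)), ∃ D, (φ (FreeGroup.mk (F ++ B))).toWord = F ++ D := by
  intro F
  induction F with
  | nil => intro h0; exact absurd rfl h0
  | cons x F ih =>
    intro _ hF hred
    obtain ⟨hx, hx1, hx2⟩ := hF x (by simp)
    rcases F with _ | ⟨m, F⟩
    · obtain ⟨ε, h3, h4⟩ := h.main _ x B rfl hred hx
      refine ⟨ε.toWord, ?_⟩
      have : ([x] ++ B : List (α × Bool)) = x :: B := rfl
      rw [this, h3, hx1, one_mul, toWord_cons h4]
      rfl
    · obtain ⟨D, hD⟩ := ih (by simp) (fun l hl => hF l (by simp [hl]))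
        (red_sub hred ⟨[x], [], by simp⟩)
      refine ⟨D, ?_⟩
      have e1 : (x :: m :: F ++ B : List (α × Bool)) = x :: (m :: F ++ B) := rfl
      rw [e1, mk_cons, map_mul, h.mov_lt hx, hx1]
      have e2 : u (x.1, !x.2) = 1 := hx2
      rw [e2, inv_one, mul_one, one_mul, toWord_cons, hD]
      · rfl
      · rw [hd, hD]
        intro h5
        have h6 : m = (x.1, !x.2) := by simpa using h5
        have h7 : FreeGroup.IsReduced (x :: m :: (F ++ B)) := hred
        rw [FreeGroup.isReduced_cons_cons] at h7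
        have h8 := h7.1 (by rw [h6])
        rw [h6] at h8
        exact bne_self x.2 h8

theorem Tw.keep_fac (h : Tw V φ u) [DecidablePred (· ∈ V)] {g : FreeGroup α}
    {F : List (α × Bool)} (hF0 : F ≠ []) (hF : ∀ l ∈ F, l.1 ∈ V ∧ u l = 1 ∧ u (iv l) = 1)
    (hg : Fac F g.toWord) : Fac F (φ g).toWord := by
  obtain ⟨A, B, hAB⟩ := hg
  have hred : FreeGroup.IsReduced g.toWord := FreeGroup.isReduced_toWord
  rw [hAB] at hred
  obtain ⟨D, hD⟩ := h.keep_tail (B := B) F hF0 hF (red_sub hred ⟨A, [], by simp⟩)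
  obtain ⟨x, F', rfl⟩ : ∃ x F', F = x :: F' := by
    cases F with
    | nil => exact absurd rfl hF0
    | cons x F' => exact ⟨x, F', rfl⟩
  obtain ⟨hx, hx1, hx2⟩ := hF x (by simp)
  obtain ⟨δ, h1, h2⟩ := h.main' (A := A) (x := x) (red_sub hred ⟨[], F' ++ B, by simp⟩) hx
  rw [hx2, inv_one, mul_one] at h1
  have h3 : φ (lt x) = lt x := by
    rw [h.mov_lt hx, hx1]
    have e2 : u (x.1, !x.2) = 1 := hx2
    rw [e2, inv_one, mul_one, one_mul]
  have h4 : φ (FreeGroup.mk A) = δ⁻¹ := by
    have h5 : FreeGroup.mk (A ++ [x]) = FreeGroup.mk A * lt x := mk_append _ _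
    rw [h5, map_mul, h3] at h1
    exact mul_right_cancel h1
  have e : φ g = δ⁻¹ * φ (FreeGroup.mk (x :: F' ++ B)) := by
    rw [← h4, ← map_mul, ← mk_append, ← FreeGroup.mk_toWord (x := g), hAB]
    simp
  refine ⟨δ⁻¹.toWord, D, ?_⟩
  rw [e, toWord_mul', hD, List.append_assoc]
  intro a ha b hb hab
  have hb' : x = b := by
    rw [hd, hD] at hb
    simpa using hb
  subst hb'
  have h5 := last_inv ha
  by_contra hne
  apply h2
  rw [h5]
  congr 1
  refine Prod.ext hab ?_
  show (!a.2) = x.2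
  cases h6 : a.2 <;> cases h7 : x.2 <;> simp_all

end pattern

/-- positive words are reduced -/
theorem pos_reduced {L : List α} :
    FreeGroup.IsReduced (L.map fun a => (a, true)) := by
  induction L with
  | nil => exact List.isChain_nil
  | cons a L ih =>
    cases L with
    | nil => exact List.isChain_singleton _
    | cons b L =>
      rw [List.map_cons, List.map_cons, FreeGroup.isReduced_cons_cons]
      exact ⟨fun _ => rfl, ih⟩

theorem toWord_pos (L : List α) :
    (FreeGroup.mk (L.map fun a => (a, true))).toWord = L.map fun a => (a, true) := by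
  rw [FreeGroup.toWord_mk, pos_reduced.reduce_eq]

end Pool.Agent.L7h63.AP
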