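import Mathlib

/-!
# Zigzags

Definition used in the statement of `MP_a1ec0a_al.ShortZigzags`.
-/

set_option autoImplicit false

namespace Pool.Agent.L7h63.AP

/-- `Zigzag M s t n v`: the word `v` (a list of syllables) begins with a syllable `x₀` of `s`, and there
are syllables `x₀, x₁, …, xₙ₊₁` of `v`, from the left to the right and alternately of `s` and `t`, such
that `x₁, …, xₙ` have the exponents `1` or `-1` and such that, for all `i`, the syllables of `v`
between `xᵢ` and `xᵢ₊₁` are syllables of generators that commute with the generator of `xᵢ₊₁`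
(`s ≠ t`, `M s t ≠ 2`). -/
inductive Zigzag {S : Type*} (M : CoxeterMatrix S) : S → S → ℕ → List (S × ℤ) → Prop
  | link (s t : S) (k l : ℤ) (C R : List (S × ℤ)) (hst : s ≠ t) (h2 : M s t ≠ 2)
      (hC : ∀ c ∈ C, M c.1 t = 2) : Zigzag M s t 0 ((s, k) :: (C ++ (t, l) :: R))
  | step (s t : S) (k ε : ℤ) (C v : List (S × ℤ)) (n : ℕ) (hε : |ε| = 1)
      (hC : ∀ c ∈ C, M c.1 t = 2) (hv : Zigzag M t s n ((t, ε) :: v)) :
      Zigzag M s t (n + 1) ((s, k) :: (C ++ (t, ε) :: v))

end Pool.Agent.L7h63.AP
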