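import Pool.Agent.L7h63.AP.Cyc
import Pool.Agent.L7h63.AP.Pos
import Pool.Agent.L7h63.AP.ZigDefs
import Pool.Agent.K7.H20.AW.Fin

/-!
# Reduced words with few short syllables
-/

set_option autoImplicit false
set_option linter.unusedSectionVars false

namespace Pool.Agent.L7h63.AP

open Pool.Agent.K7.H20.AW

section fil

variable {S : Type*} [DecidableEq S]

/-- the syllables of `x` and `y` -/
def fil (x y : S) (w : List (S × ℤ)) : List (S × ℤ) :=
  w.filter fun p => decide (p.1 = x ∨ p.1 = y)

theorem fil_comm (x y : S) (w : List (S × ℤ)) : fil x y w = fil y x w := by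
  unfold fil
  congr 1
  funext p
  rw [decide_eq_decide]
  exact or_comm

theorem fil_append (x y : S) (v w : List (S × ℤ)) : fil x y (v ++ w) = fil x y v ++ fil x y w :=
  List.filter_append _ _

theorem fil_pos {x y : S} {p : S × ℤ} (h : p.1 = x ∨ p.1 = y) (w : List (S × ℤ)) :
    fil x y (p :: w) = p :: fil x y w :=
  List.filter_cons_of_pos (by simpa using h)

theorem fil_l (x y : S) (l : ℤ) (w : List (S × ℤ)) : fil x y ((x, l) :: w) = (x, l) :: fil x y w :=
  fil_pos (Or.inl rfl) w

theorem fil_neg {x y : S} {p : S × ℤ} (h : ¬ (p.1 = x ∨ p.1 = y)) (w : List (S × ℤ)) :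
    fil x y (p :: w) = fil x y w :=
  List.filter_cons_of_neg (by simpa using h)

theorem fil_mono (x y : S) (p : S × ℤ) (w : List (S × ℤ)) :
    (fil x y w).length ≤ (fil x y (p :: w)).length := by
  by_cases h : p.1 = x ∨ p.1 = y
  · rw [fil_pos h]
    simp
  · rw [fil_neg h]

theorem fil_le (x y : S) (w : List (S × ℤ)) : (fil x y w).length ≤ w.length :=
  List.length_filter_le _ _

theorem fil_mem {x y : S} {p : S × ℤ} {w : List (S × ℤ)} (h : p.1 = x ∨ p.1 = y) (hp : p ∈ w) :
    p ∈ fil x y w :=
  List.mem_filter.2 ⟨hp, by simpa using h⟩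

variable (M : CoxeterMatrix S)

/-- few syllables -/
def Ty (W : List (S × ℤ)) (x y : S) : Prop := M x y = 0 ∨ (fil x y W).length < M x y

/-- the condition -/
def Ok (W : List (S × ℤ)) : Prop :=
  ∀ x y, x ≠ y → M x y ≠ 2 → Ty M W x y ∨ ∀ P v n, W = P ++ v → Zigzag M x y n v →
    2 * n + 3 ≤ M x y

theorem Ty_comm {W : List (S × ℤ)} {x y : S} : Ty M W x y ↔ Ty M W y x := by
  rw [Ty, Ty, fil_comm, M.symmetric]

/-- one more copy of each generator, which commutes with everything -/
def dbl (M : CoxeterMatrix S) : CoxeterMatrix (S × Bool) where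
  M := Matrix.of fun a c => if a.2 = true ∧ c.2 = true then M a.1 c.1 else if a = c then 1 else 2
  isSymm := by
    ext a c
    simp only [Matrix.transpose_apply, Matrix.of_apply]
    rw [M.symmetric c.1 a.1]
    simp only [and_comm (a := c.2 = true), eq_comm (a := c)]
  diagonal a := by
    simp only [Matrix.of_apply]
    split_ifs with h
    · exact M.diagonal _
    · rfl
  off_diagonal a c h := by
    simp only [Matrix.of_apply]
    split_ifs with h1
    · apply M.off_diagonal
      intro h2
      exact h (Prod.ext h2 (by rw [h1.1, h1.2]))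
    · norm_num

/-- the matrix with the additional generators -/
abbrev MM (M : CoxeterMatrix S) (b : S) : CoxeterMatrix (Option (S × Bool)) :=
  star (dbl M) (b, true)

/-- the real generators -/
abbrev rl (x : S) : Option (S × Bool) := some (x, true)

theorem MM_rl (b x y : S) : MM M b (rl x) (rl y) = M x y := by
  show (if (true : Bool) = true ∧ (true : Bool) = true then M x y
    else if ((x, true) : S × Bool) = (y, true) then 1 else 2) = _
  rw [if_pos ⟨rfl, rfl⟩]

theorem good_c {T : Type*} [DecidableEq T] (N : CoxeterMatrix T) {κ : ℕ} (hκ : 1 ≤ κ) :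
    Good N κ fun _ => 1 := by
  intro s t h
  refine ⟨le_rfl, ?_⟩
  rw [len]
  split_ifs with h0
  · exact hκ
  · have := N.off_diagonal s t h
    show 1 ≤ _
    omega

theorem len_rl (b x y : S) (κ : ℕ) :
    len (MM M b) κ (rl x) (rl y) = if M x y = 0 then κ else M x y - 1 := by
  rw [len, MM_rl]

end fil

noncomputable section

open Classical

variable {S : Type*} [DecidableEq S] [Fintype S] (M : CoxeterMatrix S) (b : S) (κ : ℕ)

/-- the action of a generator -/
def ac (x : S) : (Monoid.End (FG (Option (S × Bool))))ˣ := un (MM M b) κ Lp_nodup (rl x)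

/-- the state of the walk -/
structure Inv (W w : List (S × ℤ)) (g : FG (Option (S × Bool))) (c : S) (k : ℤ)
    (η : Sym2 (Option (S × Bool)) → ℕ) (t : Option S) (δ : Bool) : Prop where
  q : Q g (rl c, η) (rp k.natAbs (Wd (Lp S) δ (t.map fun x => (x, true))))
  k0 : k ≠ 0
  good : Good (MM M b) κ η
  cur : ∃ w1 w2, w = w1 ++ (c, k) :: w2 ∧ ∀ p ∈ w1, p.1 ≠ c ∧ M p.1 c = 2
  cnt : ∀ x y, x ≠ y → Ty M W x y → η s(rl x, rl y) ≤ max 1 (fil x y w).length
  non : t = none → δ = true
  arr : ∀ a, t = some a → a ≠ c ∧ M a c ≠ 2 ∧ (Ty M W a c → δ = false) ∧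
    (¬ Ty M W a c → ∃ n w1 w2, w = w1 ++ (c, k) :: w2 ∧ (∀ p ∈ w1, M p.1 c = 2) ∧
      Zigzag M c a n ((c, k) :: w2) ∧
      (if δ = true then (M a c - 1) / 2 ≤ η s(rl a, rl c) + n
        else (M a c - 1) / 2 + η s(rl a, rl c) ≤ (M a c - 1) + n + 1))

variable {M b κ}

theorem rp_Wd_ne {k : ℤ} (hk : k ≠ 0) (δ : Bool) (t : Option (S × Bool)) :
    rp k.natAbs (Wd (Lp S) δ t) ≠ [] := by
  intro h
  have h1 := (rp_one (n := k.natAbs) (by omega) (Wd (Lp S) δ t)).length
  rw [h, List.length_nil, Nat.le_zero, List.length_eq_zero_iff] at h1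
  exact Wd_ne δ t h1

theorem Inv.comm {W w : List (S × ℤ)} {g : FG (Option (S × Bool))} {c : S} {k : ℤ}
    {η : Sym2 (Option (S × Bool)) → ℕ} {t : Option S} {δ : Bool}
    (h : Inv M b κ W w g c k η t δ) {r : S} {l : ℤ} (hrc : r ≠ c) (h2 : M r c = 2) :
    Inv M b κ W ((r, l) :: w) (((ac M b κ r ^ l : (Monoid.End (FG (Option (S × Bool))))ˣ) :
      Monoid.End (FG (Option (S × Bool)))) g) c k η t δ where
  q := Q.keep Lp_nodup (by simpa using hrc.symm) h.good (by rw [MM_rl]; exact h2)
    (rp_Wd_ne h.k0 _ _) h.q l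
  k0 := h.k0
  good := h.good
  cur := by
    obtain ⟨w1, w2, h1, h3⟩ := h.cur
    refine ⟨(r, l) :: w1, w2, by rw [h1]; rfl, ?_⟩
    intro p hp
    rcases List.mem_cons.1 hp with rfl | hp
    · exact ⟨hrc, h2⟩
    · exact h3 p hp
  cnt x y hxy hT := (h.cnt x y hxy hT).trans (max_le_max le_rfl (fil_mono _ _ _ _))
  non := h.non
  arr a ha := by
    obtain ⟨h3, h4, h5, h6⟩ := h.arr a ha
    refine ⟨h3, h4, h5, fun h7 => ?_⟩
    obtain ⟨n, w1, w2, h8, h9, h10, h11⟩ := h6 h7
    refine ⟨n, (r, l) :: w1, w2, by rw [h8]; rfl, ?_, h10, h11⟩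
    intro p hp
    rcases List.mem_cons.1 hp with rfl | hp
    · exact h2
    · exact h9 p hp

theorem Inv.move {W w : List (S × ℤ)} {g g' : FG (Option (S × Bool))} {c : S} {k : ℤ}
    {η : Sym2 (Option (S × Bool)) → ℕ} {t : Option S} {δ : Bool}
    (h : Inv M b κ W w g c k η t δ) {r : S} {l : ℤ} (hl : l ≠ 0) (hrc : r ≠ c) (h2 : M r c ≠ 2)
    {i : ℕ} {δ' : Bool}
    (hq : Q g' (rl r, Function.update η s(rl r, rl c) i) (rp l.natAbs (Wd (Lp S) δ' (rl c))))
    (hi1 : 1 ≤ i) (hi2 : i ≤ len (MM M b) κ (rl r) (rl c))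
    (hcnt : Ty M W r c → i ≤ (fil r c w).length + 1 ∧ δ' = false)
    (harr : ¬ Ty M W r c → ∃ n, Zigzag M r c n ((r, l) :: w) ∧
      (if δ' = true then (M r c - 1) / 2 ≤ i + n
        else (M r c - 1) / 2 + i ≤ (M r c - 1) + n + 1)) :
    Inv M b κ W ((r, l) :: w) g' r l (Function.update η s(rl r, rl c) i) (some c) δ' where
  q := hq
  k0 := hl
  good := good_update h.good hi1 hi2
  cur := ⟨[], w, rfl, by simp⟩
  cnt x y hxy hT := by
    by_cases he : s(rl x, rl y) = s(rl r, rl c)
    · rw [he, Function.update_self]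
      rcases Sym2.eq_iff.1 he with ⟨h3, h4⟩ | ⟨h3, h4⟩
      · have h5 : x = r := by simpa [rl] using h3
        have h6 : y = c := by simpa [rl] using h4
        subst h5 h6
        rw [fil_l, List.length_cons]
        exact (hcnt hT).1.trans (le_max_right _ _)
      · have h5 : x = c := by simpa [rl] using h3
        have h6 : y = r := by simpa [rl] using h4
        subst h5 h6
        rw [fil_comm, fil_l, List.length_cons]
        exact (hcnt ((Ty_comm M).1 hT)).1.trans (le_max_right _ _)
    · rw [Function.update_of_ne he]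
      exact (h.cnt x y hxy hT).trans (max_le_max le_rfl (fil_mono _ _ _ _))
  non h := by simp at h
  arr a ha := by
    have ha' : c = a := by simpa using ha
    subst ha'
    have h3 : s(rl c, rl r) = s(rl r, rl c) := Sym2.eq_swap
    refine ⟨hrc.symm, by rw [M.symmetric]; exact h2, fun hT => (hcnt ((Ty_comm M).1 hT)).2, ?_⟩
    intro hT
    obtain ⟨n, h4, h7⟩ := harr fun h8 => hT ((Ty_comm M).1 h8)
    refine ⟨n, [], w, rfl, by simp, h4, ?_⟩
    rw [h3, Function.update_self, M.symmetric c r]
    exact h7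

theorem q_down {w : List (S × ℤ)} {W : List (S × ℤ)} {g : FG (Option (S × Bool))} {c : S} {k : ℤ}
    {η : Sym2 (Option (S × Bool)) → ℕ} {t : Option S} {δ : Bool}
    (h : Inv M b κ W w g c k η t δ) {r : S} (hrc : r ≠ c)
    (hp : 2 ≤ η s(rl r, rl c)) (hav : δ = true ∨ t ≠ some r ∨ 2 ≤ k.natAbs) (l : ℤ) :
    Q (((ac M b κ r ^ l : (Monoid.End (FG (Option (S × Bool))))ˣ) :
      Monoid.End (FG (Option (S × Bool)))) g)
      (rl r, Function.update η s(rl r, rl c) (η s(rl r, rl c) - 1))
      (rp l.natAbs (Wd (Lp S) true (rl c))) := by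
  have hT : (t.map fun x => (x, true)) ≠ some (r, false) := by
    rcases t with _ | t
    · simp
    · simp
  obtain ⟨r', h1, h2⟩ := avail_down (L := Lp S) Lp_nodup (Lp_mem (rl r)) (Lp_mem _) (Lp_fol r) hT
    (n := k.natAbs) (by have := h.k0; omega) (δ := δ) (by
      rcases hav with h3 | h3 | h3
      · exact Or.inl h3
      · refine Or.inr (Or.inl fun h4 => h3 ?_)
        rcases t with _ | t
        · simp [rl] at h4
        · have : r = t := by simpa [rl] using h4
          rw [this]
      · exact Or.inr (Or.inr h3))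
  exact Q.down (M := MM M b) (κ := κ) Lp_nodup (v := (rl c, η)) (by simpa using hrc.symm) h.good hp
    h2 h1 h.q l

theorem q_up {w : List (S × ℤ)} {W : List (S × ℤ)} {g : FG (Option (S × Bool))} {c : S} {k : ℤ}
    {η : Sym2 (Option (S × Bool)) → ℕ} {t : Option S} {δ : Bool}
    (h : Inv M b κ W w g c k η t δ) {r : S} (hrc : r ≠ c)
    (hp : η s(rl r, rl c) + 1 ≤ len (MM M b) κ (rl r) (rl c))
    (hav : δ = false ∨ t ≠ some r ∨ 2 ≤ k.natAbs) (l : ℤ) :
    Q (((ac M b κ r ^ l : (Monoid.End (FG (Option (S × Bool))))ˣ) :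
      Monoid.End (FG (Option (S × Bool)))) g)
      (rl r, Function.update η s(rl r, rl c) (η s(rl r, rl c) + 1))
      (rp l.natAbs (Wd (Lp S) false (rl c))) := by
  obtain ⟨r', h1, h2⟩ := avail_up (L := Lp S) Lp_nodup (Lp_mem (rl r))
    (Lp_mem (t.map fun x => (x, true))) (δ := δ)
    (by
      intro h3
      rcases t with _ | t
      · exfalso
        rcases h3 with h3 | h3
        · rw [h.non rfl] at h3
          simp at h3
        · simp [rl] at h3
      · exact ⟨some (t, false), Lp_fol t, by simp [rl]⟩)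
    (n := k.natAbs) (by have := h.k0; omega) (by
      rcases hav with h3 | h3 | h3
      · exact Or.inl h3
      · refine Or.inr (Or.inl fun h4 => h3 ?_)
        rcases t with _ | t
        · simp [rl] at h4
        · have : r = t := by simpa [rl] using h4
          rw [this]
      · exact Or.inr (Or.inr h3))
  exact Q.upw (M := MM M b) (κ := κ) Lp_nodup (v := (rl c, η)) (by simpa using hrc.symm) h.good hp
    h2 h1 h.q l

theorem Inv.step {W w : List (S × ℤ)} {g : FG (Option (S × Bool))} {c : S} {k : ℤ}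
    {η : Sym2 (Option (S × Bool)) → ℕ} {t : Option S} {δ : Bool}
    (h : Inv M b κ W w g c k η t δ) (hR : Rd M W) (hO : Ok M W) (hκ : W.length < κ)
    {pre : List (S × ℤ)} {r : S} {l : ℤ} (hW : W = pre ++ (r, l) :: w) :
    ∃ c' k' η' t' δ', Inv M b κ W ((r, l) :: w)
      (((ac M b κ r ^ l : (Monoid.End (FG (Option (S × Bool))))ˣ) :
        Monoid.End (FG (Option (S × Bool)))) g) c' k' η' t' δ' := by
  have hl : l ≠ 0 := hR.1 (r, l) (by rw [hW]; simp)
  obtain ⟨w1, w2, hw, hw1⟩ := h.cur
  by_cases hrc : r = c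
  · exfalso
    subst hrc
    obtain ⟨d, hd, hd1, hd2⟩ := hR.2 pre w1 w2 r l k (by rw [hW, hw])
    exact hd2 (hw1 d hd).2
  by_cases h2 : M r c = 2
  · exact ⟨_, _, _, _, _, h.comm hrc h2⟩
  have hck : (c, k) ∈ fil r c w := fil_mem (Or.inr rfl) (by rw [hw]; simp)
  have hpos : 0 < (fil r c w).length := List.length_pos_of_mem hck
  have hfil : fil r c W = fil r c pre ++ (r, l) :: fil r c w := by
    rw [hW, fil_append, fil_l]
  have hfl : (fil r c w).length + 1 ≤ (fil r c W).length := by
    rw [hfil]
    simp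
  have hg := h.good (rl r) (rl c) (by simpa using hrc)
  have hlen := len_rl M b r c κ
  rw [hlen] at hg
  have hnot : ∀ {a}, t = some a → ¬ (a = r ∧ ¬ 2 ≤ k.natAbs) → t ≠ some r ∨ 2 ≤ k.natAbs := by
    intro a ha hna
    by_cases h3 : 2 ≤ k.natAbs
    · exact Or.inr h3
    · left
      rw [ha]
      intro h4
      exact hna ⟨by simpa using h4, h3⟩
  by_cases hT : Ty M W r c
  · -- always up
    have hp : η s(rl r, rl c) ≤ (fil r c w).length :=
      (h.cnt r c hrc hT).trans (max_le hpos le_rfl)
    have hpl : η s(rl r, rl c) + 1 ≤ len (MM M b) κ (rl r) (rl c) := by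
      rw [hlen]
      have h3 := fil_le r c W
      rcases hT with hT | hT
      · rw [if_pos hT]
        omega
      · split_ifs
        · omega
        · omega
    refine ⟨_, _, _, _, _, h.move hl hrc h2 (δ' := false) (q_up h hrc hpl ?_ l) (by omega) hpl
      (fun _ => ⟨by omega, rfl⟩) (fun h3 => absurd hT h3)⟩
    by_cases h3 : t = some r
    · exact Or.inl ((h.arr r h3).2.2.1 hT)
    · exact Or.inr (Or.inl h3)
  · have hm0 : M r c ≠ 0 := fun h3 => hT (Or.inl h3)
    have hm1 := M.off_diagonal r c hrc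
    rw [if_neg hm0] at hg hlen
    have hB := (hO r c hrc h2).resolve_left hT
    by_cases hf : t = some r ∧ k.natAbs = 1
    · -- forced
      obtain ⟨n, w1, w2, h3, h4, h5, h7⟩ := (h.arr r hf.1).2.2.2 hT
      have hz : Zigzag M r c (n + 1) ((r, l) :: w) := by
        rw [h3]
        exact Zigzag.step r c l k w1 w2 n (by
          have := hf.2
          rw [Int.abs_eq_natAbs, this]
          rfl) h4 h5
      have h8 := hB pre _ _ hW hz
      rcases δ with _ | _
      · simp only [Bool.false_eq_true, if_false] at h7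
        have hpl : η s(rl r, rl c) + 1 ≤ len (MM M b) κ (rl r) (rl c) := by
          rw [hlen]
          omega
        refine ⟨_, _, _, _, _, h.move hl hrc h2 (δ' := false) (q_up h hrc hpl (Or.inl rfl) l)
          (by omega) hpl (fun h9 => absurd h9 hT) (fun _ => ⟨n + 1, hz, ?_⟩)⟩
        simp only [Bool.false_eq_true, if_false]
        omega
      · simp only [if_true] at h7
        have hp2 : 2 ≤ η s(rl r, rl c) := by omega
        refine ⟨_, _, _, _, _, h.move hl hrc h2 (δ' := true) (q_down h hrc hp2 (Or.inl rfl) l)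
          (by omega) (by rw [hlen]; omega) (fun h9 => absurd h9 hT)
          (fun _ => ⟨n + 1, hz, ?_⟩)⟩
        simp only [if_true]
        omega
    · -- free
      have hav : t ≠ some r ∨ 2 ≤ k.natAbs := by
        by_cases h3 : t = some r
        · right
          have := h.k0
          have h4 : k.natAbs ≠ 1 := fun h5 => hf ⟨h3, h5⟩
          omega
        · exact Or.inl h3
      have hz : Zigzag M r c 0 ((r, l) :: w) := by
        rw [hw]
        exact Zigzag.link r c l k w1 w2 hrc h2 fun p hp => (hw1 p hp).2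
      by_cases hd : (M r c - 1) / 2 + 1 ≤ η s(rl r, rl c)
      · have hp2 : 2 ≤ η s(rl r, rl c) := by omega
        refine ⟨_, _, _, _, _, h.move hl hrc h2 (δ' := true) (q_down h hrc hp2 (Or.inr hav) l)
          (by omega) (by rw [hlen]; omega) (fun h9 => absurd h9 hT)
          (fun _ => ⟨0, hz, ?_⟩)⟩
        simp only [if_true]
        omega
      · have hpl : η s(rl r, rl c) + 1 ≤ len (MM M b) κ (rl r) (rl c) := by
          rw [hlen]
          omega
        refine ⟨_, _, _, _, _, h.move hl hrc h2 (δ' := false) (q_up h hrc hpl (Or.inr hav) l)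
          (by omega) hpl (fun h9 => absurd h9 hT)
          (fun _ => ⟨0, hz, ?_⟩)⟩
        simp only [Bool.false_eq_true, if_false]
        omega

/-- the walk -/
theorem Inv.walk {W : List (S × ℤ)} (hR : Rd M W) (hO : Ok M W) (hκ : W.length < κ)
    {w : List (S × ℤ)} {G : ArtinGroup M →* (Monoid.End (FG (Option (S × Bool))))ˣ}
    (hG : ∀ x, G (PresentedGroup.of x) = ac M b κ x) {g : FG (Option (S × Bool))} {c : S} {k : ℤ}
    {η : Sym2 (Option (S × Bool)) → ℕ} {t : Option S} {δ : Bool}
    (h : Inv M b κ W w g c k η t δ) : ∀ (v pre : List (S × ℤ)), W = pre ++ (v ++ w) →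
    ∃ c' k' η' t' δ', Inv M b κ W (v ++ w)
      ((G (value M v) : Monoid.End (FG (Option (S × Bool)))) g) c' k' η' t' δ' := by
  intro v
  induction v with
  | nil =>
    intro pre _
    refine ⟨c, k, η, t, δ, ?_⟩
    have : value M [] = 1 := rfl
    rw [this, map_one]
    exact h
  | cons p v ih =>
    intro pre hW
    obtain ⟨r, l⟩ := p
    obtain ⟨c', k', η', t', δ', h'⟩ := ih (pre ++ [(r, l)]) (by rw [hW]; simp)
    obtain ⟨c2, k2, η2, t2, δ2, h2⟩ := h'.step hR hO hκ (pre := pre) (r := r) (l := l)
      (by rw [hW]; rfl)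
    refine ⟨c2, k2, η2, t2, δ2, ?_⟩
    rw [value_cons, map_mul, map_zpow, hG, Units.val_mul]
    exact h2

variable (M b κ)

/-- the action -/
def rep2 : ArtinGroup M →* (Monoid.End (FG (Option (S × Bool))))ˣ :=
  PresentedGroup.toGroup (f := ac M b κ) (by
    rintro _ ⟨s, t, rfl⟩
    rw [map_mul, map_inv, map_altProd, map_altProd, FreeGroup.lift_apply_of,
      FreeGroup.lift_apply_of, mul_inv_eq_one]
    apply Units.ext
    have h := T_rel (M := MM M b) (κ := κ) (L := Lp S) Lp_nodup Lp_mem (rl s) (rl t)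
    rw [MM_rl] at h
    have h1 := map_altProd (Units.coeHom (Monoid.End (FG (Option (S × Bool))))) (M s t)
      (ac M b κ s) (ac M b κ t)
    have h2 := map_altProd (Units.coeHom (Monoid.End (FG (Option (S × Bool))))) (M s t)
      (ac M b κ t) (ac M b κ s)
    exact h1.trans (h.trans h2.symm))

theorem rep2_of (s : S) : rep2 M b κ (PresentedGroup.of s) = ac M b κ s :=
  PresentedGroup.toGroup.of _

/-- the arc -/
def d2 : FG (Option (S × Bool)) :=
  X (none, Function.update (fun _ => 1) s(rl b, none) 2) (rl b)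

theorem d2_fix {x : S} (hx : x ≠ b) : T (MM M b) κ (Lp S) (rl x) (d2 b) = d2 b :=
  T_X0 (Or.inl fun h => hx (by simpa [rl] using h.symm))

theorem stab2 {g : ArtinGroup M}
    (hg : g ∈ Subgroup.closure {g : ArtinGroup M | ∃ t, t ≠ b ∧ g = PresentedGroup.of t}) :
    (rep2 M b κ g : Monoid.End (FG (Option (S × Bool)))) (d2 b) = d2 b := by
  induction hg using Subgroup.closure_induction with
  | mem g hg =>
    obtain ⟨t, ht, rfl⟩ := hg
    rw [rep2_of]
    exact d2_fix M b κ ht
  | one => rw [map_one]; rfl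
  | mul x y _ _ hx hy =>
    rw [map_mul, Units.val_mul]
    show (rep2 M b κ x : Monoid.End (FG (Option (S × Bool))))
      ((rep2 M b κ y : Monoid.End (FG (Option (S × Bool)))) _) = _
    rw [hy, hx]
  | inv x _ hx =>
    rw [map_inv]
    have h : (((rep2 M b κ x)⁻¹ : (Monoid.End (FG (Option (S × Bool))))ˣ) * rep2 M b κ x).1
        (d2 b) = d2 b := by
      rw [inv_mul_cancel]
      rfl
    rw [Units.val_mul] at h
    have h' : (((rep2 M b κ x)⁻¹ : (Monoid.End (FG (Option (S × Bool))))ˣ) :
      Monoid.End (FG (Option (S × Bool))))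
      ((rep2 M b κ x : Monoid.End (FG (Option (S × Bool)))) (d2 b)) = d2 b := h
    rwa [hx] at h'

theorem value_mem {w : List (S × ℤ)} {A : Set S} (h : ∀ p ∈ w, p.1 ∈ A) :
    value M w ∈ Subgroup.closure {g : ArtinGroup M | ∃ t ∈ A, g = PresentedGroup.of t} := by
  induction w with
  | nil => exact Subgroup.one_mem _
  | cons p w ih =>
    obtain ⟨x, k⟩ := p
    have hx : (PresentedGroup.of x : ArtinGroup M) ∈
        {g : ArtinGroup M | ∃ t ∈ A, g = PresentedGroup.of t} := ⟨x, h (x, k) (by simp), rfl⟩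
    rw [value_cons]
    exact Subgroup.mul_mem _ (Subgroup.zpow_mem _ (Subgroup.subset_closure hx) k)
      (ih fun p hp => h p (by simp [hp]))

theorem start {k : ℤ} (hk : k ≠ 0) (hκ : 1 ≤ κ) {W w : List (S × ℤ)} :
    Inv M b κ W ((b, k) :: w) (((ac M b κ b ^ k : (Monoid.End (FG (Option (S × Bool))))ˣ) :
      Monoid.End (FG (Option (S × Bool)))) (d2 b)) b k (fun _ => 1) none true where
  q := by
    have hlen : len (MM M b) κ (rl b) none = 2 := by
      rw [len, star_b]
      rfl
    have hne : (none : Option (S × Bool)) ≠ rl b := by simp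
    have hg : Good (MM M b) κ (Function.update (fun _ => 1) s(rl b, none) 2) :=
      good_update (good_c _ hκ) (by norm_num) (by rw [hlen])
    have e : Function.update (fun _ => 1) s(rl b, none) 2 s(rl b, (none : Option (S × Bool))) =
      2 := Function.update_self _ _ _
    have e1 : uo (MM M b) κ (Lp S) (rl b)
        (((none, Function.update (fun _ => 1) s(rl b, none) 2), rl b), true) = 1 := by
      rw [uo, if_pos ⟨rfl, hne⟩, if_pos rfl, up, if_neg]
      rintro ⟨_, h⟩
      have h' : Function.update (fun _ => 1) s(rl b, none) 2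
        s(rl b, (none : Option (S × Bool))) + 1 ≤ len (MM M b) κ (rl b) none := h
      rw [e, hlen] at h'
      omega
    have e2 : uo (MM M b) κ (Lp S) (rl b)
        (((none, Function.update (fun _ => 1) s(rl b, none) 2), rl b), false) =
        (FreeGroup.mk (wd (rl b, fun _ => 1) (none :: rest (Lp S) none)))⁻¹ := by
      rw [uo, if_pos ⟨rfl, hne⟩, if_neg (by simp), dn, if_pos ⟨hg, e.ge⟩, mk_wd]
      have e3 : nb (none, Function.update (fun _ => 1) s(rl b, (none : Option (S × Bool))) 2)
          (rl b) (Function.update (fun _ => 1) s(rl b, none) 2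
            s(rl b, (none : Option (S × Bool))) - 1) = (rl b, fun _ => 1) := by
        rw [e]
        unfold nb
        simp only [Function.update_idem]
        congr 1
        exact Function.update_eq_self _ _
      show (X (nb (none, Function.update (fun _ => 1) s(rl b, (none : Option (S × Bool))) 2)
          (rl b) (Function.update (fun _ => 1) s(rl b, none) 2
            s(rl b, (none : Option (S × Bool))) - 1)) none *
        Rr (Lp S) (nb (none, Function.update (fun _ => 1) s(rl b, (none : Option (S × Bool))) 2)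
          (rl b) (Function.update (fun _ => 1) s(rl b, none) 2
            s(rl b, (none : Option (S × Bool))) - 1)) none)⁻¹ = _
      rw [e3]
      rfl
    have h1 := (tw_un (M := MM M b) (κ := κ) (L := Lp S) Lp_nodup (rl b) k).mov
      ((none, Function.update (fun _ => 1) s(rl b, none) 2), rl b) hne
    rw [e1, e2, one_zpow, one_mul, inv_zpow, inv_inv] at h1
    apply Q.of_pow
    have h2 : (((ac M b κ b ^ k : (Monoid.End (FG (Option (S × Bool))))ˣ) :
      Monoid.End (FG (Option (S × Bool)))) (d2 b)) = _ := h1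
    rw [h2, toWord_mul']
    · refine ⟨(FreeGroup.of (((none, Function.update (fun _ => 1) s(rl b, none) 2), rl b) :
        Vx (Option (S × Bool)) × Option (S × Bool))).toWord, [], ?_⟩
      rw [List.append_nil]
      rfl
    · intro a ha c hc hac
      exfalso
      have h3 : a.1.1.1 = none := by
        rw [FreeGroup.toWord_of] at ha
        have : (((none, Function.update (fun _ => 1) s(rl b, none) 2), rl b), true) = a := by
          simpa using ha
        rw [← this]
      have h4 : Fr {z | z.1.1 = rl b}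
          (FreeGroup.mk (wd (rl b, fun _ => 1) (none :: rest (Lp S) none)) ^ k) := by
        have h5 : Fr {z : Vx (Option (S × Bool)) × Option (S × Bool) | z.1.1 = rl b}
            (FreeGroup.mk (wd (rl b, fun _ => 1) (none :: rest (Lp S) none))) := by
          apply fr_mk
          intro l hl
          simp only [wd, List.map_map, List.mem_map, Function.comp] at hl
          obtain ⟨a, _, rfl⟩ := hl
          rfl
        have h6 : ∀ n : ℕ, Fr {z : Vx (Option (S × Bool)) × Option (S × Bool) | z.1.1 = rl b}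
            (FreeGroup.mk (wd (rl b, fun _ => 1) (none :: rest (Lp S) none)) ^ n) := by
          intro n
          induction n with
          | zero => rw [pow_zero]; exact Fr.one _
          | succ n ih => rw [pow_succ]; exact ih.mul h5
        rcases k with n | n
        · rw [Int.ofNat_eq_natCast, zpow_natCast]
          exact h6 n
        · rw [zpow_negSucc]
          exact (h6 _).inv
      have h5 : c.1.1.1 = rl b := h4.hd hc
      rw [← hac, h3] at h5
      exact hne h5
  k0 := hk
  good := good_c _ hκ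
  cur := ⟨[], w, rfl, by simp⟩
  cnt x y _ _ := le_max_left _ _
  non _ := rfl
  arr a ha := by simp at ha

/-- **the main statement** -/
theorem sq_main {W : List (S × ℤ)} (hR : Rd M W) (hO : Ok M W) (hb : ∃ p ∈ W, p.1 = b) :
    value M W ∉ Subgroup.closure {g : ArtinGroup M | ∃ t, t ≠ b ∧ g = PresentedGroup.of t} := by
  intro hmem
  obtain ⟨v, ⟨b', k⟩, w, rfl, hb', hw⟩ := split_last (fun p : S × ℤ => p.1 = b) W hb
  have hb'' : b' = b := hb'
  subst hb''
  set W := v ++ (b', k) :: w with hW
  have hk : k ≠ 0 := hR.1 (b', k) (by rw [hW]; simp)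
  obtain ⟨c', k', η', t', δ', h⟩ := (start M b' (W.length + 1) hk (by omega) (W := W)
    (w := w)).walk hR hO (by omega) (rep2_of M b' (W.length + 1)) v [] rfl
  have h1 : (rep2 M b' (W.length + 1) (value M v) : Monoid.End (FG (Option (S × Bool))))
      (((ac M b' (W.length + 1) b' ^ k : (Monoid.End (FG (Option (S × Bool))))ˣ) :
        Monoid.End (FG (Option (S × Bool)))) (d2 b')) = d2 b' := by
    have h2 := stab2 M b' (W.length + 1) hmem
    have h3 : value M W = value M v * ((PresentedGroup.of b' : ArtinGroup M) ^ k * value M w) := by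
      rw [← value_cons, hW]
      simp [value]
    have h4 : (rep2 M b' (W.length + 1) (value M w) : Monoid.End (FG (Option (S × Bool))))
        (d2 b') = d2 b' := by
      apply stab2
      refine Subgroup.closure_mono ?_ (value_mem M (A := {t | t ≠ b'}) fun p hp => hw p hp)
      rintro _ ⟨t, ht, rfl⟩
      exact ⟨t, ht, rfl⟩
    rw [h3, map_mul, map_mul, map_zpow, rep2_of, Units.val_mul, Units.val_mul] at h2
    have h5 : (rep2 M b' (W.length + 1) (value M v) : Monoid.End (FG (Option (S × Bool))))
      (((ac M b' (W.length + 1) b' ^ k : (Monoid.End (FG (Option (S × Bool))))ˣ) :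
        Monoid.End (FG (Option (S × Bool))))
        ((rep2 M b' (W.length + 1) (value M w) : Monoid.End (FG (Option (S × Bool))))
        (d2 b'))) = d2 b' := h2
    rwa [h4] at h5
  have hq := h.q
  rw [h1] at hq
  have h6 : (d2 b').toWord.length = 1 := by
    rw [d2, X, FreeGroup.toWord_of]
    rfl
  have h7 : ((d2 b')⁻¹).toWord.length = 1 := by
    rw [FreeGroup.toWord_inv, FreeGroup.invRev_length, h6]
  have h8 : (wd (rl c', η') (rp k'.natAbs (Wd (Lp S) δ' (t'.map fun x => (x, true))))).length ≤ 1 := by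
    rcases hq with hq | hq
    · exact hq.length.trans h6.le
    · exact hq.length.trans h7.le
  have h9 := (rp_one (n := k'.natAbs) (by have := h.k0; omega)
    (Wd (Lp S) δ' (t'.map fun x => (x, true)))).length
  rw [Wd_length _ (Lp_mem _)] at h9
  have h10 := Lp_length b'
  simp only [wd, List.length_map] at h8
  omega

end

end Pool.Agent.L7h63.AP
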