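import Pool.Agent.L7h63.AP.Cw

/-!
# Turning back
-/

set_option autoImplicit false
set_option linter.unusedSectionVars false

namespace Pool.Agent.L7h63.AP

section lists

variable {α : Type*} [DecidableEq α] {u : α × Bool → FreeGroup α}

theorem eL_two (x y : α × Bool) (F : List (α × Bool)) :
    eL u (x :: y :: F) = x :: (((u (iv x))⁻¹ * u y).toWord ++ eL u (y :: F)) := rfl

theorem eL_run : ∀ (F : List (α × Bool)) (x z : α × Bool) (Z : List (α × Bool)),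
    (∀ l ∈ F, u l = 1) → (∀ l ∈ x :: F, u (iv l) = 1) →
    eL u (x :: (F ++ z :: Z)) = x :: (F ++ ((u z).toWord ++ eL u (z :: Z))) := by
  intro F
  induction F with
  | nil =>
    intro x z Z _ h
    rw [List.nil_append, eL_two, h x (by simp)]
    simp
  | cons f F ih =>
    intro x z Z h1 h2
    rw [List.cons_append, eL_two, h2 x (by simp), h1 f (by simp), ih f z Z
      (fun l hl => h1 l (by simp [hl])) (fun l hl => h2 l (by
        rcases List.mem_cons.1 hl with rfl | hl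
        · simp
        · simp [hl]))]
    simp

theorem eL_run' {f : α × Bool} {F : List (α × Bool)} {x z : α × Bool} {Z : List (α × Bool)}
    (h1 : ∀ l ∈ f :: F, u l = 1) (h2 : ∀ l ∈ f :: F, u (iv l) = 1) :
    eL u (x :: (f :: F ++ z :: Z)) =
      x :: (((u (iv x))⁻¹).toWord ++ (f :: F ++ ((u z).toWord ++ eL u (z :: Z)))) := by
  rw [List.cons_append, eL_two, h1 f (by simp), mul_one,
    eL_run F f z Z (fun l hl => h1 l (by simp [hl])) h2]
  rfl

end lists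

noncomputable section

open Classical

variable {T : Type*} [DecidableEq T] [DecidableEq (Vx T × T)] {N : CoxeterMatrix T} {κ : ℕ}
  {L : List T}

theorem uo_ne {l : (Vx T × T) × Bool} {r : T} (h : l.1.2 ≠ r) : uo N κ L r l = 1 := by
  rw [uo, if_neg]
  rintro ⟨h3, _⟩
  exact h h3

theorem uo_t {v : Vx T} {r : T} (h : v.1 ≠ r) : uo N κ L r ((v, r), true) = up N κ L r v := by
  rw [uo, if_pos ⟨rfl, h⟩, if_pos rfl]

theorem uo_f {v : Vx T} {r : T} (h : v.1 ≠ r) : uo N κ L r ((v, r), false) = (dn N κ L r v)⁻¹ := by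
  rw [uo, if_pos ⟨rfl, h⟩, if_neg (by simp)]

theorem up_is {v : Vx T} {r : T} (hG : Good N κ v.2) (h : v.2 s(r, v.1) + 1 ≤ len N κ r v.1) :
    up N κ L r v =
      (FreeGroup.mk (wd (nb v r (v.2 s(r, v.1) + 1)) (rest L v.1 ++ [v.1])))⁻¹ := by
  rw [up, if_pos ⟨hG, h⟩, mk_wd, List.map_append, List.prod_append, List.map_singleton,
    List.prod_singleton]
  rfl

theorem dn_is {v : Vx T} {r : T} (hG : Good N κ v.2) (h : 2 ≤ v.2 s(r, v.1)) :
    dn N κ L r v =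
      FreeGroup.mk (wd (nb v r (v.2 s(r, v.1) - 1)) (v.1 :: rest L v.1)) := by
  rw [dn, if_pos ⟨hG, h⟩, mk_wd]
  rfl

theorem up_no {v : Vx T} {r : T} (h : ¬ v.2 s(r, v.1) + 1 ≤ len N κ r v.1) :
    up N κ L r v = 1 := by
  rw [up, if_neg]
  rintro ⟨_, h3⟩
  exact h h3

theorem dn_no {v : Vx T} {r : T} (h : ¬ 2 ≤ v.2 s(r, v.1)) : dn N κ L r v = 1 := by
  rw [dn, if_neg]
  rintro ⟨_, h3⟩
  exact h h3

theorem nb_nb {v : Vx T} {y : T} {i : ℕ} : nb (nb v y i) v.1 (v.2 s(y, v.1)) = v := by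
  obtain ⟨c, η⟩ := v
  unfold nb
  simp only
  rw [show s(c, y) = s(y, c) from Sym2.eq_swap, Function.update_idem, Function.update_eq_self]

theorem nb_at {v : Vx T} {y : T} {i : ℕ} : (nb v y i).2 s(v.1, y) = i := by
  show Function.update v.2 s(y, v.1) i s(v.1, y) = i
  rw [show s(v.1, y) = s(y, v.1) from Sym2.eq_swap, Function.update_self]

/-- back from above -/
theorem uo_back_up {v : Vx T} {y : T} (hy : y ≠ v.1) (hG : Good N κ v.2)
    (h : v.2 s(y, v.1) + 1 ≤ len N κ y v.1) :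
    uo N κ L v.1 (((nb v y (v.2 s(y, v.1) + 1)), v.1), false) =
      (FreeGroup.mk (wd v (y :: rest L y)))⁻¹ := by
  have hg := hG y v.1 hy
  have hG' : Good N κ (nb v y (v.2 s(y, v.1) + 1)).2 := good_update hG (by omega) h
  have e : (nb v y (v.2 s(y, v.1) + 1)).2 s(v.1, (nb v y (v.2 s(y, v.1) + 1)).1) =
      v.2 s(y, v.1) + 1 := nb_at
  rw [uo_f (show (nb v y (v.2 s(y, v.1) + 1)).1 ≠ v.1 from hy), dn_is hG' (by rw [e]; omega), e,
    Nat.add_sub_cancel, nb_nb]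
  rfl

/-- back from below -/
theorem uo_back_dn {v : Vx T} {y : T} (hy : y ≠ v.1) (hG : Good N κ v.2)
    (h : 2 ≤ v.2 s(y, v.1)) :
    uo N κ L v.1 (((nb v y (v.2 s(y, v.1) - 1)), v.1), true) =
      (FreeGroup.mk (wd v (rest L y ++ [y])))⁻¹ := by
  have hg := hG y v.1 hy
  have hG' : Good N κ (nb v y (v.2 s(y, v.1) - 1)).2 := good_update hG (by omega) (by omega)
  have e : (nb v y (v.2 s(y, v.1) - 1)).2 s(v.1, (nb v y (v.2 s(y, v.1) - 1)).1) =
      v.2 s(y, v.1) - 1 := nb_at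
  have e2 : v.2 s(y, v.1) - 1 + 1 = v.2 s(y, v.1) := by omega
  rw [uo_t (show (nb v y (v.2 s(y, v.1) - 1)).1 ≠ v.1 from hy), up_is hG' (by
    rw [e]
    show _ ≤ len N κ v.1 y
    rw [len_symm]
    omega), e, e2, nb_nb]
  rfl

/-- powers -/
theorem mk_wd_pow (v : Vx T) (R : List T) (n : ℕ) :
    FreeGroup.mk (wd v R) ^ n = FreeGroup.mk (wd v (rp n R)) := by
  rw [mk_rp]
  congr 1
  rw [wd, wd, rp_map, rp_map]

theorem mk_wd_zpow (v : Vx T) (R : List T) (z : ℤ) :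
    FreeGroup.mk (wd v R) ^ z = FreeGroup.mk (wd v (rp z.natAbs R)) ∨
      FreeGroup.mk (wd v R) ^ z = (FreeGroup.mk (wd v (rp z.natAbs R)))⁻¹ := by
  rcases Int.natAbs_eq z with h | h
  · left
    conv_lhs => rw [h]
    rw [zpow_natCast, mk_wd_pow]
  · right
    conv_lhs => rw [h]
    rw [zpow_neg, zpow_natCast, mk_wd_pow]


/-- the word of one turn -/
theorem turn_word {v : Vx T} {y : T} {d0 : T} {i : ℕ} (h1 : cw L d0 i 1 = [y])
    (h2 : cw L d0 (i + 1) (L.length - 1) = rest L y) (hn : 1 ≤ L.length) (l : ℤ) (hl : l ≠ 0) :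
    ∃ j a, l.natAbs * L.length ≤ a + 1 ∧
      (FreeGroup.mk (wd v (y :: rest L y)) ^ l * FreeGroup.mk (wd v [y]) =
        FreeGroup.mk (wd v (cw L d0 j a)) ∨
      FreeGroup.mk (wd v (y :: rest L y)) ^ l * FreeGroup.mk (wd v [y]) =
        (FreeGroup.mk (wd v (cw L d0 j a)))⁻¹) := by
  have e : y :: rest L y = cw L d0 i L.length := by
    have e1 : L.length = 1 + (L.length - 1) := by omega
    conv_rhs => rw [e1, cw_add, h1, h2]
    rfl
  rcases Int.natAbs_eq l with h | h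
  · refine ⟨i, l.natAbs * L.length + 1, by omega, Or.inl ?_⟩
    conv_lhs => rw [h]
    rw [zpow_natCast, mk_wd_pow, e, rp_cw, ← mk_wd_append, cw_add, cw_mod', h1]
  · obtain ⟨j, hj⟩ : ∃ j, l.natAbs = j + 1 := ⟨l.natAbs - 1, by omega⟩
    refine ⟨i + 1, (L.length - 1) + j * L.length, ?_, Or.inr ?_⟩
    · rw [hj]
      have : (j + 1) * L.length = j * L.length + L.length := by ring
      omega
    · conv_lhs => rw [h]
      rw [zpow_neg, zpow_natCast, hj, pow_succ']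
      have e2 : FreeGroup.mk (wd v (y :: rest L y)) =
          FreeGroup.mk (wd v [y]) * FreeGroup.mk (wd v (rest L y)) :=
        mk_wd_append v [y] (rest L y)
      have e3 : FreeGroup.mk (wd v (cw L d0 (i + 1) (L.length - 1 + j * L.length))) =
          FreeGroup.mk (wd v (rest L y)) * FreeGroup.mk (wd v (y :: rest L y)) ^ j := by
        rw [cw_add, mk_wd_append, h2, e, mk_wd_pow, rp_cw]
        congr 2
        have e4 : i + 1 + (L.length - 1) = i + L.length := by omega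
        rw [e4, cw_mod]
      rw [e3, e2]
      generalize (FreeGroup.mk (wd v [y]) * FreeGroup.mk (wd v (rest L y))) ^ j = P
      generalize FreeGroup.mk (wd v [y]) = Y
      generalize FreeGroup.mk (wd v (rest L y)) = R
      group

/-- the end of a turn -/
theorem turn_fin {v : Vx T} {g : FG T} {P : FG T} {d0 : T} {j a b : ℕ} (h : b ≤ a + 1)
    (hP : P = FreeGroup.mk (wd v (cw L d0 j a)) ∨ P = (FreeGroup.mk (wd v (cw L d0 j a)))⁻¹)
    (hQ : QF g P.toWord) : Q g v (cw L d0 j (b - 1)) :=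
  (QF.elt hP hQ).sub (cw_pre (by omega))

theorem wd_not {v : Vx T} {c : T} (h : v.1 = c) (R : List T) : ∀ l ∈ wd v R, l.1 ∉ Vo c := by
  intro l hl
  simp only [wd, List.map_map, List.mem_map, Function.comp] at hl
  obtain ⟨a, _, rfl⟩ := hl
  intro h2
  exact h2 h

/-- the marks around a block -/
structure Mks (N : CoxeterMatrix T) (κ : ℕ) (L : List T) (v : Vx T) (y d e : T) (B1 B2 : List T)
    (x m : (Vx T × T) × Bool) : Prop where
  x1 : x.1.1.1 = y
  m1 : m.1.1.1 = y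
  x2 : x.1.2 = v.1 ∨ x.1.2 = d ∨ x.1.2 = e
  m2 : m.1.2 = v.1 ∨ m.1.2 = d ∨ m.1.2 = e
  alt : (uo N κ L v.1 (iv x) = 1 ∧ uo N κ L v.1 m = (FreeGroup.mk (wd v B1))⁻¹) ∨
    (uo N κ L v.1 (iv x) = (FreeGroup.mk (wd v B2))⁻¹ ∧ uo N κ L v.1 m = 1)

theorem ends_t {w : Vx T} {R Z : List T} {a b : T} (h : R = a :: (Z ++ [b])) :
    ∃ Z', (FreeGroup.mk (wd w R)).toWord = ((w, a), true) :: (Z' ++ [((w, b), true)]) := by
  rw [toWord_wd, h]
  exact ⟨wd w Z, by simp [wd]⟩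

theorem ends_f {w : Vx T} {R Z : List T} {a b : T} (h : R = a :: (Z ++ [b])) :
    ∃ Z', ((FreeGroup.mk (wd w R))⁻¹).toWord = ((w, b), false) :: (Z' ++ [((w, a), false)]) := by
  rw [FreeGroup.toWord_inv, toWord_wd, h]
  exact ⟨FreeGroup.invRev (wd w Z), by simp [wd, FreeGroup.invRev]⟩

/-- the letters next to `c` -/
theorem rest_ends {A B : List T} {c d e : T} (hL : L.Nodup) (h : L = A ++ d :: c :: e :: B) :
    rest L c = e :: (B ++ A ++ [d]) := by
  have e1 : L = (A ++ [d]) ++ c :: (e :: B) := by rw [h]; simp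
  have hc : c ∉ A ++ [d] := by
    intro h'
    rw [e1] at hL
    exact (List.nodup_append.1 hL).2.2 c h' c (by simp) rfl
  rw [e1, rest_eq hc]
  simp

theorem nb_ends {A B : List T} {c d e : T} (hL : L.Nodup) (h : L = A ++ d :: c :: e :: B) :
    d ≠ c ∧ e ≠ c := by
  have e1 : L = (A ++ [d]) ++ c :: (e :: B) := by rw [h]; simp
  rw [e1] at hL
  have h2 := List.nodup_append.1 hL
  refine ⟨h2.2.2 d (by simp) c (by simp), ?_⟩
  have h3 := List.nodup_cons.1 h2.2.1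
  intro h4
  exact h3.1 (by rw [h4]; simp)

section turn

variable {v : Vx T} {y d e d' e' : T} {A B A' B' : List T} {g : FG T}

theorem up_ends (hL : L.Nodup) (hc : L = A' ++ d' :: v.1 :: e' :: B') (hG : Good N κ v.2)
    (h : v.2 s(y, v.1) + 1 ≤ len N κ y v.1) {ε : ℤ} (hε : ε = 1 ∨ ε = -1) :
    ∃ x m Z, (up N κ L y v ^ ε).toWord = m :: (Z ++ [x]) ∧
      ((ε = 1 ∧ x = ((nb v y (v.2 s(y, v.1) + 1), e'), false) ∧
        m = ((nb v y (v.2 s(y, v.1) + 1), v.1), false)) ∨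
       (ε = -1 ∧ x = ((nb v y (v.2 s(y, v.1) + 1), v.1), true) ∧
        m = ((nb v y (v.2 s(y, v.1) + 1), e'), true))) := by
  have e1 : rest L v.1 ++ [v.1] = e' :: ((B' ++ A' ++ [d']) ++ [v.1]) := by
    rw [rest_ends hL hc]
    simp
  rcases hε with rfl | rfl
  · rw [zpow_one, up_is hG h]
    obtain ⟨Z, hZ⟩ := ends_f (w := nb v y (v.2 s(y, v.1) + 1)) e1
    exact ⟨_, _, Z, hZ, Or.inl ⟨rfl, rfl, rfl⟩⟩
  · rw [zpow_neg_one, up_is hG h, inv_inv]
    obtain ⟨Z, hZ⟩ := ends_t (w := nb v y (v.2 s(y, v.1) + 1)) e1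
    exact ⟨_, _, Z, hZ, Or.inr ⟨rfl, rfl, rfl⟩⟩

theorem dn_ends (hL : L.Nodup) (hc : L = A' ++ d' :: v.1 :: e' :: B') (hG : Good N κ v.2)
    (h : 2 ≤ v.2 s(y, v.1)) {ε : ℤ} (hε : ε = 1 ∨ ε = -1) :
    ∃ x m Z, (dn N κ L y v ^ ε).toWord = m :: (Z ++ [x]) ∧
      ((ε = 1 ∧ x = ((nb v y (v.2 s(y, v.1) - 1), d'), true) ∧
        m = ((nb v y (v.2 s(y, v.1) - 1), v.1), true)) ∨
       (ε = -1 ∧ x = ((nb v y (v.2 s(y, v.1) - 1), v.1), false) ∧
        m = ((nb v y (v.2 s(y, v.1) - 1), d'), false))) := by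
  have e1 : v.1 :: rest L v.1 = v.1 :: ((e' :: (B' ++ A')) ++ [d']) := by
    rw [rest_ends hL hc]
    simp
  rcases hε with rfl | rfl
  · rw [zpow_one, dn_is hG h]
    obtain ⟨Z, hZ⟩ := ends_t (w := nb v y (v.2 s(y, v.1) - 1)) e1
    exact ⟨_, _, Z, hZ, Or.inl ⟨rfl, rfl, rfl⟩⟩
  · rw [zpow_neg_one, dn_is hG h]
    obtain ⟨Z, hZ⟩ := ends_f (w := nb v y (v.2 s(y, v.1) - 1)) e1
    exact ⟨_, _, Z, hZ, Or.inr ⟨rfl, rfl, rfl⟩⟩

/-- the first half of a turn in the middle -/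
theorem mid_one (hL : L.Nodup) (hy : L = A ++ d :: y :: e :: B)
    (hc : L = A' ++ d' :: v.1 :: e' :: B') (hyc : y ≠ v.1) (hG : Good N κ v.2)
    (h1 : 2 ≤ v.2 s(y, v.1)) (h2 : v.2 s(y, v.1) + 1 ≤ len N κ y v.1)
    (hQ : Q g v [d, y, e]) {ε : ℤ} (hε : ε = 1 ∨ ε = -1) :
    ∃ x m, QF (((un N κ hL y ^ ε : (Monoid.End (FG T))ˣ) : Monoid.End (FG T)) g)
      ([x] ++ wd v [y] ++ [m]) ∧
      Mks N κ L v y d' e' (rest L y ++ [y]) (y :: rest L y) x m := by
  obtain ⟨hd, he⟩ := nb_ends hL hy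
  obtain ⟨hd', he'⟩ := nb_ends hL hc
  obtain ⟨x, m', Z, hw, hx⟩ := up_ends (N := N) (κ := κ) (y := y) hL hc hG h2 hε
  obtain ⟨x', m, Z', hw', hm⟩ := dn_ends (N := N) (κ := κ) (y := y) hL hc hG h1 hε
  have hF : ∀ l ∈ (((v, d), true) : (Vx T × T) × Bool) :: [((v, y), true), ((v, e), true)],
      l.1 ∈ Vo y := by
    intro l hl
    have : l.1.1 = v := by
      simp only [List.mem_cons, List.not_mem_nil, or_false] at hl
      rcases hl with rfl | rfl | rfl <;> rfl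
    show l.1.1.1 ≠ y
    rw [this]
    exact hyc.symm
  have h3 := QF.img (tw_un (M := N) (κ := κ) hL y ε) hF hQ
  rw [eL_two, eL_two] at h3
  have e1 : uo N κ L y (iv ((v, d), true)) ^ ε = 1 := by rw [uo_ne hd, one_zpow]
  have e2 : uo N κ L y ((v, y), true) ^ ε = up N κ L y v ^ ε := by rw [uo_t hyc.symm]
  have e3 : (uo N κ L y (iv ((v, y), true)) ^ ε)⁻¹ = dn N κ L y v ^ ε := by
    show (uo N κ L y ((v, y), false) ^ ε)⁻¹ = _
    rw [uo_f hyc.symm, inv_zpow, inv_inv]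
  have e4 : uo N κ L y ((v, e), true) ^ ε = 1 := by rw [uo_ne he, one_zpow]
  rw [e1, e2, e3, e4, inv_one, one_mul, mul_one, hw, hw'] at h3
  refine ⟨x, m, h3.sub ⟨((v, d), true) :: m' :: Z, Z' ++ [x'] ++ [((v, e), true)], ?_⟩, ?_⟩
  · simp [eL, wd]
  · rcases hx with ⟨hε1, rfl, _⟩ | ⟨hε1, rfl, _⟩
    · rcases hm with ⟨_, _, rfl⟩ | ⟨hε2, _, _⟩
      · refine ⟨rfl, rfl, Or.inr (Or.inr rfl), Or.inl rfl, Or.inl ⟨uo_ne he', ?_⟩⟩
        exact uo_back_dn hyc hG h1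
      · omega
    · rcases hm with ⟨hε2, _, _⟩ | ⟨_, _, rfl⟩
      · omega
      · refine ⟨rfl, rfl, Or.inl rfl, Or.inr (Or.inl rfl), Or.inr ⟨?_, uo_ne hd'⟩⟩
        exact uo_back_up hyc hG h2

/-- the first half of a turn at the end -/
theorem end_one (hL : L.Nodup) (hy : L = A ++ d :: y :: e :: B)
    (hc : L = A' ++ d' :: v.1 :: e' :: B') (hyc : y ≠ v.1) (hG : Good N κ v.2)
    (h1 : ¬ 2 ≤ v.2 s(y, v.1)) (h2 : v.2 s(y, v.1) + 1 ≤ len N κ y v.1)
    (hQ : Q g v ([d, y] ++ rest L y ++ [y])) {ε : ℤ} (hε : ε = 1 ∨ ε = -1) :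
    ∃ x m, QF (((un N κ hL y ^ ε : (Monoid.End (FG T))ˣ) : Monoid.End (FG T)) g)
      ([x] ++ wd v (y :: rest L y) ++ [m]) ∧
      Mks N κ L v y d' e' (y :: rest L y) (y :: rest L y) x m := by
  obtain ⟨hd, he⟩ := nb_ends hL hy
  obtain ⟨hd', he'⟩ := nb_ends hL hc
  obtain ⟨x, m, Z, hw, hx⟩ := up_ends (N := N) (κ := κ) (y := y) hL hc hG h2 hε
  set u : (Vx T × T) × Bool → FG T := fun l => uo N κ L y l ^ ε with hu
  have hlist : wd v ([d, y] ++ rest L y ++ [y]) =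
      ((v, d), true) :: (((v, y), true) :: (wd v (rest L y) ++ ((v, y), true) :: [])) := by
    simp [wd]
  have hF : ∀ l ∈ ((v, d), true) :: (((v, y), true) :: (wd v (rest L y) ++ ((v, y), true) :: [])),
      l.1 ∈ Vo y := by
    intro l hl
    rw [← hlist] at hl
    simp only [wd, List.map_map, List.mem_map, Function.comp] at hl
    obtain ⟨a, _, rfl⟩ := hl
    exact hyc.symm
  rw [Q_iff, hlist] at hQ
  have h3 := QF.img (tw_un (M := N) (κ := κ) hL y ε) hF hQ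
  have e1 : u (iv ((v, d), true)) = 1 := by rw [hu]; simp only; rw [uo_ne hd, one_zpow]
  have e2 : u ((v, y), true) = up N κ L y v ^ ε := by rw [hu]; simp only; rw [uo_t hyc.symm]
  have e3 : u (iv ((v, y), true)) = 1 := by
    show uo N κ L y ((v, y), false) ^ ε = _
    rw [uo_f hyc.symm, dn_no h1, inv_one, one_zpow]
  have er : ∀ l ∈ wd v (rest L y), u l = 1 ∧ u (iv l) = 1 := by
    intro l hl
    simp only [wd, List.map_map, List.mem_map, Function.comp] at hl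
    obtain ⟨a, ha, rfl⟩ := hl
    have h4 := ne_of_mem_rest hL ha
    constructor
    · rw [hu]
      simp only
      rw [uo_ne h4, one_zpow]
    · rw [hu]
      simp only
      rw [uo_ne h4, one_zpow]
  have h4 : eL u (((v, d), true) ::
      (((v, y), true) :: (wd v (rest L y) ++ ((v, y), true) :: []))) =
      ((v, d), true) :: (m :: (Z ++ [x]) ++ (((v, y), true) :: (wd v (rest L y) ++
        (m :: (Z ++ [x]) ++ [((v, y), true)])))) := by
    rw [eL_two, eL_run _ _ _ _ (fun l hl => (er l hl).1) (by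
      intro l hl
      rcases List.mem_cons.1 hl with rfl | hl
      · exact e3
      · exact (er l hl).2), e1, e2, inv_one, one_mul, hw]
    simp [eL]
  have h5 : QF (((un N κ hL y ^ ε : (Monoid.End (FG T))ˣ) : Monoid.End (FG T)) g)
      (eL u (((v, d), true) :: (((v, y), true) :: (wd v (rest L y) ++ ((v, y), true) :: [])))) := h3
  rw [h4] at h5
  refine ⟨x, m, h5.sub ⟨((v, d), true) :: m :: Z, Z ++ [x] ++ [((v, y), true)], ?_⟩, ?_⟩
  · simp [wd]
  · rcases hx with ⟨hε1, rfl, rfl⟩ | ⟨hε1, rfl, rfl⟩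
    · refine ⟨rfl, rfl, Or.inr (Or.inr rfl), Or.inl rfl, Or.inl ⟨uo_ne he', ?_⟩⟩
      exact uo_back_up hyc hG h2
    · refine ⟨rfl, rfl, Or.inl rfl, Or.inr (Or.inr rfl), Or.inr ⟨?_, uo_ne he'⟩⟩
      exact uo_back_up hyc hG h2

/-- the first half of a turn at the other end -/
theorem end_two (hL : L.Nodup) (hy : L = A ++ d :: y :: e :: B)
    (hc : L = A' ++ d' :: v.1 :: e' :: B') (hyc : y ≠ v.1) (hG : Good N κ v.2)
    (h1 : 2 ≤ v.2 s(y, v.1)) (h2 : ¬ v.2 s(y, v.1) + 1 ≤ len N κ y v.1)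
    (hQ : Q g v ([y] ++ rest L y ++ [y, e])) {ε : ℤ} (hε : ε = 1 ∨ ε = -1) :
    ∃ x m, QF (((un N κ hL y ^ ε : (Monoid.End (FG T))ˣ) : Monoid.End (FG T)) g)
      ([x] ++ wd v (rest L y ++ [y]) ++ [m]) ∧
      Mks N κ L v y d' e' (rest L y ++ [y]) (rest L y ++ [y]) x m := by
  obtain ⟨hd, he⟩ := nb_ends hL hy
  obtain ⟨hd', he'⟩ := nb_ends hL hc
  obtain ⟨x, m, Z, hw, hx⟩ := dn_ends (N := N) (κ := κ) (y := y) hL hc hG h1 hε
  set u : (Vx T × T) × Bool → FG T := fun l => uo N κ L y l ^ ε with hu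
  have hrest := rest_ends hL hy
  have hlist : wd v ([y] ++ rest L y ++ [y, e]) =
      ((v, y), true) :: (wd v (rest L y) ++ ((v, y), true) :: [((v, e), true)]) := by
    simp [wd]
  have hF : ∀ l ∈ ((v, y), true) :: (wd v (rest L y) ++ ((v, y), true) :: [((v, e), true)]),
      l.1 ∈ Vo y := by
    intro l hl
    rw [← hlist] at hl
    simp only [wd, List.map_map, List.mem_map, Function.comp] at hl
    obtain ⟨a, _, rfl⟩ := hl
    exact hyc.symm
  rw [Q_iff, hlist] at hQ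
  have h3 := QF.img (tw_un (M := N) (κ := κ) hL y ε) hF hQ
  have e2 : u ((v, y), true) = 1 := by
    rw [hu]
    simp only
    rw [uo_t hyc.symm, up_no h2, one_zpow]
  have e3 : (u (iv ((v, y), true)))⁻¹ = dn N κ L y v ^ ε := by
    show (uo N κ L y ((v, y), false) ^ ε)⁻¹ = _
    rw [uo_f hyc.symm, inv_zpow, inv_inv]
  have e5 : u ((v, e), true) = 1 := by rw [hu]; simp only; rw [uo_ne he, one_zpow]
  have er : ∀ l ∈ wd v (rest L y), u l = 1 ∧ u (iv l) = 1 := by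
    intro l hl
    simp only [wd, List.map_map, List.mem_map, Function.comp] at hl
    obtain ⟨a, ha, rfl⟩ := hl
    have h4 := ne_of_mem_rest hL ha
    constructor
    · rw [hu]
      simp only
      rw [uo_ne h4, one_zpow]
    · rw [hu]
      simp only
      rw [uo_ne h4, one_zpow]
  have hfr : wd v (rest L y) = ((v, e), true) :: wd v (B ++ A ++ [d]) := by
    rw [hrest]
    rfl
  have h4 : eL u (((v, y), true) :: (wd v (rest L y) ++ ((v, y), true) :: [((v, e), true)])) =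
      ((v, y), true) :: (m :: (Z ++ [x]) ++ (wd v (rest L y) ++ (((v, y), true) ::
        (m :: (Z ++ [x]) ++ [((v, e), true)])))) := by
    rw [hfr, eL_run' (by rw [← hfr]; exact fun l hl => (er l hl).1)
      (by rw [← hfr]; exact fun l hl => (er l hl).2), eL_two, e3, e2, e5, mul_one, hw]
    simp [eL]
  have h5 : QF (((un N κ hL y ^ ε : (Monoid.End (FG T))ˣ) : Monoid.End (FG T)) g)
      (eL u (((v, y), true) :: (wd v (rest L y) ++ ((v, y), true) :: [((v, e), true)]))) := h3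
  rw [h4] at h5
  refine ⟨x, m, h5.sub ⟨((v, y), true) :: m :: Z, Z ++ [x] ++ [((v, e), true)], ?_⟩, ?_⟩
  · simp [wd]
  · rcases hx with ⟨hε1, rfl, rfl⟩ | ⟨hε1, rfl, rfl⟩
    · refine ⟨rfl, rfl, Or.inr (Or.inl rfl), Or.inl rfl, Or.inl ⟨uo_ne hd', ?_⟩⟩
      exact uo_back_dn hyc hG h1
    · refine ⟨rfl, rfl, Or.inl rfl, Or.inr (Or.inl rfl), Or.inr ⟨?_, uo_ne hd'⟩⟩
      exact uo_back_dn hyc hG h1

/-- the second half of a turn -/
theorem turn_two (hL : L.Nodup) (hyc : y ≠ v.1) {B1 B2 K : List T} {x m : (Vx T × T) × Bool}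
    (hM : Mks N κ L v y d e B1 B2 x m) (hQ : QF g ([x] ++ wd v K ++ [m])) (l : ℤ)
    (hP1 : FreeGroup.mk (wd v K) * (FreeGroup.mk (wd v B1))⁻¹ ^ l ≠ 1)
    (hP2 : FreeGroup.mk (wd v B2) ^ l * FreeGroup.mk (wd v K) ≠ 1) :
    QF (((un N κ hL v.1 ^ l : (Monoid.End (FG T))ˣ) : Monoid.End (FG T)) g)
      (FreeGroup.mk (wd v K) * (FreeGroup.mk (wd v B1))⁻¹ ^ l).toWord ∨
    QF (((un N κ hL v.1 ^ l : (Monoid.End (FG T))ˣ) : Monoid.End (FG T)) g)
      (FreeGroup.mk (wd v B2) ^ l * FreeGroup.mk (wd v K)).toWord := by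
  have hx : x.1 ∈ Vo v.1 := by
    show x.1.1.1 ≠ v.1
    rw [hM.x1]
    exact hyc
  have hm : m.1 ∈ Vo v.1 := by
    show m.1.1.1 ≠ v.1
    rw [hM.m1]
    exact hyc
  rcases hM.alt with ⟨h1, h2⟩ | ⟨h1, h2⟩
  · left
    have h3 := QF.block (tw_un (M := N) (κ := κ) hL v.1 l) (wd_not rfl K) hx hm hQ (by
      rw [h1, h2, one_zpow, inv_one, one_mul]
      exact hP1)
    rwa [h1, h2, one_zpow, inv_one, one_mul] at h3
  · right
    have h3 := QF.block (tw_un (M := N) (κ := κ) hL v.1 l) (wd_not rfl K) hx hm hQ (by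
      rw [h1, h2, one_zpow, mul_one, inv_zpow, inv_inv]
      exact hP2)
    rwa [h1, h2, one_zpow, mul_one, inv_zpow, inv_inv] at h3

end turn

end

end Pool.Agent.L7h63.AP
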