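import Mathlib

/-!
# Turns

Definition used in the statement of `MP_a1ec0a_al.FewTurns`.
-/

set_option autoImplicit false

namespace Pool.Agent.L7h63.AP

/-- The syllable number `i` of the word `w` (counted from `0`) is a turn of `s` at `t`: it is `s ^ ε`
with `ε = ± 1`; there are syllables of `s` before it and after it; `t` occurs between it and the next
syllable of `s`; and all the generators that occur between it and the previous syllable of `s`
commute with `s` or are equal to `t`. -/
def Turn {S : Type*} (M : CoxeterMatrix S) (w : List (S × ℤ)) (s t : S) (i : ℕ) : Prop :=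
  ∃ (A C D E F : List (S × ℤ)) (j ε l k : ℤ),
    w = A ++ (s, j) :: (C ++ (s, ε) :: (D ++ (t, l) :: (E ++ (s, k) :: F))) ∧
    A.length + 1 + C.length = i ∧ |ε| = 1 ∧
    (∀ p ∈ C, p.1 ≠ s ∧ (p.1 = t ∨ M p.1 s = 2)) ∧ ∀ p ∈ D, p.1 ≠ s

end Pool.Agent.L7h63.AP
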