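import Pool.Agent.L7h63.AP.Sq
import Pool.Agent.L7h63.AP.TurnDefs

/-!
# Words with few turns
-/

set_option autoImplicit false
set_option linter.unusedSectionVars false

namespace Pool.Agent.L7h63.AP

open Pool.Agent.K7.H20.AW

section cyc

variable {S : Type*} [DecidableEq S] {L : List S} {t : S}

theorem fac_cons {β : Type*} {r d t : β} {R : List β} (h : Fac [r, d] (t :: R)) (hr : r ≠ t) :
    Fac [r, d] R := by
  obtain ⟨A, B, h⟩ := h
  rcases A with _ | ⟨a, A⟩
  · exfalso
    simp only [List.nil_append, List.cons_append, List.cons.injEq] at h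
    exact hr h.1.symm
  · simp only [List.cons_append, List.cons.injEq] at h
    exact ⟨A, B, h.2⟩

theorem fac_dn (hL : L.Nodup) (ht : t ∈ L) {r d : S} (hd : Fol L r d) (htd : t ≠ d) {n : ℕ}
    (hn : 1 ≤ n) {δ : Bool} (h : δ = true ∨ r ≠ t ∨ 2 ≤ n) : Fac [r, d] (rp n (Wd L δ t)) := by
  have h1 : Fac [r, d] (Wd L true t) := by
    obtain ⟨A, B, rfl⟩ := hd
    exact fac_rest hL ht htd
  by_cases h2 : 2 ≤ n
  · exact h1.trans (rp_both h2 δ true t)
  · by_cases hδ : δ = true
    · subst hδ
      exact h1.trans (rp_one hn _)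
    · have hrt : r ≠ t := by
        rcases h with h | h | h
        · exact absurd h hδ
        · exact h
        · exact absurd h h2
      refine Fac.trans ?_ (rp_one hn _)
      have e : Wd L δ t = rest L t ++ [t] := by rw [Wd, if_neg hδ]
      have e1 : Wd L true t = t :: rest L t := rfl
      rw [e1] at h1
      rw [e]
      exact (fac_cons h1 hrt).trans ⟨[], [t], by simp⟩

/-- a pair of consecutive elements, the second reading -/
theorem fac_rest2 {A B : List S} {d r : S} (hL : (A ++ d :: r :: B).Nodup)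
    (ht : t ∈ A ++ d :: r :: B) (htd : t ≠ d) : Fac [d, r] (rest (A ++ d :: r :: B) t ++ [t]) := by
  by_cases h1 : t ∈ A
  · obtain ⟨P, Q, rfl, hP⟩ := List.eq_append_cons_of_mem h1
    have e : (P ++ t :: Q) ++ d :: r :: B = P ++ t :: (Q ++ d :: r :: B) := by simp
    rw [e, rest_eq hP]
    exact ⟨Q, B ++ P ++ [t], by simp⟩
  · by_cases h2 : t = r
    · subst h2
      have e : A ++ d :: t :: B = (A ++ [d]) ++ t :: B := by simp
      rw [e, rest_eq]
      · exact ⟨B ++ A, [], by simp⟩
      · simp only [List.mem_append, List.mem_singleton, not_or]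
        exact ⟨h1, htd⟩
    · have h3 : t ∈ B := by
        rcases List.mem_append.1 ht with h | h
        · exact absurd h h1
        · rcases List.mem_cons.1 h with h | h
          · exact absurd h htd
          · rcases List.mem_cons.1 h with h | h
            · exact absurd h h2
            · exact h
      obtain ⟨P, Q, rfl, hP⟩ := List.eq_append_cons_of_mem h3
      have e : A ++ d :: r :: (P ++ t :: Q) = (A ++ d :: r :: P) ++ t :: Q := by simp
      rw [e, rest_eq]
      · exact ⟨Q ++ A, P ++ [t], by simp⟩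
      · simp only [List.mem_append, List.mem_cons, not_or]
        exact ⟨h1, htd, h2, hP⟩

theorem fac_up (hL : L.Nodup) (ht : t ∈ L) {r d : S} (hd : Fol L d r) {n : ℕ}
    (hn : 1 ≤ n) {δ : Bool} (htd : δ = false ∨ r = t → t ≠ d) (h : δ = false ∨ r ≠ t ∨ 2 ≤ n) :
    Fac [d, r] (rp n (Wd L δ t)) := by
  by_cases hδ : δ = false
  · subst hδ
    refine Fac.trans ?_ (rp_one hn _)
    obtain ⟨A, B, rfl⟩ := hd
    exact fac_rest2 hL ht (htd (Or.inl rfl))
  · by_cases hrt : r = t
    · have h2 : 2 ≤ n := by
        rcases h with h | h | h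
        · exact absurd h hδ
        · exact absurd hrt h
        · exact h
      refine Fac.trans ?_ (rp_both h2 δ false t)
      obtain ⟨A, B, rfl⟩ := hd
      exact fac_rest2 hL ht (htd (Or.inr hrt))
    · refine Fac.trans ?_ (rp_one hn _)
      have hδ' : δ = true := by simpa using hδ
      subst hδ'
      obtain ⟨A, B, rfl⟩ := hd
      exact fac_rest hL ht fun h' => hrt h'.symm

end cyc

section list

variable {S : Type*} [Fintype S]

theorem Lp_pre (x : S) : ∃ d, Fol (Lp S) d (some (x, true)) ∧ ∀ y, d ≠ some (y, true) := by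
  obtain ⟨A, B, hAB⟩ := List.append_of_mem (show x ∈ (Finset.univ : Finset S).toList by simp)
  rcases List.eq_nil_or_concat A with rfl | ⟨A', y, rfl⟩
  · refine ⟨none, ⟨[], some (x, false) :: B.flatMap fun x => [some (x, true), some (x, false)], ?_⟩,
      by simp⟩
    rw [Lp, hAB]
    simp
  · refine ⟨some (y, false), ⟨none :: ((A'.flatMap fun x => [some (x, true), some (x, false)]) ++
      [some (y, true)]), some (x, false) :: B.flatMap fun x => [some (x, true), some (x, false)],
      ?_⟩, by simp⟩
    rw [Lp, hAB]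
    simp

end list

noncomputable section

open Classical

variable {S : Type*} [DecidableEq S] [Fintype S] {M : CoxeterMatrix S} {b : S} {κ : ℕ}

/-- a generator that is not involved -/
theorem Q.skip1 {T : Type*} [DecidableEq T] [DecidableEq (Vx T × T)] {N : CoxeterMatrix T} {κ : ℕ}
    {L : List T} (hL : L.Nodup) {g : FG T} {v : Vx T} {R : List T} {r : T} (hr : v.1 ≠ r)
    (hrR : r ∉ R) (hR : R ≠ []) (h : Q g v R) (k : ℤ) :
    Q (((un N κ hL r ^ k : (Monoid.End (FG T))ˣ) : Monoid.End (FG T)) g) v R := by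
  have e3 : ∀ l ∈ wd v R, l.1 ∈ Vo r ∧ uo N κ L r l ^ k = 1 ∧ uo N κ L r (iv l) ^ k = 1 := by
    intro l hl
    simp only [wd, List.map_map, List.mem_map, Function.comp] at hl
    obtain ⟨a, ha, rfl⟩ := hl
    have har : a ≠ r := fun h => hrR (h ▸ ha)
    refine ⟨hr, ?_, ?_⟩
    · rw [uo, if_neg (fun h => har h.1), one_zpow]
    · rw [uo, if_neg (fun h => har h.1), one_zpow]
  have hw : wd v R ≠ [] := by simpa [wd] using hR
  rcases h with h | h
  · exact Or.inl ((tw_un (M := N) (κ := κ) hL r k).keep_fac hw e3 h)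
  · right
    rw [← map_inv]
    exact (tw_un (M := N) (κ := κ) hL r k).keep_fac hw e3 h

/-- the image of an element -/
abbrev im2 (G : ArtinGroup M →* (Monoid.End (FG (Option (S × Bool))))ˣ) (w : List (S × ℤ))
    (g : FG (Option (S × Bool))) : FG (Option (S × Bool)) :=
  (G (value M w) : Monoid.End (FG (Option (S × Bool)))) g

theorem value_append (u v : List (S × ℤ)) : value M (u ++ v) = value M u * value M v := by
  simp [value]

theorem im2_append (G : ArtinGroup M →* (Monoid.End (FG (Option (S × Bool))))ˣ)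
    (u v : List (S × ℤ)) (g : FG (Option (S × Bool))) : im2 G (u ++ v) g = im2 G u (im2 G v g) := by
  unfold im2
  rw [value_append, map_mul, Units.val_mul]
  rfl

theorem im2_single {G : ArtinGroup M →* (Monoid.End (FG (Option (S × Bool))))ˣ}
    (hG : ∀ x, G (PresentedGroup.of x) = ac M b κ x) (r : S) (l : ℤ)
    (g : FG (Option (S × Bool))) : im2 G [(r, l)] g =
    ((ac M b κ r ^ l : (Monoid.End (FG (Option (S × Bool))))ˣ) :
      Monoid.End (FG (Option (S × Bool)))) g := by
  unfold im2
  have : value M [(r, l)] = PresentedGroup.of r ^ l := by simp [value]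
  rw [this, map_zpow, hG]

theorem im2_nil (G : ArtinGroup M →* (Monoid.End (FG (Option (S × Bool))))ˣ)
    (g : FG (Option (S × Bool))) : im2 G [] g = g := by
  unfold im2
  have : value M [] = 1 := rfl
  rw [this, map_one]
  rfl

theorem im2_cons (G : ArtinGroup M →* (Monoid.End (FG (Option (S × Bool))))ˣ)
    (p : S × ℤ) (v : List (S × ℤ)) (g : FG (Option (S × Bool))) :
    im2 G (p :: v) g = im2 G [p] (im2 G v g) := im2_append G [p] v g

/-- generators that are not involved -/
theorem skip {G : ArtinGroup M →* (Monoid.End (FG (Option (S × Bool))))ˣ}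
    (hG : ∀ x, G (PresentedGroup.of x) = ac M b κ x) {c : S}
    {η : Sym2 (Option (S × Bool)) → ℕ} {R : List (Option (S × Bool))} (hR : R ≠ []) :
    ∀ (v : List (S × ℤ)) (_ : ∀ p ∈ v, p.1 ≠ c ∧ rl p.1 ∉ R) (g : FG (Option (S × Bool)))
      (_ : Q g (rl c, η) R), Q (im2 G v g) (rl c, η) R := by
  intro v
  induction v with
  | nil =>
    intro _ g hg
    rw [im2_nil]
    exact hg
  | cons p v ih =>
    intro hv g hg
    rw [im2_cons]
    obtain ⟨r, l⟩ := p
    rw [im2_single hG]
    have h1 := hv (r, l) (by simp)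
    exact Q.skip1 (N := MM M b) (κ := κ) Lp_nodup (v := (rl c, η)) (by
      intro h2
      exact h1.1 (by simpa [rl] using h2.symm)) h1.2 hR
      (ih (fun p hp => hv p (by simp [hp])) g hg) l

variable (M b κ)

/-- the arc has arrived at an annulus of type `c` -/
def Arr (g : FG (Option (S × Bool))) (c : S) (η : Sym2 (Option (S × Bool)) → ℕ) (k : ℤ)
    (t : Option S) (δ : Bool) : Prop :=
  Q g (rl c, η) (rp k.natAbs (Wd (Lp S) δ (t.map fun x => (x, true))))

variable {M b κ}

theorem map_ne (t : Option S) (r : S) : (t.map fun x => (x, true)) ≠ some (r, false) := by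
  rcases t with _ | t
  · simp
  · simp

theorem rl_ne {t : Option S} {r : S} (h : t ≠ some r) : rl r ≠ t.map fun x => (x, true) := by
  intro h4
  rcases t with _ | t
  · simp [rl] at h4
  · have : r = t := by simpa [rl] using h4
    exact h (by rw [this])

theorem Arr.dn {g : FG (Option (S × Bool))} {c : S} {η : Sym2 (Option (S × Bool)) → ℕ} {k : ℤ}
    {t : Option S} {δ : Bool} (h : Arr g c η k t δ) (hk : k ≠ 0) {r : S}
    (hr : δ = true ∨ t ≠ some r ∨ 2 ≤ k.natAbs) : Q g (rl c, η) [rl r, some (r, false)] := by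
  apply Q.sub h
  apply fac_dn Lp_nodup (Lp_mem _) (Lp_fol r) (map_ne t r) (by omega)
  rcases hr with h3 | h3 | h3
  · exact Or.inl h3
  · exact Or.inr (Or.inl (rl_ne h3))
  · exact Or.inr (Or.inr h3)

theorem Arr.up {g : FG (Option (S × Bool))} {c : S} {η : Sym2 (Option (S × Bool)) → ℕ} {k : ℤ}
    {t : Option S} {δ : Bool} (h : Arr g c η k t δ) (hk : k ≠ 0) (ht : t = none → δ = true) {r : S}
    (hr : δ = false ∨ t ≠ some r ∨ 2 ≤ k.natAbs) {d : Option (S × Bool)}
    (hd : Fol (Lp S) d (rl r)) (hd' : ∀ y, d ≠ rl y) : Q g (rl c, η) [d, rl r] := by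
  apply Q.sub h
  apply fac_up Lp_nodup (Lp_mem _) hd (by omega)
  · intro h1 h2
    rcases t with _ | t
    · rw [ht rfl] at h1
      rcases h1 with h1 | h1
      · simp at h1
      · simp [rl] at h1
    · exact hd' t h2.symm
  · rcases hr with h3 | h3 | h3
    · exact Or.inl h3
    · exact Or.inr (Or.inl (rl_ne h3))
    · exact Or.inr (Or.inr h3)

end

section count

/-- the turns of two generators -/
def TS {S : Type*} (M : CoxeterMatrix S) (W : List (S × ℤ)) (x y : S) : Set ℕ :=
  {i | Turn M W x y i ∨ Turn M W y x i}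

theorem TS_symm {S : Type*} {M : CoxeterMatrix S} {W : List (S × ℤ)} {x y : S} :
    TS M W x y = TS M W y x := by
  ext i
  exact or_comm

theorem Turn.lt {S : Type*} {M : CoxeterMatrix S} {W : List (S × ℤ)} {x y : S} {i : ℕ}
    (h : Turn M W x y i) : i < W.length := by
  obtain ⟨A, C, D, E, F, j, ε, l, k, rfl, rfl, _⟩ := h
  simp only [List.length_append, List.length_cons]
  omega

theorem TS_fin {S : Type*} {M : CoxeterMatrix S} {W : List (S × ℤ)} {x y : S} :
    (TS M W x y).Finite := by
  apply (Set.finite_Iio W.length).subset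
  rintro i (h | h)
  · exact h.lt
  · exact h.lt

theorem card_mono {X : Set ℕ} {n n' : ℕ} (h : n' ≤ n) :
    (X ∩ {i | i ≤ n'}).ncard ≤ (X ∩ {i | i ≤ n}).ncard := by
  apply Set.ncard_le_ncard
  · rintro i ⟨h1, h2⟩
    exact ⟨h1, le_trans h2 h⟩
  · exact (Set.finite_Iic n).subset Set.inter_subset_right

theorem card_step {X : Set ℕ} {n n' : ℕ} (h : n' < n) (hn : n ∈ X) :
    (X ∩ {i | i ≤ n'}).ncard + 1 ≤ (X ∩ {i | i ≤ n}).ncard := by
  have h1 : n ∉ X ∩ {i | i ≤ n'} := fun h2 => absurd h2.2 (by simpa using h)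
  rw [← Set.ncard_insert_of_notMem h1 ((Set.finite_Iic n').subset Set.inter_subset_right)]
  apply Set.ncard_le_ncard
  · rintro i (rfl | ⟨h2, h3⟩)
    · exact ⟨hn, le_refl (α := ℕ) _⟩
    · exact ⟨h2, le_trans h3 h.le⟩
  · exact (Set.finite_Iic n).subset Set.inter_subset_right

end count

noncomputable section

open Classical

variable {S : Type*} [DecidableEq S] [Fintype S] {M : CoxeterMatrix S} {b : S} {κ : ℕ}

theorem q_dn {g : FG (Option (S × Bool))} {c : S} {η : Sym2 (Option (S × Bool)) → ℕ} {r : S}
    (hrc : r ≠ c) (hG : Good (MM M b) κ η) (hp : 2 ≤ η s(rl r, rl c))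
    (h : Q g (rl c, η) [rl r, some (r, false)]) (l : ℤ) :
    Arr (((ac M b κ r ^ l : (Monoid.End (FG (Option (S × Bool))))ˣ) :
      Monoid.End (FG (Option (S × Bool)))) g) r
      (Function.update η s(rl r, rl c) (η s(rl r, rl c) - 1)) l (some c) true :=
  Q.down (M := MM M b) (κ := κ) Lp_nodup (v := (rl c, η)) (r := rl r) (r' := some (r, false))
    (by simpa using hrc.symm) hG hp (Fac.refl _) (by simp [rl]) h l

theorem q_u {g : FG (Option (S × Bool))} {c : S} {η : Sym2 (Option (S × Bool)) → ℕ} {r : S}
    (hrc : r ≠ c) (hG : Good (MM M b) κ η)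
    (hp : η s(rl r, rl c) + 1 ≤ len (MM M b) κ (rl r) (rl c))
    {d : Option (S × Bool)} (hd : ∀ y, d ≠ rl y)
    (h : Q g (rl c, η) [d, rl r]) (l : ℤ) :
    Arr (((ac M b κ r ^ l : (Monoid.End (FG (Option (S × Bool))))ˣ) :
      Monoid.End (FG (Option (S × Bool)))) g) r
      (Function.update η s(rl r, rl c) (η s(rl r, rl c) + 1)) l (some c) false :=
  Q.upw (M := MM M b) (κ := κ) Lp_nodup (v := (rl c, η)) (r := rl r) (r' := d)
    (by simpa using hrc.symm) hG hp (Fac.refl _) (hd r) h l

end

noncomputable section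

open Classical

variable {S : Type*} [DecidableEq S] [Fintype S] (M : CoxeterMatrix S) (b : S) (κ : ℕ)

/-- the positions leave enough room -/
def Bd (A B : Sym2 S → ℕ) (par : Sym2 S → Bool) (η : Sym2 (Option (S × Bool)) → ℕ) : Prop :=
  ∀ x y, x ≠ y → M x y ≠ 2 →
    1 + B s(x, y) + (if par s(x, y) = true then 1 else 0) ≤ η s(rl x, rl y) ∧
    η s(rl x, rl y) + A s(x, y) + (if par s(x, y) = true then 0 else 1) ≤
      len (MM M b) κ (rl x) (rl y)

variable {M b κ}

theorem rl_pair {x y r c : S} : s(rl x, rl y) = s(rl r, rl c) ↔ s(x, y) = s(r, c) := by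
  rw [Sym2.eq_iff, Sym2.eq_iff]
  simp [rl]

theorem Bd.upd {A B A' B' : Sym2 S → ℕ} {par : Sym2 S → Bool}
    {η : Sym2 (Option (S × Bool)) → ℕ} (h : Bd M b κ A B par η) {r c : S} {i : ℕ} {q : Bool}
    (hrc : r ≠ c) (h2 : M r c ≠ 2) (hA : ∀ e, A' e ≤ A e ∧ B' e ≤ B e)
    (h3 : 1 + B' s(r, c) + (if q = true then 1 else 0) ≤ i)
    (h4 : i + A' s(r, c) + (if q = true then 0 else 1) ≤ len (MM M b) κ (rl r) (rl c)) :
    Bd M b κ A' B' (Function.update par s(r, c) q) (Function.update η s(rl r, rl c) i) := by
  intro x y hxy hxy2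
  by_cases he : s(x, y) = s(r, c)
  · rw [rl_pair.2 he, he, Function.update_self, Function.update_self]
    have h5 : len (MM M b) κ (rl x) (rl y) = len (MM M b) κ (rl r) (rl c) := by
      rcases Sym2.eq_iff.1 he with ⟨rfl, rfl⟩ | ⟨rfl, rfl⟩
      · rfl
      · rw [len_symm]
    rw [h5]
    exact ⟨h3, h4⟩
  · rw [Function.update_of_ne he, Function.update_of_ne fun h => he (rl_pair.1 h)]
    have h5 := h x y hxy hxy2
    have h6 := hA s(x, y)
    constructor
    · split_ifs at h5 ⊢ <;> omega
    · split_ifs at h5 ⊢ <;> omega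

/-- one move -/
theorem real_step {G : ArtinGroup M →* (Monoid.End (FG (Option (S × Bool))))ˣ}
    (hG : ∀ x, G (PresentedGroup.of x) = ac M b κ x) {c r : S} {k l : ℤ} {t : Option S}
    {δ dir : Bool} {A B A' B' : Sym2 S → ℕ} {par : Sym2 S → Bool} {m2 : List (S × ℤ)}
    (hm : ∀ p ∈ m2, p.1 ≠ c ∧ p.1 ≠ r) (hrc : r ≠ c) (h2 : M r c ≠ 2) (hk : k ≠ 0)
    (ht : t = none → δ = true) (hav : dir = δ ∨ t ≠ some r ∨ 2 ≤ k.natAbs)
    (hA : ∀ e, A' e ≤ A e ∧ B' e ≤ B e)
    (h0 : dir = false → 1 + A' s(r, c) ≤ A s(r, c) + (if par s(r, c) = true then 0 else 1))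
    (h1 : dir = true → 1 + B' s(r, c) ≤ B s(r, c) + (if par s(r, c) = true then 1 else 0))
    {g : FG (Option (S × Bool))} {η : Sym2 (Option (S × Bool)) → ℕ} (hη : Good (MM M b) κ η)
    (hg : Arr g c η k t δ) (hB : Bd M b κ A B par η) :
    ∃ η', Good (MM M b) κ η' ∧ Arr (im2 G ((r, l) :: m2) g) r η' l (some c) dir ∧
      Bd M b κ A' B' (Function.update par s(r, c) (!dir)) η' := by
  have h3 := hB r c hrc h2
  have hlen := hη (rl r) (rl c) (by simpa [rl] using hrc)
  rw [im2_cons, im2_single hG]
  have h4 := hA s(r, c)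
  rcases dir with _ | _
  · -- up
    obtain ⟨d, hd, hd'⟩ := Lp_pre r
    have h5 := skip hG (c := c) (R := [d, rl r]) (by simp) m2 (fun p hp => ⟨(hm p hp).1, by
      have h6 := (hm p hp).2
      have h7 := hd' p.1
      simp only [List.mem_cons, List.not_mem_nil, or_false, not_or]
      exact ⟨fun h => h7 h.symm, by simpa [rl] using h6⟩⟩) g
      (hg.up hk ht (r := r) (by
        rcases hav with h6 | h6
        · exact Or.inl h6.symm
        · exact Or.inr h6) hd hd')
    have h6 := h0 rfl
    have hpl : η s(rl r, rl c) + 1 ≤ len (MM M b) κ (rl r) (rl c) := by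
      split_ifs at h6 h3 <;> omega
    refine ⟨_, good_update hη (by omega) hpl, q_u hrc hη hpl hd' h5 l, hB.upd hrc h2 hA ?_ ?_⟩
    · simp only [Bool.not_false, if_true]
      split_ifs at h3 <;> omega
    · simp only [Bool.not_false, if_true]
      split_ifs at h6 h3 <;> omega
  · -- down
    have h5 := skip hG (c := c) (R := [rl r, some (r, false)]) (by simp) m2 (fun p hp =>
      ⟨(hm p hp).1, by
        have h6 := (hm p hp).2
        simp only [List.mem_cons, List.not_mem_nil, or_false, not_or]
        exact ⟨by simpa [rl] using h6, by simp [rl]⟩⟩) g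
      (hg.dn hk (r := r) (by
        rcases hav with h6 | h6
        · exact Or.inl h6.symm
        · exact Or.inr h6))
    have h6 := h1 rfl
    have hp2 : 2 ≤ η s(rl r, rl c) := by
      split_ifs at h6 h3 <;> omega
    refine ⟨_, good_update hη (by omega) (by omega), q_dn hrc hη hp2 h5 l,
      hB.upd hrc h2 hA ?_ ?_⟩
    · simp only [Bool.not_true, Bool.false_eq_true, if_false]
      split_ifs at h6 h3 <;> omega
    · simp only [Bool.not_true, Bool.false_eq_true, if_false]
      split_ifs at h3 <;> omega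

/-- the walk -/
theorem plan {W : List (S × ℤ)} (hR : Rd M W)
    {G : ArtinGroup M →* (Monoid.End (FG (Option (S × Bool))))ˣ}
    (hG : ∀ x, G (PresentedGroup.of x) = ac M b κ x) : ∀ (n : ℕ) (pre w : List (S × ℤ)) (c : S)
    (k : ℤ) (t : Option S) (δ : Bool) (par : Sym2 S → Bool), pre.length = n →
    W = pre ++ (c, k) :: w → (t = none → δ = true) →
    (∀ a, t = some a → a ≠ c ∧ par s(a, c) = !δ ∧
      ∃ D l E, w = D ++ (a, l) :: E ∧ ∀ p ∈ D, p.1 ≠ c) →
    (t ≠ none → ∃ p ∈ w, p.1 = c) → (∀ p ∈ pre, ∃ q ∈ (c, k) :: w, q.1 = p.1) →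
    ∃ A B : Sym2 S → ℕ, (∀ x y, x ≠ y → A s(x, y) + B s(x, y) ≤ (TS M W x y ∩ {i | i ≤ n}).ncard) ∧
      ∀ (g : FG (Option (S × Bool))) (η : Sym2 (Option (S × Bool)) → ℕ), Good (MM M b) κ η →
        Arr g c η k t δ → Bd M b κ A B par η →
        ∃ c' η', Q (im2 G pre g) (rl c', η') [rl c', some (c', false)] := by
  intro n
  induction n using Nat.strong_induction_on with
  | _ n ih =>
    intro pre w c k t δ par hn hW ht hta htc hpre
    have hk : k ≠ 0 := hR.1 (c, k) (by rw [hW]; simp)
    by_cases hc : ∃ p ∈ pre, p.1 = c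
    swap
    · -- the end
      refine ⟨fun _ => 0, fun _ => 0, fun x y _ => Nat.zero_le _, fun g η hη hg hB => ?_⟩
      refine ⟨c, η, skip hG (c := c) (by simp) pre (fun p hp => ?_) g (hg.dn hk (r := c) ?_)⟩
      · have h1 : p.1 ≠ c := fun h1 => hc ⟨p, hp, h1⟩
        refine ⟨h1, ?_⟩
        simp only [List.mem_cons, List.not_mem_nil, or_false, not_or]
        exact ⟨by simpa [rl] using h1, by simp [rl]⟩
      · right
        left
        intro h1
        exact (hta c h1).1 rfl
    obtain ⟨pre1, ⟨c', k'⟩, mid, hpre1, hc', hmid⟩ := split_last (fun p : S × ℤ => p.1 = c) pre hc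
    have hc'' : c' = c := hc'
    subst hc''
    obtain ⟨d, hd, hd1, hd2⟩ := hR.2 pre1 mid w c' k' k (by rw [hW, hpre1]; simp)
    -- the target
    have key : ∀ (r : S) (l0 : ℤ), (r, l0) ∈ mid → M r c' ≠ 2 → ∀ dir : Bool,
        (dir = δ ∨ t ≠ some r ∨ 2 ≤ k.natAbs) →
        (∀ A' B' : Sym2 S → ℕ, (∀ n', n' < n → (∀ x y, x ≠ y →
            A' s(x, y) + B' s(x, y) ≤ (TS M W x y ∩ {i | i ≤ n'}).ncard) →
          ∃ A B : Sym2 S → ℕ, (∀ x y, x ≠ y →
            A s(x, y) + B s(x, y) ≤ (TS M W x y ∩ {i | i ≤ n}).ncard) ∧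
            (∀ e, A' e ≤ A e ∧ B' e ≤ B e) ∧
            (dir = false → 1 + A' s(r, c') ≤ A s(r, c') + (if par s(r, c') = true then 0 else 1)) ∧
            (dir = true →
              1 + B' s(r, c') ≤ B s(r, c') + (if par s(r, c') = true then 1 else 0)))) →
        ∃ A B : Sym2 S → ℕ,
          (∀ x y, x ≠ y → A s(x, y) + B s(x, y) ≤ (TS M W x y ∩ {i | i ≤ n}).ncard) ∧
          ∀ (g : FG (Option (S × Bool))) (η : Sym2 (Option (S × Bool)) → ℕ), Good (MM M b) κ η →
            Arr g c' η k t δ → Bd M b κ A B par η →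
            ∃ c2 η', Q (im2 G pre g) (rl c2, η') [rl c2, some (c2, false)] := by
      intro r l0 hr0 hr2 dir hdir hAB
      have hrc : r ≠ c' := hmid _ hr0
      obtain ⟨m1, ⟨r', l⟩, m2, hm, hr', hm2⟩ :=
        split_last (fun p : S × ℤ => p.1 = r) mid ⟨(r, l0), hr0, rfl⟩
      have hr'' : r' = r := hr'
      subst hr''
      have hlen : (pre1 ++ (c', k') :: m1).length < n := by
        rw [← hn, hpre1, hm]
        simp only [List.length_append, List.length_cons]
        omega
      obtain ⟨A', B', hAB', hreal⟩ := ih _ hlen (pre1 ++ (c', k') :: m1) (m2 ++ (c', k) :: w) r' l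
        (some c') dir (Function.update par s(r', c') (!dir)) rfl
        (by rw [hW, hpre1, hm]; simp) (by simp)
        (by
          intro a ha
          have ha' : c' = a := by simpa using ha
          subst ha'
          refine ⟨hrc.symm, ?_, m2, k, w, rfl, fun p hp => hm2 p hp⟩
          rw [Sym2.eq_swap, Function.update_self])
        (by
          intro _
          obtain ⟨q, hq, hq1⟩ := hpre (r', l) (by rw [hpre1, hm]; simp)
          exact ⟨q, by
            rcases List.mem_cons.1 hq with rfl | hq
            · simp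
            · simp [hq], hq1⟩)
        (by
          intro p hp
          obtain ⟨q, hq, hq1⟩ := hpre p (by
            rw [hpre1, hm]
            rcases List.mem_append.1 hp with hp | hp
            · simp [hp]
            · rcases List.mem_cons.1 hp with rfl | hp
              · simp
              · simp [hp])
          exact ⟨q, by
            rcases List.mem_cons.1 hq with rfl | hq
            · simp
            · simp [hq], hq1⟩)
      obtain ⟨A, B, h1, h2, h3, h4⟩ := hAB A' B' _ hlen hAB'
      refine ⟨A, B, h1, fun g η hη hg hB => ?_⟩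
      obtain ⟨η', hη', hg', hB'⟩ := real_step hG (l := l) (m2 := m2) (A' := A') (B' := B')
        (dir := dir) (fun p hp => ⟨hmid p (by rw [hm]; simp [hp]), hm2 p hp⟩) hrc hr2 hk ht hdir
        h2 h3 h4 hη hg hB
      have h5 := hreal _ η' hη' hg' hB'
      have h6 : im2 G pre g = im2 G (pre1 ++ (c', k') :: m1) (im2 G ((r', l) :: m2) g) := by
        rw [← im2_append, hpre1, hm]
        congr 1
        simp
      rw [h6]
      exact h5
    by_cases hfree : ∃ d ∈ mid, M d.1 c' ≠ 2 ∧ (t ≠ some d.1 ∨ 2 ≤ k.natAbs)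
    · -- free
      obtain ⟨⟨r, l0⟩, hr0, hr2, hr3⟩ := hfree
      refine key r l0 hr0 hr2 (par s(r, c')) (Or.inr hr3) ?_
      intro A' B' n' hn' hAB'
      refine ⟨A', B', fun x y hxy => (hAB' x y hxy).trans (card_mono hn'.le),
        fun e => ⟨le_rfl, le_rfl⟩, ?_, ?_⟩
      · intro h
        rw [h]
        simp only [Bool.false_eq_true, if_false]
        omega
      · intro h
        rw [h]
        simp only [if_true]
        omega
    · -- forced
      have hfr : ∀ d ∈ mid, M d.1 c' ≠ 2 → t = some d.1 ∧ k.natAbs = 1 := by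
        intro d hd hd2
        by_contra h
        apply hfree
        refine ⟨d, hd, hd2, ?_⟩
        by_cases h1 : t = some d.1
        · right
          by_contra h3
          exact h ⟨h1, by omega⟩
        · exact Or.inl h1
      obtain ⟨r, l0⟩ := d
      obtain ⟨htr, hk1⟩ := hfr (r, l0) hd hd2
      have htr' : t = some r := htr
      obtain ⟨hrc, hpar, D, l1, E, hw, hD⟩ := hta r htr'
      have hturn : Turn M W c' r n := by
        obtain ⟨p, hp, hpc⟩ := htc (by rw [htr']; simp)
        have hpE : p ∈ E := by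
          rw [hw] at hp
          rcases List.mem_append.1 hp with hp | hp
          · exact absurd hpc (hD p hp)
          · rcases List.mem_cons.1 hp with rfl | hp
            · exact absurd hpc hrc
            · exact hp
        obtain ⟨E1, F, hE⟩ := List.append_of_mem hpE
        obtain ⟨p1, p2⟩ := p
        have hpc' : p1 = c' := hpc
        subst hpc'
        refine ⟨pre1, mid, D, E1, F, k', k, l1, p2, ?_, ?_, ?_, ?_, hD⟩
        · rw [hW, hpre1, hw, hE]
          simp
        · rw [← hn, hpre1]
          simp only [List.length_append, List.length_cons]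
          omega
        · rw [Int.abs_eq_natAbs, hk1]
          rfl
        · intro p hp
          refine ⟨hmid p hp, ?_⟩
          by_cases h3 : M p.1 p1 = 2
          · exact Or.inr h3
          · left
            have h4 := (hfr p hp h3).1
            rw [htr'] at h4
            simpa using h4.symm
      refine key r l0 hd hd2 δ (Or.inl rfl) ?_
      intro A' B' n' hn' hAB'
      have hin : ∀ x y, s(x, y) = s(r, c') → n ∈ TS M W x y := by
        intro x y hxy
        rcases Sym2.eq_iff.1 hxy with ⟨rfl, rfl⟩ | ⟨rfl, rfl⟩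
        · exact Or.inr hturn
        · exact Or.inl hturn
      rcases δ with _ | _
      · -- up
        refine ⟨Function.update A' s(r, c') (A' s(r, c') + 1), B', ?_, ?_, ?_, ?_⟩
        · intro x y hxy
          by_cases he : s(x, y) = s(r, c')
          · have h3 := hAB' x y hxy
            have h4 := card_step hn' (hin x y he)
            rw [he] at h3 ⊢
            rw [Function.update_self]
            omega
          · rw [Function.update_of_ne he]
            exact (hAB' x y hxy).trans (card_mono hn'.le)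
        · intro e
          refine ⟨?_, le_rfl⟩
          by_cases he : e = s(r, c')
          · rw [he, Function.update_self]
            omega
          · rw [Function.update_of_ne he]
        · intro _
          rw [Function.update_self]
          omega
        · intro h
          simp at h
      · refine ⟨A', Function.update B' s(r, c') (B' s(r, c') + 1), ?_, ?_, ?_, ?_⟩
        · intro x y hxy
          by_cases he : s(x, y) = s(r, c')
          · have h3 := hAB' x y hxy
            have h4 := card_step hn' (hin x y he)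
            rw [he] at h3 ⊢
            rw [Function.update_self]
            omega
          · rw [Function.update_of_ne he]
            exact (hAB' x y hxy).trans (card_mono hn'.le)
        · intro e
          refine ⟨le_rfl, ?_⟩
          by_cases he : e = s(r, c')
          · rw [he, Function.update_self]
            omega
          · rw [Function.update_of_ne he]
        · intro h
          simp at h
        · intro _
          rw [Function.update_self]
          omega

end

section lists

theorem last_split {S : Type*} : ∀ (W : List (S × ℤ)), W ≠ [] → ∃ v b k w,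
    W = v ++ (b, k) :: w ∧ (∀ p ∈ w, p.1 ≠ b) ∧ ∀ p ∈ v, ∃ q ∈ (b, k) :: w, q.1 = p.1 := by
  intro W
  induction W with
  | nil => intro h; exact absurd rfl h
  | cons a W ih =>
    intro _
    obtain ⟨x, k0⟩ := a
    by_cases hW : W = []
    · subst hW
      exact ⟨[], x, k0, [], rfl, by simp, by simp⟩
    · obtain ⟨v, b, k, w, h1, h2, h3⟩ := ih hW
      by_cases hx : ∃ q ∈ (b, k) :: w, q.1 = x
      · refine ⟨(x, k0) :: v, b, k, w, by rw [h1]; rfl, h2, ?_⟩
        intro p hp
        rcases List.mem_cons.1 hp with rfl | hp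
        · exact hx
        · exact h3 p hp
      · refine ⟨[], x, k0, W, rfl, ?_, by simp⟩
        intro p hp hpx
        rw [h1] at hp
        rcases List.mem_append.1 hp with hp | hp
        · obtain ⟨q, hq, hq1⟩ := h3 p hp
          exact hx ⟨q, hq, hq1.trans hpx⟩
        · exact hx ⟨p, hp, hpx⟩

end lists

noncomputable section

open Classical

variable {S : Type*} [DecidableEq S] [Fintype S] {M : CoxeterMatrix S} {b : S} {κ : ℕ}

/-- the arc -/
def d3 (b : S) (η : Sym2 (Option (S × Bool)) → ℕ) : FG (Option (S × Bool)) :=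
  X (none, Function.update η s(rl b, none) 2) (rl b)

theorem d3_len (b : S) (η : Sym2 (Option (S × Bool)) → ℕ) : (d3 b η).toWord.length = 1 := by
  rw [d3, X, FreeGroup.toWord_of]
  rfl

theorem d3_fix {b x : S} (hx : x ≠ b) (η : Sym2 (Option (S × Bool)) → ℕ) (l : ℤ) :
    ((ac M b κ x ^ l : (Monoid.End (FG (Option (S × Bool))))ˣ) :
      Monoid.End (FG (Option (S × Bool)))) (d3 b η) = d3 b η := by
  have hne : (none : Option (S × Bool)) ≠ rl x := by simp
  have h1 := (tw_un (M := MM M b) (κ := κ) (L := Lp S) Lp_nodup (rl x) l).mov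
    ((none, Function.update η s(rl b, none) 2), rl b) hne
  have h2 : ∀ c, uo (MM M b) κ (Lp S) (rl x)
      (((none, Function.update η s(rl b, (none : Option (S × Bool))) 2), rl b), c) = 1 := by
    intro c
    rw [uo, if_neg]
    rintro ⟨h3, _⟩
    exact hx (by simpa [rl] using h3.symm)
  rw [h2, h2, one_zpow, inv_one, mul_one, one_mul] at h1
  exact h1

theorem im2_fix {G : ArtinGroup M →* (Monoid.End (FG (Option (S × Bool))))ˣ}
    (hG : ∀ x, G (PresentedGroup.of x) = ac M b κ x) {η : Sym2 (Option (S × Bool)) → ℕ} :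
    ∀ (w : List (S × ℤ)), (∀ p ∈ w, p.1 ≠ b) → im2 G w (d3 b η) = d3 b η := by
  intro w
  induction w with
  | nil => intro _; exact im2_nil _ _
  | cons p w ih =>
    intro hw
    obtain ⟨x, l⟩ := p
    rw [im2_cons, ih (fun q hq => hw q (by simp [hq])), im2_single hG]
    exact d3_fix (hw (x, l) (by simp)) η l

theorem start3 {k : ℤ} {η : Sym2 (Option (S × Bool)) → ℕ} (hη : Good (MM M b) κ η)
    (hη1 : η s(rl b, none) = 1) :
    Arr (((ac M b κ b ^ k : (Monoid.End (FG (Option (S × Bool))))ˣ) :
      Monoid.End (FG (Option (S × Bool)))) (d3 b η)) b η k none true := by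
  have hlen : len (MM M b) κ (rl b) none = 2 := by
    rw [len, star_b]
    rfl
  have hne : (none : Option (S × Bool)) ≠ rl b := by simp
  have hg : Good (MM M b) κ (Function.update η s(rl b, none) 2) :=
    good_update hη (by norm_num) (by rw [hlen])
  have e : Function.update η s(rl b, none) 2 s(rl b, (none : Option (S × Bool))) =
    2 := Function.update_self _ _ _
  have e1 : uo (MM M b) κ (Lp S) (rl b)
      (((none, Function.update η s(rl b, none) 2), rl b), true) = 1 := by
    rw [uo, if_pos ⟨rfl, hne⟩, if_pos rfl, AP.up, if_neg]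
    rintro ⟨_, h⟩
    have h' : Function.update η s(rl b, none) 2
      s(rl b, (none : Option (S × Bool))) + 1 ≤ len (MM M b) κ (rl b) none := h
    rw [e, hlen] at h'
    omega
  have e2 : uo (MM M b) κ (Lp S) (rl b)
      (((none, Function.update η s(rl b, none) 2), rl b), false) =
      (FreeGroup.mk (wd (rl b, η) (none :: rest (Lp S) none)))⁻¹ := by
    rw [uo, if_pos ⟨rfl, hne⟩, if_neg (by simp), AP.dn, if_pos ⟨hg, e.ge⟩, mk_wd]
    have e3 : nb (none, Function.update η s(rl b, (none : Option (S × Bool))) 2)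
        (rl b) (Function.update η s(rl b, none) 2
          s(rl b, (none : Option (S × Bool))) - 1) = (rl b, η) := by
      rw [e]
      unfold nb
      simp only [Function.update_idem]
      congr 1
      show Function.update η s(rl b, none) 1 = η
      rw [← hη1]
      exact Function.update_eq_self _ _
    show (X (nb (none, Function.update η s(rl b, (none : Option (S × Bool))) 2)
        (rl b) (Function.update η s(rl b, none) 2
          s(rl b, (none : Option (S × Bool))) - 1)) none *
      Rr (Lp S) (nb (none, Function.update η s(rl b, (none : Option (S × Bool))) 2)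
        (rl b) (Function.update η s(rl b, none) 2
          s(rl b, (none : Option (S × Bool))) - 1)) none)⁻¹ = _
    rw [e3]
    rfl
  have h1 := (tw_un (M := MM M b) (κ := κ) (L := Lp S) Lp_nodup (rl b) k).mov
    ((none, Function.update η s(rl b, none) 2), rl b) hne
  rw [e1, e2, one_zpow, one_mul, inv_zpow, inv_inv] at h1
  apply Q.of_pow
  have h2 : (((ac M b κ b ^ k : (Monoid.End (FG (Option (S × Bool))))ˣ) :
    Monoid.End (FG (Option (S × Bool)))) (d3 b η)) = _ := h1
  rw [h2, toWord_mul']
  · refine ⟨(FreeGroup.of (((none, Function.update η s(rl b, none) 2), rl b) :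
      Vx (Option (S × Bool)) × Option (S × Bool))).toWord, [], ?_⟩
    rw [List.append_nil]
    rfl
  · intro a ha c hc hac
    exfalso
    have h3 : a.1.1.1 = none := by
      rw [FreeGroup.toWord_of] at ha
      have : (((none, Function.update η s(rl b, none) 2), rl b), true) = a := by
        simpa using ha
      rw [← this]
    have h4 : Fr {z | z.1.1 = rl b}
        (FreeGroup.mk (wd (rl b, η) (none :: rest (Lp S) none)) ^ k) := by
      have h5 : Fr {z : Vx (Option (S × Bool)) × Option (S × Bool) | z.1.1 = rl b}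
          (FreeGroup.mk (wd (rl b, η) (none :: rest (Lp S) none))) := by
        apply fr_mk
        intro l hl
        simp only [wd, List.map_map, List.mem_map, Function.comp] at hl
        obtain ⟨a, _, rfl⟩ := hl
        rfl
      have h6 : ∀ n : ℕ, Fr {z : Vx (Option (S × Bool)) × Option (S × Bool) | z.1.1 = rl b}
          (FreeGroup.mk (wd (rl b, η) (none :: rest (Lp S) none)) ^ n) := by
        intro n
        induction n with
        | zero => rw [pow_zero]; exact Fr.one _
        | succ n ih => rw [pow_succ]; exact ih.mul h5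
      rcases k with n | n
      · rw [Int.ofNat_eq_natCast, zpow_natCast]
        exact h6 n
      · rw [zpow_negSucc]
        exact (h6 _).inv
    have h5 : c.1.1.1 = rl b := h4.hd hc
    rw [← hac, h3] at h5
    exact hne h5

theorem rl_inj : Function.Injective (rl : S → Option (S × Bool)) := by
  intro x y h
  simpa [rl] using h

/-- **words with few turns are nontrivial** -/
theorem turn_main {W : List (S × ℤ)} (hR : Rd M W) (hW : W ≠ [])
    (h : ∀ x y, x ≠ y → M x y ≠ 2 → M x y ≠ 0 → (TS M W x y).ncard + 3 ≤ M x y) :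
    value M W ≠ 1 := by
  intro hval
  obtain ⟨v, b, k, w, hWv, hw, hv⟩ := last_split W hW
  set κ := W.length + 2 with hκ
  obtain ⟨A, B, hAB, hreal⟩ := plan (M := M) (b := b) (κ := κ) hR (rep2_of M b κ) v.length v w b k
    none true (fun _ => false) rfl hWv (fun _ => rfl) (by simp) (by simp) hv
  have hbound : ∀ x y, x ≠ y → M x y ≠ 2 → A s(x, y) + B s(x, y) + 2 ≤
      len (MM M b) κ (rl x) (rl y) := by
    intro x y hxy hxy2
    have h1 := hAB x y hxy
    have h2 : (TS M W x y ∩ {i | i ≤ v.length}).ncard ≤ (TS M W x y).ncard :=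
      Set.ncard_le_ncard Set.inter_subset_left TS_fin
    rw [len_rl]
    split_ifs with h0
    · have h3 : (TS M W x y).ncard ≤ W.length := by
        have h4 : (TS M W x y).ncard ≤ (Set.Iio W.length).ncard := by
          apply Set.ncard_le_ncard _ (Set.finite_Iio _)
          rintro i (h5 | h5)
          · exact h5.lt
          · exact h5.lt
        have h5 : (Set.Iio W.length).ncard = W.length := by
          rw [Set.ncard_eq_toFinset_card']
          simp
        omega
      omega
    · have h3 := h x y hxy hxy2 h0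
      omega
  -- the positions at the beginning
  set B0 : Sym2 S → ℕ := fun f => if ∃ x y, f = s(x, y) ∧ x ≠ y ∧ M x y ≠ 2 then B f else 0 with hB0
  set η : Sym2 (Option (S × Bool)) → ℕ :=
    fun e => 1 + Function.extend (Sym2.map rl) B0 (fun _ => 0) e with hη
  have hinj : Function.Injective (Sym2.map (rl : S → Option (S × Bool))) := Sym2.map.injective rl_inj
  have hη2 : ∀ x y, x ≠ y → M x y ≠ 2 → η s(rl x, rl y) = 1 + B s(x, y) := by
    intro x y hxy hxy2
    have e : s(rl x, rl y) = Sym2.map rl s(x, y) := rfl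
    rw [hη]
    show 1 + Function.extend (Sym2.map rl) B0 (fun _ => 0) s(rl x, rl y) = _
    rw [e, hinj.extend_apply, hB0]
    show 1 + (if ∃ x' y', s(x, y) = s(x', y') ∧ x' ≠ y' ∧ M x' y' ≠ 2 then B s(x, y) else 0) = _
    rw [if_pos ⟨x, y, rfl, hxy, hxy2⟩]
  have hη3 : ∀ e, η e = 1 ∨ ∃ x y, x ≠ y ∧ M x y ≠ 2 ∧ e = s(rl x, rl y) := by
    intro e
    by_cases h1 : ∃ f, Sym2.map rl f = e
    · obtain ⟨f, rfl⟩ := h1
      by_cases h2 : ∃ x y, f = s(x, y) ∧ x ≠ y ∧ M x y ≠ 2
      · obtain ⟨x, y, rfl, h3, h4⟩ := h2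
        exact Or.inr ⟨x, y, h3, h4, rfl⟩
      · left
        show 1 + Function.extend (Sym2.map rl) B0 (fun _ => 0) (Sym2.map rl f) = 1
        rw [hinj.extend_apply, hB0]
        show 1 + (if ∃ x y, f = s(x, y) ∧ x ≠ y ∧ M x y ≠ 2 then B f else 0) = 1
        rw [if_neg h2]
    · left
      show 1 + Function.extend (Sym2.map rl) B0 (fun _ => 0) e = 1
      rw [Function.extend_apply' _ _ _ h1]
  have hGood : Good (MM M b) κ η := by
    intro s t hst
    rcases hη3 s(s, t) with h1 | ⟨x, y, hxy, hxy2, h1⟩
    · rw [h1]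
      exact good_c _ (by omega) s t hst
    · rw [h1, hη2 x y hxy hxy2]
      refine ⟨by omega, ?_⟩
      have h2 := hbound x y hxy hxy2
      have h3 : len (MM M b) κ s t = len (MM M b) κ (rl x) (rl y) := by
        rcases Sym2.eq_iff.1 h1 with ⟨rfl, rfl⟩ | ⟨rfl, rfl⟩
        · rfl
        · rw [len_symm]
      rw [h3]
      omega
  have hη1 : η s(rl b, none) = 1 := by
    rcases hη3 s(rl b, none) with h1 | ⟨x, y, _, _, h1⟩
    · exact h1
    · exfalso
      rcases Sym2.eq_iff.1 h1 with ⟨_, h2⟩ | ⟨_, h2⟩
      · simp [rl] at h2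
      · simp [rl] at h2
  have hBd : Bd M b κ A B (fun _ => false) η := by
    intro x y hxy hxy2
    have h1 := hbound x y hxy hxy2
    rw [hη2 x y hxy hxy2]
    simp only [Bool.false_eq_true, if_false]
    omega
  obtain ⟨c', η', hq⟩ := hreal _ η hGood (start3 hGood hη1) hBd
  have h1 : im2 (rep2 M b κ) W (d3 b η) = d3 b η := by
    unfold im2
    rw [hval, map_one]
    rfl
  rw [hWv, im2_append, im2_cons, im2_fix (rep2_of M b κ) w hw, im2_single (rep2_of M b κ)] at h1
  rw [h1] at hq
  have h6 := d3_len b η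
  have h7 : ((d3 b η)⁻¹).toWord.length = 1 := by
    rw [FreeGroup.toWord_inv, FreeGroup.invRev_length, h6]
  have h8 : (wd (rl c', η') [rl c', some (c', false)]).length ≤ 1 := by
    rcases hq with hq | hq
    · exact hq.length.trans h6.le
    · exact hq.length.trans h7.le
  simp [wd] at h8

end

end Pool.Agent.L7h63.AP
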