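import Pool.Agent.L7h63.AP.Rel
import Pool.Agent.L7h63.AP.Seg

/-!
# Full turns along annuli
-/

set_option autoImplicit false
set_option linter.unusedSectionVars false

namespace Pool.Agent.L7h63.AP

open Pool.Agent.K7.H20.AW

variable {S : Type*} [DecidableEq S] [DecidableEq (Vx S × S)] {M : CoxeterMatrix S} {κ : ℕ}
  {L : List S}

/-- the letters off the annuli of type `s` -/
def Vo (s : S) : Set (Vx S × S) := {z | z.1.1 ≠ s}

theorem fro_R {s : S} {v : Vx S} (hv : v.1 = s) (t : S) : Fr (Vo s)ᶜ (Rr L v t) := by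
  apply Fr.list
  intro g hg
  obtain ⟨a, _, rfl⟩ := List.mem_map.1 hg
  apply Fr.of
  intro h
  exact h hv

theorem fro_X {s : S} {v : Vx S} (hv : v.1 = s) (t : S) : Fr (Vo s)ᶜ (X v t) := by
  apply Fr.of
  intro h
  exact h hv

theorem fro_up (s : S) (u : Vx S) : Fr (Vo s)ᶜ (up M κ L s u) := by
  rw [up]
  split_ifs
  · exact ((fro_R rfl _).mul (fro_X rfl _)).inv
  · exact Fr.one _

theorem fro_dn (s : S) (u : Vx S) : Fr (Vo s)ᶜ (dn M κ L s u) := by
  rw [dn]
  split_ifs
  · exact (fro_X rfl _).mul (fro_R rfl _)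
  · exact Fr.one _

variable (M κ L) in
/-- the factors of `T s` -/
noncomputable def uo (s : S) (l : (Vx S × S) × Bool) : FG S :=
  if l.1.2 = s ∧ l.1.1.1 ≠ s then
    (if l.2 = true then up M κ L s l.1.1 else (dn M κ L s l.1.1)⁻¹) else 1

theorem fro_uo (s : S) (l : (Vx S × S) × Bool) : Fr (Vo s)ᶜ (uo M κ L s l) := by
  rw [uo]
  split_ifs
  · exact fro_up _ _
  · exact (fro_dn _ _).inv
  · exact Fr.one _

theorem two_T (s : S) : Tw (Vo s) (T M κ L s : FG S →* FG S) (uo M κ L s) where
  fix := by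
    rintro ⟨v, r⟩ h
    apply T_X0 (v := v) (r := r)
    right
    by_contra hc
    exact h hc
  mov := by
    rintro ⟨v, r⟩ h
    by_cases hr : r = s
    · subst hr
      have e1 : uo M κ L r ((v, r), true) = up M κ L r v := by
        rw [uo, if_pos ⟨rfl, h⟩, if_pos rfl]
      have e2 : uo M κ L r ((v, r), false) = (dn M κ L r v)⁻¹ := by
        rw [uo, if_pos ⟨rfl, h⟩, if_neg (by simp)]
      rw [e1, e2, inv_inv]
      exact T_X1 (v := v) h
    · have e1 : ∀ b, uo M κ L s ((v, r), b) = 1 := by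
        intro b
        rw [uo, if_neg]
        rintro ⟨h1, _⟩
        exact hr h1
      rw [e1, e1, inv_one, mul_one, one_mul]
      exact T_X0 (v := v) (r := r) (Or.inl hr)
  fr := fro_uo s

theorem two_Ti (s : S) : Tw (Vo s) (Ti M κ L s : FG S →* FG S) (fun l => (uo M κ L s l)⁻¹) where
  fix := by
    rintro ⟨v, r⟩ h
    apply Ti_X0 (v := v) (r := r)
    right
    by_contra hc
    exact h hc
  mov := by
    rintro ⟨v, r⟩ h
    by_cases hr : r = s
    · subst hr
      have e1 : uo M κ L r ((v, r), true) = up M κ L r v := by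
        rw [uo, if_pos ⟨rfl, h⟩, if_pos rfl]
      have e2 : uo M κ L r ((v, r), false) = (dn M κ L r v)⁻¹ := by
        rw [uo, if_pos ⟨rfl, h⟩, if_neg (by simp)]
      simp only [e1, e2, inv_inv]
      exact Ti_X1 (v := v) h
    · have e1 : ∀ b, uo M κ L s ((v, r), b) = 1 := by
        intro b
        rw [uo, if_neg]
        rintro ⟨h1, _⟩
        exact hr h1
      simp only [e1, inv_one, mul_one, one_mul]
      exact Ti_X0 (v := v) (r := r) (Or.inl hr)
  fr := fun l => (fro_uo s l).inv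

variable (M κ) in
/-- the generators act by automorphisms -/
noncomputable def un (hL : L.Nodup) (s : S) : (Monoid.End (FG S))ˣ :=
  ⟨T M κ L s, Ti M κ L s, T_Ti hL, Ti_T hL⟩

theorem tw_un (hL : L.Nodup) (s : S) (k : ℤ) :
    Tw (Vo s) (((un M κ hL s ^ k : (Monoid.End (FG S))ˣ) : Monoid.End (FG S)) : FG S →* FG S)
      (fun l => uo M κ L s l ^ k) := by
  rcases k with n | n
  · simp only [Int.ofNat_eq_natCast, zpow_natCast, Units.val_pow_eq_pow_val]
    exact (two_T (M := M) (κ := κ) (L := L) s).pow n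
  · simp only [zpow_negSucc, ← inv_pow, Units.val_pow_eq_pow_val]
    exact (two_Ti (M := M) (κ := κ) (L := L) s).pow (n + 1)

/-- the letters of an annulus -/
abbrev wd (v : Vx S) (R : List S) : List ((Vx S × S) × Bool) :=
  (R.map fun a => (v, a)).map fun z => (z, true)

/-- `R` is a part of the core of `v` that occurs in `g` or its inverse -/
def Q (g : FG S) (v : Vx S) (R : List S) : Prop :=
  Fac (wd v R) g.toWord ∨ Fac (wd v R) (g⁻¹).toWord

theorem Q.sub {g : FG S} {v : Vx S} {R R' : List S} (h : Q g v R) (h' : Fac R' R) : Q g v R' := by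
  rcases h with h | h
  · exact Or.inl (((h'.map _).map _).trans h)
  · exact Or.inr (((h'.map _).map _).trans h)

theorem Q.inv {g : FG S} {v : Vx S} {R : List S} (h : Q g v R) : Q g⁻¹ v R := by
  rcases h with h | h
  · right
    rwa [inv_inv]
  · exact Or.inl h

/-- repetition -/
abbrev rp {β : Type*} (n : ℕ) (W : List β) : List β := (List.replicate n W).flatten

theorem rp_map {β γ : Type*} (f : β → γ) (n : ℕ) (W : List β) :
    (rp n W).map f = rp n (W.map f) := by
  rw [rp, List.map_flatten, List.map_replicate]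

theorem mk_rp (n : ℕ) (W : List ((Vx S × S) × Bool)) :
    (FreeGroup.mk W) ^ n = FreeGroup.mk (rp n W) := by
  induction n with
  | zero => rfl
  | succ n ih =>
    rw [pow_succ', ih, rp, rp, List.replicate_succ, List.flatten_cons, mk_append]

theorem toWord_wd (v : Vx S) (R : List S) : (FreeGroup.mk (wd v R)).toWord = wd v R :=
  toWord_pos _

theorem fac_invRev {F G : List ((Vx S × S) × Bool)} (h : Fac (FreeGroup.invRev F) G) :
    Fac F (FreeGroup.invRev G) := by
  obtain ⟨A, B, rfl⟩ := h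
  refine ⟨FreeGroup.invRev B, FreeGroup.invRev A, ?_⟩
  have e : ∀ A B : List ((Vx S × S) × Bool), FreeGroup.invRev (A ++ B) =
      FreeGroup.invRev B ++ FreeGroup.invRev A := by
    intro A B
    simp [FreeGroup.invRev]
  rw [e, e, FreeGroup.invRev_invRev]
  simp

theorem Q.of_pow {g : FG S} {v : Vx S} {W : List S} {k : ℤ}
    (h : Fac ((FreeGroup.mk (wd v W)) ^ k).toWord g.toWord) : Q g v (rp k.natAbs W) := by
  have e : wd v (rp k.natAbs W) = rp k.natAbs (wd v W) := by
    rw [wd, rp_map, rp_map]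
  have e2 : (FreeGroup.mk (wd v W) ^ k.natAbs).toWord = wd v (rp k.natAbs W) := by
    rw [mk_rp, ← e, toWord_wd]
  rcases Int.natAbs_eq k with hk | hk
  · left
    rw [hk, zpow_natCast, e2] at h
    exact h
  · right
    rw [hk, zpow_neg, zpow_natCast, FreeGroup.toWord_inv, e2] at h
    rw [FreeGroup.toWord_inv]
    exact fac_invRev h

theorem mk_wd (v : Vx S) (R : List S) : FreeGroup.mk (wd v R) = (R.map (X v)).prod := by
  induction R with
  | nil => rfl
  | cons a R ih =>
    rw [List.map_cons, List.prod_cons, ← ih]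
    exact mk_cons _ _

noncomputable section

open Classical

/-- a generator that commutes with the type of the annulus -/
theorem Q.keep (hL : L.Nodup) {g : FG S} {v : Vx S} {R : List S} {r : S} (hr : v.1 ≠ r)
    (hG : Good M κ v.2) (h2 : M r v.1 = 2) (hR : R ≠ []) (h : Q g v R) (k : ℤ) :
    Q (((un M κ hL r ^ k : (Monoid.End (FG S))ˣ) : Monoid.End (FG S)) g) v R := by
  have hlen : len M κ r v.1 = 1 := by rw [len, h2]; rfl
  have hg := hG r v.1 hr.symm
  have e1 : up M κ L r v = 1 := by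
    rw [up, if_neg]
    rintro ⟨_, h3⟩
    omega
  have e2 : dn M κ L r v = 1 := by
    rw [dn, if_neg]
    rintro ⟨_, h3⟩
    omega
  have e3 : ∀ l ∈ wd v R, l.1 ∈ Vo r ∧ uo M κ L r l ^ k = 1 ∧ uo M κ L r (iv l) ^ k = 1 := by
    intro l hl
    simp only [wd, List.map_map, List.mem_map, Function.comp] at hl
    obtain ⟨a, _, rfl⟩ := hl
    refine ⟨hr, ?_, ?_⟩
    · rw [uo]
      split_ifs with h3 h4
      · show up M κ L r v ^ k = 1
        rw [e1, one_zpow]
      · exact absurd rfl h4
      · exact one_zpow k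
    · rw [uo]
      split_ifs with h3 h4
      · have : (false : Bool) = true := h4
        simp at this
      · show ((dn M κ L r v)⁻¹) ^ k = 1
        rw [e2, inv_one, one_zpow]
      · exact one_zpow k
  have hw : wd v R ≠ [] := by simpa [wd] using hR
  rcases h with h | h
  · exact Or.inl ((tw_un (M := M) (κ := κ) hL r k).keep_fac hw e3 h)
  · right
    rw [← map_inv]
    exact (tw_un (M := M) (κ := κ) hL r k).keep_fac hw e3 h

/-- a step down -/
theorem Q.down (hL : L.Nodup) {g : FG S} {v : Vx S} {R : List S} {r r' : S} (hr : v.1 ≠ r)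
    (hG : Good M κ v.2) (h2 : 2 ≤ v.2 s(r, v.1)) (hR : Fac [r, r'] R) (hr' : r' ≠ r)
    (h : Q g v R) (k : ℤ) :
    Q (((un M κ hL r ^ k : (Monoid.End (FG S))ˣ) : Monoid.End (FG S)) g)
      (nb v r (v.2 s(r, v.1) - 1)) (rp k.natAbs (v.1 :: rest L v.1)) := by
  have e1 : uo M κ L r (iv ((v, r), true)) = (dn M κ L r v)⁻¹ := by
    rw [uo, if_pos ⟨rfl, hr⟩, if_neg (by simp [iv])]
  have e2 : uo M κ L r ((v, r'), true) = 1 := by
    rw [uo, if_neg]
    rintro ⟨h3, _⟩
    exact hr' h3
  have e3 : dn M κ L r v = FreeGroup.mk (wd (nb v r (v.2 s(r, v.1) - 1)) (v.1 :: rest L v.1)) := by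
    rw [dn, if_pos ⟨hG, h2⟩, mk_wd]
    rfl
  have key : ∀ g' : FG S, Fac (wd v R) g'.toWord →
      Q (((un M κ hL r ^ k : (Monoid.End (FG S))ˣ) : Monoid.End (FG S)) g')
        (nb v r (v.2 s(r, v.1) - 1)) (rp k.natAbs (v.1 :: rest L v.1)) := by
    intro g' hg'
    apply Q.of_pow
    have h3 : Fac [((v, r), true), ((v, r'), true)] g'.toWord :=
      ((hR.map (fun a => (v, a))).map (fun z => (z, true))).trans hg'
    have h4 := (tw_un (M := M) (κ := κ) hL r k).seg (x := ((v, r), true)) (m := ((v, r'), true))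
      hr hr h3
    refine Fac.trans ?_ h4
    refine ⟨[((v, r), true)], [((v, r'), true)], ?_⟩
    rw [e1, e2, one_zpow, mul_one, inv_zpow, inv_inv, e3]
  rcases h with h | h
  · exact key g h
  · have := (key g⁻¹ h).inv
    rwa [map_inv, inv_inv] at this

/-- a step up -/
theorem Q.upw (hL : L.Nodup) {g : FG S} {v : Vx S} {R : List S} {r r' : S} (hr : v.1 ≠ r)
    (hG : Good M κ v.2) (h2 : v.2 s(r, v.1) + 1 ≤ len M κ r v.1) (hR : Fac [r', r] R)
    (hr' : r' ≠ r) (h : Q g v R) (k : ℤ) :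
    Q (((un M κ hL r ^ k : (Monoid.End (FG S))ˣ) : Monoid.End (FG S)) g)
      (nb v r (v.2 s(r, v.1) + 1)) (rp k.natAbs (rest L v.1 ++ [v.1])) := by
  have e1 : uo M κ L r ((v, r), true) = up M κ L r v := by
    rw [uo, if_pos ⟨rfl, hr⟩, if_pos rfl]
  have e2 : uo M κ L r (iv ((v, r'), true)) = 1 := by
    rw [uo, if_neg]
    rintro ⟨h3, _⟩
    exact hr' h3
  have e3 : up M κ L r v =
      (FreeGroup.mk (wd (nb v r (v.2 s(r, v.1) + 1)) (rest L v.1 ++ [v.1])))⁻¹ := by
    rw [up, if_pos ⟨hG, h2⟩, mk_wd, List.map_append, List.prod_append, List.map_singleton,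
      List.prod_singleton]
    rfl
  have key : ∀ g' : FG S, Fac (wd v R) g'.toWord →
      Q (((un M κ hL r ^ k : (Monoid.End (FG S))ˣ) : Monoid.End (FG S)) g')
        (nb v r (v.2 s(r, v.1) + 1)) (rp k.natAbs (rest L v.1 ++ [v.1])) := by
    intro g' hg'
    rw [← Int.natAbs_neg k]
    apply Q.of_pow
    have h3 : Fac [((v, r'), true), ((v, r), true)] g'.toWord :=
      ((hR.map (fun a => (v, a))).map (fun z => (z, true))).trans hg'
    have h4 := (tw_un (M := M) (κ := κ) hL r k).seg (x := ((v, r'), true)) (m := ((v, r), true))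
      hr hr h3
    refine Fac.trans ?_ h4
    refine ⟨[((v, r'), true)], [((v, r), true)], ?_⟩
    rw [e1, e2, one_zpow, inv_one, one_mul, e3, inv_zpow, ← zpow_neg]
  rcases h with h | h
  · exact key g h
  · have := (key g⁻¹ h).inv
    rwa [map_inv, inv_inv] at this

end

end Pool.Agent.L7h63.AP
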